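import Pool.Agent.H378R2.M1

set_option autoImplicit false

/-!
Characters of small conductor: a longer range of conductors than in `Pool.Agent.H378R2.small_conductor`,
and conductors which need not be squarefree.
-/

open MeasureTheory Filter Topology Set

namespace Pool.Agent.Q84.MB

open Pool.Agent.H378R2 Pool.Agent.H378R2.M1 DirichletCharacter

noncomputable section

/-- the power `(log X) ^ (1 / 200)` -/
def vv (X : ℝ) : ℝ := (Real.log X) ^ (1 / 200 : ℝ)

lemma vv_pow {X : ℝ} (hX : 0 ≤ Real.log X) : vv X ^ 200 = Real.log X := by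
  unfold vv
  rw [← Real.rpow_natCast, ← Real.rpow_mul hX]
  norm_num

lemma vv_tendsto : Tendsto vv atTop atTop :=
  (tendsto_rpow_atTop (by norm_num)).comp Real.tendsto_log_atTop

theorem small_cond (Z : ℕ) : ∃ X0 : ℝ, ∀ X : ℝ, X0 ≤ X →
    ∃ fs : ℕ, (fs = 0 ∨ Z < fs) ∧
      ∀ f : ℕ, 1 < f → (f : ℝ) ≤ Real.exp (vv X ^ 8) → f ≠ fs →
        ∀ χ : DirichletCharacter ℂ f, χ.IsPrimitive →
          ‖psiPhi χ X‖ ≤ X * Real.exp (-(vv X) ^ 9) := by
  obtain ⟨d, hd0, hd2, hnzr⟩ := nzr_exc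
  obtain ⟨l0, hl0⟩ := hnzr Z
  obtain ⟨C, hC1, hC⟩ := vM_sum_bound
  obtain ⟨a1, ha1⟩ := exp_dominates (48 * 2 ^ 18 / d) 180
  obtain ⟨a2, ha2⟩ := exp_dominates (48 * C) 400
  have hev : ∀ᶠ X : ℝ in atTop, max (max a1 a2) (max (max l0 4) (2 * 2 ^ 18 / d)) ≤ vv X :=
    vv_tendsto.eventually_ge_atTop _
  have hev2 : ∀ᶠ X : ℝ in atTop, (1 : ℝ) ≤ Real.log X := Real.tendsto_log_atTop.eventually_ge_atTop _
  obtain ⟨X0, hX0⟩ := eventually_atTop.1 ((hev.and hev2).and (eventually_ge_atTop 1))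
  refine ⟨X0, fun X hX => ?_⟩
  obtain ⟨⟨hvm, hL1⟩, hX1⟩ := hX0 X hX
  obtain ⟨v, hv⟩ : ∃ v : ℝ, v = vv X := ⟨_, rfl⟩
  rw [← hv] at hvm ⊢
  have hXpos : 0 < X := by linarith
  have hLpos : 0 < Real.log X := by linarith
  have hv200 : v ^ 200 = Real.log X := by rw [hv]; exact vv_pow hLpos.le
  have hva1 : a1 ≤ v := ((le_max_left _ _).trans (le_max_left _ _)).trans hvm
  have hva2 : a2 ≤ v := ((le_max_right _ _).trans (le_max_left _ _)).trans hvm
  have hvl : l0 ≤ v := (((le_max_left _ _).trans (le_max_left _ _)).trans (le_max_right _ _)).trans hvm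
  have hv4 : 4 ≤ v := (((le_max_right _ _).trans (le_max_left _ _)).trans (le_max_right _ _)).trans hvm
  have hvd : 2 * 2 ^ 18 / d ≤ v := ((le_max_right _ _).trans (le_max_right _ _)).trans hvm
  have hdom1 := ha1 v hva1
  have hdom2 := ha2 v hva2
  have hv0 : 0 < v := by linarith
  have hv1 : 1 ≤ v := by linarith
  -- the parameter `l`
  obtain ⟨l, hl⟩ : ∃ l : ℝ, l = 2 * v ^ 10 := ⟨_, rfl⟩
  have hv10 : v ≤ v ^ 10 := le_self_pow₀ hv1 (by norm_num)
  have hl_ge : v ≤ l := by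
    rw [hl]; linarith [pow_pos hv0 10]
  obtain ⟨fs, hfs, hmain⟩ := hl0 l (hvl.trans hl_ge)
  refine ⟨fs, hfs, ?_⟩
  intro f hf1 hfle hffs χ hχ
  have : NeZero f := ⟨by omega⟩
  have hχ1 : χ ≠ 1 := primitive_ne_one hf1 hχ
  have hf0 : (0 : ℝ) < f := by exact_mod_cast (by omega : 0 < f)
  have hlogf : Real.log f ≤ l := by
    have h1 : Real.log f ≤ v ^ 8 := by
      rw [Real.log_le_iff_le_exp hf0]; exact hfle
    have h2 : v ^ 8 ≤ v ^ 10 := pow_le_pow_right₀ hv1 (by norm_num)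
    rw [hl]; linarith [pow_pos hv0 10]
  have hlpow : l ^ 18 = 2 ^ 18 * v ^ 180 := by rw [hl]; ring
  have hlpos : 0 < l := by linarith
  obtain ⟨δ, hδ⟩ : ∃ δ : ℝ, δ = d / l ^ 18 := ⟨_, rfl⟩
  obtain ⟨M, hM⟩ : ∃ M : ℝ, M = l ^ 18 / d := ⟨_, rfl⟩
  obtain ⟨T, hT⟩ : ∃ T : ℝ, T = Real.exp (v ^ 10) := ⟨_, rfl⟩
  have hδ0 : 0 < δ := by rw [hδ]; positivity
  have hM0 : 0 ≤ M := by rw [hM]; positivity
  have hδM : δ * M = 1 := by
    rw [hδ, hM]; field_simp
  have hT3 : 3 ≤ T := by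
    rw [hT]
    have h1 := Real.add_one_le_exp (v ^ 10)
    linarith
  have hM48 : 48 * M ≤ Real.exp v := by
    refine le_trans (le_of_eq ?_) hdom1
    rw [hM, hlpow]
    ring
  have hC48 : 48 * C * v ^ 400 ≤ Real.exp v := hdom2
  -- `2 v ^ 9 ≤ δ log X`
  have hmain1 : 2 * v ^ 9 ≤ δ * Real.log X := by
    rw [← hv200, hδ, hlpow]
    have h1 : d / (2 ^ 18 * v ^ 180) * v ^ 200 = d / 2 ^ 18 * v ^ 20 := by
      field_simp
    rw [h1]
    have h2 : v ≤ v ^ 11 := le_self_pow₀ hv1 (by norm_num)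
    have h3 : 2 ≤ d / 2 ^ 18 * v ^ 11 := by
      rw [div_le_iff₀ hd0] at hvd
      rw [div_mul_eq_mul_div, le_div_iff₀ (by positivity)]
      nlinarith
    calc 2 * v ^ 9 ≤ (d / 2 ^ 18 * v ^ 11) * v ^ 9 := by gcongr
      _ = _ := by ring
  have hδ4 : δ ≤ 1 / 4 := by
    rw [hδ, div_le_iff₀ (by positivity)]
    have h2 : (2 : ℝ) ≤ l := by linarith
    have h3 : (2 : ℝ) ^ 18 ≤ l ^ 18 := by gcongr
    norm_num at h3
    linarith
  obtain ⟨c, hc⟩ : ∃ c : ℝ, c = 1 + 1 / Real.log X := ⟨_, rfl⟩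
  have hc1 : 1 < c := by
    rw [hc]
    have : 0 < 1 / Real.log X := by positivity
    linarith
  have hcδ : c ≤ 1 + δ := by
    rw [hc]
    have h0 : 1 ≤ v ^ 9 := one_le_pow₀ hv1
    have h1 : 1 ≤ δ * Real.log X := by linarith
    have h2 : 1 / Real.log X ≤ δ := by
      rw [div_le_iff₀ hLpos]; exact h1
    linarith
  have hXc : X ^ c ≤ 3 * X := by
    rw [hc, Real.rpow_add hXpos, Real.rpow_one]
    have h1 : X ^ (1 / Real.log X) = Real.exp 1 := by
      rw [Real.rpow_def_of_pos hXpos, mul_one_div_cancel hLpos.ne']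
    rw [h1]
    have := Real.exp_one_lt_d9
    nlinarith
  have hA : ∑' n : ℕ, ArithmeticFunction.vonMangoldt n * (n : ℝ) ^ (-c) ≤
      C * v ^ 400 := by
    refine (hC c hc1 ?_).trans (le_of_eq ?_)
    · rw [hc]
      have h2 : 1 / Real.log X ≤ 1 := by rw [div_le_one hLpos]; exact hL1
      linarith
    · have h1 : c - 1 = 1 / Real.log X := by rw [hc]; ring
      have h2 : v ^ 400 = (Real.log X) ^ 2 := by
        rw [← hv200]; ring
      rw [h1, h2]
      field_simp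
  have hcont := contour χ hχ1 hX1 hc1 hδ0 hδ4 hcδ hXc (by linarith : (1 : ℝ) ≤ T) hM0 hA (by
    intro s h1 h2
    rw [hδ] at h1
    rw [hM]
    refine hmain f hf1 hlogf hffs χ hχ s h1 ?_
    have h3 : 2 * |s.im| + 3 ≤ Real.exp l := by
      have h4 : Real.exp l = T * T := by
        rw [hT, hl, ← Real.exp_add]; congr 1; ring
      rw [h4]
      nlinarith
    rw [Real.log_le_iff_le_exp (by positivity)]
    exact h3)
  refine hcont.trans ?_
  -- the three terms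
  have hXδ : X ^ (1 - δ) = X * Real.exp (-(δ * Real.log X)) := by
    rw [sub_eq_add_neg, Real.rpow_add hXpos, Real.rpow_one, Real.rpow_def_of_pos hXpos]
    congr 2; ring
  have hv9 : v ≤ v ^ 9 := le_self_pow₀ hv1 (by norm_num)
  have hv910 : 2 * v ^ 9 ≤ v ^ 10 := by
    have h1 : v ^ 10 = v * v ^ 9 := by ring
    rw [h1]
    have : 0 < v ^ 9 := by positivity
    nlinarith
  have t1 : 48 * (X ^ (1 - δ) * M) ≤ X * Real.exp (-v ^ 9) := by
    rw [hXδ]
    calc 48 * (X * Real.exp (-(δ * Real.log X)) * M)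
        = X * ((48 * M) * Real.exp (-(δ * Real.log X))) := by ring
      _ ≤ X * (Real.exp v * Real.exp (-(v + v ^ 9))) := by
          gcongr
          linarith
      _ = _ := by rw [← Real.exp_add]; congr 2; ring
  have hTT : 1 / T ^ 2 = Real.exp (-(2 * v ^ 10)) := by
    rw [hT, ← Real.exp_nat_mul, Real.exp_neg, one_div]; norm_num
  have t2 : 48 * (X * M / T ^ 2) ≤ X * Real.exp (-v ^ 9) := by
    calc 48 * (X * M / T ^ 2) = X * ((48 * M) * (1 / T ^ 2)) := by ring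
      _ = X * ((48 * M) * Real.exp (-(2 * v ^ 10))) := by rw [hTT]
      _ ≤ X * (Real.exp v * Real.exp (-(v + v ^ 9))) := by
          gcongr
          linarith
      _ = _ := by rw [← Real.exp_add]; congr 2; ring
  have hT1 : 1 / T = Real.exp (-(v ^ 10)) := by
    rw [hT, Real.exp_neg, one_div]
  have t3 : 48 * (X * (C * v ^ 400) / T) ≤ X * Real.exp (-v ^ 9) := by
    calc 48 * (X * (C * v ^ 400) / T) = X * ((48 * C * v ^ 400) * (1 / T)) := by
          ring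
      _ = X * ((48 * C * v ^ 400) * Real.exp (-(v ^ 10))) := by rw [hT1]
      _ ≤ X * (Real.exp v * Real.exp (-(v + v ^ 9))) := by
          gcongr
          linarith
      _ = _ := by rw [← Real.exp_add]; congr 2; ring
  linarith

end

end Pool.Agent.Q84.MB
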