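import Pool.Agent.Q84.AR10

/-!
Classes of primes with prescribed quadratic symbols of the primes of a given set.
-/

set_option autoImplicit false

open Finset

namespace Pool.Agent.Q84.MB

open Pool.Agent.Q84.AR

/-- the class -/
theorem cls_signT (s : ℚˣ →* ℤˣ) (hs : sg s (-3) = -1) (T : Finset ℕ) (hT : ∀ q ∈ T, q.Prime ∧ 3 ≤ q) :
    ∃ c : ℕ, c.Coprime (8 * ∏ q ∈ T, q) ∧ (∀ q ∈ T, c % q ≠ 1) ∧
    ∀ p : ℕ, p ≡ c [MOD 8 * ∏ q ∈ T, q] → ∀ [Fact p.Prime], p % 2 = 1 ∧
      legendreSym p (-1) = sg s (-1) ∧ legendreSym p 2 = sg s 2 ∧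
      ∀ q ∈ T, legendreSym p q = sg s q := by
  classical
  obtain ⟨r, hr2, hr8, hra, hr⟩ := r8_ex (sg s (-1)) (sg s 2) (sg_pm s _ (by norm_num)) (sg_pm s _ (by norm_num))
  have hx : ∀ q : ℕ, ∃ x : ℕ, q.Prime → 3 ≤ q → ¬ q ∣ x ∧ x % q ≠ 1 ∧
      ∀ [Fact q.Prime], legendreSym q x = (-1) ^ (q / 2 * (r / 2)) * sg s q := by
    intro q
    by_cases hq : q.Prime ∧ 3 ≤ q
    · haveI : Fact q.Prime := ⟨hq.1⟩
      have hq0 : (q : ℤ) ≠ 0 := by exact_mod_cast hq.1.pos.ne'
      obtain ⟨x, h1, h2, h3⟩ := res_ex q hq.2 ((-1) ^ (q / 2 * (r / 2)) * sg s q) (by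
        rcases sg_pm s q hq0 with h | h <;> rcases neg_one_pow_eq_or ℤ (q / 2 * (r / 2)) with h' | h' <;>
          rw [h, h'] <;> norm_num) (by
        intro hq3
        subst hq3
        have h4 : sg s (-3) = sg s (-1) * sg s 3 := by
          rw [← sg_mul s (-1) 3 (by norm_num) (by norm_num)]
          norm_num
        norm_num
        rw [hra, ← h4, hs])
      exact ⟨x, fun _ _ => ⟨h1, h2, h3⟩⟩
    · exact ⟨0, fun h1 h2 => absurd ⟨h1, h2⟩ hq⟩
  choose x hx using hx
  have h2T : 2 ∉ T := fun h => by have := (hT 2 h).2; omega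
  obtain ⟨c, hc⟩ := Nat.chineseRemainderOfFinset (fun q => if q = 2 then r else x q)
    (fun q => if q = 2 then 8 else q) (insert 2 T) (by
      intro q hq
      by_cases h : q = 2
      · simp [h]
      · simp only [h, if_false]
        exact (hT q ((mem_insert.1 hq).resolve_left h)).1.pos.ne') (by
      intro q hq q' hq' hne
      have hp : q.Prime := by
        rcases mem_insert.1 hq with h | h
        · rw [h]; exact Nat.prime_two
        · exact (hT q h).1
      have hp' : q'.Prime := by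
        rcases mem_insert.1 hq' with h | h
        · rw [h]; exact Nat.prime_two
        · exact (hT q' h).1
      have hcop : Nat.Coprime q q' := (Nat.coprime_primes hp hp').2 hne
      have h8 : (8 : ℕ) = 2 ^ 3 := by norm_num
      unfold Function.onFun
      by_cases h : q = 2
      · by_cases h' : q' = 2
        · exact absurd (h.trans h'.symm) hne
        · simp only [h, h', if_true, if_false]
          rw [h8]
          rw [h] at hcop
          exact Nat.Coprime.pow_left 3 hcop
      · by_cases h' : q' = 2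
        · simp only [h, h', if_true, if_false]
          rw [h8]
          rw [h'] at hcop
          exact Nat.Coprime.pow_right 3 hcop
        · simp only [h, h', if_false]
          exact hcop)
  have hc2 : c ≡ r [MOD 8] := by
    have := hc 2 (mem_insert_self _ _)
    simpa using this
  have hcq : ∀ q ∈ T, c ≡ x q [MOD q] := by
    intro q hq
    have := hc q (mem_insert_of_mem hq)
    have h2 : q ≠ 2 := by rintro rfl; exact h2T hq
    simpa [h2] using this
  refine ⟨c, ?_, ?_, ?_⟩
  · apply Nat.Coprime.mul_right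
    · have h8 : (8 : ℕ) = 2 ^ 3 := by norm_num
      rw [h8]
      apply Nat.Coprime.pow_right
      rw [Nat.coprime_two_right]
      have h4 : c % 8 = r % 8 := hc2
      exact Nat.odd_iff.2 (by omega)
    · apply Nat.Coprime.prod_right
      intro q hq
      obtain ⟨hqp, hq3⟩ := hT q hq
      rw [Nat.coprime_comm, Nat.Prime.coprime_iff_not_dvd hqp]
      intro h1
      exact (hx q hqp hq3).1 (((hcq q hq).dvd_iff dvd_rfl).1 h1)
  · intro q hq
    obtain ⟨hqp, hq3⟩ := hT q hq
    have h4 : c % q = x q % q := hcq q hq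
    rw [h4]
    exact (hx q hqp hq3).2.1
  · intro p hp hF
    have hp8 : p ≡ c [MOD 8] := hp.of_dvd (Dvd.intro _ rfl)
    have hp8' : p % 8 = r := by
      have h1 : p % 8 = c % 8 := hp8
      have h2 : c % 8 = r % 8 := hc2
      omega
    have hpp := hF.out
    have hp2 : p ≠ 2 := by rintro rfl; omega
    obtain ⟨h4, h5⟩ := hr p hp8'
    refine ⟨by omega, ?_, ?_, ?_⟩
    · rw [legendreSym.at_neg_one hp2, h4]
    · rw [legendreSym.at_two hp2, h5]
    · intro q hqT
      obtain ⟨hq, hq3⟩ := hT q hqT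
      haveI : Fact q.Prime := ⟨hq⟩
      have hpq : p ≡ x q [MOD q] :=
        (hp.of_dvd ((dvd_prod_of_mem (fun q => q) hqT).mul_left 8)).trans (hcq q hqT)
      rw [legendreSym.quadratic_reciprocity' (p := q) (q := p) (by omega) hp2]
      have h6 : legendreSym q (p : ℤ) = legendreSym q (x q : ℤ) := by
        rw [legendreSym.mod q (p : ℤ), legendreSym.mod q (x q : ℤ)]
        congr 1
        exact_mod_cast hpq
      rw [h6, (hx q hq hq3).2.2]
      have h7 : (-1 : ℤ) ^ (q / 2 * (p / 2)) = (-1) ^ (q / 2 * (r / 2)) := by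
        rw [mul_comm, pow_mul, mul_comm, pow_mul]
        congr 1
        have h8 : (p / 2) % 2 = (r / 2) % 2 := by omega
        rw [← Nat.div_add_mod (p / 2) 2, ← Nat.div_add_mod (r / 2) 2, h8]
        simp [pow_add, pow_mul]
      rw [h7, ← mul_assoc, ← pow_add, ← two_mul, pow_mul]
      simp

theorem leg_natT (s : ℚˣ →* ℤˣ) (T : Finset ℕ) (p : ℕ) [Fact p.Prime] (h2 : legendreSym p 2 = sg s 2)
    (hq : ∀ q ∈ T, legendreSym p q = sg s q) :
    ∀ n : ℕ, n ≠ 0 → (∀ q : ℕ, q.Prime → q ∣ n → q = 2 ∨ q ∈ T) → legendreSym p (n : ℤ) = sg s (n : ℤ) := by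
  intro n
  induction n using Nat.recOnMul with
  | zero => intro h; exact absurd rfl h
  | one =>
    intro _ _
    rw [Nat.cast_one, sg_one, legendreSym.at_one]
  | prime q hqp =>
    intro _ h
    rcases h q hqp dvd_rfl with h3 | h3
    · subst h3
      exact_mod_cast h2
    · exact hq q h3
  | mul a b ha hb =>
    intro hab h
    have ha0 : a ≠ 0 := by rintro rfl; simp at hab
    have hb0 : b ≠ 0 := by rintro rfl; simp at hab
    rw [Nat.cast_mul, legendreSym.mul, sg_mul s _ _ (by exact_mod_cast ha0) (by exact_mod_cast hb0),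
      ha ha0 fun q h1 h3 => h q h1 (h3.mul_right b), hb hb0 fun q h1 h3 => h q h1 (h3.mul_left a)]

theorem leg_intT (s : ℚˣ →* ℤˣ) (T : Finset ℕ) (p : ℕ) [Fact p.Prime] (h1 : legendreSym p (-1) = sg s (-1))
    (h2 : legendreSym p 2 = sg s 2) (hq : ∀ q ∈ T, legendreSym p q = sg s q) (n : ℤ) (hn : n ≠ 0)
    (h : ∀ q : ℕ, q.Prime → q ∣ n.natAbs → q = 2 ∨ q ∈ T) : legendreSym p n = sg s n := by
  have h3 := leg_natT s T p h2 hq n.natAbs (Int.natAbs_ne_zero.2 hn) h
  rcases Int.natAbs_eq n with h4 | h4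
  · rw [h4]; exact h3
  · have h5 : n = (-1) * (n.natAbs : ℤ) := by rw [neg_one_mul]; exact h4
    have h6 : ((n.natAbs : ℕ) : ℤ) ≠ 0 := by exact_mod_cast Int.natAbs_ne_zero.2 hn
    rw [h5, legendreSym.mul, sg_mul s _ _ (by norm_num) (by simpa using hn), h1]
    congr 1

end Pool.Agent.Q84.MB
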