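import Pool.Agent.Q84.MB.B9
import Pool.Agent.Q84.MB.B10

/-!
Lower bound for the number of the primes in a class modulo a small divisor of the big modulus.
-/

set_option autoImplicit false

open Finset Filter Topology

namespace Pool.Agent.Q84.MB

open Pool.Agent.H378R2 Pool.Agent.H378R2.LSBV Pool.Agent.Y855

theorem exp_dom (a : ℝ) (ha : 0 < a) (C : ℝ) (k : ℕ) : ∀ᶠ L : ℝ in atTop, C * L ^ k ≤ Real.exp (a * L) := by
  have h1 := (isLittleO_pow_exp_pos_mul_atTop (k := k) ha).bound (show (0 : ℝ) < 1 / (|C| + 1) by positivity)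
  filter_upwards [h1, eventually_ge_atTop 0] with L h2 h3
  rw [Real.norm_of_nonneg (by positivity), Real.norm_of_nonneg (by positivity), div_mul_eq_mul_div, one_mul,
    le_div_iff₀ (by positivity)] at h2
  have h4 : C * L ^ k ≤ L ^ k * (|C| + 1) := by
    have h5 := le_abs_self C
    have h6 : 0 ≤ L ^ k := by positivity
    nlinarith
  linarith

/-- the product of the primes `≤ y` of the big modulus -/
noncomputable def W1 (W y : ℕ) : ℕ := ∏ q ∈ W.primeFactors.filter (fun q => q ≤ y), q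

theorem W1_le (W y : ℕ) : W1 W y ≤ 4 ^ y := by
  refine le_trans ?_ (primorial_le_four_pow y)
  unfold W1 primorial
  apply Nat.le_of_dvd (prod_pos fun p hp => (mem_filter.1 hp).2.pos)
  apply prod_dvd_prod_of_subset
  intro q hq
  rw [mem_filter] at hq ⊢
  rw [mem_range]
  exact ⟨by omega, Nat.prime_of_mem_primeFactors hq.1⟩

theorem W1_pos (W y : ℕ) : 1 ≤ W1 W y := by
  unfold W1
  exact prod_pos fun q hq => (Nat.prime_of_mem_primeFactors (mem_filter.1 hq).1).pos

/-- the ratio of the number of classes and Euler's function -/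
theorem ratio (W y Y : ℕ) (hW : Squarefree W) (h2 : 2 ∣ W) (hy : 2 ≤ y) (hWY : ∀ q ∈ W.primeFactors, q ≤ Y) :
    VP (OP Y) / ((4 * W1 W y : ℕ) : ℝ) ≤
      (∏ q ∈ W.primeFactors.filter (fun q => ¬ q ≤ y), ((q : ℝ) - 2)) * (1 / (Nat.totient (4 * W) : ℝ)) := by
  obtain ⟨U, hU⟩ : ∃ U, U = W.primeFactors.filter (fun q => ¬ q ≤ y) := ⟨_, rfl⟩
  have hUm : ∀ q ∈ U, q.Prime ∧ q ∣ W ∧ 3 ≤ q := by
    intro q hq
    rw [hU, mem_filter, Nat.mem_primeFactors] at hq
    exact ⟨hq.1.1, hq.1.2.1, by omega⟩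
  have hW0 : W ≠ 0 := hW.ne_zero
  have hWeq : 4 * W = (4 * W1 W y) * ∏ q ∈ U, q := by
    have h3 : W = W1 W y * ∏ q ∈ U, q := by
      unfold W1
      rw [hU, prod_filter_mul_prod_filter_not]
      exact (Nat.prod_primeFactors_of_squarefree hW).symm
    rw [mul_assoc, ← h3]
  have hcop : (4 * W1 W y).Coprime (∏ q ∈ U, q) := by
    apply Nat.Coprime.prod_right
    intro q hq
    obtain ⟨h3, h4, h5⟩ := hUm q hq
    apply Nat.Coprime.mul_left
    · have : (4 : ℕ) = 2 ^ 2 := by norm_num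
      rw [this]
      exact Nat.Coprime.pow_left 2 ((Nat.coprime_primes Nat.prime_two h3).2 (by omega))
    · unfold W1
      apply Nat.Coprime.prod_left
      intro r hr
      rw [mem_filter] at hr
      refine (Nat.coprime_primes (Nat.prime_of_mem_primeFactors hr.1) h3).2 ?_
      rintro rfl
      rw [hU, mem_filter] at hq
      exact hq.2 hr.2
  have htot : (Nat.totient (4 * W) : ℝ) = (Nat.totient (4 * W1 W y) : ℝ) * ∏ q ∈ U, ((q : ℝ) - 1) := by
    rw [hWeq, Nat.totient_mul hcop]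
    push_cast
    rw [totient_prod_primes U fun q hq => (hUm q hq).1]
  rw [← hU, htot]
  have hφ : (0 : ℝ) < Nat.totient (4 * W1 W y) := by
    have := W1_pos W y
    exact_mod_cast Nat.totient_pos.2 (by omega)
  have hφle : (Nat.totient (4 * W1 W y) : ℝ) ≤ ((4 * W1 W y : ℕ) : ℝ) := by exact_mod_cast Nat.totient_le _
  have hne : ∏ q ∈ U, ((q : ℝ) - 1) ≠ 0 := by
    rw [prod_ne_zero_iff]
    intro q hq
    have : (3 : ℝ) ≤ q := by exact_mod_cast (hUm q hq).2.2
    linarith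
  have hVU : VP U = (∏ q ∈ U, ((q : ℝ) - 2)) / ∏ q ∈ U, ((q : ℝ) - 1) := by
    unfold VP
    rw [← prod_div_distrib]
    apply prod_congr rfl
    intro q hq
    have : (3 : ℝ) ≤ q := by exact_mod_cast (hUm q hq).2.2
    have h5 : (q : ℝ) - 1 ≠ 0 := by linarith
    field_simp
    ring
  have e : (∏ q ∈ U, ((q : ℝ) - 2)) * (1 / ((Nat.totient (4 * W1 W y) : ℝ) * ∏ q ∈ U, ((q : ℝ) - 1))) =
      VP U / (Nat.totient (4 * W1 W y) : ℝ) := by
    rw [hVU]
    field_simp
  rw [e]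
  have hVO : VP (OP Y) ≤ VP U := by
    unfold VP
    apply prod_subset_le
    · intro q hq
      obtain ⟨h3, h4, h5⟩ := hUm q hq
      rw [mem_OP]
      exact ⟨h3, h5, hWY q (Nat.mem_primeFactors.2 ⟨h3, h4, hW0⟩)⟩
    · intro q hq
      have h3 : (3 : ℝ) ≤ q := by exact_mod_cast (mem_OP.1 hq).2.1
      have h4 : 1 / ((q : ℝ) - 1) ≤ 1 / 2 := one_div_le_one_div_of_le (by norm_num) (by linarith)
      linarith
    · intro q hq
      have h3 : (3 : ℝ) ≤ q := by exact_mod_cast (mem_OP.1 hq).2.1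
      have : 0 ≤ 1 / ((q : ℝ) - 1) := by
        apply div_nonneg zero_le_one; linarith
      linarith
  have hV0 : 0 ≤ VP U := (VP_pos U fun q hq => (hUm q hq).2.2).le
  exact div_le_div₀ hV0 hVO hφ hφle

/-- the number of the good primes in a class modulo `4 W₁` -/
theorem count_HH : ∃ B : ℕ, 1 ≤ B ∧ ∃ X0 : ℝ, ∀ X : ℝ, X0 ≤ X →
    ∃ (ps : ℕ) (S : Finset ℕ), GoodP 2 ps ∧ (∀ q ∈ S, q.Prime ∧ z2 X < q ∧ q ≤ yy X) ∧
      (S.card : ℝ) ≤ vv X ^ 195 ∧ 2 ∣ WW X S ps ∧ ∀ z : ℕ, 2 ≤ z → (z : ℝ) ^ B ≤ X ^ (1 / 100 : ℝ) →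
      Real.log X ≤ 200 * B * Real.log z → ∀ y : ℕ, 2 ≤ y →
      ∀ c : ℕ, c.Coprime (4 * W1 (WW X S ps) y) →
      (∀ q : ℕ, q.Prime → q ∣ WW X S ps → 3 ≤ q → q ≤ y → ¬ c ≡ 1 [MOD q]) →
      X / (((4 * W1 (WW X S ps) y : ℕ) : ℝ) * (Real.log X) ^ 5) ≤
        ((HH X (4 * W1 (WW X S ps) y) c z).card : ℝ) := by
  obtain ⟨B, hB, X1, h⟩ := class_main
  obtain ⟨cV, hcV, hVP⟩ := VP_lower
  refine ⟨B, hB, max (max X1 4) (Real.exp (max 3000 (1 / cV))), ?_⟩
  intro X hX
  have hXX1 : X1 ≤ X := ((le_max_left _ _).trans (le_max_left _ _)).trans hX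
  have hX4 : 4 ≤ X := ((le_max_right _ _).trans (le_max_left _ _)).trans hX
  have hXe : Real.exp (max 3000 (1 / cV)) ≤ X := (le_max_right _ _).trans hX
  have hL : max 3000 (1 / cV) ≤ Real.log X := (Real.le_log_iff_exp_le (by linarith)).2 hXe
  have hL3 : 3000 ≤ Real.log X := (le_max_left _ _).trans hL
  have hLc : 1 ≤ Real.log X * cV := by
    have := (le_max_right _ _).trans hL
    rwa [div_le_iff₀ hcV] at this
  obtain ⟨ps, S, h1, h2, h3, h4, h5⟩ := h X hXX1
  refine ⟨ps, S, ?_, h2, h3, h4, ?_⟩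
  · rcases h1 with h1 | h1
    · exact Or.inl h1
    · exact Or.inr ⟨h1.1, by omega⟩
  intro z hz hzB hzL y hy c hc hc1
  have h6 := h5 z hz hzB hzL
  obtain ⟨W, hW⟩ : ∃ W, W = WW X S ps := ⟨_, rfl⟩
  have hWsq : Squarefree W := by rw [hW]; exact LSBV.WW_squarefree X S ps
  rw [← hW] at h4 h6 hc hc1 ⊢
  have h7 := card_HH X (by linarith) ps W z y hWsq h4 (by
    rcases h1 with h1 | h1
    · exact Or.inl h1
    · exact Or.inr h1.1) hy _ (by positivity) h6 c hc hc1
  refine le_trans ?_ h7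
  have hWY : ∀ q ∈ W.primeFactors, q ≤ yy X := by
    intro q hq
    rw [hW] at hq
    exact (dvd_WW (Nat.prime_of_mem_primeFactors hq) (Nat.dvd_of_mem_primeFactors hq)).1
  have h8 := ratio W y (yy X) hWsq h4 hy hWY
  have hyy : 2 ≤ yy X := by
    unfold yy
    apply Nat.le_floor
    push_cast
    linarith
  have hyyr : (2 : ℝ) ≤ yy X := by exact_mod_cast hyy
  have hyyL : (yy X : ℝ) ≤ Real.log X := by
    have : (yy X : ℝ) ≤ Real.log X / 1000 := Nat.floor_le (by linarith)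
    linarith
  have h9 : 1 / (Real.log X) ^ 2 ≤ VP (OP (yy X)) := by
    refine le_trans ?_ (hVP (yy X) hyy)
    have hl0 : 0 < Real.log (yy X) := Real.log_pos (by linarith)
    have hl1 : Real.log (yy X) ≤ Real.log X := by
      apply Real.log_le_log (by linarith)
      have := Real.log_le_sub_one_of_pos (show 0 < X by linarith)
      linarith
    rw [div_le_div_iff₀ (by positivity) hl0]
    calc 1 * Real.log (yy X) ≤ Real.log X := by linarith
      _ = Real.log X * 1 := by ring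
      _ ≤ Real.log X * (Real.log X * cV) := mul_le_mul_of_nonneg_left hLc (by linarith)
      _ = _ := by ring
  have hW1p : (0 : ℝ) < ((4 * W1 W y : ℕ) : ℝ) := by
    have := W1_pos W y
    exact_mod_cast (by omega : 0 < 4 * W1 W y)
  calc X / (((4 * W1 W y : ℕ) : ℝ) * (Real.log X) ^ 5)
      = (1 / (Real.log X) ^ 2) / ((4 * W1 W y : ℕ) : ℝ) * (X / (Real.log X) ^ 3) := by
        rw [div_div, div_mul_div_comm, one_mul]
        congr 1
        ring
    _ ≤ VP (OP (yy X)) / ((4 * W1 W y : ℕ) : ℝ) * (X / (Real.log X) ^ 3) := by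
        apply mul_le_mul_of_nonneg_right _ (by positivity)
        exact div_le_div_of_nonneg_right h9 hW1p.le
    _ ≤ ((∏ q ∈ W.primeFactors.filter (fun q => ¬ q ≤ y), ((q : ℝ) - 2)) *
        (1 / (Nat.totient (4 * W) : ℝ))) * (X / (Real.log X) ^ 3) := by
        apply mul_le_mul_of_nonneg_right h8 (by positivity)
    _ = _ := by
        rw [mul_assoc, div_mul_div_comm, one_mul]

end Pool.Agent.Q84.MB
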