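import Pool.Agent.Q84.MB.B11
import Pool.Agent.Q84.AR9

/-!
Almost all small primes are simultaneously primitive roots.
-/

set_option autoImplicit false

open Finset Filter Topology

namespace Pool.Agent.Q84.MB

open Pool.Agent.H378R2 Pool.Agent.H378R2.LSBV Pool.Agent.Y855 Pool.Agent.Q84.AR

/-- the symbols modulo `p` of the integers with all prime factors `≤ t` and outside `S` are the values
of `s` -/
def SymT (s : ℚˣ →* ℤˣ) (S : Finset ℕ) (t : ℝ) (p : ℕ) : Prop :=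
  ∀ n : ℤ, n ≠ 0 → (∀ q : ℕ, q.Prime → q ∣ n.natAbs → (q : ℝ) ≤ t ∧ q ∉ S) → jacobiSym n p = sg s n

/-- the bound for the exceptional set -/
theorem exc_bound (κ : ℕ) (hκ3 : 3 ≤ κ) (x z H : ℕ) (F : ℝ) (hF1 : 1 ≤ F) (hFx : F ^ (8 * κ ^ 2) = x)
    (hz : z = ⌊F ^ (8 * κ)⌋₊) (hHF : (H : ℝ) ≤ F) (E : Finset ℕ)
    (hE1 : E.card ≤ (2 * H + 1) ^ (2 * (κ - 1)) * ((2 * Nat.sqrt z + 1) ^ (2 * (κ - 1)) *
      (2 * (2 * (κ - 1)) * Nat.sqrt z * H + 1))) :
    (E.card : ℝ) ≤ (9 ^ (2 * (κ - 1)) * (2 * (2 * (κ - 1) : ℕ) + 1)) * F ^ (8 * κ ^ 2 - 2 * κ - 1) := by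
  obtain ⟨K, hK⟩ : ∃ K : ℕ, K = 2 * (κ - 1) := ⟨_, rfl⟩
  obtain ⟨N, hN⟩ : ∃ N : ℕ, N = Nat.sqrt z := ⟨_, rfl⟩
  rw [← hK, ← hN] at hE1
  rw [← hK]
  have hF0 : 0 < F := by linarith
  have hzw : (z : ℝ) ≤ F ^ (8 * κ) := by rw [hz]; exact Nat.floor_le (by positivity)
  have hNF : (N : ℝ) ≤ F ^ (4 * κ) := by
    have h1 : (N : ℝ) ^ 2 ≤ z := by
      have := Nat.sqrt_le' z
      rw [hN]
      exact_mod_cast this
    have h2 : (F ^ (4 * κ)) ^ 2 = F ^ (8 * κ) := by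
      rw [← pow_mul]
      congr 1
      ring
    have h3 : (N : ℝ) ^ 2 ≤ (F ^ (4 * κ)) ^ 2 := by rw [h2]; linarith
    exact le_of_sq_le_sq h3 (by positivity)
  have h1 : (E.card : ℝ) ≤ (2 * (H : ℝ) + 1) ^ K * ((2 * (N : ℝ) + 1) ^ K * (2 * K * N * H + 1)) := by
    exact_mod_cast hE1
  refine h1.trans ?_
  have h4κ : 1 ≤ F ^ (4 * κ) := one_le_pow₀ hF1
  have h2 : (2 * (H : ℝ) + 1) ≤ 3 * F := by linarith
  have h3 : (2 * (N : ℝ) + 1) ≤ 3 * F ^ (4 * κ) := by linarith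
  have h4 : (2 * K * N * H + 1 : ℝ) ≤ (2 * K + 1) * (F ^ (4 * κ) * F) := by
    have h5 : (N : ℝ) * H ≤ F ^ (4 * κ) * F := mul_le_mul hNF hHF (by positivity) (by positivity)
    have h6 : 1 ≤ F ^ (4 * κ) * F := one_le_mul_of_one_le_of_one_le h4κ hF1
    have h7 : (0 : ℝ) ≤ 2 * K := by positivity
    nlinarith
  calc (2 * (H : ℝ) + 1) ^ K * ((2 * (N : ℝ) + 1) ^ K * (2 * K * N * H + 1))
      ≤ (3 * F) ^ K * ((3 * F ^ (4 * κ)) ^ K * ((2 * K + 1) * (F ^ (4 * κ) * F))) := by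
        gcongr
    _ = (9 ^ K * (2 * K + 1)) * (F ^ K * (F ^ (4 * κ * K) * (F ^ (4 * κ) * F))) := by
        rw [mul_pow, mul_pow, ← pow_mul F]
        have : (9 : ℝ) ^ K = 3 ^ K * 3 ^ K := by rw [← mul_pow]; norm_num
        rw [this]
        ring
    _ = (9 ^ K * (2 * K + 1)) * F ^ (8 * κ ^ 2 - 2 * κ - 1) := by
        congr 1
        rw [← pow_succ, ← pow_add, ← pow_add]
        congr 1
        obtain ⟨j, rfl⟩ : ∃ j, κ = j + 1 := ⟨κ - 1, by omega⟩
        have h8 : j + 1 - 1 = j := by omega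
        rw [hK, h8]
        have h9 : 8 * (j + 1) ^ 2 = (2 * j + (4 * (j + 1) * (2 * j) + (4 * (j + 1) + 1))) +
          (2 * (j + 1) + 1) := by ring
        omega

open Classical in
theorem mb_main : ∃ κ : ℕ, 3 ≤ κ ∧ ∀ ε : ℝ, 0 < ε → ∃ c : ℝ, 0 < c ∧ ∃ x₀ : ℕ, ∀ x : ℕ, x₀ ≤ x →
    ∃ S : Finset ℕ, (∀ q ∈ S, q.Prime) ∧ (S.card : ℝ) ≤ (Real.log x) ^ (49 / 50 : ℝ) ∧
      (∃ r : ℕ, ∀ q ∈ S, q ≠ r → (Real.log (Real.log x)) ^ 2 ≤ (q : ℝ)) ∧
      ∀ s : ℚˣ →* ℤˣ, sg s (-3) = -1 → ∀ H : ℕ, 1 ≤ H → (H : ℝ) ≤ Real.exp (Real.log x / (8 * κ ^ 2)) →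
        (x : ℝ) ^ (1 - ε) ≤
        (((Icc 1 x).filter (fun p => p.Prime ∧ SymT s S (c * Real.log x) p ∧
          GoodP (2 * (κ - 1)) H p)).card : ℝ) := by
  obtain ⟨B, hB, X1, hHH⟩ := count_HH
  obtain ⟨κ, hκ⟩ : ∃ κ : ℕ, κ = 100 * B + 1 := ⟨_, rfl⟩
  have hκ3 : 3 ≤ κ := by omega
  have hκr : (3 : ℝ) ≤ κ := by exact_mod_cast hκ3
  have hBr : (1 : ℝ) ≤ B := by exact_mod_cast hB
  have hκB : (κ : ℝ) = 100 * B + 1 := by rw [hκ]; push_cast; ring
  refine ⟨κ, hκ3, fun ε hε => ?_⟩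
  obtain ⟨η, hη⟩ : ∃ η : ℝ, η = min (ε / 2) (1 / (8 * κ ^ 2)) := ⟨_, rfl⟩
  have hη0 : 0 < η := by rw [hη]; exact lt_min (by positivity) (by positivity)
  have hηε : η ≤ ε / 2 := hη ▸ min_le_left _ _
  have hηκ : η ≤ 1 / (8 * κ ^ 2) := hη ▸ min_le_right _ _
  obtain ⟨c, hc⟩ : ∃ c : ℝ, c = min (η / 4) (1 / 2000) := ⟨_, rfl⟩
  have hc0 : 0 < c := by rw [hc]; exact lt_min (by positivity) (by norm_num)
  have hcη : c ≤ η / 4 := hc ▸ min_le_left _ _
  have hc2000 : c ≤ 1 / 2000 := hc ▸ min_le_right _ _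
  refine ⟨c, hc0, ?_⟩
  obtain ⟨C, hC⟩ : ∃ C : ℝ, C = 9 ^ (2 * (κ - 1)) * (2 * (2 * (κ - 1) : ℕ) + 1) := ⟨_, rfl⟩
  have hC0 : 0 ≤ C := by rw [hC]; positivity
  have hlog : Tendsto Real.log atTop atTop := Real.tendsto_log_atTop
  -- the conditions on `L = log x`
  have evL : ∀ᶠ L : ℝ in atTop, 6 * (C + 4) * L ^ 5 ≤ Real.exp (1 / (8 * κ ^ 2) * L) ∧
      6 * L ^ 5 ≤ Real.exp (ε / 2 * L) ∧ 4 * L ^ 0 ≤ Real.exp (η / 2 * L) ∧
      max (max (2 * (κ : ℝ)) (400 * (B : ℝ) + 4)) (max (2 / c + 1000) (Real.exp 8)) ≤ L ∧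
      1 + Real.log 3 ≤ L := by
    filter_upwards [exp_dom (1 / (8 * κ ^ 2)) (by positivity) (6 * (C + 4)) 5,
      exp_dom (ε / 2) (by positivity) 6 5, exp_dom (η / 2) (by positivity) 4 0,
      eventually_ge_atTop (max (max (2 * (κ : ℝ)) (400 * (B : ℝ) + 4)) (max (2 / c + 1000) (Real.exp 8))),
      eventually_ge_atTop (1 + Real.log 3)] with L h1 h2 h3 h4 h5
    exact ⟨h1, h2, h3, h4, h5⟩
  have evx : ∀ᶠ X : ℝ in atTop, X1 ≤ X ∧ 2 ≤ vv X ∧ 3 ≤ X := by
    filter_upwards [eventually_ge_atTop X1, vv_tendsto.eventually_ge_atTop 2, eventually_ge_atTop 3] with X h1 h2 h3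
    exact ⟨h1, h2, h3⟩
  have ev1 := (hlog.comp tendsto_natCast_atTop_atTop).eventually evL
  have ev2 : ∀ᶠ x : ℕ in atTop, X1 ≤ (x : ℝ) / 3 ∧ 2 ≤ vv ((x : ℝ) / 3) ∧ 3 ≤ (x : ℝ) / 3 := by
    have ht : Tendsto (fun x : ℕ => (x : ℝ) / 3) atTop atTop :=
      tendsto_natCast_atTop_atTop.atTop_div_const (by norm_num)
    exact ht.eventually evx
  obtain ⟨x₀, hx₀⟩ := eventually_atTop.1 (ev1.and ev2)
  refine ⟨x₀, fun x hx => ?_⟩
  obtain ⟨⟨e1, e2, e3, e4, e5⟩, e6, e7, e8⟩ := hx₀ x hx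
  simp only [Function.comp_apply] at e1 e2 e3 e4 e5
  obtain ⟨X, hX⟩ : ∃ X : ℝ, X = (x : ℝ) / 3 := ⟨_, rfl⟩
  rw [← hX] at e6 e7 e8
  obtain ⟨L, hL⟩ : ∃ L : ℝ, L = Real.log x := ⟨_, rfl⟩
  rw [← hL] at e1 e2 e3 e4 e5
  have hx9 : (9 : ℝ) ≤ x := by rw [hX] at e8; linarith
  have hx0 : (0 : ℝ) < x := by linarith
  have hX0 : 0 < X := by linarith
  have hXx : 3 * X = x := by rw [hX]; ring
  have hfl : ⌊3 * X⌋₊ = x := by rw [hXx]; exact Nat.floor_natCast x
  have hL2κ : 2 * (κ : ℝ) ≤ L := ((le_max_left _ _).trans (le_max_left _ _)).trans e4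
  have hL400 : 400 * (B : ℝ) + 4 ≤ L := ((le_max_right _ _).trans (le_max_left _ _)).trans e4
  have hLc : 2 / c + 1000 ≤ L := ((le_max_left _ _).trans (le_max_right _ _)).trans e4
  have hLe8 : Real.exp 8 ≤ L := ((le_max_right _ _).trans (le_max_right _ _)).trans e4
  have h2c : 0 < 2 / c := by positivity
  have hL1000 : 1000 ≤ L := by linarith
  have hL0 : 0 < L := by linarith
  have hl3a : 0 ≤ Real.log 3 := Real.log_nonneg (by norm_num)
  have hl3b : Real.log 3 ≤ 2 := by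
    have := Real.log_le_sub_one_of_pos (show (0 : ℝ) < 3 by norm_num)
    linarith
  have hlogX : Real.log X = L - Real.log 3 := by
    rw [hX, Real.log_div (by linarith) (by norm_num), hL]
  have hlogX0 : 0 < Real.log X := by rw [hlogX]; linarith
  have hlogXL : Real.log X ≤ L := by rw [hlogX]; linarith
  obtain ⟨ps, S, hps, hS, hSc, hW2, hmain⟩ := hHH X e6
  obtain ⟨W, hW⟩ : ∃ W, W = WW X S ps := ⟨_, rfl⟩
  -- the set of exceptions
  refine ⟨(insert ps S).filter Nat.Prime, fun q hq => (mem_filter.1 hq).2, ?_, ⟨ps, ?_⟩, ?_⟩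
  · have h1 : (((insert ps S).filter Nat.Prime).card : ℝ) ≤ vv X ^ 195 + 1 := by
      have : ((insert ps S).filter Nat.Prime).card ≤ S.card + 1 :=
        (card_filter_le _ _).trans (card_insert_le _ _)
      have h2 : (((insert ps S).filter Nat.Prime).card : ℝ) ≤ (S.card : ℝ) + 1 := by exact_mod_cast this
      linarith
    have h2 : vv X ^ 195 + 1 ≤ vv X ^ 196 := by
      have h3 : (1 : ℝ) ≤ vv X ^ 195 := one_le_pow₀ (by linarith)
      calc vv X ^ 195 + 1 ≤ vv X ^ 195 * 2 := by linarith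
        _ ≤ vv X ^ 195 * vv X := mul_le_mul_of_nonneg_left e7 (by positivity)
        _ = vv X ^ 196 := by rw [← pow_succ]
    have h4 : vv X ^ 196 = (Real.log X) ^ (49 / 50 : ℝ) := by
      unfold vv
      rw [← Real.rpow_natCast, ← Real.rpow_mul hlogX0.le]
      norm_num
    have h5 : (Real.log X) ^ (49 / 50 : ℝ) ≤ L ^ (49 / 50 : ℝ) :=
      Real.rpow_le_rpow hlogX0.le hlogXL (by norm_num)
    rw [← hL]
    linarith
  · intro q hq hqps
    rw [mem_filter, mem_insert] at hq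
    have hqS : q ∈ S := hq.1.resolve_left hqps
    have h1 := (hS q hqS).2.1
    have h2 : (Real.log (Real.log X)) ^ 3 ≤ (q : ℝ) := by
      have h3 := Nat.le_ceil ((Real.log (Real.log X)) ^ 3)
      have h4 : ((⌈(Real.log (Real.log X)) ^ 3⌉₊ : ℕ) : ℝ) ≤ q := by exact_mod_cast h1.le
      linarith
    refine le_trans ?_ h2
    rw [← hL]
    have h8 : 8 ≤ Real.log L := (Real.le_log_iff_exp_le hL0).2 hLe8
    have h9 : Real.log L / 2 ≤ Real.log (Real.log X) := by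
      have h10 : L / 2 ≤ Real.log X := by rw [hlogX]; linarith
      have h11 := Real.log_le_log (by linarith) h10
      rw [Real.log_div (by linarith) (by norm_num)] at h11
      have := Real.log_two_lt_d9
      linarith
    calc (Real.log L) ^ 2 ≤ (Real.log L / 2) ^ 3 := by
          have : (Real.log L / 2) ^ 3 = (Real.log L) ^ 2 * (Real.log L / 8) := by ring
          rw [this]
          apply le_mul_of_one_le_right (by positivity)
          linarith
      _ ≤ _ := pow_le_pow_left₀ (by linarith) h9 3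
  intro s hs H hH1 hH
  rw [← hL] at hH
  rw [← hW] at hW2 hmain
  have hWsq : Squarefree W := by rw [hW]; exact LSBV.WW_squarefree X S ps
  have hW0 : W ≠ 0 := hWsq.ne_zero
  -- the unit
  obtain ⟨F, hF⟩ : ∃ F : ℝ, F = Real.exp (L / (8 * κ ^ 2)) := ⟨_, rfl⟩
  have hF0 : 0 < F := by rw [hF]; exact Real.exp_pos _
  have hF1 : 1 ≤ F := by rw [hF]; exact Real.one_le_exp (by positivity)
  have hFx : F ^ (8 * κ ^ 2) = x := by
    rw [hF, ← Real.exp_nat_mul, ← Real.exp_log hx0, ← hL]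
    congr 1
    push_cast
    field_simp
  obtain ⟨w, hw⟩ : ∃ w : ℝ, w = F ^ (8 * κ) := ⟨_, rfl⟩
  have hw0 : 0 < w := by rw [hw]; positivity
  have hwκ : w ^ κ = x := by
    rw [hw, ← pow_mul, ← hFx]
    congr 1
    ring
  have hw1 : 1 ≤ w := by rw [hw]; exact one_le_pow₀ hF1
  have hwlog : Real.log w = L / κ := by
    have h1 : Real.log (w ^ κ) = L := by rw [hwκ, hL]
    rw [Real.log_pow] at h1
    field_simp
    linarith
  obtain ⟨z, hz⟩ : ∃ z : ℕ, z = ⌊w⌋₊ := ⟨_, rfl⟩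
  have hzw : (z : ℝ) ≤ w := by rw [hz]; exact Nat.floor_le (by linarith)
  have hwz : w < (z : ℝ) + 1 := by rw [hz]; exact Nat.lt_floor_add_one w
  have hw2 : 2 ≤ w := by
    rw [← Real.exp_log hw0, hwlog]
    have h1 : 1 ≤ L / κ := by
      rw [le_div_iff₀ (by linarith)]
      linarith
    have h2 := Real.add_one_le_exp (L / κ)
    linarith
  have hz2 : 2 ≤ z := by rw [hz]; exact Nat.le_floor (by push_cast; linarith)
  have hz2r : (2 : ℝ) ≤ z := by exact_mod_cast hz2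
  have hzB : (z : ℝ) ^ B ≤ X ^ (1 / 100 : ℝ) := by
    calc (z : ℝ) ^ B ≤ w ^ B := pow_le_pow_left₀ (by linarith) hzw B
      _ = Real.exp (B * (L / κ)) := by
          rw [← Real.exp_log hw0, hwlog, ← Real.exp_nat_mul]
      _ ≤ Real.exp (Real.log X * (1 / 100)) := by
          apply Real.exp_le_exp.2
          rw [hlogX, mul_div_assoc', div_le_iff₀ (by linarith), hκB]
          have h1 : (100 * (B : ℝ) + 1) * Real.log 3 ≤ L := by
            rw [← hκB]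
            nlinarith
          nlinarith
      _ = X ^ (1 / 100 : ℝ) := by rw [Real.rpow_def_of_pos hX0]
  have hzL : Real.log X ≤ 200 * B * Real.log z := by
    have h1 : w / 2 ≤ z := by linarith
    have h2 := Real.log_le_log (by positivity) h1
    rw [Real.log_div (by positivity) (by norm_num), hwlog] at h2
    have h3 : Real.log 2 ≤ 1 := by
      have := Real.log_two_lt_d9
      linarith
    have h4 : 200 * (B : ℝ) * (L / κ - 1) ≤ 200 * B * Real.log z := by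
      apply mul_le_mul_of_nonneg_left _ (by positivity)
      linarith
    have h5 : 3 / 2 * L ≤ 200 * (B : ℝ) * (L / κ) := by
      rw [mul_div_assoc', le_div_iff₀ (by linarith), hκB]
      nlinarith
    linarith
  -- the parameter `y`
  obtain ⟨y, hy⟩ : ∃ y : ℕ, y = ⌊c * L⌋₊ := ⟨_, rfl⟩
  have hcL2 : 2 ≤ c * L := by
    have h1 : c * (2 / c) = 2 := by field_simp
    have h2 : c * (2 / c) ≤ c * L := mul_le_mul_of_nonneg_left (by linarith) hc0.le
    linarith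
  have hy2 : 2 ≤ y := by rw [hy]; exact Nat.le_floor (by push_cast; exact hcL2)
  have hyc : (y : ℝ) ≤ c * L := by rw [hy]; exact Nat.floor_le (by positivity)
  have hyY : y ≤ yy X := by
    unfold yy
    apply Nat.le_floor
    have h1 : c * L ≤ L / 2000 := by
      have := mul_le_mul_of_nonneg_right hc2000 hL0.le
      linarith
    rw [hlogX]
    linarith
  have h4W : ((4 * W1 W y : ℕ) : ℝ) ≤ Real.exp (η * L) := by
    have h1 : ((W1 W y : ℕ) : ℝ) ≤ (4 : ℝ) ^ y := by exact_mod_cast W1_le W y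
    have h2 : (4 : ℝ) ^ y ≤ Real.exp (η / 2 * L) := by
      have e1 : (4 : ℝ) ^ y = Real.exp (y * Real.log 4) := by
        rw [mul_comm, Real.exp_mul, Real.exp_log (by norm_num), Real.rpow_natCast]
      rw [e1]
      apply Real.exp_le_exp.2
      have h4 : Real.log 4 ≤ 2 := by
        have : (4 : ℝ) = 2 ^ 2 := by norm_num
        rw [this, Real.log_pow]
        have := Real.log_two_lt_d9
        push_cast
        linarith
      calc (y : ℝ) * Real.log 4 ≤ (c * L) * 2 :=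
            mul_le_mul hyc h4 (Real.log_nonneg (by norm_num)) (by positivity)
        _ ≤ (η / 4 * L) * 2 := by gcongr
        _ = η / 2 * L := by ring
    rw [pow_zero, mul_one] at e3
    push_cast
    calc 4 * ((W1 W y : ℕ) : ℝ) ≤ Real.exp (η / 2 * L) * Real.exp (η / 2 * L) :=
          mul_le_mul e3 (h1.trans h2) (by positivity) (Real.exp_pos _).le
      _ = Real.exp (η * L) := by
          rw [← Real.exp_add]
          congr 1
          ring
  -- the class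
  obtain ⟨T, hT⟩ : ∃ T : Finset ℕ, T = (W.primeFactors.filter (fun q => q ≤ y)).erase 2 := ⟨_, rfl⟩
  have hTm : ∀ q : ℕ, q ∈ T ↔ q.Prime ∧ q ∣ W ∧ q ≤ y ∧ q ≠ 2 := by
    intro q
    rw [hT, mem_erase, mem_filter, Nat.mem_primeFactors]
    constructor
    · rintro ⟨h1, ⟨h2, h3, -⟩, h4⟩
      exact ⟨h2, h3, h4, h1⟩
    · rintro ⟨h1, h2, h3, h4⟩
      exact ⟨h4, ⟨h1, h2, hW0⟩, h3⟩
  have h8T : 4 * W1 W y = 8 * ∏ q ∈ T, q := by
    have h2m : 2 ∈ W.primeFactors.filter (fun q => q ≤ y) := by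
      rw [mem_filter, Nat.mem_primeFactors]
      exact ⟨⟨Nat.prime_two, hW2, hW0⟩, hy2⟩
    have h1 := mul_prod_erase _ (fun q : ℕ => q) h2m
    unfold W1
    rw [← h1, ← hT]
    ring
  obtain ⟨a, ha1, ha2, ha3⟩ := cls_signT s hs T (by
    intro q hq
    obtain ⟨h1, h2, h3, h4⟩ := (hTm q).1 hq
    exact ⟨h1, by have := h1.two_le; omega⟩)
  rw [← h8T] at ha1 ha3
  have hcnt := hmain z hz2 hzB hzL y hy2 a ha1 (by
    intro q hq hqW hq3 hqy hcon
    apply ha2 q ((hTm q).2 ⟨hq, hqW, hqy, by omega⟩)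
    have : a % q = 1 % q := hcon
    rw [this, Nat.mod_eq_of_lt (by omega)])
  -- the exceptional set
  obtain ⟨E, hE1, hE2⟩ := exc (2 * (κ - 1)) (Nat.sqrt z) H hH1
  have hHF : (H : ℝ) ≤ F := by rw [hF]; exact hH
  have hEc := exc_bound κ hκ3 x z H F hF1 hFx (by rw [hz, hw]) hHF E hE1
  rw [← hC] at hEc
  have hsub : HH X (4 * W1 W y) a z ⊆ ((Icc 1 x).filter (fun p => p.Prime ∧
      SymT s ((insert ps S).filter Nat.Prime) (c * Real.log x) p ∧
      GoodP (2 * (κ - 1)) H p)) ∪ (E ∪ range (H + 3)) := by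
    intro p hp
    unfold HH at hp
    rw [mem_filter, mem_Icc, hfl] at hp
    obtain ⟨⟨hp1, hpx⟩, hpp, hXp, hpa, hpq⟩ := hp
    rw [mem_union, mem_union, mem_filter, mem_Icc, mem_range]
    by_cases hpE : p ∈ E
    · exact Or.inr (Or.inl hpE)
    by_cases hpH : p < H + 3
    · exact Or.inr (Or.inr hpH)
    refine Or.inl ⟨⟨hp1, hpx⟩, hpp, ?_, ?_⟩
    · intro n hn0 hnq
      haveI : Fact p.Prime := ⟨hpp⟩
      obtain ⟨-, h5, h6, h7⟩ := ha3 p hpa
      rw [← jacobiSym.legendreSym.to_jacobiSym]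
      refine leg_intT s T p h5 h6 h7 n hn0 fun q hq hqn => ?_
      by_cases hq2 : q = 2
      · exact Or.inl hq2
      right
      obtain ⟨h8, h9⟩ := hnq q hq hqn
      rw [← hL] at h8
      have h10 : q ≤ y := by rw [hy]; exact Nat.le_floor h8
      rw [mem_filter, mem_insert] at h9
      push Not at h9
      have h11 : q ≠ ps ∧ q ∉ S := by
        constructor
        · intro h; exact h9 (Or.inl h) hq
        · intro h; exact h9 (Or.inr h) hq
      rw [hTm]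
      refine ⟨hq, ?_, h10, hq2⟩
      rw [hW]
      exact mem_dvd_WW hq (h10.trans hyY) h11.2 h11.1
    · refine goodP_of κ (by omega) z H p E hE2 hpp (by omega) (by omega) hpE ?_ ?_
      · have h1 : (p : ℝ) ≤ ((z : ℝ) + 1) ^ κ := by
          calc (p : ℝ) ≤ x := by exact_mod_cast hpx
            _ = w ^ κ := hwκ.symm
            _ ≤ _ := pow_le_pow_left₀ (by linarith) hwz.le κ
        exact_mod_cast h1
      · intro l hl hl3 hlp
        by_contra hcon
        exact hpq l (mem_Icc.2 ⟨hl3, not_lt.1 hcon⟩) hl hlp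
  have hcard := (card_le_card hsub).trans ((card_union_le _ _).trans
    (Nat.add_le_add_left (card_union_le _ _) _))
  rw [card_range] at hcard
  have hcard' : ((HH X (4 * W1 W y) a z).card : ℝ) ≤
      (((Icc 1 x).filter (fun p => p.Prime ∧
        SymT s ((insert ps S).filter Nat.Prime) (c * Real.log x) p ∧
        GoodP (2 * (κ - 1)) H p)).card : ℝ) + ((E.card : ℝ) + ((H : ℝ) + 3)) := by
    exact_mod_cast hcard
  -- comparison
  have hW1p : (0 : ℝ) < ((4 * W1 W y : ℕ) : ℝ) := by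
    have := W1_pos W y
    exact_mod_cast (by omega : 0 < 4 * W1 W y)
  have hlow : (x : ℝ) / (3 * Real.exp (η * L) * L ^ 5) ≤
      X / (((4 * W1 W y : ℕ) : ℝ) * (Real.log X) ^ 5) := by
    have hl5 : 0 < Real.log X ^ 5 := pow_pos hlogX0 5
    have e9 : X / (((4 * W1 W y : ℕ) : ℝ) * (Real.log X) ^ 5) =
        x / (3 * (((4 * W1 W y : ℕ) : ℝ) * (Real.log X) ^ 5)) := by
      rw [← hXx]
      field_simp
    rw [e9]
    apply div_le_div_of_nonneg_left hx0.le (by positivity)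
    rw [mul_assoc]
    apply mul_le_mul_of_nonneg_left _ (by norm_num)
    exact mul_le_mul h4W (pow_le_pow_left₀ hlogX0.le hlogXL 5) (pow_pos hlogX0 5).le (Real.exp_pos _).le
  have hlow1 : 2 * (x : ℝ) ^ (1 - ε) ≤ (x : ℝ) / (3 * Real.exp (η * L) * L ^ 5) := by
    have h1 : (x : ℝ) ^ (1 - ε) = Real.exp (L * (1 - ε)) := by rw [Real.rpow_def_of_pos hx0, ← hL]
    have h2 : (x : ℝ) = Real.exp L := by rw [hL, Real.exp_log hx0]
    have h3 : Real.exp (η * L) ≤ Real.exp (ε / 2 * L) :=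
      Real.exp_le_exp.2 (mul_le_mul_of_nonneg_right hηε hL0.le)
    rw [le_div_iff₀ (by positivity), h1]
    calc 2 * Real.exp (L * (1 - ε)) * (3 * Real.exp (η * L) * L ^ 5)
        = Real.exp (L * (1 - ε)) * Real.exp (η * L) * (6 * L ^ 5) := by ring
      _ ≤ Real.exp (L * (1 - ε)) * Real.exp (ε / 2 * L) * Real.exp (ε / 2 * L) := by gcongr
      _ = x := by
          rw [h2, ← Real.exp_add, ← Real.exp_add]
          congr 1
          ring
  have hlow2 : 2 * ((C + 4) * F ^ (8 * κ ^ 2 - 2 * κ - 1)) ≤ (x : ℝ) / (3 * Real.exp (η * L) * L ^ 5) := by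
    have h3 : Real.exp (η * L) ≤ F := by
      rw [hF]
      apply Real.exp_le_exp.2
      calc η * L ≤ 1 / (8 * κ ^ 2) * L := mul_le_mul_of_nonneg_right hηκ hL0.le
        _ = L / (8 * κ ^ 2) := by ring
    have h4 : 6 * (C + 4) * L ^ 5 ≤ F := by
      rw [hF]
      refine e1.trans (le_of_eq ?_)
      congr 1
      ring
    rw [le_div_iff₀ (by positivity)]
    calc 2 * ((C + 4) * F ^ (8 * κ ^ 2 - 2 * κ - 1)) * (3 * Real.exp (η * L) * L ^ 5)
        = F ^ (8 * κ ^ 2 - 2 * κ - 1) * Real.exp (η * L) * (6 * (C + 4) * L ^ 5) := by ring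
      _ ≤ F ^ (8 * κ ^ 2 - 2 * κ - 1) * F * F := by gcongr
      _ = F ^ (8 * κ ^ 2 - 2 * κ - 1 + 2) := by ring
      _ ≤ F ^ (8 * κ ^ 2) := by
          apply pow_le_pow_right₀ hF1
          have : 2 * κ + 1 ≤ 8 * κ ^ 2 := by nlinarith
          omega
      _ = x := hFx
  have hH3 : (H : ℝ) + 3 ≤ 4 * F ^ (8 * κ ^ 2 - 2 * κ - 1) := by
    have h1 : F ≤ F ^ (8 * κ ^ 2 - 2 * κ - 1) := by
      apply le_self_pow₀ hF1
      have : 2 * κ + 2 ≤ 8 * κ ^ 2 := by nlinarith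
      omega
    linarith
  linarith

end Pool.Agent.Q84.MB
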