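import Pool.Agent.Q84.MB.B12
import Pool.Agent.Q84.AR11

/-!
The final statement.
-/

set_option autoImplicit false

open Finset Filter Topology

namespace Pool.Agent.Q84.MB

open Pool.Agent.Q84.AR Pool.Agent.Y855

theorem gmono {K K' H H' p : ℕ} (h1 : 1 ≤ K) (h : K ≤ K') (hH : H' ≤ H) (hg : GoodP K H p) :
    GoodP K' H' p := by
  obtain ⟨S, hS, hg⟩ := Pool.Agent.Q84.AR.GoodP.le h1 h hg
  exact ⟨S, hS, fun n hn0 hn => hg n hn0 (hn.trans hH)⟩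

open Classical in
theorem final : ∃ (K : ℕ) (c : ℝ), 0 < c ∧
    (∀ ε : ℝ, 0 < ε → ∃ δ : ℝ, 0 < δ ∧ ∃ x₀ : ℕ, ∀ x : ℕ, x₀ ≤ x →
      (x : ℝ) ^ (1 - ε) ≤ (((Icc 1 x).filter (fun p => p.Prime ∧
        (((Icc 1 ⌊δ * Real.log x⌋₊).filter (fun q : ℕ => q.Prime ∧ orderOf (q : ZMod p) ≠ p - 1)).card : ℝ) ≤
          (Real.log x) ^ (99 / 100 : ℝ) ∧
        PrimesGood K ⌊(x : ℝ) ^ c⌋₊ p)).card : ℝ)) ∧
    (∀ ε : ℝ, 0 < ε → ∃ δ : ℝ, 0 < δ ∧ ∃ x₀ : ℕ, ∀ x : ℕ, x₀ ≤ x → ∃ S : Finset ℕ,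
      (∀ q ∈ S, q.Prime) ∧ (S.card : ℝ) ≤ (Real.log x) ^ (49 / 50 : ℝ) ∧
      (∃ r : ℕ, ∀ q ∈ S, q ≠ r → (Real.log (Real.log x)) ^ 2 ≤ (q : ℝ)) ∧
      ∀ s : ℚˣ →* ℤˣ, (∀ u : ℚˣ, (u : ℚ) = -3 → s u = -1) →
      (x : ℝ) ^ (1 - ε) ≤ (((Icc 1 x).filter (fun p => p.Prime ∧
        (∀ (n : ℤ) (u : ℚˣ), (∀ q : ℕ, q.Prime → q ∣ n.natAbs → (q : ℝ) ≤ δ * Real.log x ∧ q ∉ S) →
          (u : ℚ) = n → jacobiSym n p = ((s u : ℤˣ) : ℤ)) ∧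
        GoodP K ⌊(x : ℝ) ^ c⌋₊ p)).card : ℝ)) ∧
    (∀ B : ℕ, ∃ x₀ : ℕ, ∀ x : ℕ, x₀ ≤ x → ∀ s : ℚˣ →* ℤˣ, (∀ u : ℚˣ, (u : ℚ) = -3 → s u = -1) →
      ∀ y : ℕ, ((8 * primorial y : ℕ) : ℝ) ≤ (Real.log x) ^ B →
      (x : ℝ) / (Real.log x) ^ (B + 3) ≤ (((Icc 1 x).filter (fun p => p.Prime ∧
        (∀ (n : ℤ) (u : ℚˣ), n.natAbs ≤ y → (u : ℚ) = n → jacobiSym n p = ((s u : ℤˣ) : ℤ)) ∧
        GoodP K ⌊(x : ℝ) ^ c⌋₊ p)).card : ℝ)) := by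
  obtain ⟨κ₁, hκ₁, hm1⟩ := main4
  obtain ⟨κ₂, hκ₂, hm2⟩ := mb_main
  obtain ⟨κ, hκ⟩ : ∃ κ : ℕ, κ = κ₁ + κ₂ := ⟨_, rfl⟩
  obtain ⟨K, hK⟩ : ∃ K : ℕ, K = (2 * κ) ^ 2 := ⟨_, rfl⟩
  obtain ⟨c, hc⟩ : ∃ c : ℝ, c = 1 / (8 * (κ : ℝ) ^ 2) := ⟨_, rfl⟩
  have hκr : (0 : ℝ) < κ := by exact_mod_cast (by omega : 0 < κ)
  have hc0 : 0 < c := by rw [hc]; positivity
  have hHx : ∀ x : ℕ, 1 ≤ x → 1 ≤ ⌊(x : ℝ) ^ c⌋₊ ∧ ∀ κ' : ℕ, 1 ≤ κ' → κ' ≤ κ →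
      ((⌊(x : ℝ) ^ c⌋₊ : ℕ) : ℝ) ≤ Real.exp (Real.log x / (8 * κ' ^ 2)) := by
    intro x hx
    obtain ⟨h1, h2⟩ := floor_pow κ x hx
    rw [← hc] at h1 h2
    refine ⟨h1, fun κ' hκ'1 hκ' => h2.trans (Real.exp_le_exp.2 ?_)⟩
    apply div_le_div_of_nonneg_left (Real.log_nonneg (by exact_mod_cast hx))
    · have : (0 : ℝ) < κ' := by exact_mod_cast (by omega : 0 < κ')
      positivity
    · have : (κ' : ℝ) ≤ κ := by exact_mod_cast hκ'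
      gcongr
  have hK1 : 2 * (κ₁ - 1) ≤ K := by
    rw [hK, pow_two]
    have h1 : 2 * κ ≤ 2 * κ * (2 * κ) := Nat.le_mul_of_pos_left _ (by omega)
    omega
  have hK2 : 2 * (κ₂ - 1) ≤ K := by
    rw [hK, pow_two]
    have h1 : 2 * κ ≤ 2 * κ * (2 * κ) := Nat.le_mul_of_pos_left _ (by omega)
    omega
  have hP2 : ∀ ε : ℝ, 0 < ε → ∃ δ : ℝ, 0 < δ ∧ ∃ x₀ : ℕ, ∀ x : ℕ, x₀ ≤ x → ∃ S : Finset ℕ,
      (∀ q ∈ S, q.Prime) ∧ (S.card : ℝ) ≤ (Real.log x) ^ (49 / 50 : ℝ) ∧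
      (∃ r : ℕ, ∀ q ∈ S, q ≠ r → (Real.log (Real.log x)) ^ 2 ≤ (q : ℝ)) ∧
      ∀ s : ℚˣ →* ℤˣ, sg s (-3) = -1 →
      (x : ℝ) ^ (1 - ε) ≤ (((Icc 1 x).filter (fun p => p.Prime ∧ SymT s S (δ * Real.log x) p ∧
        GoodP (2 * κ) ⌊(x : ℝ) ^ c⌋₊ p)).card : ℝ) := by
    intro ε hε
    obtain ⟨δ, hδ, x₀, h⟩ := hm2 ε hε
    refine ⟨δ, hδ, max x₀ 1, fun x hx => ?_⟩
    obtain ⟨S, h1, h2, h3, h4⟩ := h x ((le_max_left _ _).trans hx)
    obtain ⟨h5, h6⟩ := hHx x ((le_max_right _ _).trans hx)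
    refine ⟨S, h1, h2, h3, fun s hs => (h4 s hs _ h5 (h6 κ₂ (by omega) (by omega))).trans ?_⟩
    have hsub : (Icc 1 x).filter (fun p => p.Prime ∧ SymT s S (δ * Real.log x) p ∧
          GoodP (2 * (κ₂ - 1)) ⌊(x : ℝ) ^ c⌋₊ p) ⊆
        (Icc 1 x).filter (fun p => p.Prime ∧ SymT s S (δ * Real.log x) p ∧
          GoodP (2 * κ) ⌊(x : ℝ) ^ c⌋₊ p) := by
      intro p hp
      rw [mem_filter] at hp ⊢
      exact ⟨hp.1, hp.2.1, hp.2.2.1, gmono (by omega) (by omega) le_rfl hp.2.2.2⟩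
    exact_mod_cast card_le_card hsub
  refine ⟨K, c, hc0, fun ε hε => ?_, fun ε hε => ?_, fun B => ?_⟩
  · obtain ⟨s, hs, hsq⟩ := hom_all
    obtain ⟨δ, hδ, x₀, h⟩ := hP2 ε hε
    have hlog : Tendsto Real.log atTop atTop := Real.tendsto_log_atTop
    have ev : ∀ᶠ L : ℝ in atTop, (K : ℝ) + L ^ (49 / 50 : ℝ) ≤ L ^ (99 / 100 : ℝ) ∧
        δ * L ^ 1 ≤ Real.exp (c / 2 * L) ∧ 2 * L ^ 0 ≤ Real.exp (c / 2 * L) ∧ 1 ≤ L := by
      have h1 : Tendsto (fun L : ℝ => L ^ (1 / 100 : ℝ)) atTop atTop := tendsto_rpow_atTop (by norm_num)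
      filter_upwards [h1.eventually_ge_atTop ((K : ℝ) + 1), exp_dom (c / 2) (by positivity) δ 1,
        exp_dom (c / 2) (by positivity) 2 0, eventually_ge_atTop (1 : ℝ)] with L h2 h3 h4 h5
      refine ⟨?_, h3, h4, h5⟩
      have h6 : L ^ (99 / 100 : ℝ) = L ^ (1 / 100 : ℝ) * L ^ (49 / 50 : ℝ) := by
        rw [← Real.rpow_add (by linarith)]
        norm_num
      have h7 : (1 : ℝ) ≤ L ^ (49 / 50 : ℝ) := Real.one_le_rpow h5 (by norm_num)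
      rw [h6]
      have h8 : (0 : ℝ) ≤ K := Nat.cast_nonneg K
      nlinarith
    obtain ⟨x₁, hx₁⟩ := eventually_atTop.1 ((hlog.comp tendsto_natCast_atTop_atTop).eventually ev)
    refine ⟨δ, hδ, max (max x₀ x₁) 1, fun x hx => ?_⟩
    have hxx₀ : x₀ ≤ x := ((le_max_left _ _).trans (le_max_left _ _)).trans hx
    have hxx₁ : x₁ ≤ x := ((le_max_right _ _).trans (le_max_left _ _)).trans hx
    have hx1 : 1 ≤ x := (le_max_right _ _).trans hx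
    obtain ⟨e1, e2, e3, e4⟩ := hx₁ x hxx₁
    simp only [Function.comp_apply] at e1 e2 e3 e4
    obtain ⟨S, h1, h2, h3, h4⟩ := h x hxx₀
    refine (h4 s hs).trans ?_
    have hx0 : (0 : ℝ) < x := by exact_mod_cast hx1
    have hδH : δ * Real.log x ≤ ((⌊(x : ℝ) ^ c⌋₊ : ℕ) : ℝ) := by
      have h5 : (x : ℝ) ^ c = Real.exp (c / 2 * Real.log x) * Real.exp (c / 2 * Real.log x) := by
        rw [Real.rpow_def_of_pos hx0, ← Real.exp_add]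
        congr 1
        ring
      have h6 := Nat.lt_floor_add_one ((x : ℝ) ^ c)
      rw [pow_one] at e2
      rw [pow_zero, mul_one] at e3
      have h7 : (1 : ℝ) ≤ Real.exp (c / 2 * Real.log x) := by linarith
      nlinarith
    have hsub : (Icc 1 x).filter (fun p => p.Prime ∧ SymT s S (δ * Real.log x) p ∧
          GoodP (2 * κ) ⌊(x : ℝ) ^ c⌋₊ p) ⊆
        (Icc 1 x).filter (fun p => p.Prime ∧
        (((Icc 1 ⌊δ * Real.log x⌋₊).filter (fun q : ℕ => q.Prime ∧ orderOf (q : ZMod p) ≠ p - 1)).card : ℝ) ≤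
          (Real.log x) ^ (99 / 100 : ℝ) ∧
        PrimesGood K ⌊(x : ℝ) ^ c⌋₊ p) := by
      intro p hp
      rw [mem_filter] at hp ⊢
      obtain ⟨h5, h6, h7, h8⟩ := hp
      have h9 : PrimesGood K ⌊(x : ℝ) ^ c⌋₊ p := by
        rw [hK]
        exact primesGood_of (by omega) h6 h8
      refine ⟨h5, h6, ?_, h9⟩
      obtain ⟨Q, hQ⟩ : ∃ Q : Finset ℕ, Q = ((Icc 1 ⌊δ * Real.log x⌋₊).filter
        (fun q : ℕ => q.Prime ∧ orderOf (q : ZMod p) ≠ p - 1)) \ S := ⟨_, rfl⟩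
      have hQc : Q.card ≤ K := by
        have h10 : (Q : Set ℕ).encard ≤ K := by
          refine le_trans (Set.encard_le_encard ?_) h9
          intro q hq
          rw [mem_coe, hQ, Finset.mem_sdiff, mem_filter, mem_Icc] at hq
          obtain ⟨⟨⟨hq1, hq2⟩, hq3, hq4⟩, hq5⟩ := hq
          have hq6 : (q : ℝ) ≤ δ * Real.log x :=
            le_trans (by exact_mod_cast hq2) (Nat.floor_le (by
              have : 0 ≤ Real.log x := by linarith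
              positivity))
          refine ⟨hq3, ?_, ?_, hq4⟩
          · exact_mod_cast hq6.trans hδH
          · rw [h7 (q : ℤ) (by exact_mod_cast hq3.pos.ne') (fun r hr hrq => ?_)]
            · exact hsq q hq3
            · rw [Int.natAbs_natCast] at hrq
              have := (Nat.prime_dvd_prime_iff_eq hr hq3).1 hrq
              rw [this]
              exact ⟨hq6, hq5⟩
        rw [Set.encard_coe_eq_coe_finsetCard] at h10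
        exact_mod_cast h10
      have h10 : ((Icc 1 ⌊δ * Real.log x⌋₊).filter
          (fun q : ℕ => q.Prime ∧ orderOf (q : ZMod p) ≠ p - 1)).card ≤ K + S.card := by
        refine (card_le_card (t := Q ∪ S) ?_).trans ((card_union_le _ _).trans (by omega))
        intro q hq
        rw [mem_union]
        by_cases hqS : q ∈ S
        · exact Or.inr hqS
        · left
          rw [hQ, Finset.mem_sdiff]
          exact ⟨hq, hqS⟩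
      have h11 : (((Icc 1 ⌊δ * Real.log x⌋₊).filter
          (fun q : ℕ => q.Prime ∧ orderOf (q : ZMod p) ≠ p - 1)).card : ℝ) ≤ (K : ℝ) + S.card := by
        exact_mod_cast h10
      linarith
    exact_mod_cast card_le_card hsub
  · obtain ⟨δ, hδ, x₀, h⟩ := hP2 ε hε
    refine ⟨δ, hδ, x₀, fun x hx => ?_⟩
    obtain ⟨S, h1, h2, h3, h4⟩ := h x hx
    refine ⟨S, h1, h2, h3, fun s hs => ?_⟩
    obtain ⟨u3, hu3⟩ := sg_ex (-3) (by norm_num)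
    have hs3 : sg s (-3) = -1 := by
      rw [sg_of _ (-3) u3 hu3, hs u3 (by rw [hu3]; norm_num)]
      rfl
    refine (h4 s hs3).trans ?_
    have hsub : (Icc 1 x).filter (fun p => p.Prime ∧ SymT s S (δ * Real.log x) p ∧
          GoodP (2 * κ) ⌊(x : ℝ) ^ c⌋₊ p) ⊆
        (Icc 1 x).filter (fun p => p.Prime ∧
        (∀ (n : ℤ) (u : ℚˣ), (∀ q : ℕ, q.Prime → q ∣ n.natAbs → (q : ℝ) ≤ δ * Real.log x ∧ q ∉ S) →
          (u : ℚ) = n → jacobiSym n p = ((s u : ℤˣ) : ℤ)) ∧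
        GoodP K ⌊(x : ℝ) ^ c⌋₊ p) := by
      intro p hp
      rw [mem_filter] at hp ⊢
      obtain ⟨h5, h6, h7, h8⟩ := hp
      refine ⟨h5, h6, fun n u hn hu => ?_, gmono (by omega) ?_ le_rfl h8⟩
      · have hn0 : n ≠ 0 := by
          intro h0
          apply u.ne_zero
          rw [hu, h0]
          norm_num
        rw [h7 n hn0 hn, sg_of _ n u hu]
      · rw [hK, pow_two]
        exact Nat.le_mul_of_pos_left _ (by omega)
    exact_mod_cast card_le_card hsub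
  · obtain ⟨x₀, h⟩ := hm1 B
    refine ⟨max x₀ 1, fun x hx s hs y hy => ?_⟩
    obtain ⟨hH1, hH⟩ := hHx x ((le_max_right _ _).trans hx)
    obtain ⟨u3, hu3⟩ := sg_ex (-3) (by norm_num)
    have hs3 : sg s (-3) = -1 := by
      rw [sg_of _ (-3) u3 hu3, hs u3 (by rw [hu3]; norm_num)]
      rfl
    refine (h x ((le_max_left _ _).trans hx) s hs3 y hy _ hH1 (hH κ₁ (by omega) (by omega))).trans ?_
    have hsub : (Icc 1 x).filter (fun p => p.Prime ∧ Sym s y p ∧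
          GoodP (2 * (κ₁ - 1)) ⌊(x : ℝ) ^ c⌋₊ p) ⊆
        (Icc 1 x).filter (fun p => p.Prime ∧
          (∀ (n : ℤ) (u : ℚˣ), n.natAbs ≤ y → (u : ℚ) = n → jacobiSym n p = ((s u : ℤˣ) : ℤ)) ∧
          GoodP K ⌊(x : ℝ) ^ c⌋₊ p) := by
      intro p hp
      rw [mem_filter] at hp ⊢
      obtain ⟨h1, h2, h3, h4⟩ := hp
      refine ⟨h1, h2, fun n u hn hu => ?_, gmono (by omega) hK1 le_rfl h4⟩
      have hn0 : n ≠ 0 := by
        intro h0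
        apply u.ne_zero
        rw [hu, h0]
        norm_num
      rw [h3 n hn0 hn, sg_of _ n u hu]
    exact_mod_cast card_le_card hsub

end Pool.Agent.Q84.MB
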