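import Pool.Agent.Q84.MB.B1
import Pool.Agent.H378R2.LSBV7

set_option autoImplicit false

/-!
The Bombieri-Vinogradov theorem relative to a big smooth modulus `4 W`: preparations.
-/

open Finset Filter Topology

namespace Pool.Agent.Q84.MB

open Pool.Agent.H378R2 Pool.Agent.H378R2.LSBV Pool.Agent.Helper112 Pool.Agent.H398R2.BV

theorem exists_ps8 (Z fs : ℕ) (hZ : 2 ≤ Z) (h : fs = 0 ∨ 4 * primorial Z < fs) :
    ∃ ps, GoodP Z ps ∧ ∀ d e, 1 < e * d → Squarefree d → e ∣ 4 → d.Coprime ps → e * d ≠ fs := by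
  by_cases hc : ∃ d e, Squarefree d ∧ e ∣ 4 ∧ e * d = fs ∧ 1 < fs
  · obtain ⟨d, e, hsq, he, hed, h1⟩ := hc
    have h2 : 4 * primorial Z < fs := by
      rcases h with h | h
      · omega
      · exact h
    have he4 : e ≤ 4 := Nat.le_of_dvd (by norm_num) he
    have hd : primorial Z < d := by
      by_contra hcon
      push Not at hcon
      have : e * d ≤ 4 * primorial Z := Nat.mul_le_mul he4 hcon
      omega
    have h3 : ∃ p, p.Prime ∧ p ∣ d ∧ Z < p := by
      by_contra hcon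
      push Not at hcon
      have h4 : d ∣ primorial Z := by
        rw [← Nat.prod_primeFactors_of_squarefree hsq]
        unfold primorial
        apply prod_dvd_prod_of_subset
        intro p hp
        rw [mem_filter, mem_range]
        have hp' := Nat.prime_of_mem_primeFactors hp
        have := hcon p hp' (Nat.dvd_of_mem_primeFactors hp)
        exact ⟨by omega, hp'⟩
      have := Nat.le_of_dvd (primorial_pos Z) h4
      omega
    obtain ⟨p, hp, hpf, hpZ⟩ := h3
    refine ⟨p, Or.inr ⟨hp, hpZ⟩, fun d' e' _ _ he' hcop hf => ?_⟩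
    have h5 : p ∣ e' * d' := by
      rw [hf, ← hed]
      exact Dvd.dvd.mul_left hpf e
    rcases (Nat.Prime.dvd_mul hp).1 h5 with h6 | h6
    · have h7 : p ∣ 2 ^ 2 := h6.trans he'
      have h8 := (Nat.prime_dvd_prime_iff_eq hp Nat.prime_two).1 (hp.dvd_of_dvd_pow h7)
      omega
    · have h9 := hcop.symm
      rw [Nat.Prime.coprime_iff_not_dvd hp] at h9
      exact h9 h6
  · refine ⟨1, Or.inl rfl, fun d e h1 h2 h3 _ hf => hc ⟨d, e, h2, h3, hf, ?_⟩⟩
    omega

/-- the sum over the primitive characters of conductor `f`, `2 f`, `4 f` -/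
noncomputable def T8 (X : ℝ) (f : ℕ) : ℝ := ∑ e ∈ ({1, 2, 4} : Finset ℕ), TT X (e * f)

theorem T8_nonneg (X : ℝ) (f : ℕ) : 0 ≤ T8 X f := sum_nonneg fun _ _ => TT_nonneg X _

theorem sum_T8 (X : ℝ) (F F' : ℕ) (hF : 4 * F' ≤ F) :
    ∑ f ∈ Icc 2 F', T8 X f ≤ 3 * ∑ f ∈ Icc 2 F, TT X f := by
  unfold T8
  rw [sum_comm]
  have h1 : ∀ e ∈ ({1, 2, 4} : Finset ℕ), ∑ f ∈ Icc 2 F', TT X (e * f) ≤ ∑ f ∈ Icc 2 F, TT X f := by
    intro e he
    have he1 : 1 ≤ e ∧ e ≤ 4 := by
      simp only [mem_insert, mem_singleton] at he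
      omega
    rw [← sum_image (f := TT X) (g := fun f => e * f) (s := Icc 2 F')]
    · apply sum_le_sum_of_subset_of_nonneg
      · intro f hf
        rw [mem_image] at hf
        obtain ⟨g, hg, rfl⟩ := hf
        rw [mem_Icc] at hg ⊢
        refine ⟨?_, ?_⟩
        · nlinarith
        · calc e * g ≤ 4 * F' := Nat.mul_le_mul he1.2 hg.2
            _ ≤ F := hF
      · intro f _ _
        exact TT_nonneg X f
    · intro a _ b _ hab
      exact Nat.eq_of_mul_eq_mul_left (by omega) hab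
  refine (sum_le_sum h1).trans (le_of_eq ?_)
  rw [sum_const, nsmul_eq_mul]
  norm_num

theorem sum_div4 (X : ℝ) (V : ℕ) (hV : 1 ≤ V) :
    ∑ g ∈ (4 * V).divisors.filter (fun g => g ≠ 1), TT X g ≤
      ∑ f ∈ V.divisors.filter (fun f => f ≠ 1), T8 X f + (TT X 2 + TT X 4) := by
  classical
  obtain ⟨φ, hφ⟩ : ∃ φ : ℕ → ℕ × ℕ, ∀ g, φ g = (Nat.gcd g V, g / Nat.gcd g V) := ⟨fun g => _, fun g => rfl⟩
  have hmul : ∀ g, (φ g).2 * (φ g).1 = g := by
    intro g
    rw [hφ]
    exact Nat.div_mul_cancel (Nat.gcd_dvd_left g V)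
  have hinj : Function.Injective φ := by
    intro g g' h
    rw [← hmul g, ← hmul g', h]
  have h1 : ∑ g ∈ (4 * V).divisors.filter (fun g => g ≠ 1), TT X g =
      ∑ p ∈ ((4 * V).divisors.filter (fun g => g ≠ 1)).image φ, TT X (p.2 * p.1) := by
    rw [sum_image (fun a _ b _ hab => hinj hab)]
    exact sum_congr rfl fun g _ => by rw [hmul]
  rw [h1]
  have h2 : ((4 * V).divisors.filter (fun g => g ≠ 1)).image φ ⊆
      (V.divisors ×ˢ ({1, 2, 4} : Finset ℕ)).filter (fun p => p.2 * p.1 ≠ 1) := by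
    intro p hp
    rw [mem_image] at hp
    obtain ⟨g, hg, rfl⟩ := hp
    rw [mem_filter, Nat.mem_divisors] at hg
    obtain ⟨⟨hg1, hg2⟩, hg3⟩ := hg
    rw [mem_filter, mem_product, Nat.mem_divisors, hmul g]
    have h3 : (φ g).1 = Nat.gcd g V := by rw [hφ]
    have h4 : (φ g).2 = g / Nat.gcd g V := by rw [hφ]
    have hgpos : 0 < g := Nat.pos_of_dvd_of_pos hg1 (by omega)
    have hd0 : 0 < Nat.gcd g V := Nat.gcd_pos_of_pos_left _ hgpos
    refine ⟨⟨⟨by rw [h3]; exact Nat.gcd_dvd_right g V, by omega⟩, ?_⟩, hg3⟩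
    rw [h4]
    have h5 : (g / Nat.gcd g V).Coprime (V / Nat.gcd g V) := Nat.coprime_div_gcd_div_gcd hd0
    have h6 : g / Nat.gcd g V ∣ 4 * (V / Nat.gcd g V) := by
      rw [← Nat.mul_div_assoc 4 (Nat.gcd_dvd_right g V)]
      exact Nat.div_dvd_div (Nat.gcd_dvd_left g V) hg1
    have h7 : g / Nat.gcd g V ∣ 4 := h5.dvd_of_dvd_mul_right h6
    have h8 : g / Nat.gcd g V ∈ Nat.divisors 4 := Nat.mem_divisors.2 ⟨h7, by norm_num⟩
    have h9 : Nat.divisors 4 = ({1, 2, 4} : Finset ℕ) := by decide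
    rwa [h9] at h8
  refine (sum_le_sum_of_subset_of_nonneg h2 fun p _ _ => TT_nonneg X _).trans ?_
  rw [sum_filter, sum_product]
  have h10 : ∀ f ∈ V.divisors, (∑ e ∈ ({1, 2, 4} : Finset ℕ), if e * f ≠ 1 then TT X (e * f) else 0) ≤
      (if f ≠ 1 then T8 X f else 0) + (if f = 1 then TT X 2 + TT X 4 else 0) := by
    intro f _
    by_cases hf : f = 1
    · subst hf
      simp
    · rw [if_pos hf, if_neg hf, add_zero]
      unfold T8
      apply sum_le_sum
      intro e _
      split_ifs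
      · exact le_rfl
      · exact TT_nonneg X _
  refine (sum_le_sum h10).trans ?_
  rw [sum_add_distrib, ← sum_filter, ← sum_filter]
  apply add_le_add le_rfl
  have h11 : V.divisors.filter (fun f => f = 1) ⊆ {1} := by
    intro f hf
    rw [mem_filter] at hf
    rw [mem_singleton]
    exact hf.2
  refine (sum_le_sum_of_subset_of_nonneg h11 fun _ _ _ => add_nonneg (TT_nonneg X _) (TT_nonneg X _)).trans ?_
  rw [sum_singleton]

theorem sum_ww_card (P : Finset ℕ) (κ : ℝ) :
    ∑ S ∈ P.powerset, ww P κ S * (S.card : ℝ) = κ * P.card := by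
  have h1 : ∀ S ∈ P.powerset, ww P κ S * (S.card : ℝ) =
      ∑ q ∈ P, (ww P κ S * (1 - (if Disjoint S {q} then 1 else 0))) := by
    intro S hS
    rw [mem_powerset] at hS
    rw [card_eq_sum_ones]
    push_cast
    rw [mul_sum, ← sum_subset hS]
    · apply sum_congr rfl
      intro q hq
      rw [if_neg (by simpa using hq)]
      ring
    · intro q _ hq
      rw [if_pos (by simpa using hq)]
      ring
  rw [sum_congr rfl h1, sum_comm]
  have h5 : ∀ q ∈ P, ∑ S ∈ P.powerset, ww P κ S * (1 - (if Disjoint S {q} then (1:ℝ) else 0)) = κ := by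
    intro q hq
    have h3 := sum_ww_disjoint P {q} κ
    have h4 : (P ∩ {q}).card = 1 := by
      rw [inter_singleton_of_mem hq, card_singleton]
    rw [h4, pow_one] at h3
    simp_rw [mul_sub]
    rw [sum_sub_distrib, h3]
    simp only [mul_one]
    rw [sum_ww]
    ring
  rw [sum_congr rfl h5, sum_const, nsmul_eq_mul]
  ring

theorem sum_pairsA8 (X : ℝ) (hX : 0 ≤ X) (ps R D Ω Z : ℕ) (hps : GoodP Z ps)
    (P S : Finset ℕ) (u w : ℝ)
    (hsize : ∀ p ∈ pairs X ps R S, p.2 ≤ D → (P ∩ p.1.primeFactors).card < Ω →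
      4 * ((p.1 * p.2 : ℕ) : ℝ) ≤ Real.exp u)
    (hsc : ∀ d e : ℕ, Squarefree d → e ∣ 4 → 1 < e * d → ((e * d : ℕ) : ℝ) ≤ Real.exp u → d.Coprime ps →
        ∀ χ : DirichletCharacter ℂ (e * d), χ.IsPrimitive →
          ‖psiPhi χ X‖ ≤ X * Real.exp (-w)) :
    ∑ p ∈ (pairs X ps R S).filter (fun p => p.2 ≤ D ∧ (P ∩ p.1.primeFactors).card < Ω),
      T8 X (p.1 * p.2) ≤ 3 * (X * Real.exp (2 * u - w)) := by
  classical
  obtain ⟨G, hG⟩ : ∃ G : Finset ℕ, G = (Icc 2 ⌊Real.exp u⌋₊).filter (fun f : ℕ => Squarefree f ∧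
    f.Coprime ps ∧ 4 * (f : ℝ) ≤ Real.exp u) := ⟨_, rfl⟩
  have h1 : ∑ p ∈ (pairs X ps R S).filter (fun p => p.2 ≤ D ∧ (P ∩ p.1.primeFactors).card < Ω),
      T8 X (p.1 * p.2) ≤ ∑ f ∈ G, T8 X f := by
    apply pair_inj (T8 X) (T8_nonneg X) (WW X S ps) ps R G
    · intro p hp
      rw [mem_filter] at hp
      unfold pairs at hp
      rw [mem_filter] at hp
      exact hp.1.1
    · intro p hp
      rw [mem_filter] at hp
      have hs := hsize p hp.1 hp.2.1 hp.2.2
      unfold pairs at hp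
      rw [mem_filter, mem_product, Nat.mem_divisors, mem_QQ] at hp
      obtain ⟨⟨⟨⟨ha, _⟩, ⟨hb1, hb2⟩, hb3, hb4⟩, h5⟩, _⟩ := hp
      have ha0 : 0 < p.1 := Nat.pos_of_dvd_of_pos ha (WW_pos X S ps)
      have h6 : 0 < p.1 * p.2 := by positivity
      have h6' : (0 : ℝ) < ((p.1 * p.2 : ℕ) : ℝ) := by exact_mod_cast h6
      rw [hG, mem_filter, mem_Icc]
      refine ⟨⟨by omega, Nat.le_floor (by linarith)⟩, ?_, ?_, hs⟩
      · have hc : p.1.Coprime p.2 := by
          have : p.2.Coprime (WW X S ps) := Nat.Coprime.coprime_mul_right_right hb4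
          exact (this.coprime_dvd_right ha).symm
        rw [Nat.squarefree_mul hc]
        exact ⟨(WW_squarefree X S ps).squarefree_of_dvd ha, hb3⟩
      · apply Nat.Coprime.mul_left
        · exact (WW_coprime_ps X S ps Z hps).coprime_dvd_left ha
        · exact Nat.Coprime.coprime_mul_left_right hb4
  refine h1.trans ?_
  have h2 : ∀ f ∈ G, T8 X f ≤ 3 * (Real.exp u * (X * Real.exp (-w))) := by
    intro f hf
    rw [hG, mem_filter, mem_Icc] at hf
    obtain ⟨⟨hf1, hf2⟩, hf3, hf4, hf5⟩ := hf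
    unfold T8
    have h3 : ∀ e ∈ ({1, 2, 4} : Finset ℕ), TT X (e * f) ≤ Real.exp u * (X * Real.exp (-w)) := by
      intro e he
      have he1 : 1 ≤ e ∧ e ≤ 4 ∧ e ∣ 4 := by
        simp only [mem_insert, mem_singleton] at he
        rcases he with rfl | rfl | rfl <;> norm_num
      have hle : ((e * f : ℕ) : ℝ) ≤ Real.exp u := by
        push_cast
        have h4 : (e : ℝ) ≤ 4 := by exact_mod_cast he1.2.1
        have h5 : (0 : ℝ) ≤ f := Nat.cast_nonneg f
        nlinarith
      have hef : 1 < e * f := by nlinarith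
      refine (TT_le X (e * f) (by omega) (X * Real.exp (-w)) (by positivity)
        (hsc f e hf3 he1.2.2 hef hle hf4)).trans ?_
      exact mul_le_mul_of_nonneg_right hle (by positivity)
    refine (sum_le_sum h3).trans (le_of_eq ?_)
    rw [sum_const, nsmul_eq_mul]
    norm_num
  refine (sum_le_sum h2).trans ?_
  rw [sum_const, nsmul_eq_mul]
  have h3 : (G.card : ℝ) ≤ Real.exp u := by
    have : G.card ≤ ⌊Real.exp u⌋₊ := by
      rw [hG]
      refine (card_filter_le _ _).trans ?_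
      rw [Nat.card_Icc]
      omega
    calc (G.card : ℝ) ≤ ⌊Real.exp u⌋₊ := by exact_mod_cast this
      _ ≤ _ := Nat.floor_le (by positivity)
  calc (G.card : ℝ) * (3 * (Real.exp u * (X * Real.exp (-w)))) ≤
      Real.exp u * (3 * (Real.exp u * (X * Real.exp (-w)))) :=
        mul_le_mul_of_nonneg_right h3 (by positivity)
    _ = 3 * (X * (Real.exp u * Real.exp u * Real.exp (-w))) := by ring
    _ = _ := by
        rw [← Real.exp_add, ← Real.exp_add]
        congr 3
        ring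

/-- the main sum over pairs for a good set `S` -/
theorem sum_pairs8 (A : ℕ) (T : ℕ → ℝ) (hT : ∀ f, 0 ≤ T f) (X C5 M L : ℝ) (hC5 : 0 < C5)
    (hwt : ∀ b : ℕ, 1 ≤ b → wt A b ≤ C5 / Real.sqrt b) (ps R D Ω k F : ℕ) (P S : Finset ℕ)
    (hL : 1 ≤ L) (hD : ∀ b : ℕ, D < b → L ^ (2 * k) ≤ b)
    (hF : primorial (yy X) * R ≤ F)
    (hall : ∑ f ∈ Icc 2 F, T f ≤ M * L ^ k)
    (hA : ∑ p ∈ (pairs X ps R S).filter (fun p => p.2 ≤ D ∧ (P ∩ p.1.primeFactors).card < Ω),
      T (p.1 * p.2) ≤ M)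
    (hB : ∑ p ∈ pairB X ps R D Ω P S, T (p.1 * p.2) ≤ 3 * M) :
    ∑ p ∈ pairs X ps R S, wt A p.2 * T (p.1 * p.2) ≤ 5 * C5 * M := by
  have hmem : ∀ p ∈ pairs X ps R S, 1 ≤ p.2 := by
    intro p hp
    unfold pairs at hp
    rw [mem_filter, mem_product, mem_QQ] at hp
    exact hp.1.2.1.1
  have hsmall : ∀ p ∈ pairs X ps R S, wt A p.2 ≤ C5 := by
    intro p hp
    have h1 := hmem p hp
    refine (hwt p.2 h1).trans ?_
    apply div_le_self hC5.le
    rw [Real.one_le_sqrt]
    exact_mod_cast h1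
  rw [← sum_filter_add_sum_filter_not (pairs X ps R S) (fun p => p.2 ≤ D)]
  have hC : ∑ p ∈ (pairs X ps R S).filter (fun p => ¬ p.2 ≤ D), wt A p.2 * T (p.1 * p.2) ≤
      C5 * M := by
    have h1 : ∀ p ∈ (pairs X ps R S).filter (fun p => ¬ p.2 ≤ D),
        wt A p.2 * T (p.1 * p.2) ≤ (C5 / L ^ k) * T (p.1 * p.2) := by
      intro p hp
      rw [mem_filter] at hp
      apply mul_le_mul_of_nonneg_right _ (hT _)
      refine (hwt p.2 (hmem p hp.1)).trans ?_
      apply div_le_div_of_nonneg_left hC5.le (by positivity)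
      apply Real.le_sqrt_of_sq_le
      rw [← pow_mul, mul_comm]
      exact hD p.2 (by omega)
    refine (sum_le_sum h1).trans ?_
    rw [← mul_sum]
    have h2 : ∑ p ∈ (pairs X ps R S).filter (fun p => ¬ p.2 ≤ D), T (p.1 * p.2) ≤
        ∑ f ∈ Icc 2 F, T f := by
      apply pair_inj T hT (WW X S ps) ps R
      · intro p hp
        rw [mem_filter] at hp
        unfold pairs at hp
        rw [mem_filter] at hp
        exact hp.1.1
      · intro p hp
        rw [mem_filter] at hp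
        unfold pairs at hp
        rw [mem_filter, mem_product, Nat.mem_divisors, mem_QQ] at hp
        obtain ⟨⟨⟨⟨ha, _⟩, ⟨hb1, hb2⟩, hb3, hb4⟩, h5⟩, _⟩ := hp
        have ha0 : 0 < p.1 := Nat.pos_of_dvd_of_pos ha (WW_pos X S ps)
        have h6 : 0 < p.1 * p.2 := by positivity
        rw [mem_Icc]
        refine ⟨by omega, le_trans ?_ hF⟩
        apply Nat.mul_le_mul _ hb2
        exact Nat.le_of_dvd (primorial_pos _) (ha.trans (WW_dvd_primorial X S ps))
    calc (C5 / L ^ k) * ∑ p ∈ (pairs X ps R S).filter (fun p => ¬ p.2 ≤ D), T (p.1 * p.2) ≤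
        (C5 / L ^ k) * (M * L ^ k) :=
          mul_le_mul_of_nonneg_left (h2.trans hall) (by positivity)
      _ = C5 * M := by
          have : L ^ k ≠ 0 := by positivity
          field_simp
  have hAB : ∑ p ∈ (pairs X ps R S).filter (fun p => p.2 ≤ D), wt A p.2 * T (p.1 * p.2) ≤
      C5 * (M + 3 * M) := by
    calc _ ≤ ∑ p ∈ (pairs X ps R S).filter (fun p => p.2 ≤ D), C5 * T (p.1 * p.2) := by
          apply sum_le_sum
          intro p hp
          rw [mem_filter] at hp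
          exact mul_le_mul_of_nonneg_right (hsmall p hp.1) (hT _)
      _ = C5 * ∑ p ∈ (pairs X ps R S).filter (fun p => p.2 ≤ D), T (p.1 * p.2) := by
          rw [mul_sum]
      _ ≤ _ := by
          apply mul_le_mul_of_nonneg_left _ hC5.le
          rw [← sum_filter_add_sum_filter_not _
            (fun p : ℕ × ℕ => (P ∩ p.1.primeFactors).card < Ω), filter_filter, filter_filter]
          apply add_le_add hA
          refine le_trans (le_of_eq ?_) hB
          apply sum_congr _ (fun _ _ => rfl)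
          unfold pairs pairB
          rw [filter_filter]
          ext p
          rw [mem_filter, mem_filter]
          constructor
          · rintro ⟨h1, h2, h3, h4⟩
            exact ⟨h1, h2, h3, by omega⟩
          · rintro ⟨h1, h2, h3, h4⟩
            exact ⟨h1, h2, h3, by omega⟩
  linarith

end Pool.Agent.Q84.MB
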