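import Pool.Agent.Y855.A2

/-!
The fundamental lemma of the sieve with nonnegative weights (adapted from `Pool.Agent.Y855.A1`, `A2`).
-/

set_option autoImplicit false

open Finset

namespace Pool.Agent.Q84.MB

open Pool.Agent.Y855
open Pool.Agent.W308.PL.FLW hiding blk
open Pool.Agent.Helper112.LP.Kbh
open Pool.Agent.Helper112.LP.Kba

/-- weighted form -/
theorem core_w {J : ℕ} (Pb : Fin J → Finset ℕ) (b : ℕ)
    (hd : ∀ i j, i ≠ j → Disjoint (Pb i) (Pb j)) (P : Finset ℕ) (hP : P = univ.biUnion Pb)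
    (g : ℕ → ℝ) (hg : ∀ j, ∀ p ∈ Pb j, 0 ≤ g p ∧ g p ≤ 1 / 2) (L : ℝ)
    (hL : ∀ j, ∑ p ∈ Pb j, g p ≤ L) (ρ : ℝ) (hρ1 : ρ ≤ 1)
    (hρ : ∑ j : Fin J, Real.exp (2 * L) * (L ^ (2 * (b + j) + 1) / (2 * (b + j) + 1).factorial) ≤ ρ)
    {Ω : Type*} (S : Finset Ω) (n : Ω → ℕ) (w : Ω → ℝ) (hw : ∀ ω ∈ S, 0 ≤ w ω) (X : ℝ) (hX : 0 ≤ X) :
    |(∑ ω ∈ S.filter (fun ω => ∀ p ∈ P, ¬ p ∣ n ω), w ω) - X * ∏ p ∈ P, (1 - g p)| ≤
      6 * ρ * (X * ∏ p ∈ P, (1 - g p)) + (J + 1) *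
        ∑ U ∈ P.powerset.filter (fun U => ∀ j : Fin J, (U ∩ Pb j).card ≤ 2 * (b + j) + 1),
          |(∑ ω ∈ S.filter (fun ω => ∀ p ∈ U, p ∣ n ω), w ω) - X * ∏ p ∈ U, g p| := by
  classical
  obtain ⟨h1, h2⟩ := core_hat Pb b hd P hP g hg L hL ρ hρ1 hρ
  set R : Finset ℕ → ℝ := fun U =>
    (∑ ω ∈ S.filter (fun ω => ∀ p ∈ U, p ∣ n ω), w ω) - X * ∏ p ∈ U, g p with hR
  set V : ℝ := ∏ p ∈ P, (1 - g p) with hV
  have hcard : (∑ ω ∈ S.filter (fun ω => ∀ p ∈ P, ¬ p ∣ n ω), w ω) =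
      ∑ ω ∈ S, w ω * (if ∀ p ∈ P, ¬ p ∣ n ω then (1 : ℝ) else 0) := by
    rw [sum_filter]
    apply sum_congr rfl
    intro ω _
    split_ifs <;> simp
  have hsw : ∀ C : Finset ℕ → ℝ, ∑ ω ∈ S, w ω * ∑ U ∈ P.powerset, C U *
      (if ∀ p ∈ U, p ∣ n ω then (1 : ℝ) else 0) =
      X * ∑ U ∈ P.powerset, C U * ∏ p ∈ U, g p + ∑ U ∈ P.powerset, C U * R U := by
    intro C
    simp_rw [mul_sum]
    rw [sum_comm, ← sum_add_distrib]
    apply sum_congr rfl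
    intro U _
    have h3 : ∑ ω ∈ S, w ω * (C U * (if ∀ p ∈ U, p ∣ n ω then (1 : ℝ) else 0)) =
        C U * ∑ ω ∈ S.filter (fun ω => ∀ p ∈ U, p ∣ n ω), w ω := by
      rw [sum_filter, mul_sum]
      apply sum_congr rfl
      intro ω _
      split_ifs <;> ring
    rw [h3]
    simp only [hR]
    ring
  have hCR : ∀ (C : Finset ℕ → ℝ) (K : ℝ), (∀ U, |C U| ≤ K) →
      (∀ U, C U ≠ 0 → ∀ j : Fin J, (U ∩ Pb j).card ≤ 2 * (b + j) + 1) →
      |∑ U ∈ P.powerset, C U * R U| ≤ K *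
        ∑ U ∈ P.powerset.filter (fun U => ∀ j : Fin J, (U ∩ Pb j).card ≤ 2 * (b + j) + 1),
          |R U| := by
    intro C K hK hs
    have e : ∑ U ∈ P.powerset, C U * R U =
        ∑ U ∈ P.powerset.filter (fun U => ∀ j : Fin J, (U ∩ Pb j).card ≤ 2 * (b + j) + 1),
          C U * R U := by
      symm
      apply sum_filter_of_ne
      intro U _ h
      exact hs U (left_ne_zero_of_mul h)
    rw [e, mul_sum]
    refine (abs_sum_le_sum_abs _ _).trans (sum_le_sum fun U _ => ?_)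
    rw [abs_mul]
    exact mul_le_mul_of_nonneg_right (hK U) (abs_nonneg _)
  set Er := ∑ U ∈ P.powerset.filter (fun U => ∀ j : Fin J, (U ∩ Pb j).card ≤ 2 * (b + j) + 1),
          |R U| with hEr
  have hEr0 : 0 ≤ Er := sum_nonneg fun _ _ => abs_nonneg _
  have h3 := hCR (Cth Pb b) 1 (Cth_abs Pb b) (fun U h => Cth_supp Pb b h)
  have h4 := hCR (Cdl Pb b) J (Cdl_abs Pb b) (fun U h => Cdl_supp Pb b h)
  have hup : (∑ ω ∈ S.filter (fun ω => ∀ p ∈ P, ¬ p ∣ n ω), w ω) ≤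
      X * ∑ U ∈ P.powerset, Cth Pb b U * ∏ p ∈ U, g p + ∑ U ∈ P.powerset, Cth Pb b U * R U := by
    rw [hcard, ← hsw]
    exact sum_le_sum fun ω hω => mul_le_mul_of_nonneg_left (core_point Pb b hd P hP (n ω)).1 (hw ω hω)
  have hlow : (X * ∑ U ∈ P.powerset, Cth Pb b U * ∏ p ∈ U, g p +
      ∑ U ∈ P.powerset, Cth Pb b U * R U) -
      (∑ ω ∈ S.filter (fun ω => ∀ p ∈ P, ¬ p ∣ n ω), w ω) ≤
      X * ∑ U ∈ P.powerset, Cdl Pb b U * ∏ p ∈ U, g p + ∑ U ∈ P.powerset, Cdl Pb b U * R U := by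
    rw [hcard, ← hsw, ← hsw, ← sum_sub_distrib]
    refine sum_le_sum fun ω hω => ?_
    rw [← mul_sub]
    exact mul_le_mul_of_nonneg_left (core_point Pb b hd P hP (n ω)).2 (hw ω hω)
  have h1' := mul_le_mul_of_nonneg_left (abs_le.1 h1).1 hX
  have h1'' := mul_le_mul_of_nonneg_left (abs_le.1 h1).2 hX
  have h2'' := mul_le_mul_of_nonneg_left (abs_le.1 h2).2 hX
  have h3' := abs_le.1 h3
  have h4' := abs_le.1 h4
  rw [abs_le]
  constructor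
  · nlinarith
  · have h5 : 0 ≤ 3 * ρ * V := (abs_nonneg _).trans h1
    have h6 : 0 ≤ X * (3 * ρ * V) := mul_nonneg hX h5
    have h7 : 0 ≤ (J : ℝ) * Er := mul_nonneg (Nat.cast_nonneg _) hEr0
    nlinarith

/-- the fundamental lemma with weights -/
theorem FLw (ε : ℝ) (hε : 0 < ε) : ∃ B : ℕ, 1 ≤ B ∧ ∀ z : ℕ, 2 ≤ z → ∀ P : Finset ℕ,
    (∀ p ∈ P, p.Prime ∧ p ≤ z) → ∀ g : ℕ → ℝ,
    (∀ p ∈ P, 0 ≤ g p ∧ g p ≤ 1 / 2 ∧ g p ≤ 2 / (p : ℝ)) →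
    ∀ {Ω : Type} (S : Finset Ω) (n : Ω → ℕ) (w : Ω → ℝ) (_hw : ∀ ω ∈ S, 0 ≤ w ω) (X : ℝ), 0 ≤ X →
    |(∑ ω ∈ S.filter (fun ω => ∀ p ∈ P, ¬ p ∣ n ω), w ω) - X * ∏ p ∈ P, (1 - g p)| ≤
      ε * (X * ∏ p ∈ P, (1 - g p)) + (Nat.log 2 z + 2) *
        ∑ U ∈ P.powerset.filter (fun U => ∏ p ∈ U, p ≤ z ^ B),
          |(∑ ω ∈ S.filter (fun ω => ∀ p ∈ U, p ∣ n ω), w ω) - X * ∏ p ∈ U, g p| := by
  obtain ⟨L1, hL1, hLb⟩ := block_bd
  set L : ℝ := 2 * L1 with hL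
  have hL0 : 0 < L := by positivity
  set K : ℝ := 2 * L + L * Real.exp 1 + |Real.log (min (ε / 6) 1)| with hK
  have hmin : 0 < min (ε / 6) 1 := lt_min (by positivity) one_pos
  set b : ℕ := ⌈K⌉₊ with hb
  have hbK : K ≤ b := Nat.le_ceil K
  have hK0 : 0 ≤ K := by positivity
  refine ⟨4 * b + 6, by omega, ?_⟩
  intro z hz P hP g hg Ω S n w hw X hX
  set J : ℕ := Nat.log 2 z + 1 with hJ
  have hdisj : ∀ i j : Fin J, i ≠ j → Disjoint (blk P z i) (blk P z j) := by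
    intro i j hij
    rcases lt_or_gt_of_ne (fun h => hij (Fin.ext h) : (i : ℕ) ≠ j) with h | h
    · exact blk_disj P (fun p hp => (hP p hp).1) z i j h
    · exact (blk_disj P (fun p hp => (hP p hp).1) z j i h).symm
  have hsub : ∀ j : Fin J, ∀ p ∈ blk P z j, p ∈ P := fun j p hp => (mem_filter.1 hp).1
  have hLj : ∀ j : Fin J, ∑ p ∈ blk P z j, g p ≤ L := by
    intro j
    have h1 : ∑ p ∈ blk P z j, (1 : ℝ) / p ≤ L1 := by
      apply hLb _ (fun p hp => (hP p (hsub j p hp)).1)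
      intro p hp q hq
      unfold blk at hp hq
      rw [mem_filter] at hp hq
      have h2 : q ^ 2 ^ (j : ℕ) < (p ^ 2) ^ 2 ^ (j : ℕ) := by
        rw [← pow_mul, ← pow_succ']
        exact lt_of_le_of_lt hq.2.1 hp.2.2
      exact lt_of_pow_lt_pow_left₀ _ (Nat.zero_le _) h2
    calc ∑ p ∈ blk P z j, g p ≤ ∑ p ∈ blk P z j, 2 * ((1 : ℝ) / p) := by
          apply sum_le_sum
          intro p hp
          have := (hg p (hsub j p hp)).2.2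
          rw [mul_one_div]
          exact this
      _ = 2 * ∑ p ∈ blk P z j, (1 : ℝ) / p := by rw [mul_sum]
      _ ≤ L := by rw [hL]; linarith
  have hρ : ∑ j : Fin J, Real.exp (2 * L) *
      (L ^ (2 * (b + (j : ℕ)) + 1) / ((2 * (b + (j : ℕ)) + 1).factorial : ℝ)) ≤
      min (ε / 6) 1 := by
    rw [← mul_sum, Fin.sum_univ_eq_sum_range
      (fun j => L ^ (2 * (b + j) + 1) / ((2 * (b + j) + 1).factorial : ℝ))]
    have h1 := tail_sum L 1 hL0 (by norm_num) b J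
    have h2 := mul_le_mul_of_nonneg_left h1 (Real.exp_pos (2 * L)).le
    refine h2.trans ?_
    rw [← Real.exp_add]
    have h3 : min (ε / 6) 1 = Real.exp (Real.log (min (ε / 6) 1)) := (Real.exp_log hmin).symm
    rw [h3]
    apply Real.exp_le_exp.2
    have h4 := neg_abs_le (Real.log (min (ε / 6) 1))
    have h5 : (0 : ℝ) ≤ b := Nat.cast_nonneg b
    linarith
  have h := core_w (fun j : Fin J => blk P z j) b hdisj P (blk_cover P z hP) g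
    (fun j p hp => ⟨(hg p (hsub j p hp)).1, (hg p (hsub j p hp)).2.1⟩) L hLj (min (ε / 6) 1)
    (min_le_right _ _) hρ S n w hw X hX
  have hV0 : 0 ≤ X * ∏ p ∈ P, (1 - g p) := by
    apply mul_nonneg hX
    apply prod_nonneg
    intro p hp
    linarith [(hg p hp).2.1]
  refine h.trans ?_
  have h6 : 6 * min (ε / 6) 1 ≤ ε := by
    have := min_le_left (ε / 6) 1
    linarith
  have h7 : 6 * min (ε / 6) 1 * (X * ∏ p ∈ P, (1 - g p)) ≤ ε * (X * ∏ p ∈ P, (1 - g p)) :=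
    mul_le_mul_of_nonneg_right h6 hV0
  have h8 : ∑ U ∈ P.powerset.filter (fun U => ∀ j : Fin J, (U ∩ blk P z j).card ≤ 2 * (b + j) + 1),
      |(∑ ω ∈ S.filter (fun ω => ∀ p ∈ U, p ∣ n ω), w ω) - X * ∏ p ∈ U, g p| ≤
      ∑ U ∈ P.powerset.filter (fun U => ∏ p ∈ U, p ≤ z ^ (4 * b + 6)),
      |(∑ ω ∈ S.filter (fun ω => ∀ p ∈ U, p ∣ n ω), w ω) - X * ∏ p ∈ U, g p| := by
    apply sum_le_sum_of_subset_of_nonneg
    · intro U hU
      rw [mem_filter, mem_powerset] at hU ⊢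
      exact ⟨hU.1, level P z b hz hP U hU.1 hU.2⟩
    · intro _ _ _
      exact abs_nonneg _
  have h9 : ((J : ℝ) + 1) = (Nat.log 2 z : ℝ) + 2 := by
    rw [hJ]; push_cast; ring
  rw [h9]
  have h10 : (0 : ℝ) ≤ (Nat.log 2 z : ℝ) + 2 := by positivity
  have h11 := mul_le_mul_of_nonneg_left h8 h10
  linarith

end Pool.Agent.Q84.MB
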