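import Pool.Agent.Q84.MB.B3
import Pool.Agent.Q84.MB.B4
import Pool.Agent.H378R2.M7e
import Pool.Agent.Y855.A3

/-!
The sieve in a residue class modulo `4 W`: lower bound.
-/

set_option autoImplicit false

open Finset

namespace Pool.Agent.Q84.MB

open Pool.Agent.H378R2 Pool.Agent.H378R2.LSBV Pool.Agent.Y855

/-- the sieving primes -/
def PZ (W ps z : ℕ) : Finset ℕ := (Icc 3 z).filter (fun p => p.Prime ∧ ¬ p ∣ W ∧ p ≠ ps)

theorem mem_PZ {W ps z p : ℕ} : p ∈ PZ W ps z ↔ (3 ≤ p ∧ p ≤ z) ∧ p.Prime ∧ ¬ p ∣ W ∧ p ≠ ps := by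
  unfold PZ
  rw [mem_filter, mem_Icc]

/-- the integers of the class `a` modulo `m` without prime factors of `n - 1` in `P` -/
noncomputable def NA (X : ℝ) (m a : ℕ) (P : Finset ℕ) : Finset ℕ :=
  (Icc 1 ⌊3 * X⌋₊).filter (fun n => n ≡ a [MOD m] ∧ ∀ q ∈ P, ¬ q ∣ n - 1)

/-- the weight -/
noncomputable def wL (X : ℝ) (n : ℕ) : ℝ := Phi (n / X) * ArithmeticFunction.vonMangoldt n

theorem wL_nonneg (X : ℝ) (n : ℕ) : 0 ≤ wL X n :=
  mul_nonneg (Pool.Agent.H378R2.Phi_nonneg _) ArithmeticFunction.vonMangoldt_nonneg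

theorem totient_prod_primes (U : Finset ℕ) (hU : ∀ p ∈ U, p.Prime) :
    ((Nat.totient (∏ p ∈ U, p) : ℕ) : ℝ) = ∏ p ∈ U, ((p : ℝ) - 1) := by
  have he1 : 1 ≤ ∏ p ∈ U, p := prod_pos fun p hp => (hU p hp).pos
  have h6 : Nat.totient (∏ p ∈ U, p) = ∏ p ∈ U, (p - 1) := by
    have hpf : (∏ p ∈ U, p).primeFactors = U := Nat.primeFactors_prod hU
    have h7 := Nat.totient_mul_prod_primeFactors (∏ p ∈ U, p)
    rw [hpf] at h7
    exact Nat.eq_of_mul_eq_mul_right he1 (by rw [h7, mul_comm])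
  rw [h6]
  push_cast
  apply prod_congr rfl
  intro p hp
  rw [Nat.cast_sub (hU p hp).one_le, Nat.cast_one]

theorem class_FL : ∃ B : ℕ, 1 ≤ B ∧ ∀ (z : ℕ), 2 ≤ z → ∀ (X : ℝ), 1 ≤ X → ∀ (W ps a : ℕ), 1 ≤ W →
    a.Coprime (4 * W) → 2 ∣ W → ps ≠ 2 → (ps = 1 ∨ ps.Prime) → ∀ R : ℕ, z ^ B ≤ R → ∀ E : ℝ,
    (∀ b : ℕ → ℕ, (∀ q, 1 ≤ q → q.Coprime 2 → q.Coprime W → (b q).Coprime (4 * (W * q))) →
      ∑ q ∈ QQ W ps R, (if q.Coprime 2 then |EPhi X (4 * (W * q)) (b q)| else 0) ≤ E) →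
    (1 / 2 : ℝ) * (LPhi X / (Nat.totient (4 * W) : ℝ) * VP (PZ W ps z)) - (Nat.log 2 z + 2) * E ≤
      ∑ n ∈ NA X (4 * W) a (PZ W ps z), wL X n := by
  obtain ⟨B, hB, h⟩ := FLw (1 / 2) (by norm_num)
  refine ⟨B, hB, ?_⟩
  intro z hz X hX W ps a hW ha hW2 hps2 hps R hR E hE
  obtain ⟨P, hP⟩ : ∃ P, P = PZ W ps z := ⟨_, rfl⟩
  rw [← hP]
  have hPm : ∀ p ∈ P, (3 ≤ p ∧ p ≤ z) ∧ p.Prime ∧ ¬ p ∣ W ∧ p ≠ ps := fun p hp => mem_PZ.1 (hP ▸ hp)
  obtain ⟨S, hS⟩ : ∃ S : Finset ℕ, S = (Icc 1 ⌊3 * X⌋₊).filter (fun n => n ≡ a [MOD 4 * W]) := ⟨_, rfl⟩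
  obtain ⟨Y, hY⟩ : ∃ Y : ℝ, Y = LPhi X / (Nat.totient (4 * W) : ℝ) := ⟨_, rfl⟩
  have hLP : 0 ≤ LPhi X := sum_nonneg fun n _ => wL_nonneg X n
  have hY0 : 0 ≤ Y := by rw [hY]; positivity
  have hm0 : (0 : ℝ) < Nat.totient (4 * W) := by exact_mod_cast Nat.totient_pos.2 (by omega)
  have hg : ∀ p ∈ P, 0 ≤ 1 / ((p : ℝ) - 1) ∧ 1 / ((p : ℝ) - 1) ≤ 1 / 2 ∧
      1 / ((p : ℝ) - 1) ≤ 2 / (p : ℝ) := by
    intro p hp
    have h3 : (3 : ℝ) ≤ p := by exact_mod_cast (hPm p hp).1.1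
    refine ⟨by apply div_nonneg zero_le_one; linarith,
      one_div_le_one_div_of_le (by norm_num) (by linarith), ?_⟩
    rw [div_le_div_iff₀ (by linarith) (by linarith)]
    linarith
  have h1 := h z hz P (fun p hp => ⟨(hPm p hp).2.1, (hPm p hp).1.2⟩) (fun p => 1 / ((p : ℝ) - 1)) hg
    S (fun p => p - 1) (wL X) (fun n _ => wL_nonneg X n) Y hY0
  have e1 : S.filter (fun ω => ∀ p ∈ P, ¬ p ∣ ω - 1) = NA X (4 * W) a P := by
    rw [hS, filter_filter]
    rfl
  rw [e1] at h1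
  have hVP : ∏ p ∈ P, (1 - 1 / ((p : ℝ) - 1)) = VP P := rfl
  rw [hVP] at h1
  -- the solutions of the congruences
  have hb : ∀ q : ℕ, ∃ b : ℕ, (1 ≤ q → q.Coprime 2 → q.Coprime W →
      b ≡ a [MOD 4 * W] ∧ b ≡ 1 [MOD q] ∧ b.Coprime (4 * (W * q))) := by
    intro q
    by_cases hq : q.Coprime 2 ∧ q.Coprime W
    · have hcop : (4 * W).Coprime q := by
        apply Nat.Coprime.mul_left
        · have : (4 : ℕ) = 2 ^ 2 := by norm_num
          rw [this]
          exact Nat.Coprime.pow_left 2 hq.1.symm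
        · exact hq.2.symm
      obtain ⟨b, hb1, hb2⟩ := Nat.chineseRemainder hcop a 1
      refine ⟨b, fun _ _ _ => ⟨hb1, hb2, ?_⟩⟩
      rw [← mul_assoc]
      apply Nat.Coprime.mul_right
      · unfold Nat.Coprime
        rw [Nat.ModEq.gcd_eq hb1]
        exact ha
      · unfold Nat.Coprime
        rw [Nat.ModEq.gcd_eq hb2]
        exact Nat.gcd_one_left q
    · exact ⟨0, fun _ h2 h3 => absurd ⟨h2, h3⟩ hq⟩
  choose b hb using hb
  have hErr : ∑ U ∈ P.powerset.filter (fun U => ∏ p ∈ U, p ≤ z ^ B),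
      |(∑ ω ∈ S.filter (fun ω => ∀ p ∈ U, p ∣ ω - 1), wL X ω) - Y * ∏ p ∈ U, (1 / ((p : ℝ) - 1))| ≤ E := by
    refine le_trans ?_ (hE b fun q h1 h2 h3 => (hb q h1 h2 h3).2.2)
    have hval : ∀ U ∈ P.powerset.filter (fun U => ∏ p ∈ U, p ≤ z ^ B),
        |(∑ ω ∈ S.filter (fun ω => ∀ p ∈ U, p ∣ ω - 1), wL X ω) - Y * ∏ p ∈ U, (1 / ((p : ℝ) - 1))| =
        (fun q : ℕ => if q.Coprime 2 then |EPhi X (4 * (W * q)) (b q)| else 0) (∏ p ∈ U, p) := by
      intro U hU
      rw [mem_filter, mem_powerset] at hU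
      obtain ⟨e, he⟩ : ∃ e : ℕ, e = ∏ p ∈ U, p := ⟨_, rfl⟩
      rw [← he]
      have hUp : ∀ p ∈ U, p.Prime := fun p hp => (hPm p (hU.1 hp)).2.1
      have he1 : 1 ≤ e := by rw [he]; exact prod_pos fun p hp => (hUp p hp).pos
      have hcopW : e.Coprime W := by
        rw [he]
        apply Nat.Coprime.prod_left
        intro p hp
        rw [Nat.Prime.coprime_iff_not_dvd (hUp p hp)]
        exact (hPm p (hU.1 hp)).2.2.1
      have hcop2 : e.Coprime 2 := by
        rw [he]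
        apply Nat.Coprime.prod_left
        intro p hp
        rw [Nat.coprime_primes (hUp p hp) Nat.prime_two]
        have := (hPm p (hU.1 hp)).1.1
        omega
      have hcop : (4 * W).Coprime e := by
        apply Nat.Coprime.mul_left
        · have : (4 : ℕ) = 2 ^ 2 := by norm_num
          rw [this]
          exact Nat.Coprime.pow_left 2 hcop2.symm
        · exact hcopW.symm
      obtain ⟨hb1, hb2, hb3⟩ := hb e he1 hcop2 hcopW
      have hcard : S.filter (fun ω => ∀ p ∈ U, p ∣ ω - 1) =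
          (Icc 1 ⌊3 * X⌋₊).filter (fun p : ℕ => p ≡ b e [MOD (4 * (W * e))]) := by
        rw [hS, filter_filter]
        apply filter_congr
        intro p hp
        have hp1 : 1 ≤ p := (mem_Icc.1 hp).1
        have hdv : (∀ q ∈ U, q ∣ p - 1) ↔ p ≡ 1 [MOD e] := by
          rw [Nat.ModEq.comm, Nat.modEq_iff_dvd' hp1]
          constructor
          · intro h
            rw [he]
            exact Finset.prod_primes_dvd _ (fun q hq => (hUp q hq).prime) h
          · intro h q hq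
            rw [he] at h
            exact (dvd_prod_of_mem (fun p => p) hq).trans h
        rw [hdv, ← mul_assoc]
        constructor
        · rintro ⟨h3, h4⟩
          exact (Nat.modEq_and_modEq_iff_modEq_mul hcop).1 ⟨h3.trans hb1.symm, h4.trans hb2.symm⟩
        · intro h3
          have h4 := (Nat.modEq_and_modEq_iff_modEq_mul hcop).2 h3
          exact ⟨h4.1.trans hb1, h4.2.trans hb2⟩
      have hφ : Y * ∏ p ∈ U, (1 / ((p : ℝ) - 1)) =
          (1 / (Nat.totient (4 * (W * e)) : ℝ)) * LPhi X := by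
        rw [← mul_assoc, Nat.totient_mul hcop, hY]
        have h5 : ((Nat.totient e : ℕ) : ℝ) = ∏ p ∈ U, ((p : ℝ) - 1) := by
          rw [he]
          exact totient_prod_primes U hUp
        push_cast
        rw [h5, prod_div_distrib, prod_const_one]
        field_simp
      have hfin : (∑ ω ∈ S.filter (fun ω => ∀ p ∈ U, p ∣ ω - 1), wL X ω) - Y * ∏ p ∈ U, (1 / ((p : ℝ) - 1)) =
          EPhi X (4 * (W * e)) (b e) := by
        rw [hcard, hφ]
        rfl
      rw [hfin]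
      simp only
      rw [if_pos hcop2]
    rw [sum_congr rfl hval]
    rw [← sum_image (f := fun q : ℕ => if q.Coprime 2 then |EPhi X (4 * (W * q)) (b q)| else 0)
      (g := fun U : Finset ℕ => ∏ p ∈ U, p)]
    · apply sum_le_sum_of_subset_of_nonneg
      · intro q hq
        rw [mem_image] at hq
        obtain ⟨U, hU, rfl⟩ := hq
        rw [mem_filter, mem_powerset] at hU
        have hUp : ∀ p ∈ U, p.Prime := fun p hp => (hPm p (hU.1 hp)).2.1
        rw [mem_QQ]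
        refine ⟨⟨prod_pos fun p hp => (hUp p hp).pos, hU.2.trans hR⟩, ?_, ?_⟩
        · apply Finset.squarefree_prod_of_pairwise_isCoprime
          · intro p hp q hq hpq
            exact Nat.coprime_iff_isRelPrime.mp ((Nat.coprime_primes (hUp p hp) (hUp q hq)).mpr hpq)
          · intro p hp
            exact (hUp p hp).squarefree
        · apply Nat.Coprime.prod_left
          intro p hp
          have hpp := hPm p (hU.1 hp)
          apply Nat.Coprime.mul_right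
          · rw [Nat.Prime.coprime_iff_not_dvd (hUp p hp)]
            exact hpp.2.2.1
          · rcases hps with h | h
            · rw [h]; exact Nat.coprime_one_right p
            · exact (Nat.coprime_primes (hUp p hp) h).2 hpp.2.2.2
      · intro q _ _
        split_ifs
        · exact abs_nonneg _
        · exact le_rfl
    · intro U hU V hV hUV
      have hU' := hU
      have hV' := hV
      rw [mem_coe, mem_filter, mem_powerset] at hU' hV'
      have h3 : (∏ p ∈ U, p).primeFactors = U := Nat.primeFactors_prod fun p hp => (hPm p (hU'.1 hp)).2.1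
      have h4 : (∏ p ∈ V, p).primeFactors = V := Nat.primeFactors_prod fun p hp => (hPm p (hV'.1 hp)).2.1
      simp only at hUV
      rw [← h3, ← h4, hUV]
  have h2 : (Nat.log 2 z + 2 : ℝ) * ∑ U ∈ P.powerset.filter (fun U => ∏ p ∈ U, p ≤ z ^ B),
      |(∑ ω ∈ S.filter (fun ω => ∀ p ∈ U, p ∣ ω - 1), wL X ω) - Y * ∏ p ∈ U, (1 / ((p : ℝ) - 1))| ≤
      (Nat.log 2 z + 2) * E := mul_le_mul_of_nonneg_left hErr (by positivity)
  have h3 := (abs_le.1 (h1.trans (add_le_add le_rfl h2))).1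
  rw [hY] at h3
  linarith

end Pool.Agent.Q84.MB
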