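import Pool.Agent.Q84.MB.B4
import Mathlib.Data.Int.CardIntervalMod

/-!
The sieve in a residue class: an upper bound for the numbers `n` such that `n (n - 1)` has no small prime
factor.
-/

set_option autoImplicit false

open Finset

namespace Pool.Agent.Q84.MB

open Pool.Agent.Y855

/-- the integers `1 ≤ n ≤ N` in a class such that all the elements of `U` divide `n (n - 1)` -/
def cn (N m c : ℕ) (U : Finset ℕ) : ℕ :=
  ((Icc 1 N).filter (fun n => n ≡ c [MOD m] ∧ ∀ p ∈ U, p ∣ n * (n - 1))).card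

theorem base_cn (N m c : ℕ) (hm : 1 ≤ m) :
    |(((Icc 1 N).filter (fun n => n ≡ c [MOD m])).card : ℝ) - N / m| ≤ 1 := by
  have h := Nat.Ioc_filter_modEq_card 0 N hm c
  have e : (Icc 1 N).filter (fun n => n ≡ c [MOD m]) = (Ioc 0 N).filter (fun n => n ≡ c [MOD m]) := by
    congr 1
  rw [e]
  have hm0 : (0 : ℝ) < m := by exact_mod_cast hm
  obtain ⟨u, hu⟩ : ∃ u : ℚ, u = ((N : ℚ) - c) / m := ⟨_, rfl⟩
  obtain ⟨v, hv⟩ : ∃ v : ℚ, v = (((0 : ℕ) : ℚ) - c) / m := ⟨_, rfl⟩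
  have hmQ : (m : ℚ) ≠ 0 := by positivity
  have huv : u - v = N / m := by
    rw [hu, hv]
    push_cast
    field_simp
    ring
  have h1 : ((((Ioc 0 N).filter (fun n => n ≡ c [MOD m])).card : ℤ)) = max (⌊u⌋ - ⌊v⌋) 0 := by
    rw [h, hu, hv]
  have hle : v ≤ u := by
    have : 0 ≤ u - v := by rw [huv]; positivity
    linarith
  rw [max_eq_left (by have := Int.floor_le_floor hle; linarith)] at h1
  have h2 : |((((Ioc 0 N).filter (fun n => n ≡ c [MOD m])).card : ℤ) : ℚ) - (N : ℚ) / m| ≤ 1 := by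
    rw [h1, ← huv]
    push_cast
    have a1 := Int.floor_le u
    have a2 := Int.lt_floor_add_one u
    have a3 := Int.floor_le v
    have a4 := Int.lt_floor_add_one v
    rw [abs_le]
    constructor <;> linarith
  have h3 : (((|((((Ioc 0 N).filter (fun n => n ≡ c [MOD m])).card : ℤ) : ℚ) - (N : ℚ) / m| : ℚ)) : ℝ) ≤ 1 := by
    exact_mod_cast h2
  push_cast at h3
  exact h3

theorem cn_insert (N m c p : ℕ) (U : Finset ℕ) (hp : p.Prime) (hpm : m.Coprime p) (hpU : p ∉ U) :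
    ∃ c₀ c₁ : ℕ, cn N m c (insert p U) = cn N (m * p) c₀ U + cn N (m * p) c₁ U := by
  obtain ⟨c₀, h0, h0'⟩ := Nat.chineseRemainder hpm c 0
  obtain ⟨c₁, h1, h1'⟩ := Nat.chineseRemainder hpm c 1
  refine ⟨c₀, c₁, ?_⟩
  unfold cn
  rw [← card_union_of_disjoint]
  · congr 1
    ext n
    rw [mem_union, mem_filter, mem_filter, mem_filter, mem_Icc]
    constructor
    · rintro ⟨⟨hn1, hnN⟩, hc, hU⟩
      have h2 := hU p (mem_insert_self _ _)
      rcases (Nat.Prime.dvd_mul hp).1 h2 with h3 | h3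
      · left
        refine ⟨⟨hn1, hnN⟩, (Nat.modEq_and_modEq_iff_modEq_mul hpm).1 ⟨hc.trans h0.symm, ?_⟩,
          fun q hq => hU q (mem_insert_of_mem hq)⟩
        exact ((Nat.modEq_zero_iff_dvd).2 h3).trans h0'.symm
      · right
        refine ⟨⟨hn1, hnN⟩, (Nat.modEq_and_modEq_iff_modEq_mul hpm).1 ⟨hc.trans h1.symm, ?_⟩,
          fun q hq => hU q (mem_insert_of_mem hq)⟩
        exact ((Nat.modEq_iff_dvd' hn1).2 h3).symm.trans h1'.symm
    · rintro (⟨⟨hn1, hnN⟩, hc, hU⟩ | ⟨⟨hn1, hnN⟩, hc, hU⟩)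
      · have h2 := (Nat.modEq_and_modEq_iff_modEq_mul hpm).2 hc
        refine ⟨⟨hn1, hnN⟩, h2.1.trans h0, fun q hq => ?_⟩
        rcases mem_insert.1 hq with h | h
        · rw [h]
          exact ((Nat.modEq_zero_iff_dvd).1 (h2.2.trans h0')).mul_right _
        · exact hU q h
      · have h2 := (Nat.modEq_and_modEq_iff_modEq_mul hpm).2 hc
        refine ⟨⟨hn1, hnN⟩, h2.1.trans h1, fun q hq => ?_⟩
        rcases mem_insert.1 hq with h | h
        · rw [h]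
          exact ((Nat.modEq_iff_dvd' hn1).1 (h2.2.trans h1').symm).mul_left _
        · exact hU q h
  · rw [disjoint_left]
    intro n hn hn'
    rw [mem_filter] at hn hn'
    have h2 := (Nat.modEq_and_modEq_iff_modEq_mul hpm).2 hn.2.1
    have h3 := (Nat.modEq_and_modEq_iff_modEq_mul hpm).2 hn'.2.1
    have h4 : 0 ≡ 1 [MOD p] := (h2.2.trans h0').symm.trans (h3.2.trans h1')
    have h5 : p ∣ 1 := (Nat.modEq_zero_iff_dvd).1 h4.symm
    have := hp.one_lt
    have := Nat.dvd_one.1 h5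
    omega

theorem cn_est (N : ℕ) (U : Finset ℕ) : ∀ (m c : ℕ), 1 ≤ m → (∀ p ∈ U, p.Prime ∧ m.Coprime p) →
    |(cn N m c U : ℝ) - 2 ^ U.card * (N / (m * ∏ p ∈ U, (p : ℝ)))| ≤ 2 ^ U.card := by
  induction U using Finset.induction_on with
  | empty =>
    intro m c hm _
    unfold cn
    simp only [notMem_empty, IsEmpty.forall_iff, implies_true, and_true, card_empty, pow_zero, one_mul,
      prod_empty, mul_one]
    exact base_cn N m c hm
  | insert p U hpU ih =>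
    intro m c hm hU
    obtain ⟨hp, hpm⟩ := hU p (mem_insert_self _ _)
    obtain ⟨c₀, c₁, h⟩ := cn_insert N m c p U hp hpm hpU
    have hm' : 1 ≤ m * p := Nat.mul_pos hm hp.pos
    have hU' : ∀ q ∈ U, q.Prime ∧ (m * p).Coprime q := by
      intro q hq
      obtain ⟨h1, h2⟩ := hU q (mem_insert_of_mem hq)
      refine ⟨h1, Nat.Coprime.mul_left h2 ?_⟩
      refine (Nat.coprime_primes hp h1).2 ?_
      rintro rfl
      exact hpU hq
    have h0 := ih (m * p) c₀ hm' hU'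
    have h1 := ih (m * p) c₁ hm' hU'
    rw [h, card_insert_of_notMem hpU, prod_insert hpU]
    push_cast at h0 h1 ⊢
    have e : (2 : ℝ) ^ (U.card + 1) * (N / (m * (p * ∏ p ∈ U, (p : ℝ)))) =
        2 ^ U.card * (N / (m * p * ∏ p ∈ U, (p : ℝ))) + 2 ^ U.card * (N / (m * p * ∏ p ∈ U, (p : ℝ))) := by
      rw [pow_succ, ← mul_assoc]
      ring
    rw [e, pow_succ]
    rw [abs_le] at h0 h1 ⊢
    constructor <;> linarith [h0.1, h0.2, h1.1, h1.2]

/-- the upper bound -/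
theorem class_up : ∃ B : ℕ, 1 ≤ B ∧ ∀ (z : ℕ), 2 ≤ z → ∀ (N m c : ℕ), 1 ≤ m → ∀ P : Finset ℕ,
    (∀ p ∈ P, p.Prime ∧ 5 ≤ p ∧ p ≤ z ∧ m.Coprime p) →
    (((Icc 1 N).filter (fun n => n ≡ c [MOD m] ∧ ∀ p ∈ P, ¬ p ∣ n * (n - 1))).card : ℝ) ≤
      (3 / 2 : ℝ) * ((N : ℝ) / m * ∏ p ∈ P, (1 - 2 / (p : ℝ))) + (Nat.log 2 z + 2) * (z : ℝ) ^ (2 * B) := by
  obtain ⟨B, hB, h⟩ := FLw (1 / 2) (by norm_num)
  refine ⟨B, hB, ?_⟩
  intro z hz N m c hm P hP
  have hm0 : (0 : ℝ) < m := by exact_mod_cast hm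
  have hg : ∀ p ∈ P, 0 ≤ 2 / (p : ℝ) ∧ 2 / (p : ℝ) ≤ 1 / 2 ∧ 2 / (p : ℝ) ≤ 2 / (p : ℝ) := by
    intro p hp
    have h5 : (5 : ℝ) ≤ p := by exact_mod_cast (hP p hp).2.1
    refine ⟨by positivity, ?_, le_rfl⟩
    rw [div_le_div_iff₀ (by linarith) (by norm_num)]
    linarith
  have h1 := h z hz P (fun p hp => ⟨(hP p hp).1, (hP p hp).2.2.1⟩) (fun p => 2 / (p : ℝ)) hg
    ((Icc 1 N).filter (fun n => n ≡ c [MOD m])) (fun n => n * (n - 1)) (fun _ => 1) (fun _ _ => zero_le_one)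
    ((N : ℝ) / m) (by positivity)
  have hterm : ∀ U ∈ P.powerset.filter (fun U => ∏ p ∈ U, p ≤ z ^ B),
      |(∑ ω ∈ ((Icc 1 N).filter (fun n => n ≡ c [MOD m])).filter (fun ω => ∀ p ∈ U, p ∣ ω * (ω - 1)), (1 : ℝ)) -
        (N : ℝ) / m * ∏ p ∈ U, (2 / (p : ℝ))| ≤ (z : ℝ) ^ B := by
    intro U hU
    rw [mem_filter, mem_powerset] at hU
    have h2 := cn_est N U m c hm fun p hp => ⟨(hP p (hU.1 hp)).1, (hP p (hU.1 hp)).2.2.2⟩
    unfold cn at h2
    rw [filter_filter, sum_const, nsmul_eq_mul, mul_one]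
    have e : (N : ℝ) / m * ∏ p ∈ U, (2 / (p : ℝ)) = 2 ^ U.card * (N / (m * ∏ p ∈ U, (p : ℝ))) := by
      rw [prod_div_distrib, prod_const]
      have : ∏ p ∈ U, (p : ℝ) ≠ 0 := by
        rw [prod_ne_zero_iff]
        intro p hp
        exact_mod_cast (hP p (hU.1 hp)).1.pos.ne'
      field_simp
    rw [e]
    refine h2.trans ?_
    have h3 : 2 ^ U.card ≤ ∏ p ∈ U, p := by
      rw [← prod_const]
      exact prod_le_prod' fun p hp => (hP p (hU.1 hp)).1.two_le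
    exact_mod_cast h3.trans hU.2
  have hcard : (P.powerset.filter (fun U => ∏ p ∈ U, p ≤ z ^ B)).card ≤ z ^ B := by
    have h2 : ((P.powerset.filter (fun U => ∏ p ∈ U, p ≤ z ^ B)).image (fun U => ∏ p ∈ U, p)).card =
        (P.powerset.filter (fun U => ∏ p ∈ U, p ≤ z ^ B)).card := by
      apply card_image_of_injOn
      intro U hU V hV hUV
      have hU' := hU
      have hV' := hV
      rw [mem_coe, mem_filter, mem_powerset] at hU' hV'
      have h3 : (∏ p ∈ U, p).primeFactors = U := Nat.primeFactors_prod fun p hp => (hP p (hU'.1 hp)).1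
      have h4 : (∏ p ∈ V, p).primeFactors = V := Nat.primeFactors_prod fun p hp => (hP p (hV'.1 hp)).1
      simp only at hUV
      rw [← h3, ← h4, hUV]
    rw [← h2]
    have h3 : (P.powerset.filter (fun U => ∏ p ∈ U, p ≤ z ^ B)).image (fun U => ∏ p ∈ U, p) ⊆
        Icc 1 (z ^ B) := by
      intro d hd
      rw [mem_image] at hd
      obtain ⟨U, hU, rfl⟩ := hd
      rw [mem_filter, mem_powerset] at hU
      rw [mem_Icc]
      exact ⟨prod_pos fun p hp => (hP p (hU.1 hp)).1.pos, hU.2⟩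
    refine (card_le_card h3).trans ?_
    rw [Nat.card_Icc]
    omega
  have hsum : ∑ U ∈ P.powerset.filter (fun U => ∏ p ∈ U, p ≤ z ^ B),
      |(∑ ω ∈ ((Icc 1 N).filter (fun n => n ≡ c [MOD m])).filter (fun ω => ∀ p ∈ U, p ∣ ω * (ω - 1)), (1 : ℝ)) -
        (N : ℝ) / m * ∏ p ∈ U, (2 / (p : ℝ))| ≤ (z : ℝ) ^ (2 * B) := by
    refine (sum_le_card_nsmul _ _ _ hterm).trans ?_
    rw [nsmul_eq_mul, two_mul, pow_add]
    apply mul_le_mul_of_nonneg_right _ (by positivity)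
    exact_mod_cast hcard
  have h2 := mul_le_mul_of_nonneg_left hsum (by positivity : (0 : ℝ) ≤ (Nat.log 2 z : ℝ) + 2)
  have h3 := (abs_le.1 h1).2
  rw [filter_filter, sum_const, nsmul_eq_mul, mul_one] at h3
  linarith

end Pool.Agent.Q84.MB
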