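import Pool.Agent.Q84.MB.B5
import Pool.Agent.Q84.MB.B6
import Pool.Agent.Y855.A8
import Pool.Agent.H38R2.CG2.MP

/-!
The primes `n` in a residue class such that `n - 1` has no small prime factor: the parts of the count.
-/

set_option autoImplicit false

open Finset

namespace Pool.Agent.Q84.MB

open Pool.Agent.H378R2 Pool.Agent.H378R2.LSBV Pool.Agent.Y855

/-- `∏ (1 - 2 / p) = ∏ (1 - 1 / (p - 1)) ∏ (1 - 1 / p)` -/
theorem prod_two (P : Finset ℕ) (hP : ∀ p ∈ P, 5 ≤ p) :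
    ∏ p ∈ P, (1 - 2 / (p : ℝ)) = VP P * ∏ p ∈ P, (1 - 1 / (p : ℝ)) := by
  unfold VP
  rw [← prod_mul_distrib]
  apply prod_congr rfl
  intro p hp
  have h5 : (5 : ℝ) ≤ p := by exact_mod_cast hP p hp
  have h1 : (p : ℝ) ≠ 0 := by linarith
  have h2 : (p : ℝ) - 1 ≠ 0 := by linarith
  field_simp
  ring

theorem tot_ratio (W : ℕ) (hW : 1 ≤ W) (h2 : 2 ∣ W) :
    (Nat.totient (4 * W) : ℝ) / ((4 * W : ℕ) : ℝ) = ∏ p ∈ W.primeFactors, (1 - 1 / (p : ℝ)) := by
  have h := Nat.totient_eq_mul_prod_factors (4 * W)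
  have hpf : (4 * W).primeFactors = W.primeFactors := by
    have h4 : (4 : ℕ) = 2 ^ 2 := by norm_num
    rw [Nat.primeFactors_mul (by norm_num) (by omega), h4, Nat.primeFactors_prime_pow (by norm_num) Nat.prime_two,
      union_eq_right, singleton_subset_iff, Nat.mem_primeFactors]
    exact ⟨Nat.prime_two, h2, by omega⟩
  rw [hpf] at h
  have h' : (Nat.totient (4 * W) : ℝ) = ((4 * W : ℕ) : ℝ) * ∏ p ∈ W.primeFactors, (1 - (p : ℝ)⁻¹) := by
    have h9 := congrArg (fun x : ℚ => (x : ℝ)) h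
    push_cast at h9 ⊢
    exact h9
  have h0 : ((4 * W : ℕ) : ℝ) ≠ 0 := by
    have : 4 * W ≠ 0 := by omega
    exact_mod_cast this
  rw [h', mul_div_cancel_left₀ _ h0]
  simp only [one_div]

theorem mertens_part (W ps z : ℕ) (hz : 2 ≤ z) (hW : 1 ≤ W) (h2 : 2 ∣ W) (hps : ps.Prime) (hpsW : ¬ ps ∣ W) :
    (Nat.totient (4 * W) : ℝ) / ((4 * W : ℕ) : ℝ) * ∏ p ∈ PZ W ps z, (1 - 1 / (p : ℝ)) ≤ 2 / Real.log z := by
  rw [tot_ratio W hW h2]
  have hmp := Pool.Agent.H38R2.CG2.T2_MP z hz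
  have hdisj : Disjoint W.primeFactors (PZ W ps z) := by
    rw [disjoint_left]
    intro p hp hp'
    exact (mem_PZ.1 hp').2.2.1 (Nat.dvd_of_mem_primeFactors hp)
  have hf : ∀ p : ℕ, p.Prime → 0 ≤ 1 - 1 / (p : ℝ) ∧ 1 - 1 / (p : ℝ) ≤ 1 ∧ 1 / 2 ≤ 1 - 1 / (p : ℝ) := by
    intro p hp
    have h2' : (2 : ℝ) ≤ p := by exact_mod_cast hp.two_le
    have h3 : 1 / (p : ℝ) ≤ 1 / 2 := one_div_le_one_div_of_le (by norm_num) h2'
    have h4 : 0 ≤ 1 / (p : ℝ) := by positivity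
    exact ⟨by linarith, by linarith, by linarith⟩
  have hT : ∀ p ∈ insert ps (W.primeFactors ∪ PZ W ps z), p.Prime := by
    intro p hp
    rw [mem_insert, mem_union] at hp
    rcases hp with h | h | h
    · rw [h]; exact hps
    · exact Nat.prime_of_mem_primeFactors h
    · exact (mem_PZ.1 h).2.1
  have hST : (Icc 2 z).filter Nat.Prime ⊆ insert ps (W.primeFactors ∪ PZ W ps z) := by
    intro p hp
    rw [mem_filter, mem_Icc] at hp
    rw [mem_insert, mem_union]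
    by_cases h1 : p = ps
    · exact Or.inl h1
    right
    by_cases h3 : p ∣ W
    · exact Or.inl (Nat.mem_primeFactors.2 ⟨hp.2, h3, by omega⟩)
    · right
      rw [mem_PZ]
      refine ⟨⟨?_, hp.1.2⟩, hp.2, h3, h1⟩
      have h4 : p ≠ 2 := by rintro rfl; exact h3 h2
      omega
  have h3 := prod_subset_le hST (fun p => 1 - 1 / (p : ℝ)) (fun p hp => (hf p (hT p hp)).1)
    (fun p hp => (hf p (hT p hp)).2.1)
  have hnot : ps ∉ W.primeFactors ∪ PZ W ps z := by
    rw [mem_union]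
    rintro (h | h)
    · exact hpsW (Nat.dvd_of_mem_primeFactors h)
    · exact (mem_PZ.1 h).2.2.2 rfl
  rw [prod_insert hnot, prod_union hdisj] at h3
  have h4 := (hf ps hps).2.2
  have h5 : 0 ≤ (∏ p ∈ W.primeFactors, (1 - 1 / (p : ℝ))) * ∏ p ∈ PZ W ps z, (1 - 1 / (p : ℝ)) := by
    apply mul_nonneg
    · exact prod_nonneg fun p hp => (hf p (Nat.prime_of_mem_primeFactors hp)).1
    · exact prod_nonneg fun p hp => (hf p (mem_PZ.1 hp).2.1).1
  have h6 : (2 : ℝ) / Real.log z = 2 * (1 / Real.log z) := by ring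
  rw [h6]
  nlinarith

/-- the good primes -/
noncomputable def GG (X : ℝ) (m a ps : ℕ) (P : Finset ℕ) : Finset ℕ :=
  (Icc 1 ⌊3 * X⌋₊).filter (fun n => n.Prime ∧ X < n ∧ n ≡ a [MOD m] ∧ (∀ q ∈ P, ¬ q ∣ n - 1) ∧
    (ps.Prime → ¬ ps ∣ n - 1))

/-- the primes of the class which are `1` modulo `ps` -/
noncomputable def BB (X : ℝ) (m a ps : ℕ) (P : Finset ℕ) : Finset ℕ :=
  (Icc 1 ⌊3 * X⌋₊).filter (fun n => n.Prime ∧ X < n ∧ n ≡ a [MOD m] ∧ (∀ q ∈ P, ¬ q ∣ n - 1) ∧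
    (ps.Prime ∧ ps ∣ n - 1))

theorem split_part (X : ℝ) (hX : 1 ≤ X) (m a ps : ℕ) (P : Finset ℕ) :
    ∑ n ∈ NA X m a P, wL X n ≤ (1 / 2) * Real.log (3 * X) * ((GG X m a ps P).card + (BB X m a ps P).card) +
      √(3 * X) * Real.log (3 * X) := by
  have h3X : 1 ≤ 3 * X := by linarith
  have hlog : 0 ≤ Real.log (3 * X) := Real.log_nonneg h3X
  -- non primes
  have h1 := Chebyshev.psi_sub_theta_le h3X
  rw [Chebyshev.psi_sub_theta_eq_sum_not_prime] at h1
  have hw : ∀ n, wL X n ≤ 1 / 2 * ArithmeticFunction.vonMangoldt n := fun n =>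
    mul_le_mul_of_nonneg_right (Phi_le_half _) ArithmeticFunction.vonMangoldt_nonneg
  have hnp : ∑ n ∈ (NA X m a P).filter (fun n => ¬ n.Prime), wL X n ≤ √(3 * X) * Real.log (3 * X) := by
    calc ∑ n ∈ (NA X m a P).filter (fun n => ¬ n.Prime), wL X n
        ≤ ∑ n ∈ (Ioc 0 ⌊3 * X⌋₊).filter (fun n => ¬ n.Prime), wL X n := by
          apply sum_le_sum_of_subset_of_nonneg
          · intro n hn
            unfold NA at hn
            rw [mem_filter, mem_filter, mem_Icc] at hn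
            rw [mem_filter, mem_Ioc]
            exact ⟨⟨by omega, hn.1.1.2⟩, hn.2⟩
          · intro n _ _
            exact wL_nonneg X n
      _ ≤ ∑ n ∈ (Ioc 0 ⌊3 * X⌋₊).filter (fun n => ¬ n.Prime), 1 / 2 * ArithmeticFunction.vonMangoldt n :=
          sum_le_sum fun n _ => hw n
      _ = 1 / 2 * ∑ n ∈ (Ioc 0 ⌊3 * X⌋₊).filter (fun n => ¬ n.Prime), ArithmeticFunction.vonMangoldt n := by
          rw [mul_sum]
      _ ≤ 1 / 2 * (2 * √(3 * X) * Real.log (3 * X)) := by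
          apply mul_le_mul_of_nonneg_left h1 (by norm_num)
      _ = _ := by ring
  have hp : ∑ n ∈ (NA X m a P).filter (fun n => n.Prime), wL X n ≤
      (1 / 2) * Real.log (3 * X) * ((GG X m a ps P).card + (BB X m a ps P).card) := by
    have hsub : (NA X m a P).filter (fun n => n.Prime ∧ wL X n ≠ 0) ⊆ GG X m a ps P ∪ BB X m a ps P := by
      intro n hn
      unfold NA at hn
      rw [mem_filter, mem_filter, mem_Icc] at hn
      obtain ⟨⟨⟨hn1, hnX⟩, hna, hnP⟩, hnp, hw0⟩ := hn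
      have hXn : X < n := by
        by_contra hcon
        push Not at hcon
        apply hw0
        unfold wL
        have h4 : Phi ((n : ℝ) / X) = 0 := by
          unfold Phi
          have h5 : (n : ℝ) / X ≤ 1 := by
            rw [div_le_one (by linarith)]
            exact hcon
          have h6 : 0 < (n : ℝ) / X := by
            have : (1 : ℝ) ≤ n := by exact_mod_cast hn1
            positivity
          have h7 : Real.log ((n : ℝ) / X) ≤ 0 := Real.log_nonpos h6.le h5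
          apply max_eq_left
          have h8 := neg_le_abs (Real.log ((n : ℝ) / X) - 1 / 2)
          linarith
        rw [h4, zero_mul]
      rw [mem_union]
      unfold GG BB
      rw [mem_filter, mem_filter, mem_Icc]
      by_cases h9 : ps.Prime ∧ ps ∣ n - 1
      · right
        exact ⟨⟨hn1, hnX⟩, hnp, hXn, hna, hnP, h9⟩
      · left
        exact ⟨⟨hn1, hnX⟩, hnp, hXn, hna, hnP, fun h10 h11 => h9 ⟨h10, h11⟩⟩
    have hval : ∀ n ∈ (NA X m a P).filter (fun n => n.Prime ∧ wL X n ≠ 0),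
        wL X n ≤ 1 / 2 * Real.log (3 * X) := by
      intro n hn
      unfold NA at hn
      rw [mem_filter, mem_filter, mem_Icc] at hn
      refine (hw n).trans ?_
      rw [ArithmeticFunction.vonMangoldt_apply_prime hn.2.1]
      apply mul_le_mul_of_nonneg_left _ (by norm_num)
      apply Real.log_le_log
      · exact_mod_cast hn.1.1.1
      · have h5 : ((⌊3 * X⌋₊ : ℕ) : ℝ) ≤ 3 * X := Nat.floor_le (by linarith)
        have h6 : (n : ℝ) ≤ ((⌊3 * X⌋₊ : ℕ) : ℝ) := by exact_mod_cast hn.1.1.2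
        linarith
    have e1 : ∑ n ∈ (NA X m a P).filter (fun n => n.Prime), wL X n =
        ∑ n ∈ (NA X m a P).filter (fun n => n.Prime ∧ wL X n ≠ 0), wL X n := by
      rw [← filter_filter]
      symm
      apply sum_filter_ne_zero
    rw [e1]
    refine (sum_le_card_nsmul _ _ _ hval).trans ?_
    rw [nsmul_eq_mul, mul_comm]
    apply mul_le_mul_of_nonneg_left _ (by positivity)
    exact_mod_cast (card_le_card hsub).trans (card_union_le _ _)
  have hsplit := sum_filter_add_sum_filter_not (NA X m a P) (fun n => n.Prime) (wL X)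
  linarith

/-- the bound for the primes that are `1` modulo `ps` -/
theorem BB_le : ∃ B : ℕ, 1 ≤ B ∧ ∀ z : ℕ, 2 ≤ z → ∀ X : ℝ, 1 ≤ X → (z : ℝ) ≤ X → ∀ W ps a : ℕ, 1 ≤ W →
    2 ∣ W → 3 ∣ W → 3 ≤ ps → ¬ ps ∣ W →
    ((BB X (4 * W) a ps (PZ W ps z)).card : ℝ) ≤
      9 * X * VP (PZ W ps z) / (ps * (Nat.totient (4 * W) : ℝ) * Real.log z) +
        (Nat.log 2 z + 2) * (z : ℝ) ^ (2 * B) := by
  obtain ⟨B, hB, h⟩ := class_up
  refine ⟨B, hB, ?_⟩
  intro z hz X hX hzX W ps a hW h2 h3 hps3 hpsW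
  have hz2 : (2 : ℝ) ≤ z := by exact_mod_cast hz
  have hlz : 0 < Real.log z := Real.log_pos (by linarith)
  have hφ : (0 : ℝ) < Nat.totient (4 * W) := by exact_mod_cast Nat.totient_pos.2 (by omega)
  have hPp : ∀ p ∈ PZ W ps z, p.Prime ∧ 5 ≤ p ∧ p ≤ z ∧ ¬ p ∣ W ∧ p ≠ ps := by
    intro p hp
    obtain ⟨⟨h31, h32⟩, h33, h34, h35⟩ := mem_PZ.1 hp
    refine ⟨h33, ?_, h32, h34, h35⟩
    have h6 : p ≠ 3 := by rintro rfl; exact h34 h3
    have h7 : p ≠ 4 := by rintro rfl; norm_num at h33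
    omega
  have hV0 : 0 ≤ VP (PZ W ps z) := (VP_pos _ fun q hq => by have := (hPp q hq).2.1; omega).le
  have hps0 : (0 : ℝ) < ps := by exact_mod_cast (by omega : 0 < ps)
  have hnn : 0 ≤ 9 * X * VP (PZ W ps z) / (ps * (Nat.totient (4 * W) : ℝ) * Real.log z) := by
    apply div_nonneg
    · exact mul_nonneg (by linarith) hV0
    · positivity
  by_cases hps : ps.Prime
  swap
  · have : BB X (4 * W) a ps (PZ W ps z) = ∅ := by
      unfold BB
      rw [filter_eq_empty_iff]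
      intro n _ h
      exact hps h.2.2.2.2.1
    rw [this, card_empty]
    push_cast
    positivity
  have hcop : (4 * W).Coprime ps := by
    apply Nat.Coprime.mul_left
    · have : (4 : ℕ) = 2 ^ 2 := by norm_num
      rw [this]
      exact Nat.Coprime.pow_left 2 ((Nat.coprime_primes Nat.prime_two hps).2 (by omega))
    · exact ((Nat.Prime.coprime_iff_not_dvd hps).2 hpsW).symm
  obtain ⟨c, hc1, hc2⟩ := Nat.chineseRemainder hcop a 1
  have h4 := h z hz ⌊3 * X⌋₊ (4 * W * ps) c (by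
    have : 0 < 4 * W * ps := by positivity
    omega) (PZ W ps z) (by
    intro p hp
    obtain ⟨h5, h6, h7, h8, h9⟩ := hPp p hp
    refine ⟨h5, h6, h7, ?_⟩
    apply Nat.Coprime.mul_left
    · apply Nat.Coprime.mul_left
      · have : (4 : ℕ) = 2 ^ 2 := by norm_num
        rw [this]
        exact Nat.Coprime.pow_left 2 ((Nat.coprime_primes Nat.prime_two h5).2 (by omega))
      · exact ((Nat.Prime.coprime_iff_not_dvd h5).2 h8).symm
    · exact (Nat.coprime_primes hps h5).2 (fun h => h9 h.symm))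
  have hsub : BB X (4 * W) a ps (PZ W ps z) ⊆ (Icc 1 ⌊3 * X⌋₊).filter
      (fun n => n ≡ c [MOD 4 * W * ps] ∧ ∀ p ∈ PZ W ps z, ¬ p ∣ n * (n - 1)) := by
    intro n hn
    unfold BB at hn
    rw [mem_filter, mem_Icc] at hn ⊢
    obtain ⟨⟨hn1, hnX⟩, hnp, hXn, hna, hnP, -, hnps⟩ := hn
    refine ⟨⟨hn1, hnX⟩, ?_, ?_⟩
    · apply (Nat.modEq_and_modEq_iff_modEq_mul hcop).1
      exact ⟨hna.trans hc1.symm, ((Nat.modEq_iff_dvd' hn1).2 hnps).symm.trans hc2.symm⟩
    · intro p hp hd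
      obtain ⟨h5, h6, h7, h8, h9⟩ := hPp p hp
      rcases (Nat.Prime.dvd_mul h5).1 hd with h10 | h10
      · have h11 := (Nat.prime_dvd_prime_iff_eq h5 hnp).1 h10
        have h12 : (p : ℝ) ≤ z := by exact_mod_cast h7
        rw [h11] at h12
        linarith
      · exact hnP p hp h10
  have h5 : ((BB X (4 * W) a ps (PZ W ps z)).card : ℝ) ≤ _ :=
    le_trans (by exact_mod_cast card_le_card hsub) h4
  refine h5.trans (add_le_add ?_ le_rfl)
  rw [prod_two _ fun p hp => (hPp p hp).2.1]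
  have h6 := mertens_part W ps z hz hW h2 hps hpsW
  obtain ⟨Rr, hq0⟩ : ∃ Rr, Rr = ∏ p ∈ PZ W ps z, (1 - 1 / (p : ℝ)) := ⟨_, rfl⟩
  rw [← hq0] at h6 ⊢
  have hq00 : 0 ≤ Rr := by
    rw [hq0]
    apply prod_nonneg
    intro p hp
    have h7 : (5 : ℝ) ≤ p := by exact_mod_cast (hPp p hp).2.1
    have : 1 / (p : ℝ) ≤ 1 := by
      rw [div_le_one (by linarith)]
      linarith
    linarith
  have h7 : ((⌊3 * X⌋₊ : ℕ) : ℝ) ≤ 3 * X := Nat.floor_le (by linarith)
  have h4W : (0 : ℝ) < ((4 * W : ℕ) : ℝ) := by exact_mod_cast (by omega : 0 < 4 * W)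
  have h8 : (Nat.totient (4 * W) : ℝ) * Rr ≤ 2 / Real.log z * ((4 * W : ℕ) : ℝ) := by
    rw [div_mul_eq_mul_div, div_le_iff₀ h4W] at h6
    exact h6
  calc (3 / 2 : ℝ) * (((⌊3 * X⌋₊ : ℕ) : ℝ) / ((4 * W * ps : ℕ) : ℝ) * (VP (PZ W ps z) * Rr))
      ≤ (3 / 2 : ℝ) * ((3 * X) / ((4 * W * ps : ℕ) : ℝ) * (VP (PZ W ps z) * Rr)) := by
        gcongr
    _ = (9 / 2 * X * VP (PZ W ps z)) / (ps * (Nat.totient (4 * W) : ℝ) * ((4 * W : ℕ) : ℝ)) *
        ((Nat.totient (4 * W) : ℝ) * Rr) := by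
        push_cast
        field_simp
        ring
    _ ≤ (9 / 2 * X * VP (PZ W ps z)) / (ps * (Nat.totient (4 * W) : ℝ) * ((4 * W : ℕ) : ℝ)) *
        (2 / Real.log z * ((4 * W : ℕ) : ℝ)) := by
        apply mul_le_mul_of_nonneg_left h8
        apply div_nonneg
        · exact mul_nonneg (by linarith) hV0
        · positivity
    _ = _ := by
        field_simp

end Pool.Agent.Q84.MB
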