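import Pool.Agent.Q84.MB.B7
import Pool.Agent.H378R2.M7r
import Pool.Agent.Y855.A13

/-!
The number of the primes `n` in a class modulo `4 W` such that `n - 1` has no small prime factor.
-/

set_option autoImplicit false

open Finset Filter Topology

namespace Pool.Agent.Q84.MB

open Pool.Agent.H378R2 Pool.Agent.H378R2.LSBV Pool.Agent.Y855

theorem tot4 (W : ℕ) (h2 : 2 ∣ W) : Nat.totient (4 * W) = 4 * Nat.totient W := by
  have h4 : 4 * W = 2 * (2 * W) := by ring
  rw [h4, Nat.totient_mul_of_prime_of_dvd Nat.prime_two (Dvd.intro _ rfl),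
    Nat.totient_mul_of_prime_of_dvd Nat.prime_two h2]
  ring

theorem mem_dvd_WW {X : ℝ} {S : Finset ℕ} {ps p : ℕ} (hp : p.Prime) (h1 : p ≤ yy X) (h2 : p ∉ S)
    (h3 : p ≠ ps) : p ∣ WW X S ps := by
  unfold WW
  apply dvd_prod_of_mem (fun p => p)
  unfold PW
  rw [mem_filter, mem_Icc]
  exact ⟨⟨hp.one_le, h1⟩, hp, h2, h3⟩

theorem dvd_WW {X : ℝ} {S : Finset ℕ} {ps p : ℕ} (hp : p.Prime) (h : p ∣ WW X S ps) :
    p ≤ yy X ∧ p ∉ S ∧ p ≠ ps := by
  have h1 : p ∈ (WW X S ps).primeFactors := Nat.mem_primeFactors.2 ⟨hp, h, by have := LSBV.WW_pos X S ps; omega⟩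
  rw [LSBV.WW_primeFactors] at h1
  unfold PW at h1
  rw [mem_filter, mem_Icc] at h1
  exact ⟨h1.1.2, h1.2.2⟩

theorem V_lower (W ps z : ℕ) : VP (OP z) ≤ VP (PZ W ps z) := by
  unfold VP
  apply prod_subset_le
  · intro p hp
    obtain ⟨⟨h1, h2⟩, h3, h4, h5⟩ := mem_PZ.1 hp
    rw [mem_OP]
    exact ⟨h3, h1, h2⟩
  · intro q hq
    have h3 : (3 : ℝ) ≤ q := by exact_mod_cast (mem_OP.1 hq).2.1
    have h4 : 1 / ((q : ℝ) - 1) ≤ 1 / 2 := one_div_le_one_div_of_le (by norm_num) (by linarith)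
    linarith
  · intro q hq
    have h3 : (3 : ℝ) ≤ q := by exact_mod_cast (mem_OP.1 hq).2.1
    have : 0 ≤ 1 / ((q : ℝ) - 1) := by
      apply div_nonneg zero_le_one; linarith
    linarith

theorem class_main : ∃ B : ℕ, 1 ≤ B ∧ ∃ X0 : ℝ, ∀ X : ℝ, X0 ≤ X →
    ∃ (ps : ℕ) (S : Finset ℕ), GoodP (5760000 * B) ps ∧ (∀ q ∈ S, q.Prime ∧ z2 X < q ∧ q ≤ yy X) ∧
      (S.card : ℝ) ≤ vv X ^ 195 ∧ 2 ∣ WW X S ps ∧ ∀ z : ℕ, 2 ≤ z → (z : ℝ) ^ B ≤ X ^ (1 / 100 : ℝ) →
      Real.log X ≤ 200 * B * Real.log z → ∀ a : ℕ, a.Coprime (4 * WW X S ps) →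
      X / ((Nat.totient (4 * WW X S ps) : ℝ) * (Real.log X) ^ 3) ≤
        ((GG X (4 * WW X S ps) a ps (PZ (WW X S ps) ps z)).card : ℝ) := by
  obtain ⟨B1, hB1, hFL⟩ := class_FL
  obtain ⟨B2, hB2, hBB⟩ := BB_le
  obtain ⟨cV, hcV, hVP⟩ := VP_lower
  obtain ⟨B, hB⟩ : ∃ B, B = max B1 B2 := ⟨_, rfl⟩
  have hBB1 : B1 ≤ B := hB ▸ le_max_left _ _
  have hBB2 : B2 ≤ B := hB ▸ le_max_right _ _
  have hB0 : 1 ≤ B := hB1.trans hBB1
  obtain ⟨X1, hX1⟩ := bv8 3 (5760000 * B) (by omega)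
  refine ⟨B, hB0, ?_⟩
  have hlog : Tendsto Real.log atTop atTop := Real.tendsto_log_atTop
  have hloglog : Tendsto (fun X : ℝ => Real.log (Real.log X)) atTop atTop := hlog.comp hlog
  have hpw : ∀ᶠ X : ℝ in atTop, 51200 * (Real.log X) ^ 3 ≤ cV * X ^ (2 / 5 : ℝ) := by
    have h1 := (isLittleO_log_rpow_rpow_atTop (s := 2 / 5) 3 (by norm_num)).bound
      (show (0 : ℝ) < cV / 51200 by positivity)
    filter_upwards [h1, eventually_ge_atTop 1] with X h2 h3
    have h4 : 0 ≤ Real.log X := Real.log_nonneg h3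
    have h5 : Real.log X ^ (3 : ℝ) = Real.log X ^ 3 := by
      rw [← Real.rpow_natCast]; norm_num
    rw [h5, Real.norm_of_nonneg (by positivity), Real.norm_of_nonneg (by positivity)] at h2
    rw [div_mul_eq_mul_div, le_div_iff₀ (by norm_num)] at h2
    linarith
  have ev : ∀ᶠ X : ℝ in atTop, ∃ (ps : ℕ) (S : Finset ℕ), GoodP (5760000 * B) ps ∧
      (∀ q ∈ S, q.Prime ∧ z2 X < q ∧ q ≤ yy X) ∧
      (S.card : ℝ) ≤ vv X ^ 195 ∧ 2 ∣ WW X S ps ∧ ∀ z : ℕ, 2 ≤ z → (z : ℝ) ^ B ≤ X ^ (1 / 100 : ℝ) →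
      Real.log X ≤ 200 * B * Real.log z → ∀ a : ℕ, a.Coprime (4 * WW X S ps) →
      X / ((Nat.totient (4 * WW X S ps) : ℝ) * (Real.log X) ^ 3) ≤
        ((GG X (4 * WW X S ps) a ps (PZ (WW X S ps) ps z)).card : ℝ) := by
    filter_upwards [eventually_ge_atTop X1, eventually_ge_atTop (4 : ℝ), hpw, LPhi_ge,
      hlog.eventually_ge_atTop (max 3000 (51200 / cV)), hloglog.eventually_ge_atTop 2]
      with X h1 h2 h3 h4 h5 h6
    obtain ⟨ps, S, hps, hS, hSc, hbv⟩ := hX1 X h1
    obtain ⟨L, hL⟩ : ∃ L, L = Real.log X := ⟨_, rfl⟩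
    obtain ⟨W, hW⟩ : ∃ W, W = WW X S ps := ⟨_, rfl⟩
    rw [← hL] at h3 h5 h6
    have hX0 : 0 < X := by linarith
    have hL3000 : 3000 ≤ L := (le_max_left _ _).trans h5
    have hLc : 51200 ≤ cV * L := by
      have := (le_max_right _ _).trans h5
      rw [div_le_iff₀ hcV] at this
      linarith
    have hL0 : 0 < L := by linarith
    have hyy : 3 ≤ yy X := by
      unfold yy
      rw [← hL]
      apply Nat.le_floor
      push_cast
      linarith
    have hz2 : 3 ≤ z2 X := by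
      unfold z2
      rw [← hL]
      have h7 : (8 : ℝ) ≤ (Real.log L) ^ 3 := by
        calc (8 : ℝ) = 2 ^ 3 := by norm_num
          _ ≤ _ := pow_le_pow_left₀ (by norm_num) h6 3
      have h8 := Nat.le_ceil ((Real.log L) ^ 3)
      have h9 : (8 : ℝ) ≤ ((⌈(Real.log L) ^ 3⌉₊ : ℕ) : ℝ) := h7.trans h8
      have h10 : (8 : ℕ) ≤ ⌈(Real.log L) ^ 3⌉₊ := by exact_mod_cast h9
      omega
    have hpsz : ps = 1 ∨ (ps.Prime ∧ 5760000 * B < ps) := hps
    have hW2 : 2 ∣ W := by
      rw [hW]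
      apply mem_dvd_WW Nat.prime_two (by omega)
      · intro h
        have := (hS 2 h).2.1
        omega
      · rcases hpsz with h | h <;> omega
    have hW3 : 3 ∣ W := by
      rw [hW]
      apply mem_dvd_WW Nat.prime_three (by omega)
      · intro h
        have := (hS 3 h).2.1
        omega
      · rcases hpsz with h | h <;> omega
    have hW1 : 1 ≤ W := by rw [hW]; exact LSBV.WW_pos X S ps
    refine ⟨ps, S, hps, hS, hSc, by rw [← hW]; exact hW2, ?_⟩
    intro z hz hzB hzL a ha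
    rw [← hW] at ha ⊢
    rw [← hL] at hzL ⊢
    obtain ⟨P, hP⟩ : ∃ P, P = PZ W ps z := ⟨_, rfl⟩
    obtain ⟨V, hV⟩ : ∃ V, V = VP P := ⟨_, rfl⟩
    obtain ⟨φ4, hφ4⟩ : ∃ φ4 : ℝ, φ4 = (Nat.totient (4 * W) : ℝ) := ⟨_, rfl⟩
    obtain ⟨φ1, hφ1⟩ : ∃ φ1 : ℝ, φ1 = (Nat.totient W : ℝ) := ⟨_, rfl⟩
    have hφ41 : φ4 = 4 * φ1 := by
      rw [hφ4, hφ1, tot4 W hW2]
      push_cast
      ring
    have hφ1p : 0 < φ1 := by
      rw [hφ1]
      exact_mod_cast Nat.totient_pos.2 (by omega)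
    have hφ4p : 0 < φ4 := by rw [hφ41]; positivity
    have hWX : (W : ℝ) ≤ X ^ (1 / 500 : ℝ) := by
      rw [hW]
      exact le_trans (by exact_mod_cast Nat.le_of_dvd (primorial_pos _) (WW_dvd_primorial X S ps))
        (primorial_yy_le X (by linarith))
    have hφ4X : φ4 ≤ 4 * X ^ (1 / 500 : ℝ) := by
      rw [hφ41]
      have : φ1 ≤ W := by rw [hφ1]; exact_mod_cast Nat.totient_le W
      linarith
    have hz2r : (2 : ℝ) ≤ z := by exact_mod_cast hz
    have hlz : 0 < Real.log z := Real.log_pos (by linarith)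
    have hzX100 : (z : ℝ) ≤ X ^ (1 / 100 : ℝ) := (le_self_pow₀ (by linarith) (by omega)).trans hzB
    have hX100 : X ^ (1 / 100 : ℝ) ≤ X := by
      calc X ^ (1 / 100 : ℝ) ≤ X ^ (1 : ℝ) := Real.rpow_le_rpow_of_exponent_le (by linarith) (by norm_num)
        _ = X := Real.rpow_one X
    have hzX : (z : ℝ) ≤ X := hzX100.trans hX100
    have hlzL : Real.log z ≤ L := by
      rw [hL]; exact Real.log_le_log (by linarith) hzX
    have hVz : cV / Real.log z ≤ V := by
      rw [hV, hP]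
      exact (hVP z hz).trans (V_lower W ps z)
    have hVL : cV / L ≤ V := (div_le_div_of_nonneg_left hcV.le hlz hlzL).trans hVz
    have hV0 : 0 < V := lt_of_lt_of_le (by positivity) hVL
    have hlog2 := log2_le z hz L hlzL (by linarith)
    -- the main term
    obtain ⟨M, hM⟩ : ∃ M, M = X * V / (400 * φ4) := ⟨_, rfl⟩
    have hM0 : 0 < M := by rw [hM]; positivity
    have hMlow : X * cV / (400 * φ4 * L) ≤ M := by
      rw [hM]
      calc X * cV / (400 * φ4 * L) = X * (cV / L) / (400 * φ4) := by field_simp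
        _ ≤ _ := by gcongr
    -- the lower bound for the weighted sum
    have hR1 : z ^ B1 ≤ ⌊X ^ (1 / 100 : ℝ)⌋₊ := by
      apply Nat.le_floor
      push_cast
      exact (pow_le_pow_right₀ (by linarith) hBB1).trans hzB
    have hEE : ∀ b : ℕ → ℕ, (∀ q, 1 ≤ q → q.Coprime 2 → q.Coprime W → (b q).Coprime (4 * (W * q))) →
        ∑ q ∈ QQ W ps ⌊X ^ (1 / 100 : ℝ)⌋₊, (if q.Coprime 2 then |EPhi X (4 * (W * q)) (b q)| else 0) ≤
          X / (φ1 * L ^ 3) := by
      intro b hb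
      have h7 := hbv (fun q => if q.Coprime W then b q else 1) (by
        intro q hq1 hq2
        rw [← hW]
        split_ifs with hq3
        · exact hb q hq1 hq2 hq3
        · exact Nat.coprime_one_left _)
      rw [← hW, ← hL, ← hφ1] at h7
      refine le_trans (sum_le_sum ?_) h7
      intro q hq
      have hqm := mem_QQ.1 hq
      have hqW : q.Coprime W := Nat.Coprime.coprime_mul_right_right hqm.2.2
      have hτ : (1 : ℝ) ≤ (q.divisors.card : ℝ) ^ 3 := by
        apply one_le_pow₀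
        have : 0 < q.divisors.card := card_pos.2 ⟨1, Nat.one_mem_divisors.2 (by omega)⟩
        exact_mod_cast this
      rw [if_pos hqW]
      split_ifs
      · have h8 := abs_nonneg (EPhi X (4 * (W * q)) (b q))
        nlinarith
      · simp
    have hlow := hFL z hz X (by linarith) W ps a hW1 ha hW2 (by rcases hpsz with h | h <;> omega)
      (by rcases hpsz with h | h; exacts [Or.inl h, Or.inr h.1]) ⌊X ^ (1 / 100 : ℝ)⌋₊ hR1
      (X / (φ1 * L ^ 3)) hEE
    rw [← hP, ← hV, ← hφ4] at hlow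
    have hm1 : M ≤ (1 / 2 : ℝ) * (LPhi X / φ4 * V) := by
      rw [hM]
      calc X * V / (400 * φ4) = (1 / 2 : ℝ) * (X / 200 / φ4 * V) := by
            field_simp
            ring
        _ ≤ _ := by gcongr
    have hm2 : ((Nat.log 2 z : ℝ) + 2) * (X / (φ1 * L ^ 3)) ≤ M / 8 := by
      have h9 : (4 * L) * (X / (φ1 * L ^ 3)) ≤ X * cV / (400 * φ4 * L) / 8 := by
        rw [hφ41, div_div, mul_div_assoc', div_le_div_iff₀ (by positivity) (by positivity)]
        have h10 : 0 ≤ X * φ1 * L ^ 2 := by positivity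
        calc 4 * L * X * (400 * (4 * φ1) * L * 8) = 51200 * (X * φ1 * L ^ 2) := by ring
          _ ≤ (cV * L) * (X * φ1 * L ^ 2) := mul_le_mul_of_nonneg_right hLc h10
          _ = _ := by ring
      calc ((Nat.log 2 z : ℝ) + 2) * (X / (φ1 * L ^ 3)) ≤ (4 * L) * (X / (φ1 * L ^ 3)) :=
            mul_le_mul_of_nonneg_right hlog2 (by positivity)
        _ ≤ _ := h9
        _ ≤ _ := by linarith
    -- small powers of `X`
    have hsmall : 51200 * L ^ 3 * X ^ (3 / 5 : ℝ) ≤ cV * X := by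
      calc 51200 * L ^ 3 * X ^ (3 / 5 : ℝ) ≤ cV * X ^ (2 / 5 : ℝ) * X ^ (3 / 5 : ℝ) :=
            mul_le_mul_of_nonneg_right h3 (by positivity)
        _ = cV * X := by
            rw [mul_assoc, ← Real.rpow_add hX0]
            norm_num
    have hsm2 : ∀ t : ℝ, 0 ≤ t → t ≤ 4 * L ^ 2 * X ^ (1 / 2 : ℝ) → t ≤ M / 8 := by
      intro t ht0 ht
      have h9 : t ≤ X * cV / (400 * φ4 * L) / 8 := by
        rw [div_div, le_div_iff₀ (by positivity)]
        calc t * (400 * φ4 * L * 8) ≤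
            (4 * L ^ 2 * X ^ (1 / 2 : ℝ)) * (400 * (4 * X ^ (1 / 500 : ℝ)) * L * 8) := by gcongr
          _ = 51200 * L ^ 3 * (X ^ (1 / 2 : ℝ) * X ^ (1 / 500 : ℝ)) := by ring
          _ = 51200 * L ^ 3 * X ^ (1 / 2 + 1 / 500 : ℝ) := by rw [Real.rpow_add hX0]
          _ ≤ 51200 * L ^ 3 * X ^ (3 / 5 : ℝ) := by
              apply mul_le_mul_of_nonneg_left _ (by positivity)
              exact Real.rpow_le_rpow_of_exponent_le (by linarith) (by norm_num)
          _ ≤ _ := by linarith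
      linarith
    have hlog3 : Real.log (3 * X) ≤ 2 * L := by
      rw [Real.log_mul (by norm_num) (by linarith), ← hL]
      have h9 : Real.log 3 ≤ L := by
        rw [hL]; exact Real.log_le_log (by norm_num) (by linarith)
      linarith
    have hlog30 : 0 ≤ Real.log (3 * X) := Real.log_nonneg (by linarith)
    have hm4 : √(3 * X) * Real.log (3 * X) ≤ M / 8 := by
      apply hsm2 _ (by positivity)
      have h9 : √(3 * X) ≤ 2 * X ^ (1 / 2 : ℝ) := by
        rw [← Real.sqrt_eq_rpow, ← Real.sqrt_sq (by norm_num : (0 : ℝ) ≤ 2), ← Real.sqrt_mul (by norm_num)]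
        apply Real.sqrt_le_sqrt
        linarith
      calc √(3 * X) * Real.log (3 * X) ≤ (2 * X ^ (1 / 2 : ℝ)) * (2 * L) :=
            mul_le_mul h9 hlog3 hlog30 (by positivity)
        _ = 4 * L * X ^ (1 / 2 : ℝ) := by ring
        _ ≤ 4 * L ^ 2 * X ^ (1 / 2 : ℝ) := by
            apply mul_le_mul_of_nonneg_right _ (by positivity)
            nlinarith
    have hm3 : L * ((BB X (4 * W) a ps P).card : ℝ) ≤ M / 8 + M / 8 := by
      rcases hpsz with hps1 | ⟨hpsp, hpsB⟩
      · have : BB X (4 * W) a ps P = ∅ := by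
          unfold BB
          rw [filter_eq_empty_iff]
          intro n _ h
          have := h.2.2.2.2.1
          rw [hps1] at this
          exact Nat.not_prime_one this
        rw [this, card_empty]
        push_cast
        linarith
      have hnd : ¬ ps ∣ W := by
        intro h
        rw [hW] at h
        exact (dvd_WW hpsp h).2.2 rfl
      have h9 := hBB z hz X (by linarith) hzX W ps a hW1 hW2 hW3 (by omega) hnd
      rw [← hP, ← hV, ← hφ4] at h9
      have hpsr : 5760000 * (B : ℝ) < ps := by exact_mod_cast hpsB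
      have hBr : (1 : ℝ) ≤ B := by exact_mod_cast hB0
      have hpsr0 : (0 : ℝ) < ps := by linarith
      have h10 : L * (9 * X * V / (ps * φ4 * Real.log z)) ≤ M / 8 := by
        rw [hM, mul_div_assoc', div_div, div_le_div_iff₀ (by positivity) (by positivity)]
        have h11 : 0 ≤ X * V * φ4 := by positivity
        calc L * (9 * X * V) * (400 * φ4 * 8) = 28800 * (L * (X * V * φ4)) := by ring
          _ ≤ 28800 * ((200 * B * Real.log z) * (X * V * φ4)) := by gcongr
          _ = (5760000 * B) * (Real.log z * (X * V * φ4)) := by ring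
          _ ≤ ps * (Real.log z * (X * V * φ4)) := by gcongr
          _ = _ := by ring
      have h12 : L * (((Nat.log 2 z : ℝ) + 2) * (z : ℝ) ^ (2 * B2)) ≤ M / 8 := by
        apply hsm2 _ (by positivity)
        have h13 : (z : ℝ) ^ (2 * B2) ≤ X ^ (1 / 50 : ℝ) := by
          calc (z : ℝ) ^ (2 * B2) ≤ (z : ℝ) ^ (2 * B) := pow_le_pow_right₀ (by linarith) (by omega)
            _ = (z : ℝ) ^ B * (z : ℝ) ^ B := by rw [two_mul, pow_add]
            _ ≤ X ^ (1 / 100 : ℝ) * X ^ (1 / 100 : ℝ) := by gcongr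
            _ = X ^ (1 / 50 : ℝ) := by rw [← Real.rpow_add hX0]; norm_num
        calc L * (((Nat.log 2 z : ℝ) + 2) * (z : ℝ) ^ (2 * B2)) ≤ L * ((4 * L) * X ^ (1 / 50 : ℝ)) := by
              gcongr
          _ = 4 * L ^ 2 * X ^ (1 / 50 : ℝ) := by ring
          _ ≤ 4 * L ^ 2 * X ^ (1 / 2 : ℝ) := by
              apply mul_le_mul_of_nonneg_left _ (by positivity)
              exact Real.rpow_le_rpow_of_exponent_le (by linarith) (by norm_num)
      have h14 := mul_le_mul_of_nonneg_left h9 hL0.le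
      rw [mul_add] at h14
      linarith
    -- conclusion
    have hsplit := split_part X (by linarith) (4 * W) a ps P
    have hGB : (1 / 2) * Real.log (3 * X) * (((GG X (4 * W) a ps P).card : ℝ) + (BB X (4 * W) a ps P).card) ≤
        L * (((GG X (4 * W) a ps P).card : ℝ) + (BB X (4 * W) a ps P).card) := by
      apply mul_le_mul_of_nonneg_right _ (by positivity)
      linarith
    rw [mul_add] at hGB
    have hGG : M / 2 ≤ L * ((GG X (4 * W) a ps P).card : ℝ) := by linarith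
    rw [← hP, ← hφ4]
    have h20 : X * cV / (800 * φ4 * L * L) ≤ ((GG X (4 * W) a ps P).card : ℝ) := by
      rw [div_le_iff₀ (by positivity)]
      have h21 : X * cV / (400 * φ4 * L) / 2 ≤ L * ((GG X (4 * W) a ps P).card : ℝ) := by linarith
      rw [div_div, div_le_iff₀ (by positivity)] at h21
      linarith
    refine le_trans ?_ h20
    rw [div_le_div_iff₀ (by positivity) (by positivity)]
    have h22 : 0 ≤ X * φ4 * L ^ 2 := by positivity
    calc X * (800 * φ4 * L * L) = 800 * (X * φ4 * L ^ 2) := by ring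
      _ ≤ (cV * L) * (X * φ4 * L ^ 2) := by
          apply mul_le_mul_of_nonneg_right _ h22
          linarith
      _ = _ := by ring
  exact eventually_atTop.mp ev

end Pool.Agent.Q84.MB
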