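import Pool.Agent.Q84.MB.B8

/-!
The sum over the classes modulo `4 W` above a class modulo a divisor `4 W'`.
-/

set_option autoImplicit false

open Finset Filter Topology

namespace Pool.Agent.Q84.MB

open Pool.Agent.H378R2 Pool.Agent.H378R2.LSBV Pool.Agent.Y855

/-- the classes above a class -/
theorem fibre (M c : ℕ) (hM : 1 ≤ M) (hc : c.Coprime M) (U : Finset ℕ) :
    (∀ q ∈ U, q.Prime ∧ 3 ≤ q ∧ ¬ q ∣ M) →
    ∃ A : Finset ℕ, A.card = ∏ q ∈ U, (q - 2) ∧ (∀ a ∈ A, a ≡ c [MOD M] ∧ a.Coprime (M * ∏ q ∈ U, q) ∧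
      ∀ q ∈ U, ¬ q ∣ a - 1 ∧ 1 ≤ a) ∧
      ∀ a ∈ A, ∀ b ∈ A, a ≡ b [MOD M * ∏ q ∈ U, q] → a = b := by
  classical
  induction U using Finset.induction_on with
  | empty =>
    intro _
    refine ⟨{c}, by simp, fun a ha => ?_, fun a ha b hb _ => ?_⟩
    · rw [mem_singleton] at ha
      subst ha
      refine ⟨Nat.ModEq.refl _, by simpa using hc, fun q hq => by simp at hq⟩
    · rw [mem_singleton] at ha hb
      rw [ha, hb]
  | insert q U hqU ih =>
    intro hU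
    obtain ⟨A, hA1, hA2, hA3⟩ := ih fun r hr => hU r (mem_insert_of_mem hr)
    obtain ⟨hq, hq3, hqM⟩ := hU q (mem_insert_self _ _)
    have hcopq : ∀ r ∈ U, q.Coprime r := by
      intro r hr
      refine (Nat.coprime_primes hq (hU r (mem_insert_of_mem hr)).1).2 ?_
      rintro rfl
      exact hqU hr
    have hcop : (M * ∏ r ∈ U, r).Coprime q := by
      apply Nat.Coprime.mul_left
      · exact ((Nat.Prime.coprime_iff_not_dvd hq).2 hqM).symm
      · exact Nat.Coprime.prod_left fun r hr => (hcopq r hr).symm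
    have hf : ∀ a r : ℕ, ∃ x : ℕ, x ≡ a [MOD M * ∏ r ∈ U, r] ∧ x ≡ r [MOD q] := by
      intro a r
      obtain ⟨x, h1, h2⟩ := Nat.chineseRemainder hcop a r
      exact ⟨x, h1, h2⟩
    choose f hf1 hf2 using hf
    have hinj : ∀ a ∈ A, ∀ b ∈ A, ∀ r ∈ Icc 2 (q - 1), ∀ s ∈ Icc 2 (q - 1),
        f a r ≡ f b s [MOD M * ∏ r ∈ insert q U, r] → a = b ∧ r = s := by
      intro a ha b hb r hr s hs h
      rw [prod_insert hqU] at h
      have e : M * (q * ∏ r ∈ U, r) = (M * ∏ r ∈ U, r) * q := by ring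
      rw [e] at h
      have h1 := (Nat.modEq_and_modEq_iff_modEq_mul hcop).2 h
      rw [mem_Icc] at hr hs
      constructor
      · exact hA3 a ha b hb ((hf1 a r).symm.trans (h1.1.trans (hf1 b s)))
      · have h2 : r ≡ s [MOD q] := (hf2 a r).symm.trans (h1.2.trans (hf2 b s))
        exact Nat.ModEq.eq_of_lt_of_lt h2 (by omega) (by omega)
    refine ⟨(A ×ˢ Icc 2 (q - 1)).image (fun x => f x.1 x.2), ?_, ?_, ?_⟩
    · rw [card_image_of_injOn, card_product, hA1, Nat.card_Icc, prod_insert hqU, mul_comm]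
      · rfl
      · intro x hx y hy hxy
        rw [mem_coe, mem_product] at hx hy
        have h := hinj x.1 hx.1 y.1 hy.1 x.2 hx.2 y.2 hy.2 (by
          simp only at hxy
          rw [hxy])
        exact Prod.ext h.1 h.2
    · intro a ha
      rw [mem_image] at ha
      obtain ⟨x, hx, rfl⟩ := ha
      rw [mem_product, mem_Icc] at hx
      obtain ⟨h1, h2, h3⟩ := hA2 x.1 hx.1
      have h4 := hf1 x.1 x.2
      have h5 := hf2 x.1 x.2
      have hnd : ¬ q ∣ f x.1 x.2 := by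
        intro hd
        have h6 : q ∣ x.2 := ((h5.dvd_iff dvd_rfl).1 hd)
        have := Nat.le_of_dvd (by omega) h6
        omega
      have hpos : 1 ≤ f x.1 x.2 := by
        by_contra hcon
        apply hnd
        have : f x.1 x.2 = 0 := by omega
        rw [this]
        exact dvd_zero q
      have hnd1 : ¬ q ∣ f x.1 x.2 - 1 := by
        intro hd
        have h6 : f x.1 x.2 ≡ 1 [MOD q] := ((Nat.modEq_iff_dvd' hpos).2 hd).symm
        have h7 : x.2 ≡ 1 [MOD q] := h5.symm.trans h6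
        have := Nat.ModEq.eq_of_lt_of_lt h7 (by omega) (by omega)
        omega
      refine ⟨(h4.of_dvd (Dvd.intro _ rfl)).trans h1, ?_, ?_⟩
      · rw [prod_insert hqU]
        have e : M * (q * ∏ r ∈ U, r) = (M * ∏ r ∈ U, r) * q := by ring
        rw [e]
        apply Nat.Coprime.mul_right
        · have : (f x.1 x.2).gcd (M * ∏ r ∈ U, r) = x.1.gcd (M * ∏ r ∈ U, r) := h4.gcd_eq
          unfold Nat.Coprime
          rw [this]
          exact h2
        · exact ((Nat.Prime.coprime_iff_not_dvd hq).2 hnd).symm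
      · intro r hr
        rcases mem_insert.1 hr with h | h
        · rw [h]
          exact ⟨hnd1, hpos⟩
        · refine ⟨fun hd => ?_, hpos⟩
          obtain ⟨h8, h9⟩ := h3 r h
          apply h8
          have h10 : f x.1 x.2 ≡ 1 [MOD r] := ((Nat.modEq_iff_dvd' hpos).2 hd).symm
          have h11 : f x.1 x.2 ≡ x.1 [MOD r] := h4.of_dvd ((dvd_prod_of_mem (fun r => r) h).mul_left M)
          exact (Nat.modEq_iff_dvd' h9).1 (h10.symm.trans h11)
    · intro a ha b hb hab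
      rw [mem_image] at ha hb
      obtain ⟨x, hx, rfl⟩ := ha
      obtain ⟨y, hy, rfl⟩ := hb
      rw [mem_product] at hx hy
      obtain ⟨h1, h2⟩ := hinj x.1 hx.1 y.1 hy.1 x.2 hx.2 y.2 hy.2 hab
      rw [h1, h2]

/-- the good primes of a class modulo a divisor of the big modulus -/
noncomputable def HH (X : ℝ) (m c z : ℕ) : Finset ℕ :=
  (Icc 1 ⌊3 * X⌋₊).filter (fun n => n.Prime ∧ X < n ∧ n ≡ c [MOD m] ∧
    ∀ l ∈ Icc 3 z, l.Prime → ¬ l ∣ n - 1)

theorem card_HH (X : ℝ) (hX : 1 ≤ X) (ps W z : ℕ) (y : ℕ) (hW : Squarefree W) (h2 : 2 ∣ W) (hpsz : ps = 1 ∨ ps.Prime)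
    (hy2 : 2 ≤ y) (t : ℝ) (ht0 : 0 ≤ t)
    (hG : ∀ a : ℕ, a.Coprime (4 * W) → t ≤ ((GG X (4 * W) a ps (PZ W ps z)).card : ℝ))
    (c : ℕ) (hc : c.Coprime (4 * ∏ q ∈ W.primeFactors.filter (fun q => q ≤ y), q))
    (hc1 : ∀ q : ℕ, q.Prime → q ∣ W → 3 ≤ q → q ≤ y → ¬ c ≡ 1 [MOD q]) :
    (∏ q ∈ W.primeFactors.filter (fun q => ¬ q ≤ y), ((q : ℝ) - 2)) * t ≤
      ((HH X (4 * ∏ q ∈ W.primeFactors.filter (fun q => q ≤ y), q) c z).card : ℝ) := by
  obtain ⟨W1, hW1⟩ : ∃ W1, W1 = ∏ q ∈ W.primeFactors.filter (fun q => q ≤ y), q := ⟨_, rfl⟩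
  obtain ⟨U, hU⟩ : ∃ U, U = W.primeFactors.filter (fun q => ¬ q ≤ y) := ⟨_, rfl⟩
  have hW0 : W ≠ 0 := hW.ne_zero
  rw [← hW1] at hc ⊢
  rw [← hU]
  have hWeq : W = W1 * ∏ q ∈ U, q := by
    rw [hW1, hU, prod_filter_mul_prod_filter_not]
    exact (Nat.prod_primeFactors_of_squarefree hW).symm
  have h4W : 4 * W = (4 * W1) * ∏ q ∈ U, q := by rw [hWeq]; ring
  have hUm : ∀ q ∈ U, q.Prime ∧ q ∣ W ∧ y < q := by
    intro q hq
    rw [hU, mem_filter, Nat.mem_primeFactors] at hq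
    exact ⟨hq.1.1, hq.1.2.1, not_le.1 hq.2⟩
  have hW1p : ∀ q : ℕ, q.Prime → q ∣ W1 → q ≤ y ∧ q ∣ W := by
    intro q hq hd
    rw [hW1] at hd
    obtain ⟨r, hr, hd'⟩ := (Prime.dvd_finsetProd_iff hq.prime _).1 hd
    rw [mem_filter, Nat.mem_primeFactors] at hr
    have := (Nat.prime_dvd_prime_iff_eq hq hr.1.1).1 hd'
    rw [this]
    exact ⟨hr.2, hr.1.2.1⟩
  have hW11 : 1 ≤ W1 := by
    rw [hW1]
    exact prod_pos fun q hq => (Nat.prime_of_mem_primeFactors (mem_filter.1 hq).1).pos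
  have hUc : ∀ q ∈ U, q.Prime ∧ 3 ≤ q ∧ ¬ q ∣ 4 * W1 := by
    intro q hq
    obtain ⟨h1, h3, h4⟩ := hUm q hq
    refine ⟨h1, by omega, fun hd => ?_⟩
    rcases (Nat.Prime.dvd_mul h1).1 hd with h5 | h5
    · have h6 : q ∣ 2 ^ 2 := h5
      have := (Nat.prime_dvd_prime_iff_eq h1 Nat.prime_two).1 (h1.dvd_of_dvd_pow h6)
      omega
    · have := (hW1p q h1 h5).1
      omega
  obtain ⟨A, hA1, hA2, hA3⟩ := fibre (4 * W1) c (by omega) hc U hUc
  rw [← h4W] at hA2 hA3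
  have hdis : ∀ a ∈ A, ∀ b ∈ A, a ≠ b → Disjoint (GG X (4 * W) a ps (PZ W ps z)) (GG X (4 * W) b ps (PZ W ps z)) := by
    intro a ha b hb hab
    rw [disjoint_left]
    intro n hn hn'
    unfold GG at hn hn'
    rw [mem_filter] at hn hn'
    exact hab (hA3 a ha b hb (hn.2.2.2.1.symm.trans hn'.2.2.2.1))
  have hsub : A.biUnion (fun a => GG X (4 * W) a ps (PZ W ps z)) ⊆ HH X (4 * W1) c z := by
    intro n hn
    rw [mem_biUnion] at hn
    obtain ⟨a, ha, hn⟩ := hn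
    obtain ⟨h5, h6, h7⟩ := hA2 a ha
    unfold GG at hn
    unfold HH
    rw [mem_filter, mem_Icc] at hn ⊢
    obtain ⟨⟨hn1, hnX⟩, hnp, hXn, hna, hnP, hnps⟩ := hn
    have hnc : n ≡ c [MOD 4 * W1] := (hna.of_dvd (by rw [h4W]; exact Dvd.intro _ rfl)).trans h5
    refine ⟨⟨hn1, hnX⟩, hnp, hXn, hnc, ?_⟩
    intro l hlI hl hd
    obtain ⟨hl3, hlz⟩ := mem_Icc.1 hlI
    have hn1l : n ≡ 1 [MOD l] := ((Nat.modEq_iff_dvd' hn1).2 hd).symm
    by_cases hlW : l ∣ W
    · by_cases hly : l ≤ y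
      · apply hc1 l hl hlW hl3 hly
        have h8 : l ∣ 4 * W1 := by
          rw [hW1]
          apply Dvd.dvd.mul_left
          apply dvd_prod_of_mem (fun q => q)
          rw [mem_filter, Nat.mem_primeFactors]
          exact ⟨⟨hl, hlW, hW0⟩, hly⟩
        exact (hnc.of_dvd h8).symm.trans hn1l
      · have hlU : l ∈ U := by
          rw [hU, mem_filter, Nat.mem_primeFactors]
          exact ⟨⟨hl, hlW, hW0⟩, hly⟩
        obtain ⟨h8, h9⟩ := h7 l hlU
        apply h8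
        have h10 : n ≡ a [MOD l] := hna.of_dvd (hlW.mul_left 4)
        exact (Nat.modEq_iff_dvd' h9).1 (hn1l.symm.trans h10)
    · by_cases hlps : l = ps
      · exact hnps (hlps ▸ hl) (hlps ▸ hd)
      · exact hnP l (mem_PZ.2 ⟨⟨hl3, hlz⟩, hl, hlW, hlps⟩) hd
  have hcard := card_le_card hsub
  rw [card_biUnion hdis] at hcard
  have h1 : (A.card : ℝ) * t ≤ ∑ a ∈ A, ((GG X (4 * W) a ps (PZ W ps z)).card : ℝ) := by
    rw [← nsmul_eq_mul]
    exact card_nsmul_le_sum _ _ _ fun a ha => hG a (hA2 a ha).2.1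
  have h3 : (A.card : ℝ) = ∏ q ∈ U, ((q : ℝ) - 2) := by
    rw [hA1]
    push_cast
    apply prod_congr rfl
    intro q hq
    rw [Nat.cast_sub (by have := (hUc q hq).2.1; omega)]
    norm_num
  rw [h3] at h1
  refine h1.trans ?_
  exact_mod_cast hcard

end Pool.Agent.Q84.MB
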