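import Pool.Agent.Q84.MB.B2

set_option autoImplicit false

/-!
The Bombieri-Vinogradov theorem relative to a big modulus `E W`, `E` fixed: preparations.
-/

open Finset Filter Topology

namespace Pool.Agent.Q84.MB

open Pool.Agent.H378R2 Pool.Agent.H378R2.LSBV Pool.Agent.Helper112 Pool.Agent.H398R2.BV

theorem exists_psE (E Z fs : ℕ) (hE1 : 1 ≤ E) (hE : ∀ p : ℕ, p.Prime → p ∣ E → p ≤ Z)
    (h : fs = 0 ∨ E * primorial Z < fs) :
    ∃ ps, GoodP Z ps ∧ ∀ d e, 1 < e * d → Squarefree d → e ∣ E → d.Coprime ps → e * d ≠ fs := by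
  by_cases hc : ∃ d e, Squarefree d ∧ e ∣ E ∧ e * d = fs ∧ 1 < fs
  · obtain ⟨d, e, hsq, he, hed, h1⟩ := hc
    have h2 : E * primorial Z < fs := by
      rcases h with h | h
      · omega
      · exact h
    have he4 : e ≤ E := Nat.le_of_dvd hE1 he
    have hd : primorial Z < d := by
      by_contra hcon
      push Not at hcon
      have : e * d ≤ E * primorial Z := Nat.mul_le_mul he4 hcon
      omega
    have h3 : ∃ p, p.Prime ∧ p ∣ d ∧ Z < p := by
      by_contra hcon
      push Not at hcon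
      have h4 : d ∣ primorial Z := by
        rw [← Nat.prod_primeFactors_of_squarefree hsq]
        unfold primorial
        apply prod_dvd_prod_of_subset
        intro p hp
        rw [mem_filter, mem_range]
        have hp' := Nat.prime_of_mem_primeFactors hp
        have := hcon p hp' (Nat.dvd_of_mem_primeFactors hp)
        exact ⟨by omega, hp'⟩
      have := Nat.le_of_dvd (primorial_pos Z) h4
      omega
    obtain ⟨p, hp, hpf, hpZ⟩ := h3
    refine ⟨p, Or.inr ⟨hp, hpZ⟩, fun d' e' _ _ he' hcop hf => ?_⟩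
    have h5 : p ∣ e' * d' := by
      rw [hf, ← hed]
      exact Dvd.dvd.mul_left hpf e
    rcases (Nat.Prime.dvd_mul hp).1 h5 with h6 | h6
    · have h7 := hE p hp (h6.trans he')
      omega
    · have h9 := hcop.symm
      rw [Nat.Prime.coprime_iff_not_dvd hp] at h9
      exact h9 h6
  · refine ⟨1, Or.inl rfl, fun d e h1 h2 h3 _ hf => hc ⟨d, e, h2, h3, hf, ?_⟩⟩
    omega

/-- the sum over the primitive characters of conductor `e f`, `e ∣ E` -/
noncomputable def TE (E : ℕ) (X : ℝ) (f : ℕ) : ℝ := ∑ e ∈ E.divisors, TT X (e * f)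

theorem TE_nonneg (E : ℕ) (X : ℝ) (f : ℕ) : 0 ≤ TE E X f := sum_nonneg fun _ _ => TT_nonneg X _

theorem sum_TE (E : ℕ) (X : ℝ) (F F' : ℕ) (hF : E * F' ≤ F) :
    ∑ f ∈ Icc 2 F', TE E X f ≤ (E.divisors.card : ℝ) * ∑ f ∈ Icc 2 F, TT X f := by
  unfold TE
  rw [sum_comm]
  have h1 : ∀ e ∈ E.divisors, ∑ f ∈ Icc 2 F', TT X (e * f) ≤ ∑ f ∈ Icc 2 F, TT X f := by
    intro e he
    have he1 : 1 ≤ e ∧ e ≤ E := ⟨Nat.pos_of_mem_divisors he, Nat.divisor_le he⟩
    rw [← sum_image (f := TT X) (g := fun f => e * f) (s := Icc 2 F')]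
    · apply sum_le_sum_of_subset_of_nonneg
      · intro f hf
        rw [mem_image] at hf
        obtain ⟨g, hg, rfl⟩ := hf
        rw [mem_Icc] at hg ⊢
        refine ⟨?_, ?_⟩
        · nlinarith
        · calc e * g ≤ E * F' := Nat.mul_le_mul he1.2 hg.2
            _ ≤ F := hF
      · intro f _ _
        exact TT_nonneg X f
    · intro a _ b _ hab
      exact Nat.eq_of_mul_eq_mul_left (by omega) hab
  refine (sum_le_sum h1).trans (le_of_eq ?_)
  rw [sum_const, nsmul_eq_mul]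

theorem sum_divE (E : ℕ) (hE1 : 1 ≤ E) (X : ℝ) (V : ℕ) (hV : 1 ≤ V) :
    ∑ g ∈ (E * V).divisors.filter (fun g => g ≠ 1), TT X g ≤
      ∑ f ∈ V.divisors.filter (fun f => f ≠ 1), TE E X f + ∑ e ∈ E.divisors.filter (fun e => e ≠ 1), TT X e := by
  classical
  obtain ⟨φ, hφ⟩ : ∃ φ : ℕ → ℕ × ℕ, ∀ g, φ g = (Nat.gcd g V, g / Nat.gcd g V) := ⟨fun g => _, fun g => rfl⟩
  have hmul : ∀ g, (φ g).2 * (φ g).1 = g := by
    intro g
    rw [hφ]
    exact Nat.div_mul_cancel (Nat.gcd_dvd_left g V)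
  have hinj : Function.Injective φ := by
    intro g g' h
    rw [← hmul g, ← hmul g', h]
  have h1 : ∑ g ∈ (E * V).divisors.filter (fun g => g ≠ 1), TT X g =
      ∑ p ∈ ((E * V).divisors.filter (fun g => g ≠ 1)).image φ, TT X (p.2 * p.1) := by
    rw [sum_image (fun a _ b _ hab => hinj hab)]
    exact sum_congr rfl fun g _ => by rw [hmul]
  rw [h1]
  have h2 : ((E * V).divisors.filter (fun g => g ≠ 1)).image φ ⊆
      (V.divisors ×ˢ E.divisors).filter (fun p => p.2 * p.1 ≠ 1) := by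
    intro p hp
    rw [mem_image] at hp
    obtain ⟨g, hg, rfl⟩ := hp
    rw [mem_filter, Nat.mem_divisors] at hg
    obtain ⟨⟨hg1, hg2⟩, hg3⟩ := hg
    rw [mem_filter, mem_product, Nat.mem_divisors, hmul g]
    have h3 : (φ g).1 = Nat.gcd g V := by rw [hφ]
    have h4 : (φ g).2 = g / Nat.gcd g V := by rw [hφ]
    have hgpos : 0 < g := Nat.pos_of_dvd_of_pos hg1 (by positivity)
    have hd0 : 0 < Nat.gcd g V := Nat.gcd_pos_of_pos_left _ hgpos
    refine ⟨⟨⟨by rw [h3]; exact Nat.gcd_dvd_right g V, by omega⟩, ?_⟩, hg3⟩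
    rw [h4]
    have h5 : (g / Nat.gcd g V).Coprime (V / Nat.gcd g V) := Nat.coprime_div_gcd_div_gcd hd0
    have h6 : g / Nat.gcd g V ∣ E * (V / Nat.gcd g V) := by
      rw [← Nat.mul_div_assoc E (Nat.gcd_dvd_right g V)]
      exact Nat.div_dvd_div (Nat.gcd_dvd_left g V) hg1
    have h7 : g / Nat.gcd g V ∣ E := h5.dvd_of_dvd_mul_right h6
    exact Nat.mem_divisors.2 ⟨h7, by omega⟩
  refine (sum_le_sum_of_subset_of_nonneg h2 fun p _ _ => TT_nonneg X _).trans ?_
  rw [sum_filter, sum_product]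
  have h10 : ∀ f ∈ V.divisors, (∑ e ∈ E.divisors, if e * f ≠ 1 then TT X (e * f) else 0) ≤
      (if f ≠ 1 then TE E X f else 0) +
        (if f = 1 then ∑ e ∈ E.divisors.filter (fun e => e ≠ 1), TT X e else 0) := by
    intro f _
    by_cases hf : f = 1
    · subst hf
      simp only [ne_eq, mul_one, not_true_eq_false, if_false, if_true, zero_add]
      rw [sum_filter]
    · rw [if_pos hf, if_neg hf, add_zero]
      unfold TE
      apply sum_le_sum
      intro e _
      split_ifs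
      · exact le_rfl
      · exact TT_nonneg X _
  refine (sum_le_sum h10).trans ?_
  rw [sum_add_distrib, ← sum_filter, ← sum_filter]
  apply add_le_add le_rfl
  have h11 : V.divisors.filter (fun f => f = 1) ⊆ {1} := by
    intro f hf
    rw [mem_filter] at hf
    rw [mem_singleton]
    exact hf.2
  refine (sum_le_sum_of_subset_of_nonneg h11 fun _ _ _ => sum_nonneg fun _ _ => TT_nonneg X _).trans ?_
  rw [sum_singleton]

theorem sum_pairsAE (E : ℕ) (hE1 : 1 ≤ E) (X : ℝ) (hX : 0 ≤ X) (ps R D Ω Z : ℕ) (hps : GoodP Z ps)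
    (P S : Finset ℕ) (u w : ℝ)
    (hsize : ∀ p ∈ pairs X ps R S, p.2 ≤ D → (P ∩ p.1.primeFactors).card < Ω →
      E * ((p.1 * p.2 : ℕ) : ℝ) ≤ Real.exp u)
    (hsc : ∀ d e : ℕ, Squarefree d → e ∣ E → 1 < e * d → ((e * d : ℕ) : ℝ) ≤ Real.exp u → d.Coprime ps →
        ∀ χ : DirichletCharacter ℂ (e * d), χ.IsPrimitive →
          ‖psiPhi χ X‖ ≤ X * Real.exp (-w)) :
    ∑ p ∈ (pairs X ps R S).filter (fun p => p.2 ≤ D ∧ (P ∩ p.1.primeFactors).card < Ω),
      TE E X (p.1 * p.2) ≤ (E.divisors.card : ℝ) * (X * Real.exp (2 * u - w)) := by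
  classical
  obtain ⟨G, hG⟩ : ∃ G : Finset ℕ, G = (Icc 2 ⌊Real.exp u⌋₊).filter (fun f : ℕ => Squarefree f ∧
    f.Coprime ps ∧ E * (f : ℝ) ≤ Real.exp u) := ⟨_, rfl⟩
  have hEr : (1 : ℝ) ≤ E := by exact_mod_cast hE1
  have h1 : ∑ p ∈ (pairs X ps R S).filter (fun p => p.2 ≤ D ∧ (P ∩ p.1.primeFactors).card < Ω),
      TE E X (p.1 * p.2) ≤ ∑ f ∈ G, TE E X f := by
    apply pair_inj (TE E X) (TE_nonneg E X) (WW X S ps) ps R G
    · intro p hp
      rw [mem_filter] at hp
      unfold pairs at hp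
      rw [mem_filter] at hp
      exact hp.1.1
    · intro p hp
      rw [mem_filter] at hp
      have hs := hsize p hp.1 hp.2.1 hp.2.2
      unfold pairs at hp
      rw [mem_filter, mem_product, Nat.mem_divisors, mem_QQ] at hp
      obtain ⟨⟨⟨⟨ha, _⟩, ⟨hb1, hb2⟩, hb3, hb4⟩, h5⟩, _⟩ := hp
      have ha0 : 0 < p.1 := Nat.pos_of_dvd_of_pos ha (WW_pos X S ps)
      have h6 : 0 < p.1 * p.2 := by positivity
      have h6' : (0 : ℝ) < ((p.1 * p.2 : ℕ) : ℝ) := by exact_mod_cast h6
      rw [hG, mem_filter, mem_Icc]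
      refine ⟨⟨by omega, Nat.le_floor ?_⟩, ?_, ?_, hs⟩
      · nlinarith
      · have hc : p.1.Coprime p.2 := by
          have : p.2.Coprime (WW X S ps) := Nat.Coprime.coprime_mul_right_right hb4
          exact (this.coprime_dvd_right ha).symm
        rw [Nat.squarefree_mul hc]
        exact ⟨(WW_squarefree X S ps).squarefree_of_dvd ha, hb3⟩
      · apply Nat.Coprime.mul_left
        · exact (WW_coprime_ps X S ps Z hps).coprime_dvd_left ha
        · exact Nat.Coprime.coprime_mul_left_right hb4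
  refine h1.trans ?_
  have h2 : ∀ f ∈ G, TE E X f ≤ (E.divisors.card : ℝ) * (Real.exp u * (X * Real.exp (-w))) := by
    intro f hf
    rw [hG, mem_filter, mem_Icc] at hf
    obtain ⟨⟨hf1, hf2⟩, hf3, hf4, hf5⟩ := hf
    unfold TE
    have h3 : ∀ e ∈ E.divisors, TT X (e * f) ≤ Real.exp u * (X * Real.exp (-w)) := by
      intro e he
      have he1 : 1 ≤ e ∧ e ≤ E ∧ e ∣ E :=
        ⟨Nat.pos_of_mem_divisors he, Nat.divisor_le he, Nat.dvd_of_mem_divisors he⟩
      have hle : ((e * f : ℕ) : ℝ) ≤ Real.exp u := by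
        push_cast
        have h4 : (e : ℝ) ≤ E := by exact_mod_cast he1.2.1
        have h5 : (0 : ℝ) ≤ f := Nat.cast_nonneg f
        nlinarith
      have hef : 1 < e * f := by nlinarith
      refine (TT_le X (e * f) (by omega) (X * Real.exp (-w)) (by positivity)
        (hsc f e hf3 he1.2.2 hef hle hf4)).trans ?_
      exact mul_le_mul_of_nonneg_right hle (by positivity)
    refine (sum_le_sum h3).trans (le_of_eq ?_)
    rw [sum_const, nsmul_eq_mul]
  refine (sum_le_sum h2).trans ?_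
  rw [sum_const, nsmul_eq_mul]
  have h3 : (G.card : ℝ) ≤ Real.exp u := by
    have : G.card ≤ ⌊Real.exp u⌋₊ := by
      rw [hG]
      refine (card_filter_le _ _).trans ?_
      rw [Nat.card_Icc]
      omega
    calc (G.card : ℝ) ≤ ⌊Real.exp u⌋₊ := by exact_mod_cast this
      _ ≤ _ := Nat.floor_le (by positivity)
  calc (G.card : ℝ) * ((E.divisors.card : ℝ) * (Real.exp u * (X * Real.exp (-w)))) ≤
      Real.exp u * ((E.divisors.card : ℝ) * (Real.exp u * (X * Real.exp (-w)))) :=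
        mul_le_mul_of_nonneg_right h3 (by positivity)
    _ = (E.divisors.card : ℝ) * (X * (Real.exp u * Real.exp u * Real.exp (-w))) := by ring
    _ = _ := by
        rw [← Real.exp_add, ← Real.exp_add]
        congr 3
        ring

/-- Euler's function of a multiple with the same prime factors -/
theorem totE (E W : ℕ) (hE1 : 1 ≤ E) (hW : W ≠ 0) (h : ∀ p : ℕ, p.Prime → p ∣ E → p ∣ W) :
    Nat.totient (E * W) = E * Nat.totient W := by
  have hpf : (E * W).primeFactors = W.primeFactors := by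
    ext p
    simp only [Nat.mem_primeFactors]
    constructor
    · rintro ⟨hp, hd, -⟩
      refine ⟨hp, ?_, hW⟩
      rcases (Nat.Prime.dvd_mul hp).1 hd with h1 | h1
      · exact h p hp h1
      · exact h1
    · rintro ⟨hp, hd, -⟩
      exact ⟨hp, hd.mul_left E, by positivity⟩
  have h1 := Nat.totient_eq_mul_prod_factors (E * W)
  have h2 := Nat.totient_eq_mul_prod_factors W
  rw [hpf] at h1
  have h3 : (Nat.totient (E * W) : ℚ) = ((E * Nat.totient W : ℕ) : ℚ) := by
    rw [h1]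
    push_cast
    rw [h2]
    ring
  exact_mod_cast h3

end Pool.Agent.Q84.MB
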