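import Pool.Agent.Q84.MB.D9

/-!
Translates of an element all lying in a given coset of the group of `d`-th powers, `d` a prime power.
-/

set_option autoImplicit false

namespace Pool.Agent.Q84.MB

open Finset

theorem geom_char {t : ℕ} (ht : 0 < t) (z : ℂ) (hz : z = 0 ∨ z ^ t = 1) :
    ∑ i ∈ range t, z ^ i = if z = 0 then 1 else if z = 1 then (t : ℂ) else 0 := by
  split_ifs with h0 h1
  · subst h0
    rw [sum_eq_single 0]
    · simp
    · intro i _ hi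
      exact zero_pow hi
    · intro h
      exact absurd (mem_range.2 ht) h
  · subst h1
    simp
  · rcases hz with h | h
    · exact absurd h h0
    · have h2 := mul_neg_geom_sum z t
      rw [h, sub_self] at h2
      rcases mul_eq_zero.1 h2 with h3 | h3
      · exact absurd (sub_eq_zero.1 h3).symm h1
      · exact h3

section

variable {F : Type} [Field F] [Fintype F] [DecidableEq F]

/-- Weil's bound with indexed translates -/
theorem weil_idx (ℓ s : ℕ) (hℓ : ℓ.Prime) (hs : 0 < s) (hℓF : ℓ ^ s ∣ Fintype.card F - 1) (χ : MulChar F ℂ)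
    (hχ1 : χ ≠ 1) (hχ : χ ^ ℓ ^ s = 1) {K : ℕ} (y : Fin K → F) (hy : Function.Injective y)
    (J : Finset (Fin K)) (c : Fin K → ℕ) (hc : ∀ j ∈ J, 0 < c j) (hcj : ∃ j ∈ J, ¬ ℓ ∣ c j) :
    ‖∑ x : F, χ (∏ j ∈ J, (x + y j) ^ c j)‖ ≤ K * Real.sqrt (Fintype.card F) := by
  classical
  obtain ⟨J', hJ'⟩ : ∃ J' : Finset F, J' = J.image (fun j => - y j) := ⟨_, rfl⟩
  have hinj : Function.Injective (fun j => - y j) := fun a b hab => hy (neg_injective hab)
  obtain ⟨c', hc'⟩ : ∃ c' : F → ℕ, c' = fun a => ∑ j ∈ J.filter (fun j => - y j = a), c j := ⟨_, rfl⟩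
  have hc'j : ∀ j ∈ J, c' (- y j) = c j := by
    intro j hj
    rw [hc']
    simp only
    rw [sum_eq_single_of_mem j]
    · rw [mem_filter]
      exact ⟨hj, rfl⟩
    · intro i hi hij
      rw [mem_filter] at hi
      exact absurd (hinj hi.2) hij
  have hprod : ∀ x : F, ∏ a ∈ J', (x - a) ^ c' a = ∏ j ∈ J, (x + y j) ^ c j := by
    intro x
    rw [hJ', prod_image (fun i _ j _ hij => hinj hij)]
    apply prod_congr rfl
    intro j hj
    rw [hc'j j hj, sub_neg_eq_add]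
  have hw := weil_pp ℓ s hℓ hs hℓF χ hχ1 hχ J' c' (by
      intro a ha
      rw [hJ', mem_image] at ha
      obtain ⟨j, hj, rfl⟩ := ha
      rw [hc'j j hj]
      exact hc j hj) (by
      obtain ⟨j, hj, hcj⟩ := hcj
      exact ⟨- y j, by rw [hJ']; exact mem_image_of_mem _ hj, by rw [hc'j j hj]; exact hcj⟩)
  simp_rw [hprod] at hw
  refine hw.trans ?_
  apply mul_le_mul_of_nonneg_right _ (Real.sqrt_nonneg _)
  have h1 : J'.card ≤ K := by
    rw [hJ']
    refine card_image_le.trans ?_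
    have := card_le_univ J
    rwa [Fintype.card_fin] at this
  exact_mod_cast h1

/-- the bound for one term -/
theorem term_bound (ℓ s : ℕ) (hℓ : ℓ.Prime) (hℓF : ℓ ^ s ∣ Fintype.card F - 1) (χ : MulChar F ℂ)
    (hχ : orderOf χ = ℓ ^ s) {K : ℕ} (y : Fin K → F) (hy : Function.Injective y) (b : F)
    (f : Fin K → ℕ) (hf : ∀ j, f j < ℓ ^ s) (hf0 : ∃ j, f j ≠ 0) :
    ‖∑ x : F, ∏ j, (χ (b⁻¹ * (x + y j))) ^ f j‖ ≤ K * Real.sqrt (Fintype.card F) := by
  classical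
  obtain ⟨J, hJ⟩ : ∃ J : Finset (Fin K), J = univ.filter fun j => f j ≠ 0 := ⟨_, rfl⟩
  have hJmem : ∀ j, j ∈ J ↔ f j ≠ 0 := by
    intro j
    rw [hJ, mem_filter]
    simp
  have hJne : J.Nonempty := by
    obtain ⟨j, hj⟩ := hf0
    exact ⟨j, (hJmem j).2 hj⟩
  obtain ⟨j₀, hj₀, hmin⟩ := exists_min_image J (fun j => (f j).factorization ℓ) hJne
  obtain ⟨g, hg⟩ : ∃ g, g = (f j₀).factorization ℓ := ⟨_, rfl⟩
  have hgdvd : ∀ j ∈ J, ℓ ^ g ∣ f j := by
    intro j hj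
    rw [hg]
    exact (pow_dvd_pow ℓ (hmin j hj)).trans (Nat.ordProj_dvd (f j) ℓ)
  have hgs : g < s := by
    have h1 : ℓ ^ g ≤ f j₀ := Nat.le_of_dvd (Nat.pos_of_ne_zero ((hJmem j₀).1 hj₀)) (hgdvd j₀ hj₀)
    exact (Nat.pow_lt_pow_iff_right hℓ.one_lt).1 (h1.trans_lt (hf j₀))
  obtain ⟨c, hc⟩ : ∃ c : Fin K → ℕ, c = fun j => f j / ℓ ^ g := ⟨_, rfl⟩
  have hcf : ∀ j ∈ J, f j = ℓ ^ g * c j := by
    intro j hj
    rw [hc]
    exact (Nat.mul_div_cancel' (hgdvd j hj)).symm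
  have hc0 : ∀ j ∈ J, 0 < c j := by
    intro j hj
    rcases Nat.eq_zero_or_pos (c j) with h | h
    · exfalso
      apply (hJmem j).1 hj
      rw [hcf j hj, h, mul_zero]
    · exact h
  have hcj₀ : ¬ ℓ ∣ c j₀ := by
    intro h
    have h1 : ℓ ^ (g + 1) ∣ f j₀ := by
      rw [hcf j₀ hj₀, pow_succ]
      exact Nat.mul_dvd_mul_left _ h
    have h2 := (hℓ.pow_dvd_iff_le_factorization ((hJmem j₀).1 hj₀)).1 h1
    omega
  obtain ⟨ψ, hψ⟩ : ∃ ψ, ψ = χ ^ ℓ ^ g := ⟨_, rfl⟩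
  have hψ1 : ψ ≠ 1 := by
    intro h
    rw [hψ] at h
    have h1 := orderOf_dvd_of_pow_eq_one h
    rw [hχ] at h1
    have h2 := (Nat.pow_dvd_pow_iff_le_right hℓ.one_lt).1 h1
    omega
  have hψs : ψ ^ ℓ ^ (s - g) = 1 := by
    rw [hψ, ← pow_mul, ← pow_add]
    have : g + (s - g) = s := by omega
    rw [this, ← hχ]
    exact pow_orderOf_eq_one χ
  have hdv : ℓ ^ (s - g) ∣ Fintype.card F - 1 := (pow_dvd_pow ℓ (Nat.sub_le s g)).trans hℓF
  have hw := weil_idx ℓ (s - g) hℓ (by omega) hdv ψ hψ1 hψs y hy J c hc0 ⟨j₀, hj₀, hcj₀⟩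
  have hterm : ∀ x : F, ∏ j, (χ (b⁻¹ * (x + y j))) ^ f j =
      (∏ j, (χ b⁻¹) ^ f j) * ψ (∏ j ∈ J, (x + y j) ^ c j) := by
    intro x
    have h1 : ∏ j, (χ (b⁻¹ * (x + y j))) ^ f j = (∏ j, (χ b⁻¹) ^ f j) * ∏ j, (χ (x + y j)) ^ f j := by
      rw [← prod_mul_distrib]
      apply prod_congr rfl
      intro j _
      rw [map_mul, mul_pow]
    rw [h1]
    congr 1
    rw [map_prod]
    have h2 : ∏ j, (χ (x + y j)) ^ f j = ∏ j ∈ J, (χ (x + y j)) ^ f j := by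
      rw [hJ, prod_filter]
      apply prod_congr rfl
      intro j _
      split_ifs with h
      · rfl
      · rw [not_not.1 h, pow_zero]
    rw [h2]
    apply prod_congr rfl
    intro j hj
    rw [map_pow, hψ, MulChar.pow_apply' χ (pow_pos hℓ.pos g).ne', hcf j hj, pow_mul]
  simp_rw [hterm]
  rw [← mul_sum, norm_mul]
  have h3 : ‖∏ j, (χ b⁻¹) ^ f j‖ ≤ 1 := by
    rw [norm_prod]
    apply prod_le_one (fun _ _ => norm_nonneg _)
    intro j _
    rw [norm_pow]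
    exact pow_le_one₀ (norm_nonneg _) (Pool.Agent.W349.CG.WeilT.norm_char_le χ _)
  calc ‖∏ j, (χ b⁻¹) ^ f j‖ * ‖∑ x : F, ψ (∏ j ∈ J, (x + y j) ^ c j)‖ ≤
      1 * (K * Real.sqrt (Fintype.card F)) := mul_le_mul h3 hw (norm_nonneg _) zero_le_one
    _ = _ := one_mul _

/-- **Translates in a coset.** -/
theorem pat_F (ℓ s K : ℕ) (hℓ : ℓ.Prime) (hK : 1 ≤ K) (hd : ℓ ^ s ∣ Fintype.card F - 1)
    (hq : (2 * K * (ℓ ^ s) ^ K + 1) ^ 2 ≤ Fintype.card F) (y : Fin K → F) (hy : Function.Injective y)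
    (b : F) (hb : b ≠ 0) : ∃ r : F, ∀ j, ∃ z : F, z ≠ 0 ∧ r + y j = b * z ^ (ℓ ^ s) := by
  classical
  obtain ⟨χ, hχ⟩ := MulChar.exists_mulChar_orderOf F hd
    (Complex.isPrimitiveRoot_exp (ℓ ^ s) (pow_pos hℓ.pos s).ne')
  obtain ⟨t, ht⟩ : ∃ t, t = ℓ ^ s := ⟨_, rfl⟩
  have ht0 : 0 < t := by rw [ht]; exact pow_pos hℓ.pos s
  obtain ⟨q, hqd⟩ : ∃ q : ℝ, q = (Fintype.card F : ℝ) := ⟨_, rfl⟩
  by_contra hcon
  push Not at hcon
  have hpow : ∀ x : F, χ x = 0 ∨ (χ x) ^ t = 1 := by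
    intro x
    by_cases hx : x = 0
    · left
      rw [hx]
      exact MulChar.map_zero χ
    · right
      rw [← MulChar.pow_apply' χ ht0.ne', ht, ← hχ, pow_orderOf_eq_one]
      exact MulChar.one_apply (isUnit_iff_ne_zero.2 hx)
  obtain ⟨A, hA⟩ : ∃ A : F → ℂ, A = fun r => ∏ j, ∑ i ∈ range t, (χ (b⁻¹ * (r + y j))) ^ i := ⟨_, rfl⟩
  have hfac : ∀ (r : F) (j : Fin K), ‖∑ i ∈ range t, (χ (b⁻¹ * (r + y j))) ^ i‖ ≤ t := by
    intro r j
    refine (norm_sum_le _ _).trans ?_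
    have h1 : ∀ i ∈ range t, ‖(χ (b⁻¹ * (r + y j))) ^ i‖ ≤ 1 := by
      intro i _
      rw [norm_pow]
      exact pow_le_one₀ (norm_nonneg _) (Pool.Agent.W349.CG.WeilT.norm_char_le χ _)
    refine (sum_le_sum h1).trans (le_of_eq ?_)
    simp
  have hAle : ∀ r : F, ‖A r‖ ≤ if r ∈ univ.image (fun j => - y j) then (t : ℝ) ^ K else 0 := by
    intro r
    split_ifs with hr
    · rw [hA]
      simp only
      rw [norm_prod]
      calc ∏ j, ‖∑ i ∈ range t, (χ (b⁻¹ * (r + y j))) ^ i‖ ≤ ∏ _j : Fin K, (t : ℝ) :=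
            prod_le_prod (fun _ _ => norm_nonneg _) fun j _ => hfac r j
        _ = (t : ℝ) ^ K := by rw [prod_const, card_univ, Fintype.card_fin]
    · have hne : ∀ j, r + y j ≠ 0 := by
        intro j h
        apply hr
        rw [mem_image]
        exact ⟨j, mem_univ _, (eq_neg_of_add_eq_zero_left h).symm⟩
      obtain ⟨j, hj⟩ := hcon r
      have hx0 : b⁻¹ * (r + y j) ≠ 0 := mul_ne_zero (inv_ne_zero hb) (hne j)
      have hχ1 : χ (b⁻¹ * (r + y j)) ≠ 1 := by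
        intro h
        obtain ⟨u, hu⟩ := Pool.Agent.W349.CG.WeilT.pow_of_char χ (ℓ ^ s) hχ (Units.mk0 _ hx0) h
        have h2 := congrArg (fun w : Fˣ => (w : F)) hu
        simp only [Units.val_mk0, Units.val_pow_eq_pow_val] at h2
        apply hj (u : F) u.ne_zero
        rw [← h2, mul_inv_cancel_left₀ hb]
      have hχ0 : χ (b⁻¹ * (r + y j)) ≠ 0 := by
        intro h
        exact (isUnit_iff_ne_zero.1 ((isUnit_iff_ne_zero.2 hx0).map χ)) h
      have h3 : A r = 0 := by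
        rw [hA]
        simp only
        apply prod_eq_zero (mem_univ j)
        rw [geom_char ht0 _ (hpow _), if_neg hχ0, if_neg hχ1]
      rw [h3, norm_zero]
  have hup : ‖∑ r, A r‖ ≤ K * (t : ℝ) ^ K := by
    refine (norm_sum_le _ _).trans ((sum_le_sum fun r _ => hAle r).trans ?_)
    rw [← sum_filter, sum_const, nsmul_eq_mul]
    apply mul_le_mul_of_nonneg_right _ (by positivity)
    have h1 : (univ.filter fun r : F => r ∈ univ.image (fun j => - y j)).card ≤ K := by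
      have h2 : (univ.filter fun r : F => r ∈ univ.image (fun j => - y j)) ⊆ univ.image (fun j => - y j) := by
        intro r hr
        exact (mem_filter.1 hr).2
      refine (card_le_card h2).trans (card_image_le.trans ?_)
      rw [card_univ, Fintype.card_fin]
    exact_mod_cast h1
  have hexp : ∑ r, A r = ∑ f ∈ Fintype.piFinset (fun _ : Fin K => range t),
      ∑ r : F, ∏ j, (χ (b⁻¹ * (r + y j))) ^ f j := by
    rw [sum_comm]
    apply sum_congr rfl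
    intro r _
    rw [hA]
    simp only
    rw [prod_univ_sum]
  have h0mem : (0 : Fin K → ℕ) ∈ Fintype.piFinset (fun _ : Fin K => range t) := by
    rw [Fintype.mem_piFinset]
    intro j
    exact mem_range.2 ht0
  have hlow : q ≤ ‖∑ r, A r‖ + (t : ℝ) ^ K * (K * Real.sqrt q) := by
    rw [hexp, ← add_sum_erase _ _ h0mem]
    have h1 : ∑ r : F, ∏ j, (χ (b⁻¹ * (r + y j))) ^ (0 : Fin K → ℕ) j = (Fintype.card F : ℂ) := by
      simp
    rw [h1]
    obtain ⟨E, hE⟩ : ∃ E : ℂ, E = ∑ f ∈ (Fintype.piFinset (fun _ : Fin K => range t)).erase 0,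
      ∑ r : F, ∏ j, (χ (b⁻¹ * (r + y j))) ^ f j := ⟨_, rfl⟩
    rw [← hE]
    have h2 : ‖E‖ ≤ (t : ℝ) ^ K * (K * Real.sqrt q) := by
      rw [hE]
      refine (norm_sum_le _ _).trans ?_
      have h3 : ∀ f ∈ (Fintype.piFinset (fun _ : Fin K => range t)).erase 0,
          ‖∑ r : F, ∏ j, (χ (b⁻¹ * (r + y j))) ^ f j‖ ≤ K * Real.sqrt q := by
        intro f hf
        rw [mem_erase, Fintype.mem_piFinset] at hf
        rw [hqd]
        apply term_bound ℓ s hℓ hd χ hχ y hy b f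
        · intro j
          rw [← ht]
          exact mem_range.1 (hf.2 j)
        · by_contra h
          push Not at h
          exact hf.1 (funext h)
      refine (sum_le_card_nsmul _ _ _ h3).trans ?_
      rw [nsmul_eq_mul]
      apply mul_le_mul_of_nonneg_right _ (by positivity)
      have h4 : ((Fintype.piFinset (fun _ : Fin K => range t)).erase 0).card ≤ t ^ K := by
        refine (card_erase_le).trans ?_
        rw [Fintype.card_piFinset]
        simp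
      exact_mod_cast h4
    have h5 : q = ‖(Fintype.card F : ℂ)‖ := by
      rw [hqd]
      simp
    calc q = ‖((Fintype.card F : ℂ) + E) - E‖ := by rw [add_sub_cancel_right]; exact h5
      _ ≤ ‖(Fintype.card F : ℂ) + E‖ + ‖E‖ := norm_sub_le _ _
      _ ≤ _ := by linarith
  -- contradiction
  have hs1 : 2 * K * (t : ℝ) ^ K + 1 ≤ Real.sqrt q := by
    apply Real.le_sqrt_of_sq_le
    rw [hqd, ht]
    exact_mod_cast hq
  have hsq : Real.sqrt q * Real.sqrt q = q := Real.mul_self_sqrt (by rw [hqd]; positivity)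
  have hKt : 1 ≤ (K : ℝ) * (t : ℝ) ^ K := by
    have h1 : (1 : ℝ) ≤ K := by exact_mod_cast hK
    have h2 : (1 : ℝ) ≤ (t : ℝ) ^ K := one_le_pow₀ (by exact_mod_cast ht0)
    nlinarith
  nlinarith [Real.sqrt_nonneg q]

end

/-- the lemma modulo primes, for `d = ℓ ^ e` -/
theorem pat_prime (ℓ e K : ℕ) (hℓ : ℓ.Prime) (hK : 1 ≤ K) (q : ℕ) (hqp : q.Prime)
    (hq : (2 * K * (ℓ ^ e) ^ K + 1) ^ 2 ≤ q) (y : Fin K → ZMod q) (hy : Function.Injective y)
    (b : ZMod q) (hb : b ≠ 0) : ∃ r : ZMod q, ∀ j, ∃ z : ZMod q, z ≠ 0 ∧ r + y j = b * z ^ (ℓ ^ e) := by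
  classical
  have : Fact q.Prime := ⟨hqp⟩
  obtain ⟨s, hse, hs⟩ : ∃ s ≤ e, Nat.gcd (ℓ ^ e) (q - 1) = ℓ ^ s := (Nat.dvd_prime_pow hℓ).1 (Nat.gcd_dvd_left _ _)
  have hcard : Fintype.card (ZMod q) = q := ZMod.card q
  have hd : ℓ ^ s ∣ Fintype.card (ZMod q) - 1 := by
    rw [hcard, ← hs]
    exact Nat.gcd_dvd_right _ _
  obtain ⟨r, hr⟩ := pat_F ℓ s K hℓ hK hd (by
    rw [hcard]
    refine le_trans ?_ hq
    have h1 : (ℓ ^ s) ^ K ≤ (ℓ ^ e) ^ K :=
      Nat.pow_le_pow_left (Nat.pow_le_pow_right hℓ.pos hse) K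
    gcongr) y hy b hb
  refine ⟨r, fun j => ?_⟩
  obtain ⟨z, hz0, hz⟩ := hr j
  -- `ℓ ^ s`-th powers are `ℓ ^ e`-th powers
  obtain ⟨u, hu⟩ : ∃ u : (ZMod q)ˣ, u = Units.mk0 z hz0 := ⟨_, rfl⟩
  have hu1 : u ^ (q - 1) = 1 := ZMod.units_pow_card_sub_one_eq_one q u
  have hbez := Nat.gcd_eq_gcd_ab (ℓ ^ e) (q - 1)
  rw [hs] at hbez
  have h1 : u ^ (ℓ ^ s) = (u ^ (Nat.gcdA (ℓ ^ e) (q - 1))) ^ (ℓ ^ e) := by
    have h2 : u ^ (((ℓ ^ s : ℕ) : ℤ)) = (u ^ (Nat.gcdA (ℓ ^ e) (q - 1))) ^ (ℓ ^ e) := by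
      rw [hbez, zpow_add, zpow_mul, zpow_mul, zpow_natCast, zpow_natCast, hu1, one_zpow, mul_one,
        ← zpow_natCast, ← zpow_natCast, ← zpow_mul, ← zpow_mul, mul_comm]
    rwa [zpow_natCast] at h2
  refine ⟨((u ^ (Nat.gcdA (ℓ ^ e) (q - 1)) : (ZMod q)ˣ) : ZMod q), Units.ne_zero _, ?_⟩
  rw [hz]
  have h3 := congrArg (fun w : (ZMod q)ˣ => (w : ZMod q)) h1
  simp only [Units.val_pow_eq_pow_val] at h3
  rw [← h3, hu, Units.val_mk0]

end Pool.Agent.Q84.MB
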