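import Pool.Agent.Q84.MB.D8
import Pool.Agent.Q84.MB.D10

/-!
Isolated clusters of primes in prescribed cosets of the groups of `d`-th powers modulo almost all the small primes.
-/

set_option autoImplicit false

open Finset Filter Topology

namespace Pool.Agent.Q84.MB

open Pool.Agent.H378R2

/-- the class -/
theorem class_exists (d K q₀ D₀ : ℕ) (P : Finset ℕ) (hP : ∀ q ∈ P, q.Prime)
    (hpat : ∀ q : ℕ, q.Prime → q₀ < q → ∀ (y : Fin K → ZMod q), Function.Injective y → ∀ b : ZMod q, b ≠ 0 →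
      ∃ r : ZMod q, ∀ j, ∃ z : ZMod q, z ≠ 0 ∧ r + y j = b * z ^ d)
    (hK : K ≤ q₀) (b : ℕ → ℕ) (hb : ∀ q : ℕ, q.Prime → ¬ q ∣ b q) :
    ∃ a : ℕ, ∀ q ∈ P, ∀ j : Fin K, ∃ z : ℕ, ¬ q ∣ z ∧ (q ≤ q₀ → z = 1) ∧
      a + (D₀ + j * primorial q₀) ≡ b q * z ^ d [MOD q] := by
  classical
  -- the residues
  have hres : ∀ q : ℕ, ∃ ρ : ℕ, q ∈ P → ∀ j : Fin K, ∃ z : ℕ, ¬ q ∣ z ∧ (q ≤ q₀ → z = 1) ∧
      ρ + j * primorial q₀ ≡ b q * z ^ d [MOD q] := by
    intro q
    by_cases hq : q ∈ P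
    · have hqp := hP q hq
      have : Fact q.Prime := ⟨hqp⟩
      rcases Nat.lt_or_ge q₀ q with h | h
      · have hnd : ¬ q ∣ primorial q₀ := by
          rw [Nat.Prime.dvd_primorial_iff hqp]
          omega
        obtain ⟨r, hr⟩ := hpat q hqp h (fun j => ((j : ℕ) : ZMod q) * (primorial q₀ : ZMod q)) (by
          intro i j hij
          simp only at hij
          have hM : (primorial q₀ : ZMod q) ≠ 0 := by
            rw [Ne, ZMod.natCast_eq_zero_iff]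
            exact hnd
          have h1 := mul_right_cancel₀ hM hij
          rw [ZMod.natCast_eq_natCast_iff] at h1
          have h2 := Nat.ModEq.eq_of_lt_of_lt h1 (by omega) (by omega)
          exact Fin.ext h2) (b q : ZMod q) (by
          rw [Ne, ZMod.natCast_eq_zero_iff]
          exact hb q hqp)
        refine ⟨r.val, fun _ j => ?_⟩
        obtain ⟨z, hz0, hz⟩ := hr j
        refine ⟨z.val, ?_, fun h' => by omega, ?_⟩
        · intro h'
          apply hz0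
          rw [← ZMod.natCast_zmod_val z]
          exact (ZMod.natCast_eq_zero_iff _ _).2 h'
        · rw [← ZMod.natCast_eq_natCast_iff]
          push_cast
          rw [ZMod.natCast_zmod_val, ZMod.natCast_zmod_val]
          exact hz
      · refine ⟨b q, fun _ j => ⟨1, fun h' => hqp.one_lt.ne' (Nat.dvd_one.1 h'), fun _ => rfl, ?_⟩⟩
        have h1 : q ∣ primorial q₀ := (Nat.Prime.dvd_primorial_iff hqp).2 h
        have h2 : (j : ℕ) * primorial q₀ ≡ 0 [MOD q] := (Nat.modEq_zero_iff_dvd).2 (h1.mul_left _)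
        have h3 := Nat.ModEq.add_left (b q) h2
        rw [add_zero] at h3
        rw [one_pow, mul_one]
        exact h3
    · exact ⟨0, fun h => absurd h hq⟩
  choose ρ hρ using hres
  obtain ⟨a₁, ha₁⟩ := Nat.chineseRemainderOfFinset ρ (fun q => q) P (fun q hq => (hP q hq).ne_zero) (by
    intro p hp q hq hpq
    exact (Nat.coprime_primes (hP p (mem_coe.1 hp)) (hP q (mem_coe.1 hq))).2 hpq)
  obtain ⟨W, hW⟩ : ∃ W, W = ∏ q ∈ P, q := ⟨_, rfl⟩
  have hW1 : 1 ≤ W := by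
    rw [hW]
    exact Nat.one_le_iff_ne_zero.2 (prod_ne_zero_iff.2 fun q hq => (hP q hq).ne_zero)
  have hD : D₀ ≤ W * D₀ := Nat.le_mul_of_pos_left D₀ hW1
  refine ⟨a₁ + (W * D₀ - D₀), fun q hq j => ?_⟩
  obtain ⟨z, hz1, hz2, hz3⟩ := hρ q hq j
  refine ⟨z, hz1, hz2, ?_⟩
  have h1 : a₁ + (W * D₀ - D₀) + (D₀ + j * primorial q₀) = (a₁ + j * primorial q₀) + W * D₀ := by omega
  have h2 : q ∣ W * D₀ := by
    rw [hW]
    exact (dvd_prod_of_mem (fun q => q) hq).mul_right _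
  rw [h1]
  have h3 : (a₁ + j * primorial q₀) + W * D₀ ≡ (a₁ + j * primorial q₀) + 0 [MOD q] :=
    Nat.ModEq.add_left _ ((Nat.modEq_zero_iff_dvd).2 h2)
  rw [add_zero] at h3
  exact h3.trans ((Nat.ModEq.add_right _ (ha₁ q hq)).trans hz3)

/-- **Isolated clusters in cosets.** -/
theorem clusters (m : ℕ) : ∃ c : ℝ, 0 < c ∧ ∀ ℓ e : ℕ, ℓ.Prime → ∀ Z : ℕ, ∃ C : ℕ, ∀ᶠ X : ℝ in atTop,
    ∃ (ps : ℕ) (S : Finset ℕ), GoodP (max Z 4) ps ∧ GoodS X S ∧ (S.card : ℝ) ≤ vv X ^ 195 ∧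
    ∀ b : ℕ → ℕ, (∀ q : ℕ, q.Prime → ¬ q ∣ b q) → ∃ G : Finset ℕ, X ^ (4 / 5 : ℝ) ≤ (G.card : ℝ) ∧
      ∀ n ∈ G, X < n ∧ (n : ℝ) ≤ 4 * X ∧ m ≤ ((Icc n (n + C)).filter Nat.Prime).card ∧
        ∀ p : ℕ, p.Prime → |(p : ℝ) - n| ≤ c * (Real.log X * Real.log (Real.log X)) →
          n ≤ p ∧ p ≤ n + C ∧ ∀ q ∈ PW X S ps, ∃ z : ℕ, ¬ q ∣ z ∧ (q ≤ Z → z = 1) ∧
            p ≡ b q * z ^ (ℓ ^ e) [MOD q] := by
  classical
  obtain ⟨K, hmK, hK1, c₁, c₂, hc₁, hc₂, hex⟩ := exact_win m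
  refine ⟨c₂ / 4, by positivity, fun ℓ e hℓ Z => ?_⟩
  obtain ⟨q₀, hq₀⟩ : ∃ q₀, q₀ = max (max Z K) ((2 * K * (ℓ ^ e) ^ K + 1) ^ 2) := ⟨_, rfl⟩
  have hZq : Z ≤ q₀ := by rw [hq₀]; exact (le_max_left _ _).trans (le_max_left _ _)
  have hKq : K ≤ q₀ := by rw [hq₀]; exact (le_max_right _ _).trans (le_max_left _ _)
  have hwq : (2 * K * (ℓ ^ e) ^ K + 1) ^ 2 ≤ q₀ := by rw [hq₀]; exact le_max_right _ _
  refine ⟨K * primorial q₀, ?_⟩
  have hlog : Tendsto Real.log atTop atTop := Real.tendsto_log_atTop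
  have hll : Tendsto (fun X : ℝ => Real.log (Real.log X)) atTop atTop := hlog.comp hlog
  have ev1 : ∀ᶠ X : ℝ in atTop, c₂ * (Real.log X * Real.log (Real.log X)) ≤ (Real.log X) ^ 2 := by
    have h1 : ∀ᶠ L : ℝ in atTop, c₂ * Real.log L ≤ L := by
      have h2 := Real.isLittleO_log_id_atTop.def (show (0 : ℝ) < 1 / c₂ by positivity)
      filter_upwards [h2, eventually_ge_atTop 1] with L h3 h4
      rw [Real.norm_of_nonneg (Real.log_nonneg h4), id, Real.norm_of_nonneg (by linarith)] at h3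
      have h5 := mul_le_mul_of_nonneg_left h3 hc₂.le
      rwa [← mul_assoc, mul_one_div, div_self hc₂.ne', one_mul] at h5
    filter_upwards [hlog.eventually h1, hlog.eventually_ge_atTop 0] with X h2 h3
    calc c₂ * (Real.log X * Real.log (Real.log X)) = Real.log X * (c₂ * Real.log (Real.log X)) := by ring
      _ ≤ Real.log X * Real.log X := mul_le_mul_of_nonneg_left h2 h3
      _ = _ := by ring
  have ev2 : ∀ᶠ X : ℝ in atTop, (K * primorial q₀ : ℕ) + 1 ≤ c₂ / 4 * (Real.log X * Real.log (Real.log X)) := by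
    have h1 : Tendsto (fun X : ℝ => Real.log X * Real.log (Real.log X)) atTop atTop := hlog.atTop_mul_atTop₀ hll
    filter_upwards [h1.eventually_ge_atTop ((((K * primorial q₀ : ℕ) : ℝ) + 1) / (c₂ / 4))] with X h2
    rw [div_le_iff₀ (by positivity)] at h2
    linarith
  have ev3 : ∀ᶠ X : ℝ in atTop, (Real.log X) ^ 2 ≤ X := by
    filter_upwards [hlog.eventually (Pool.Agent.H378R2.ev_pow_exp 2 (1 : ℝ) 1 one_pos),
      eventually_gt_atTop (0 : ℝ)] with X h1 h2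
    rwa [one_mul, one_mul, Real.exp_log h2] at h1
  filter_upwards [hex (max Z 4) (le_max_right _ _), ev1, ev2, ev3, eventually_ge_atTop (1000 : ℝ)]
    with X hX h1 h2 h3 hX1
  obtain ⟨ps, S, hps, hS, hSc, hsurv, hwin⟩ := hX
  refine ⟨ps, S, hps, hS, hSc, fun b hb => ?_⟩
  obtain ⟨Y, hY⟩ : ∃ Y : ℝ, Y = Real.log X * Real.log (Real.log X) := ⟨_, rfl⟩
  rw [← hY] at h1 h2 ⊢
  obtain ⟨D₀, hD₀⟩ : ∃ D₀ : ℕ, D₀ = ⌊c₂ / 2 * Y⌋₊ := ⟨_, rfl⟩
  have hY0 : 0 < Y := by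
    have h4 : (0 : ℝ) < c₂ / 4 * Y := by
      have : (0 : ℝ) ≤ ((K * primorial q₀ : ℕ) : ℝ) := Nat.cast_nonneg _
      linarith
    exact pos_of_mul_pos_right h4 (by positivity)
  have hDle : (D₀ : ℝ) ≤ c₂ / 2 * Y := by rw [hD₀]; exact Nat.floor_le (by positivity)
  have hDge : c₂ / 4 * Y ≤ D₀ := by
    have h4 : c₂ / 2 * Y < D₀ + 1 := by rw [hD₀]; exact Nat.lt_floor_add_one _
    have h5 : (0 : ℝ) ≤ ((K * primorial q₀ : ℕ) : ℝ) := Nat.cast_nonneg _
    linarith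
  have hKM : K * primorial q₀ ≤ D₀ := by
    have h4 : ((K * primorial q₀ : ℕ) : ℝ) ≤ D₀ := by linarith
    exact_mod_cast h4
  have hPWp : ∀ q ∈ PW X S ps, q.Prime := fun q hq => (mem_PW.1 hq).2.1
  have hMpos : 0 < primorial q₀ := primorial_pos q₀
  obtain ⟨a, ha⟩ := class_exists (ℓ ^ e) K q₀ D₀ (PW X S ps) hPWp
    (fun q hqp hq y hy b' hb' => pat_prime ℓ e K hℓ hK1 q hqp (hwq.trans hq.le) y hy b' hb') hKq b hb
  obtain ⟨T, hT⟩ : ∃ T : Finset ℕ, T = univ.image fun j : Fin K => D₀ + (j : ℕ) * primorial q₀ := ⟨_, rfl⟩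
  have hTc : T.card = K := by
    rw [hT, card_image_of_injective _ (fun i j hij => Fin.ext (Nat.eq_of_mul_eq_mul_right hMpos
      (Nat.add_left_cancel hij))), card_univ, Fintype.card_fin]
  have hTsub : T ⊆ VS (WW X S ps) a (2 * D₀) := by
    intro v hv
    rw [hT, mem_image] at hv
    obtain ⟨j, -, rfl⟩ := hv
    unfold VS
    rw [mem_filter, mem_range]
    refine ⟨?_, ?_⟩
    · have h4 : (j : ℕ) * primorial q₀ ≤ K * primorial q₀ := Nat.mul_le_mul_right _ j.2.le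
      omega
    · rw [Nat.coprime_iff_gcd_eq_one]
      by_contra hne
      obtain ⟨q, hqp, hqd⟩ := Nat.exists_prime_and_dvd hne
      have e1 : q ∣ WW X S ps := hqd.trans (Nat.gcd_dvd_right _ _)
      have e2 : q ∣ a + (D₀ + j * primorial q₀) := hqd.trans (Nat.gcd_dvd_left _ _)
      have e3 := (prime_dvd_WW hqp).1 e1
      obtain ⟨z, hz1, -, hz3⟩ := ha q e3 j
      have e4 : q ∣ b q * z ^ (ℓ ^ e) := (Nat.modEq_zero_iff_dvd).1 (hz3.symm.trans
        ((Nat.modEq_zero_iff_dvd).2 e2))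
      rcases hqp.dvd_mul.1 e4 with e5 | e5
      · exact hb q hqp e5
      · exact hz1 (hqp.dvd_of_dvd_pow e5)
  have hD2 : (((2 * D₀ : ℕ) : ℕ) : ℝ) ≤ c₂ * Y := by
    push_cast
    linarith
  obtain ⟨H, hHT, hmH, hH⟩ := hwin a (2 * D₀) (hD2.trans h1) (hsurv a (2 * D₀) (by rw [← hY]; exact hD2))
    T hTsub hTc
  refine ⟨(RS X (WW X S ps) a (2 * D₀) H).image fun n => n + D₀, ?_, ?_⟩
  · rw [card_image_of_injective _ (add_left_injective D₀)]
    exact hH
  · intro n' hn'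
    rw [mem_image] at hn'
    obtain ⟨n, hn, rfl⟩ := hn'
    unfold RS at hn
    rw [mem_filter, mem_Icc] at hn
    obtain ⟨⟨hn1, hn3⟩, hXn, hna, hiff⟩ := hn
    have hn3' : (n : ℝ) ≤ 3 * X := (Nat.le_floor_iff (by linarith)).1 hn3
    have hHrep : ∀ v ∈ H, ∃ j : Fin K, v = D₀ + j * primorial q₀ := by
      intro v hv
      have := hHT hv
      rw [hT, mem_image] at this
      obtain ⟨j, -, hj⟩ := this
      exact ⟨j, hj.symm⟩
    have hHle : ∀ v ∈ H, D₀ ≤ v ∧ v ≤ D₀ + K * primorial q₀ := by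
      intro v hv
      obtain ⟨j, rfl⟩ := hHrep v hv
      have h4 : (j : ℕ) * primorial q₀ ≤ K * primorial q₀ := Nat.mul_le_mul_right _ j.2.le
      omega
    refine ⟨?_, ?_, ?_, ?_⟩
    · push_cast
      have : (0 : ℝ) ≤ D₀ := Nat.cast_nonneg _
      linarith
    · push_cast
      have h4 : (D₀ : ℝ) ≤ X := by
        have : (0 : ℝ) ≤ c₂ * Y := by positivity
        linarith
      linarith
    · refine hmH.trans ?_
      apply card_le_card_of_injOn (fun v => n + v)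
      · intro v hv
        rw [mem_coe] at hv
        rw [mem_coe, mem_filter, mem_Icc]
        have h4 := hHle v hv
        refine ⟨⟨?_, ?_⟩, (hiff v (by omega)).2 hv⟩
        · show n + D₀ ≤ n + v
          omega
        · show n + v ≤ n + D₀ + K * primorial q₀
          omega
      · intro v _ w _ hvw
        exact Nat.add_left_cancel hvw
    · intro p hp hpn
      have h4 := (abs_le.1 (hpn.trans hDge))
      push_cast at h4
      have h5 : n ≤ p := by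
        have : (n : ℝ) ≤ p := by linarith [h4.1]
        exact_mod_cast this
      have h6 : p ≤ n + 2 * D₀ := by
        have : (p : ℝ) ≤ n + 2 * D₀ := by linarith [h4.2]
        exact_mod_cast this
      obtain ⟨v, rfl⟩ := Nat.exists_eq_add_of_le h5
      have hvH : v ∈ H := (hiff v (by omega)).1 hp
      obtain ⟨j, hj⟩ := hHrep v hvH
      have h7 := hHle v hvH
      refine ⟨by omega, by omega, fun q hq => ?_⟩
      obtain ⟨z, hz1, hz2, hz3⟩ := ha q hq j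
      refine ⟨z, hz1, fun hqZ => hz2 (hqZ.trans hZq), ?_⟩
      have h8 : n + v ≡ a + v [MOD q] := (hna.of_dvd ((prime_dvd_WW (hPWp q hq)).2 hq)).add_right v
      rw [hj] at h8 ⊢
      exact h8.trans hz3

end Pool.Agent.Q84.MB
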