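import Pool.Agent.Q84.MB.B3
import Pool.Agent.Q84.MB.D1

set_option autoImplicit false

/-!
The Bombieri-Vinogradov theorem relative to a big modulus `E W`, `E` fixed.
-/

open Finset Filter Topology

namespace Pool.Agent.Q84.MB

open Pool.Agent.H378R2 Pool.Agent.H378R2.LSBV Pool.Agent.Helper112 Pool.Agent.H398R2.BV

theorem size_algE (l v Ω z : ℝ) (k : ℝ) (hv : 4 ≤ v) (hl1 : 1 ≤ l) (hl : (3 * k + 10) * l ≤ v) (hk : 0 ≤ k)
    (hΩ : Ω ≤ v ^ 7 + 1) (hz : z ≤ l ^ 3 + 1) :
    2 * z + Ω * l + 2 * k * l + v ≤ v ^ 8 := by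
  have h1 : 10 * l ≤ v := by nlinarith
  have h2 : 3 * k * l ≤ v := by nlinarith
  have h3 : l ^ 3 ≤ v ^ 3 := by gcongr; linarith
  have h4 : Ω * l ≤ (v ^ 7 + 1) * (v / 10) := by
    calc Ω * l ≤ (v ^ 7 + 1) * l := mul_le_mul_of_nonneg_right hΩ (by linarith)
      _ ≤ _ := mul_le_mul_of_nonneg_left (by linarith) (by positivity)
  have h5 : v ^ 8 = v ^ 5 * v ^ 3 := by ring
  have h6 : (4 : ℝ) ^ 5 ≤ v ^ 5 := by gcongr
  have h7 : (4 : ℝ) ^ 3 ≤ v ^ 3 := by gcongr
  have h8 : 1024 * v ^ 3 ≤ v ^ 8 := by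
    rw [h5]
    norm_num at h6
    exact mul_le_mul_of_nonneg_right h6 (by positivity)
  have h9 : v ≤ v ^ 3 := le_self_pow₀ (by linarith) (by norm_num)
  norm_num at h7
  have h10 : (v ^ 7 + 1) * (v / 10) = v ^ 8 / 10 + v / 10 := by ring
  nlinarith

/-- Bombieri-Vinogradov relative to a suitable big modulus `E W` -/
theorem bvE (E : ℕ) (hEp : 1 ≤ E) (A Z : ℕ) (hZ : 2 ≤ Z) (hEZ : ∀ p : ℕ, p.Prime → p ∣ E → p ≤ Z) : ∃ X0 : ℝ, ∀ X : ℝ, X0 ≤ X →
    ∃ (ps : ℕ) (S : Finset ℕ), GoodP Z ps ∧ (∀ q ∈ S, q.Prime ∧ z2 X < q ∧ q ≤ yy X) ∧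
      (S.card : ℝ) ≤ vv X ^ 195 ∧
      ∀ b : ℕ → ℕ, (∀ q ∈ QQ (WW X S ps) ps ⌊X ^ (1 / 100 : ℝ)⌋₊, (b q).Coprime (E * (WW X S ps * q))) →
      ∑ q ∈ QQ (WW X S ps) ps ⌊X ^ (1 / 100 : ℝ)⌋₊,
        (q.divisors.card : ℝ) ^ A * |EPhi X (E * (WW X S ps * q)) (b q)|
        ≤ X / ((Nat.totient (WW X S ps) : ℝ) * (Real.log X) ^ A) := by
  classical
  obtain ⟨K, hK⟩ : ∃ K, K = 2 ^ (A + 1) := ⟨_, rfl⟩
  obtain ⟨N, hN⟩ : ∃ N, N = K + A + 2 := ⟨_, rfl⟩
  obtain ⟨k, hk⟩ : ∃ k, k = N + 8 := ⟨_, rfl⟩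
  obtain ⟨C0, X1, hls⟩ := ls_sum
  obtain ⟨dE, hdE⟩ : ∃ dE : ℝ, dE = (E.divisors.card : ℝ) := ⟨_, rfl⟩
  have hdE1 : 1 ≤ dE := by
    rw [hdE]
    exact_mod_cast card_pos.2 ⟨1, Nat.one_mem_divisors.2 (by omega)⟩
  have hEr1 : (1 : ℝ) ≤ E := by exact_mod_cast hEp
  obtain ⟨C1, hC1⟩ : ∃ C1, C1 = max (dE * C0) 1 := ⟨_, rfl⟩
  have hC1p : 1 ≤ C1 := by rw [hC1]; exact le_max_right _ _
  obtain ⟨C5, hC5, hwt⟩ := wt_le A
  obtain ⟨X2, hX2⟩ := small_cond (E * primorial Z)
  obtain ⟨a3, ha3⟩ := M1.exp_dominates dE (200 * N)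
  obtain ⟨a4, ha4⟩ := M1.exp_dominates (2 ^ K * (4 * (dE * E))) (200 * (K + A))
  have hlog : Tendsto Real.log atTop atTop := Real.tendsto_log_atTop
  have hloglog : Tendsto (fun X : ℝ => Real.log (Real.log X)) atTop atTop := hlog.comp hlog
  have ev : ∀ᶠ X : ℝ in atTop, ∃ (ps : ℕ) (S : Finset ℕ), GoodP Z ps ∧
      (∀ q ∈ S, q.Prime ∧ z2 X < q ∧ q ≤ yy X) ∧ (S.card : ℝ) ≤ vv X ^ 195 ∧
      ∀ b : ℕ → ℕ, (∀ q ∈ QQ (WW X S ps) ps ⌊X ^ (1 / 100 : ℝ)⌋₊, (b q).Coprime (E * (WW X S ps * q))) →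
      ∑ q ∈ QQ (WW X S ps) ps ⌊X ^ (1 / 100 : ℝ)⌋₊,
        (q.divisors.card : ℝ) ^ A * |EPhi X (E * (WW X S ps * q)) (b q)|
        ≤ X / ((Nat.totient (WW X S ps) : ℝ) * (Real.log X) ^ A) := by
    filter_upwards [eventually_ge_atTop X1, eventually_ge_atTop X2, eventually_ge_atTop (4 : ℝ),
      (tendsto_rpow_atTop (by norm_num : (0 : ℝ) < 1 / 500)).eventually_ge_atTop (E : ℝ),
      hloglog.eventually_ge_atTop (1 : ℝ),
      hlog.eventually_ge_atTop (2 ^ K * 10 * C5 * C1),
      ev_log (16 * C5) (A + 2) (1 / 2) (by norm_num),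
      vv_tendsto.eventually_ge_atTop (max (max a3 a4) (max 4 (E : ℝ))),
      loglog_le (3 * k + 10)] with X h1 h2 hX4 h4X h4 h5 h6 h7 h8
    have hX0 : 0 < X := by linarith
    have hX1 : 1 ≤ X := by linarith
    have hL1 : 1 ≤ Real.log X := by
      rw [Real.le_log_iff_exp_le hX0]
      have := Real.exp_one_lt_d9
      linarith
    obtain ⟨v, hv⟩ : ∃ v, v = vv X := ⟨_, rfl⟩
    obtain ⟨L, hL⟩ : ∃ L, L = Real.log X := ⟨_, rfl⟩
    obtain ⟨l, hl⟩ : ∃ l, l = Real.log L := ⟨_, rfl⟩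
    rw [← hL] at h4 h5 h8 hL1
    rw [← hl] at h4 h8
    rw [← hv] at h7 h8 ⊢
    have hL0 : 0 < L := by linarith
    have hv200 : v ^ 200 = L := by rw [hv, hL]; exact vv_pow (by rw [← hL]; exact hL0.le)
    have hva3 : a3 ≤ v := ((le_max_left _ _).trans (le_max_left _ _)).trans h7
    have hva4 : a4 ≤ v := ((le_max_right _ _).trans (le_max_left _ _)).trans h7
    have hv4 : 4 ≤ v := ((le_max_left _ _).trans (le_max_right _ _)).trans h7
    have hvE : (E : ℝ) ≤ v := ((le_max_right _ _).trans (le_max_right _ _)).trans h7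
    have hdom3 := ha3 v hva3
    have hdom4 := ha4 v hva4
    have hv0 : 0 < v := by linarith
    have hv1 : 1 ≤ v := by linarith
    have hexpl : Real.exp l = L := by rw [hl]; exact Real.exp_log hL0
    have hkr : (0:ℝ) ≤ k := by positivity
    have hL2 : 2 ≤ L := by
      rw [← hv200]
      calc (2 : ℝ) ≤ v := by linarith
        _ ≤ v ^ 200 := le_self_pow₀ hv1 (by norm_num)
    -- exceptional prime
    obtain ⟨fs, hfs, hsc⟩ := hX2 X h2
    obtain ⟨ps, hps, hps2⟩ := exists_psE E Z fs hEp hEZ hfs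
    rw [← hv] at hsc
    have hsc' : ∀ d e : ℕ, Squarefree d → e ∣ E → 1 < e * d → ((e * d : ℕ) : ℝ) ≤ Real.exp (v ^ 8) →
        d.Coprime ps → ∀ χ : DirichletCharacter ℂ (e * d), χ.IsPrimitive →
          ‖psiPhi χ X‖ ≤ X * Real.exp (-v ^ 9) := by
      intro d e hd he hde hle hcop
      exact hsc (e * d) hde hle (hps2 d e hde hd he hcop)
    -- parameters
    obtain ⟨R, hR⟩ : ∃ R, R = ⌊X ^ (1 / 100 : ℝ)⌋₊ := ⟨_, rfl⟩
    obtain ⟨F, hF⟩ : ∃ F, F = ⌊X ^ (1 / 50 : ℝ)⌋₊ := ⟨_, rfl⟩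
    obtain ⟨F', hF'⟩ : ∃ F', F' = primorial (yy X) * R := ⟨_, rfl⟩
    obtain ⟨D, hD⟩ : ∃ D, D = ⌊L ^ (2 * k)⌋₊ := ⟨_, rfl⟩
    obtain ⟨Ω, hΩ⟩ : ∃ Ω, Ω = ⌈v ^ 7⌉₊ := ⟨_, rfl⟩
    obtain ⟨κ, hκ⟩ : ∃ κ, κ = 1 / v ^ 6 := ⟨_, rfl⟩
    obtain ⟨P, hP⟩ : ∃ P, P = (Icc 1 (yy X)).filter (fun p => p.Prime ∧ z2 X < p) := ⟨_, rfl⟩
    obtain ⟨M, hM⟩ : ∃ M, M = C1 * X / L ^ N := ⟨_, rfl⟩
    have hM0 : 0 < M := by rw [hM]; positivity
    have hκ0 : 0 ≤ κ := by rw [hκ]; positivity
    have hκ1 : κ ≤ 1 := by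
      rw [hκ, div_le_one (by positivity)]
      exact one_le_pow₀ hv1
    have hRle : (R : ℝ) ≤ X ^ (1 / 100 : ℝ) := by rw [hR]; exact Nat.floor_le (by positivity)
    have hVR : ((E * F' : ℕ) : ℝ) ≤ X ^ (1 / 50 : ℝ) := by
      rw [hF']
      push_cast
      calc (E : ℝ) * ((primorial (yy X) : ℝ) * R) ≤ X ^ (1 / 500 : ℝ) * (X ^ (1 / 500 : ℝ) * X ^ (1 / 100 : ℝ)) := by
            apply mul_le_mul h4X _ (by positivity) (by positivity)
            exact mul_le_mul (primorial_yy_le X hX1) hRle (by positivity) (by positivity)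
        _ = X ^ (1 / 500 + (1 / 500 + 1 / 100) : ℝ) := by
            rw [Real.rpow_add hX0, Real.rpow_add hX0]
        _ ≤ _ := Real.rpow_le_rpow_of_exponent_le hX1 (by norm_num)
    have hFle : E * F' ≤ F := by rw [hF]; exact Nat.le_floor hVR
    have hall : ∑ f ∈ Icc 2 F', TE E X f ≤ M * L ^ k := by
      have h9 := hls X h1
      rw [← hF, ← hL] at h9
      have h10 : ∑ f ∈ Icc 2 F, TT X f ≤ C0 * X * L ^ 8 := h9
      refine (sum_TE E X F F' hFle).trans ?_
      rw [← hdE]
      have hLk : L ^ k = L ^ N * L ^ 8 := by rw [hk, pow_add]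
      have hLN0 : L ^ N ≠ 0 := by positivity
      have h11 : M * L ^ k = C1 * X * L ^ 8 := by
        rw [hM, hLk]
        field_simp
      rw [h11]
      have h12 : dE * C0 ≤ C1 := by rw [hC1]; exact le_max_left _ _
      calc dE * ∑ f ∈ Icc 2 F, TT X f ≤ dE * (C0 * X * L ^ 8) :=
            mul_le_mul_of_nonneg_left h10 (by linarith)
        _ = (dE * C0) * X * L ^ 8 := by ring
        _ ≤ C1 * X * L ^ 8 := by gcongr
    have hyL : (yy X : ℝ) ≤ L := by
      have : (yy X : ℝ) ≤ L / 1000 := by rw [hL]; exact Nat.floor_le (by rw [← hL]; positivity)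
      linarith
    -- random set
    have hE1 : ∑ S ∈ P.powerset, ww P κ S * (S.card : ℝ) ≤ v ^ 194 := by
      rw [sum_ww_card]
      have h9 : (P.card : ℝ) ≤ v ^ 200 := by
        rw [hv200]
        refine le_trans ?_ hyL
        have : P.card ≤ yy X := by
          rw [hP]
          refine (card_filter_le _ _).trans ?_
          rw [Nat.card_Icc]
          omega
        exact_mod_cast this
      calc κ * (P.card : ℝ) ≤ κ * v ^ 200 := mul_le_mul_of_nonneg_left h9 hκ0
        _ = v ^ 194 := by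
            rw [hκ]
            field_simp
    have hE2 : ∑ S ∈ P.powerset, ww P κ S * ∑ p ∈ pairB X ps R D Ω P S, TE E X (p.1 * p.2) ≤ M := by
      refine (caseB (TE E X) (TE_nonneg E X) X ps R D Ω F' P κ hκ0 hκ1 hF'.ge).trans ?_
      have h9 : (1 - κ) ^ Ω ≤ Real.exp (-((3 * k : ℕ) * l)) := by
        apply pow_le_exp κ l (3 * k) Ω hκ1
        have h10 : v ^ 7 ≤ Ω := by rw [hΩ]; exact Nat.le_ceil _
        calc ((3 * k : ℕ) : ℝ) * l ≤ v := by push_cast; nlinarith
          _ = κ * v ^ 7 := by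
              rw [hκ]
              field_simp
          _ ≤ κ * Ω := mul_le_mul_of_nonneg_left h10 hκ0
      have h10 : Real.exp (-((3 * k : ℕ) * l)) = 1 / L ^ (3 * k) := by
        rw [Real.exp_neg, Real.exp_nat_mul, hexpl, one_div]
      rw [h10] at h9
      have hDle : (D:ℝ) ≤ L ^ (2 * k) := by rw [hD]; exact Nat.floor_le (by positivity)
      have hT0 : 0 ≤ ∑ f ∈ Icc 2 F', TE E X f := sum_nonneg fun f _ => TE_nonneg E X f
      calc (1 - κ) ^ Ω * (D * ∑ f ∈ Icc 2 F', TE E X f) ≤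
          (1 / L ^ (3 * k)) * (L ^ (2 * k) * (M * L ^ k)) := by
            apply mul_le_mul h9 _ (by positivity) (by positivity)
            exact mul_le_mul hDle hall hT0 (by positivity)
        _ = M * ((L ^ (2 * k) * L ^ k) / L ^ (3 * k)) := by ring
        _ = M := by
            rw [← pow_add, show 2 * k + k = 3 * k by ring, div_self (by positivity), mul_one]
    obtain ⟨S, hSP, hS1, hS2⟩ := exists_good P κ hκ0 hκ1 (fun S => (S.card : ℝ))
      (fun S => ∑ p ∈ pairB X ps R D Ω P S, TE E X (p.1 * p.2))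
      (fun S => Nat.cast_nonneg _)
      (fun S => sum_nonneg fun _ _ => TE_nonneg E X _) (v ^ 194) M (by positivity) hM0 hE1 hE2
    refine ⟨ps, S, hps, ?_, ?_, ?_⟩
    · intro q hq
      have := hSP hq
      rw [hP, mem_filter, mem_Icc] at this
      exact ⟨this.2.1, this.2.2, this.1.2⟩
    · calc (S.card : ℝ) ≤ 3 * v ^ 194 := hS1
        _ ≤ v * v ^ 194 := by
            have : 0 < v ^ 194 := by positivity
            nlinarith
        _ = v ^ 195 := by ring
    intro b hb
    rw [← hR, ← hL]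
    obtain ⟨W, hW⟩ : ∃ W, W = WW X S ps := ⟨_, rfl⟩
    rw [← hW] at hb ⊢
    have hW1 : 1 ≤ W := by rw [hW]; exact WW_pos X S ps
    have hWV : W ≤ primorial (yy X) := by
      rw [hW]
      exact Nat.le_of_dvd (primorial_pos _) (WW_dvd_primorial X S ps)
    have hWX : (W:ℝ) ≤ X ^ (1 / 500 : ℝ) :=
      le_trans (by exact_mod_cast hWV) (primorial_yy_le X hX1)
    have hφW : (0:ℝ) < Nat.totient W := by exact_mod_cast Nat.totient_pos.mpr hW1
    -- case A
    have hsize : ∀ p ∈ pairs X ps R S, p.2 ≤ D → (P ∩ p.1.primeFactors).card < Ω →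
        E * ((p.1 * p.2 : ℕ) : ℝ) ≤ Real.exp (v ^ 8) := by
      intro p hp hpD hpΩ
      unfold pairs at hp
      rw [mem_filter, mem_product, Nat.mem_divisors] at hp
      have h9 := size_caseA X ps Ω S p.1 hp.1.1.1 (by rw [← hP]; exact hpΩ) L hL1 hyL
      have h10 : (p.2 : ℝ) ≤ L ^ (2 * k) := by
        have h11 : (p.2 : ℝ) ≤ D := by exact_mod_cast hpD
        refine h11.trans ?_
        rw [hD]
        exact Nat.floor_le (by positivity)
      have hz : (z2 X : ℝ) ≤ l ^ 3 + 1 := by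
        rw [hl, hL]
        exact (Nat.ceil_lt_add_one (by rw [← hL, ← hl]; positivity)).le
      have hΩle : (Ω : ℝ) ≤ v ^ 7 + 1 := by rw [hΩ]; exact (Nat.ceil_lt_add_one (by positivity)).le
      have hEe : (E : ℝ) ≤ Real.exp v := hvE.trans (by linarith [Real.add_one_le_exp v])
      have h4e : (4:ℝ) ≤ Real.exp 2 := by
        have h := Real.exp_one_gt_d9
        have : Real.exp 2 = Real.exp 1 * Real.exp 1 := by rw [← Real.exp_add]; norm_num
        rw [this]
        nlinarith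
      push_cast
      calc E * ((p.1 : ℝ) * p.2) ≤ Real.exp v * ((4 ^ (z2 X) * L ^ Ω) * L ^ (2 * k)) := by
            apply mul_le_mul hEe _ (by positivity) (by positivity)
            exact mul_le_mul h9 h10 (by positivity) (by positivity)
        _ ≤ Real.exp v * (((Real.exp 2) ^ (z2 X) * L ^ Ω) * L ^ (2 * k)) := by gcongr
        _ = Real.exp (2 * z2 X + Ω * l + 2 * k * l + v) := by
            rw [Real.exp_add, Real.exp_add, Real.exp_add]
            have e1 : Real.exp (2 * (z2 X : ℝ)) = (Real.exp 2) ^ (z2 X) := by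
              rw [← Real.exp_nat_mul]; congr 1; ring
            have e2 : Real.exp ((Ω : ℝ) * l) = L ^ Ω := by rw [Real.exp_nat_mul, hexpl]
            have e3 : Real.exp (2 * (k : ℝ) * l) = L ^ (2 * k) := by
              have : (2 * (k : ℝ) * l) = ((2 * k : ℕ) : ℝ) * l := by push_cast; ring
              rw [this, Real.exp_nat_mul, hexpl]
            rw [e1, e2, e3]
            ring
        _ ≤ Real.exp (v ^ 8) := by
            apply Real.exp_le_exp.mpr
            exact size_algE l v Ω (z2 X) k hv4 h4 h8 hkr hΩle hz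
    have hv89 : 2 * v ^ 8 + v ≤ v ^ 9 := by
      have e : v ^ 9 = v * v ^ 8 := by ring
      have h9 : v ≤ v ^ 8 := le_self_pow₀ hv1 (by norm_num)
      rw [e]
      have h10 : 0 < v ^ 8 := by positivity
      nlinarith
    have hA : ∑ p ∈ (pairs X ps R S).filter (fun p => p.2 ≤ D ∧ (P ∩ p.1.primeFactors).card < Ω),
        TE E X (p.1 * p.2) ≤ M := by
      refine (sum_pairsAE E hEp X hX0.le ps R D Ω Z hps P S (v ^ 8) (v ^ 9) hsize hsc').trans ?_
      rw [← hdE]
      have h9 : dE * Real.exp (2 * v ^ 8 - v ^ 9) ≤ 1 / L ^ N := by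
        rw [le_div_iff₀ (by positivity), ← hv200, ← pow_mul]
        calc dE * Real.exp (2 * v ^ 8 - v ^ 9) * v ^ (200 * N) =
            (dE * v ^ (200 * N)) * Real.exp (2 * v ^ 8 - v ^ 9) := by ring
          _ ≤ Real.exp v * Real.exp (2 * v ^ 8 - v ^ 9) :=
              mul_le_mul_of_nonneg_right hdom3 (Real.exp_pos _).le
          _ = Real.exp (v + (2 * v ^ 8 - v ^ 9)) := by rw [Real.exp_add]
          _ ≤ 1 := by rw [Real.exp_le_one_iff]; linarith
      calc dE * (X * Real.exp (2 * v ^ 8 - v ^ 9)) = X * (dE * Real.exp (2 * v ^ 8 - v ^ 9)) := by ring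
        _ ≤ X * (1 / L ^ N) := mul_le_mul_of_nonneg_left h9 hX0.le
        _ = 1 * X / L ^ N := by ring
        _ ≤ C1 * X / L ^ N := by gcongr
        _ = M := hM.symm
    have hmain := sum_pairs8 A (TE E X) (TE_nonneg E X) X C5 M L hC5 hwt ps R D Ω k F' P S hL1
      (fun b hb => by
        have : L ^ (2 * k) < b := by
          rw [hD] at hb
          exact (Nat.floor_lt (by positivity)).mp hb
        exact this.le) hF'.ge hall hA hS2
    -- logarithm of R
    have hRX : (R:ℝ) ≤ X := by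
      refine hRle.trans ?_
      calc X ^ (1 / 100 : ℝ) ≤ X ^ (1:ℝ) := Real.rpow_le_rpow_of_exponent_le hX1 (by norm_num)
        _ = X := Real.rpow_one X
    have hsumwt : ∑ e ∈ Icc 1 R, wt A e ≤ 2 ^ K * L ^ K := by
      refine (sum_wt A R).trans ?_
      rw [← hK, ← mul_pow]
      have h9 := log_natCast_le R X hX1 hRX
      rw [← hL] at h9
      have h10 := Real.log_natCast_nonneg R
      apply pow_le_pow_left₀ (by linarith)
      linarith
    have hsumwt0 : 0 ≤ ∑ e ∈ Icc 1 R, wt A e := sum_nonneg fun e _ => wt_nonneg A e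
    have hpairs0 : 0 ≤ ∑ p ∈ pairs X ps R S, wt A p.2 * TE E X (p.1 * p.2) :=
      sum_nonneg fun p _ => mul_nonneg (wt_nonneg A _) (TE_nonneg E X _)
    -- conductors 2 and 4
    obtain ⟨TS, hTS⟩ : ∃ TS : ℝ, TS = ∑ e ∈ E.divisors.filter (fun e => e ≠ 1), TT X e := ⟨_, rfl⟩
    have hT24 : TS ≤ (dE * E) * (X * Real.exp (-v ^ 9)) := by
      rw [hTS]
      have h9 : ∀ e ∈ E.divisors.filter (fun e => e ≠ 1), TT X e ≤ E * (X * Real.exp (-v ^ 9)) := by
        intro e he
        rw [mem_filter] at he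
        have he1 : 1 ≤ e ∧ e ≤ E ∧ e ∣ E :=
          ⟨Nat.pos_of_mem_divisors he.1, Nat.divisor_le he.1, Nat.dvd_of_mem_divisors he.1⟩
        have hee : ((e : ℕ) : ℝ) ≤ E := by exact_mod_cast he1.2.1
        have hle : ((e * 1 : ℕ) : ℝ) ≤ Real.exp (v ^ 8) := by
          have h9 := Real.add_one_le_exp (v ^ 8)
          have h10 : v ≤ v ^ 8 := le_self_pow₀ hv1 (by norm_num)
          push_cast
          linarith
        have t := TT_le X (e * 1) (by omega) (X * Real.exp (-v ^ 9)) (by positivity)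
          (hsc' 1 e squarefree_one he1.2.2 (by omega) hle (Nat.coprime_one_left ps))
        rw [mul_one] at t
        exact t.trans (mul_le_mul_of_nonneg_right hee (by positivity))
      refine (sum_le_sum h9).trans ?_
      rw [sum_const, nsmul_eq_mul, mul_assoc]
      apply mul_le_mul_of_nonneg_right _ (by positivity)
      rw [hdE]
      exact_mod_cast card_filter_le _ _
    have hT240 : 0 ≤ TS := by rw [hTS]; exact sum_nonneg fun e _ => TT_nonneg X e
    -- first part
    have s0 : ∑ q ∈ QQ W ps R, (q.divisors.card : ℝ) ^ A *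
          |EPhi X (E * (W * q)) (b q)| ≤
        ∑ q ∈ QQ W ps R, (q.divisors.card : ℝ) ^ A * ((1 / (Nat.totient (W * q) : ℝ)) *
          ∑ f ∈ (W * q).divisors.filter (fun f => f ≠ 1), TE E X f) +
        ∑ q ∈ QQ W ps R, (q.divisors.card : ℝ) ^ A * ((1 / (Nat.totient (W * q) : ℝ)) *
          TS) +
        ∑ q ∈ QQ W ps R, (q.divisors.card : ℝ) ^ A *
          (2 * ((E * (W * q)).primeFactors.card * Real.log (3 * X))) := by
      rw [← sum_add_distrib, ← sum_add_distrib]
      apply sum_le_sum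
      intro q hq
      rw [mem_QQ] at hq
      rw [← mul_add, ← mul_add]
      apply mul_le_mul_of_nonneg_left _ (by positivity)
      have hWq : 1 ≤ W * q := Nat.mul_pos hW1 hq.1.1
      have hφWq : (0 : ℝ) < Nat.totient (W * q) := by exact_mod_cast Nat.totient_pos.mpr hWq
      have h3X : 0 ≤ Real.log (3 * X) := Real.log_nonneg (by linarith)
      have hEWq : 1 ≤ E * (W * q) := Nat.mul_pos hEp hWq
      refine (EPhi_le X hX1 (E * (W * q)) (b q) (by omega) (hb q (mem_QQ.2 (by rw [← hR]; exact hq)))).trans ?_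
      apply add_le_add _ le_rfl
      rw [← mul_add]
      have hφ4 : (Nat.totient (W * q) : ℝ) ≤ Nat.totient (E * (W * q)) := by
        exact_mod_cast Nat.le_of_dvd (Nat.totient_pos.mpr (by omega))
          (Nat.totient_dvd_of_dvd (Dvd.intro_left E rfl))
      have h9 := sum_divE E hEp X (W * q) hWq
      rw [← hTS] at h9
      exact mul_le_mul (one_div_le_one_div_of_le hφWq hφ4) h9
        (sum_nonneg fun f _ => TT_nonneg X f) (by positivity)
    have s1 := main_swap A (TE E X) (TE_nonneg E X) W ps R hW1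
    have s2 : (1 / (Nat.totient W : ℝ)) * ((∑ e ∈ Icc 1 R, wt A e) *
      ∑ p ∈ (W.divisors ×ˢ QQ W ps R).filter (fun p => p.1 * p.2 ≠ 1),
        wt A p.2 * TE E X (p.1 * p.2)) ≤ (1 / 4) * (X / ((Nat.totient W : ℝ) * L ^ A)) := by
      unfold pairs at hmain hpairs0
      rw [← hW] at hmain hpairs0
      calc _ ≤ (1 / (Nat.totient W : ℝ)) * ((2 ^ K * L ^ K) * (5 * C5 * M)) := by
            apply mul_le_mul_of_nonneg_left _ (by positivity)
            exact mul_le_mul hsumwt hmain hpairs0 (by positivity)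
        _ = (1 / 2) * ((2 ^ K * 10 * C5 * C1) / L ^ 2) * (X / ((Nat.totient W : ℝ) * L ^ A)) :=
            main_alg (Nat.totient W : ℝ) (2 ^ K) (L ^ K) (L ^ A) (L ^ 2) (L ^ N) C5 C1 X M
              hφW.ne' (by positivity) (by positivity) (by positivity)
              (by rw [hN, pow_add, pow_add]) hM
        _ ≤ (1 / 2) * (1 / 2) * (X / ((Nat.totient W : ℝ) * L ^ A)) := by
            apply mul_le_mul_of_nonneg_right _ (by positivity)
            apply mul_le_mul_of_nonneg_left _ (by norm_num)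
            rw [div_le_iff₀ (by positivity)]
            calc 2 ^ K * 10 * C5 * C1 ≤ L := h5
              _ ≤ 1 / 2 * L ^ 2 := by nlinarith
        _ = _ := by ring
    have s2' : ∑ q ∈ QQ W ps R, (q.divisors.card : ℝ) ^ A * ((1 / (Nat.totient (W * q) : ℝ)) *
          TS) ≤ (1 / 4) * (X / ((Nat.totient W : ℝ) * L ^ A)) := by
      have t0 : ∑ q ∈ QQ W ps R, (q.divisors.card : ℝ) ^ A * ((1 / (Nat.totient (W * q) : ℝ)) *
          TS) = (1 / (Nat.totient W : ℝ)) * ((∑ q ∈ QQ W ps R, wt A q) *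
          TS) := by
        rw [sum_mul, mul_sum]
        apply sum_congr rfl
        intro q hq
        rw [mem_QQ] at hq
        have hc : W.Coprime q := (Nat.Coprime.coprime_mul_right_right hq.2.2).symm
        rw [Nat.totient_mul hc]
        unfold wt
        push_cast
        have hφ : (Nat.totient q : ℝ) ≠ 0 := by
          have := Nat.totient_pos.mpr hq.1.1
          positivity
        field_simp
      rw [t0]
      have t1 : ∑ q ∈ QQ W ps R, wt A q ≤ ∑ e ∈ Icc 1 R, wt A e := by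
        apply sum_le_sum_of_subset_of_nonneg
        · intro q hq
          rw [mem_QQ] at hq
          rw [mem_Icc]
          exact hq.1
        · intro e _ _
          exact wt_nonneg A e
      have t2 : (2 ^ K * L ^ K) * ((dE * E) * (X * Real.exp (-v ^ 9))) ≤ (1 / 4) * (X / L ^ A) := by
        have hexp : 2 ^ K * (4 * (dE * E)) * L ^ (K + A) * Real.exp (-v ^ 9) ≤ 1 := by
          rw [← hv200, ← pow_mul]
          calc 2 ^ K * (4 * (dE * E)) * v ^ (200 * (K + A)) * Real.exp (-v ^ 9) ≤ Real.exp v * Real.exp (-v ^ 9) :=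
                mul_le_mul_of_nonneg_right hdom4 (Real.exp_pos _).le
            _ = Real.exp (v + -v ^ 9) := by rw [Real.exp_add]
            _ ≤ 1 := by
                rw [Real.exp_le_one_iff]
                have h9 : v ≤ v ^ 9 := le_self_pow₀ hv1 (by norm_num)
                linarith
        have : (1 / 4) * (X / L ^ A) = (1 / 4) * X * 1 / L ^ A := by ring
        rw [this, le_div_iff₀ (by positivity)]
        calc (2 ^ K * L ^ K) * ((dE * E) * (X * Real.exp (-v ^ 9))) * L ^ A =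
            (1 / 4) * X * (2 ^ K * (4 * (dE * E)) * L ^ (K + A) * Real.exp (-v ^ 9)) := by rw [pow_add]; ring
          _ ≤ (1 / 4) * X * 1 := mul_le_mul_of_nonneg_left hexp (by positivity)
      calc (1 / (Nat.totient W : ℝ)) * ((∑ q ∈ QQ W ps R, wt A q) * TS) ≤
          (1 / (Nat.totient W : ℝ)) * ((2 ^ K * L ^ K) * ((dE * E) * (X * Real.exp (-v ^ 9)))) := by
            apply mul_le_mul_of_nonneg_left _ (by positivity)
            exact mul_le_mul (t1.trans hsumwt) hT24 hT240 (by positivity)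
        _ ≤ (1 / (Nat.totient W : ℝ)) * ((1 / 4) * (X / L ^ A)) :=
            mul_le_mul_of_nonneg_left t2 (by positivity)
        _ = _ := by field_simp
    have s3 : ∑ q ∈ QQ W ps R, (q.divisors.card : ℝ) ^ A *
          (2 * ((E * (W * q)).primeFactors.card * Real.log (3 * X))) ≤
        (1 / 2) * (X / ((Nat.totient W : ℝ) * L ^ A)) := by
      have t1 : ∀ q ∈ QQ W ps R, (q.divisors.card : ℝ) ^ A *
          (2 * ((E * (W * q)).primeFactors.card * Real.log (3 * X))) ≤
          8 * C5 * L ^ 2 * X ^ (1 / 200 : ℝ) := by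
        intro q hq
        rw [mem_QQ] at hq
        obtain ⟨⟨hq1, hq2⟩, _, _⟩ := hq
        have hq0 : (0:ℝ) < q := by exact_mod_cast hq1
        have hφq : (0:ℝ) < Nat.totient q := by exact_mod_cast Nat.totient_pos.mpr hq1
        have u1 : (q.divisors.card : ℝ) ^ A ≤ C5 * X ^ (1 / 200 : ℝ) := by
          have v1 := hwt q hq1
          unfold wt at v1
          rw [div_le_iff₀ hφq] at v1
          refine v1.trans ?_
          calc C5 / Real.sqrt q * (Nat.totient q : ℝ) ≤ C5 / Real.sqrt q * q := by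
                apply mul_le_mul_of_nonneg_left _ (by positivity)
                exact_mod_cast Nat.totient_le q
            _ = C5 * (q / Real.sqrt q) := by ring
            _ = C5 * Real.sqrt q := by rw [Real.div_sqrt]
            _ ≤ C5 * X ^ (1 / 200 : ℝ) := by
                apply mul_le_mul_of_nonneg_left _ hC5.le
                rw [Real.sqrt_le_left (by positivity)]
                calc (q:ℝ) ≤ R := by exact_mod_cast hq2
                  _ ≤ X ^ (1 / 100 : ℝ) := hRle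
                  _ = (X ^ (1 / 200 : ℝ)) ^ 2 := by
                      rw [← Real.rpow_natCast, ← Real.rpow_mul hX0.le]; norm_num
        have u2 : ((E * (W * q)).primeFactors.card : ℝ) ≤ 2 * L := by
          have hEWq1 : 1 ≤ E * (W * q) := Nat.mul_pos hEp (Nat.mul_pos hW1 hq1)
          refine (omega_le_log (E * (W * q)) (by omega)).trans ?_
          have v1 : ((E * (W * q) : ℕ) : ℝ) ≤ X := by
            calc ((E * (W * q) : ℕ) : ℝ) ≤ ((E * F' : ℕ) : ℝ) := by
                  rw [hF']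
                  exact_mod_cast Nat.mul_le_mul_left E (Nat.mul_le_mul hWV hq2)
              _ ≤ X ^ (1 / 50 : ℝ) := hVR
              _ ≤ X ^ (1:ℝ) := Real.rpow_le_rpow_of_exponent_le hX1 (by norm_num)
              _ = X := Real.rpow_one X
          have := log_natCast_le (E * (W * q)) X hX1 v1
          rw [← hL] at this
          linarith
        have u3 : Real.log (3 * X) ≤ 2 * L := by
          calc Real.log (3 * X) ≤ Real.log (X * X) :=
                Real.log_le_log (by positivity) (by nlinarith)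
            _ = 2 * L := by rw [Real.log_mul hX0.ne' hX0.ne', ← hL]; ring
        have u4 : 0 ≤ Real.log (3 * X) := Real.log_nonneg (by linarith)
        calc (q.divisors.card : ℝ) ^ A *
          (2 * ((E * (W * q)).primeFactors.card * Real.log (3 * X))) ≤
            (C5 * X ^ (1 / 200 : ℝ)) * (2 * ((2 * L) * (2 * L))) := by
              apply mul_le_mul u1 _ (by positivity) (by positivity)
              apply mul_le_mul_of_nonneg_left _ (by norm_num)
              exact mul_le_mul u2 u3 u4 (by positivity)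
          _ = _ := by ring
      refine (sum_le_sum t1).trans ?_
      rw [sum_const, nsmul_eq_mul]
      have t2 : ((QQ W ps R).card : ℝ) ≤ X ^ (1 / 100 : ℝ) := by
        have : (QQ W ps R).card ≤ R := by
          refine (card_filter_le _ _).trans ?_
          rw [Nat.card_Icc]
          omega
        exact le_trans (by exact_mod_cast this) hRle
      have t3 : (Nat.totient W : ℝ) ≤ X ^ (1 / 500 : ℝ) :=
        le_trans (by exact_mod_cast Nat.totient_le W) hWX
      rw [← mul_div_assoc, le_div_iff₀ (by positivity)]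
      rw [← hL] at h6
      calc ((QQ W ps R).card : ℝ) * (8 * C5 * L ^ 2 * X ^ (1 / 200 : ℝ)) *
          ((Nat.totient W : ℝ) * L ^ A) ≤
          X ^ (1 / 100 : ℝ) * (8 * C5 * L ^ 2 * X ^ (1 / 200 : ℝ)) *
          (X ^ (1 / 500 : ℝ) * L ^ A) := by gcongr
        _ = (1 / 2) * ((16 * C5 * L ^ (A + 2)) *
            (X ^ (1 / 100 : ℝ) * X ^ (1 / 200 : ℝ) * X ^ (1 / 500 : ℝ))) := by
            rw [pow_add]; ring
        _ ≤ (1 / 2) * (X ^ (1 / 2 : ℝ) * X ^ (1 / 2 : ℝ)) := by
            apply mul_le_mul_of_nonneg_left _ (by norm_num)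
            apply mul_le_mul h6 _ (by positivity) (by positivity)
            rw [← Real.rpow_add hX0, ← Real.rpow_add hX0]
            exact Real.rpow_le_rpow_of_exponent_le hX1 (by norm_num)
        _ = (1 / 2) * X := by
            rw [← Real.rpow_add hX0]; norm_num
    linarith
  exact eventually_atTop.mp ev

end Pool.Agent.Q84.MB
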