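import Pool.Agent.Q84.MB.D4
import Pool.Agent.TH101.RG.Eng
import Pool.Agent.TH101.RG.WtsT

set_option autoImplicit false

/-!
Clusters of primes inside an arbitrary residue class modulo the big modulus, all other integers of a given small
set composite: the engine of `TH101.RG` with the repelling weights.
-/

open Finset Filter Topology

namespace Pool.Agent.Q84.MB

open Pool.Agent.H378R2
open Pool.Agent.H312R2.RG (not_dvd_diff BVat)
open Pool.Agent.H362R2.RQ (fib)
open Pool.Agent.TH101.RG (engine weightsT)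

/-- a colouring with balanced fibres -/
theorem col_exists (K m : ℕ) (hm : 1 ≤ m) (hmK : m ≤ K) :
    ∃ col : Fin K → Fin m, ∀ d, K ≤ 2 * m * fib col d := by
  classical
  refine ⟨fun j => ⟨(j : ℕ) % m, Nat.mod_lt _ (by omega)⟩, fun d => ?_⟩
  have h1 : K / m ≤ fib (fun j : Fin K => (⟨(j : ℕ) % m, Nat.mod_lt _ (by omega)⟩ : Fin m)) d := by
    unfold fib
    have h2 : (range (K / m)).card ≤ (univ.filter
        (fun i : Fin K => (⟨(i : ℕ) % m, Nat.mod_lt _ (by omega)⟩ : Fin m) = d)).card := by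
      have hlt : ∀ i ∈ range (K / m), i * m + (d : ℕ) < K := by
        intro i hi
        rw [mem_range] at hi
        have h3 : (i + 1) * m ≤ (K / m) * m := Nat.mul_le_mul_right m hi
        have h4 : K / m * m ≤ K := Nat.div_mul_le_self K m
        have h5 := d.2
        have h6 : (i + 1) * m = i * m + m := by ring
        omega
      apply card_le_card_of_injOn (fun i => if h : i * m + (d : ℕ) < K then (⟨i * m + d, h⟩ : Fin K) else
        ⟨0, by omega⟩)
      · intro i hi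
        rw [mem_coe] at hi
        rw [mem_coe, mem_filter]
        refine ⟨mem_univ _, ?_⟩
        simp only [dif_pos (hlt i hi)]
        apply Fin.ext
        simp only
        rw [Nat.add_comm, Nat.add_mul_mod_self_right, Nat.mod_eq_of_lt d.2]
      · intro i hi j hj hij
        rw [mem_coe] at hi hj
        simp only [dif_pos (hlt i hi), dif_pos (hlt j hj)] at hij
        have h3 := congrArg Fin.val hij
        simp only at h3
        have h4 : i * m = j * m := by omega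
        exact Nat.eq_of_mul_eq_mul_right (by omega) h4
    rwa [card_range] at h2
  have h2 : 1 ≤ K / m := Nat.div_pos hmK (by omega)
  have h3 : K < (K / m + 1) * m := by
    have := Nat.lt_div_mul_add (a := K) (b := m) (by omega)
    calc K < K / m * m + m := this
      _ = (K / m + 1) * m := by ring
  calc K ≤ (K / m + 1) * m := h3.le
    _ ≤ (2 * (K / m)) * m := Nat.mul_le_mul_right m (by omega)
    _ ≤ (2 * fib (fun j : Fin K => (⟨(j : ℕ) % m, Nat.mod_lt _ (by omega)⟩ : Fin m)) d) * m :=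
        Nat.mul_le_mul_right m (by omega)
    _ = _ := by ring

/-- **Clusters in a class.** -/
theorem win (m : ℕ) : ∃ K : ℕ, m ≤ K ∧ 1 ≤ K ∧ ∃ (A : ℕ) (c : ℝ), 0 < c ∧ ∀ Z : ℕ, 4 ≤ Z → ∀ᶠ X : ℝ in atTop,
    ∀ (ps : ℕ) (S : Finset ℕ), GoodP Z ps → GoodS X S → BVat A X (WW X S ps) ps →
    ∀ (a : ℕ) (T U : Finset ℕ), T.card = K → Disjoint U T → (∀ t ∈ T, (t : ℝ) ≤ (Real.log X) ^ 2) →
    (∀ u ∈ U, (u : ℝ) ≤ (Real.log X) ^ 2) → (∀ t ∈ T, (a + t).Coprime (WW X S ps)) →
    (U.card : ℝ) ≤ c * Real.log X → ∀ bad : Finset ℕ, (bad.card : ℝ) ≤ X ^ (9 / 10 : ℝ) →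
    ∃ n : ℕ, X < n ∧ (n : ℝ) ≤ 3 * X ∧ n ∉ bad ∧ n ≡ a [MOD WW X S ps] ∧ (∀ u ∈ U, ¬ (n + u).Prime) ∧
      m ≤ (T.filter fun t => (n + t).Prime).card := by
  classical
  obtain ⟨η, hη, heng⟩ := engine
  obtain ⟨m', hm'⟩ : ∃ m' : ℕ, m' = max (max 1 m) ⌈(m : ℝ) / η⌉₊ := ⟨_, rfl⟩
  have hm'1 : 1 ≤ m' := by rw [hm']; exact (le_max_left _ _).trans (le_max_left _ _)
  have hmm' : m ≤ m' := by rw [hm']; exact (le_max_right _ _).trans (le_max_left _ _)
  have hηm : (m : ℝ) ≤ η * m' := by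
    have h1 : (m : ℝ) / η ≤ m' := by
      refine (Nat.le_ceil _).trans ?_
      rw [hm']
      exact_mod_cast le_max_right _ _
    rw [div_le_iff₀ hη] at h1
    linarith
  obtain ⟨K, hmK, hengK⟩ := heng m' hm'1
  obtain ⟨A, c₃, hA4, hc₃, hw⟩ := weightsT K (K + 4)
  refine ⟨K, hmm'.trans hmK, hm'1.trans hmK, A, c₃ / 2, by positivity, fun Z hZ => ?_⟩
  filter_upwards [hw Z, hengK Z hZ, eventually_ge_atTop 4,
    Real.tendsto_log_atTop.eventually_ge_atTop (2 / c₃),
    Real.tendsto_log_atTop.eventually_ge_atTop (100 + K)] with X hwX hgX hX4 hL1 hL2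
  intro ps S hps hS hBV a T U hTK hUT hT2 hU2 hTa hUc bad hbad
  obtain ⟨L, hL⟩ : ∃ L, L = Real.log X := ⟨_, rfl⟩
  rw [← hL] at hL1 hL2 hT2 hU2 hUc
  have hKr : (0 : ℝ) ≤ K := Nat.cast_nonneg K
  have hL100 : 100 ≤ L := by linarith
  have hX0 : 0 < X := by linarith
  -- the tuple
  obtain ⟨t, ht⟩ : ∃ t : Fin K → ℕ, t = fun j => T.orderEmbOfFin hTK j := ⟨_, rfl⟩
  have htinj : Function.Injective t := by
    rw [ht]
    exact (T.orderEmbOfFin hTK).injective
  have htT : ∀ j, t j ∈ T := fun j => by rw [ht]; exact T.orderEmbOfFin_mem hTK j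
  -- the set of the integers to be killed
  obtain ⟨u₀, hu₀, hu₀K⟩ : ∃ u₀ : ℕ, u₀ ∉ T ∧ u₀ ≤ K := by
    by_contra hcon
    push Not at hcon
    have h1 : range (K + 1) ⊆ T := by
      intro i hi
      rw [mem_range] at hi
      by_contra h
      have := hcon i h
      omega
    have h2 := card_le_card h1
    rw [card_range, hTK] at h2
    omega
  obtain ⟨U', hU'⟩ : ∃ U', U' = insert u₀ U := ⟨_, rfl⟩
  have hU'ne : U'.Nonempty := ⟨u₀, by rw [hU']; exact mem_insert_self _ _⟩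
  have hU'2 : ∀ u ∈ U', (u : ℝ) ≤ L ^ 2 := by
    intro u hu
    rw [hU', mem_insert] at hu
    rcases hu with rfl | hu
    · have h1 : (u : ℝ) ≤ K := by exact_mod_cast hu₀K
      nlinarith
    · exact hU2 u hu
  have hU'T : ∀ u ∈ U', u ∉ T := by
    intro u hu
    rw [hU', mem_insert] at hu
    rcases hu with rfl | hu
    · exact hu₀
    · exact fun h => (disjoint_left.1 hUT) hu h
  have hU'c : (U'.card : ℝ) ≤ c₃ * L := by
    have h1 : (U'.card : ℝ) ≤ U.card + 1 := by
      rw [hU']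
      exact_mod_cast card_insert_le u₀ U
    rw [div_le_iff₀ hc₃] at hL1
    linarith
  obtain ⟨PP, hPP, hres⟩ := hwX ps S hps hBV t {ps} U' (mem_singleton_self _) (by
    rw [card_singleton, ← hL]
    have : (1 : ℝ) ≤ L ^ 4 := one_le_pow₀ (by linarith)
    have h2 : (100 : ℝ) ^ 4 ≤ L ^ 4 := by gcongr
    norm_num at h2 ⊢
    linarith) hU'ne (by rw [← hL]; exact hU'c)
  rw [← hL] at hPP
  have hLA : L ^ 2 ≤ L ^ A := pow_le_pow_right₀ (by linarith) (by omega)
  obtain ⟨V, T', Z₁, M, M', M₂, e₁, e₂, e₃, w1, w2, w3, w4, w5, w6, w7, w8, w9, we, w10, w11, w12, w13, w14,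
    w15⟩ := hres (fun _ k => -((k : ℕ) : ℤ))
    (by
      intro q hq k l hkl hd
      have h1 : (q : ℤ) ∣ ((l : ℕ) : ℤ) - ((k : ℕ) : ℤ) := by
        have : ((l : ℕ) : ℤ) - ((k : ℕ) : ℤ) = -((k : ℕ) : ℤ) - -((l : ℕ) : ℤ) := by ring
        rwa [this]
      exact not_dvd_diff ((hU'2 l l.2).trans hLA) ((hU'2 k k.2).trans hLA) (hPP q hq).2.1
        (fun h => hkl (Subtype.ext h.symm)) h1)
    (by
      intro q hq k j hd
      have h1 : (q : ℤ) ∣ (t j : ℤ) - ((k : ℕ) : ℤ) := by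
        have : (t j : ℤ) - ((k : ℕ) : ℤ) = (t j : ℤ) + -((k : ℕ) : ℤ) := by ring
        rwa [this]
      exact not_dvd_diff ((hT2 _ (htT j)).trans hLA) ((hU'2 k k.2).trans hLA) (hPP q hq).2.1
        (fun h => hU'T k k.2 (by rw [← h]; exact htT j)) h1)
  obtain ⟨col, hcol⟩ := col_exists K m' hm'1 hmK
  obtain ⟨n, hXn, hn3, hnb, hna, hTn, E, hE1, hE2⟩ := hgX ps S hps hS t htinj
    (fun j => by rw [← hL]; exact hT2 _ (htT j)) a (fun j => hTa _ (htT j))
    V T' Z₁ M M' M₂ e₁ e₂ e₃ w1 w2 w4 w5 w6 w7 w8 w9 we w10 w11 w12 w13 w14 w15 col hcol bad hbad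
  refine ⟨n, hXn, hn3, hnb, hna, fun u hu hp => ?_, ?_⟩
  · have huU : u ∈ U' := by rw [hU']; exact mem_insert_of_mem hu
    obtain ⟨q, hq, hqd⟩ := w3 n hTn ⟨u, huU⟩
    have h1 : (q : ℤ) ∣ ((n + u : ℕ) : ℤ) := by
      have : (((n + u : ℕ) : ℤ)) = (n : ℤ) - -((u : ℕ) : ℤ) := by push_cast; ring
      rw [this]
      exact hqd
    have h2 : q ∣ n + u := by exact_mod_cast h1
    have h3 : q = n + u := (Nat.prime_dvd_prime_iff_eq (hPP q hq).1 hp).1 h2
    have h4 := (hPP q hq).2.2.1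
    have h5 : X ^ (1 / 1000 : ℝ) ≤ X ^ (1 : ℝ) :=
      Real.rpow_le_rpow_of_exponent_le (by linarith) (by norm_num)
    rw [Real.rpow_one] at h5
    have h6 : (n : ℝ) ≤ q := by rw [h3]; exact_mod_cast Nat.le_add_right n u
    linarith
  · have hKne : Nonempty (Fin K) := ⟨⟨0, by omega⟩⟩
    choose! j hj using hE2
    have h1 : E.card ≤ (T.filter fun t => (n + t).Prime).card := by
      apply card_le_card_of_injOn (fun d => t (j d))
      · intro d hd
        rw [mem_coe] at hd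
        rw [mem_coe, mem_filter]
        exact ⟨htT _, (hj d hd).2⟩
      · intro d hd e he hde
        rw [mem_coe] at hd he
        have h2 := htinj hde
        rw [← (hj d hd).1, ← (hj e he).1, h2]
    have h2 : (m : ℝ) ≤ (T.filter fun t => (n + t).Prime).card := by
      have h3 : (E.card : ℝ) ≤ (T.filter fun t => (n + t).Prime).card := by exact_mod_cast h1
      linarith
    exact_mod_cast h2

end Pool.Agent.Q84.MB
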