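import Pool.Agent.Q84.MB.D5
import Pool.Agent.H617R3.BT.Sieve

set_option autoImplicit false

/-!
The number of the integers of an interval prime to a product of primes.
-/

open Finset Filter Topology

namespace Pool.Agent.Q84.MB

open Pool.Agent.Helper923.PPS

/-- Selberg's sieve for an interval and the primes `≤ R` not dividing `q` -/
theorem sift_le (a' q N R : ℕ) (hq : 1 ≤ q) (hR : 1 ≤ R) :
    (((range N).filter (fun t => (PP q R).Coprime (a' + t))).card : ℝ) ≤
      ((q : ℝ) / Nat.totient q) * N / Real.log ((R : ℝ) + 1) +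
        ((R : ℝ) * (1 + Real.log R / Real.log 2)) ^ 2 := by
  classical
  obtain ⟨a, ha⟩ : ∃ a, a = q * a' := ⟨_, rfl⟩
  set s := apSieve a q N R with hs
  have hlogR : 0 ≤ Real.log R := Real.log_nonneg (by exact_mod_cast hR)
  have hl2 : 0 < Real.log 2 := Real.log_pos (by norm_num)
  have hq' : (0 : ℝ) < q := by exact_mod_cast hq
  have ht' : (0 : ℝ) < Nat.totient q := by exact_mod_cast Nat.totient_pos.2 hq
  have hsel := Pool.Agent.Erdos456.SieveAux.selberg_bound (s := s) R hR
    (A := 1 + Real.log R / Real.log 2) (B := 1) (by positivity) zero_le_one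
    (by
      intro d hd hdR
      have hd' := Nat.dvd_of_mem_divisors hd
      have hd0 : d ≠ 0 := (Nat.pos_of_mem_divisors hd).ne'
      rw [BoundingSieve.selbergTerms_apply]
      change ((d : ℝ)⁻¹ * ∏ p ∈ d.primeFactors, (1 - (p : ℝ)⁻¹)⁻¹) / (d : ℝ)⁻¹ ≤ _
      have hdr : (d : ℝ) ≠ 0 := by exact_mod_cast hd0
      rw [mul_div_assoc, mul_comm, div_mul_cancel₀ _ (inv_ne_zero hdr)]
      refine (Pool.Agent.H617R3.BT.prod_le_card _ fun p hp => (Nat.prime_of_mem_primeFactors hp).two_le).trans ?_
      have h1 := Pool.Agent.H617R3.BT.card_primeFactors_le hd0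
      have h2 : Real.log d ≤ Real.log R := by
        apply Real.log_le_log (by exact_mod_cast Nat.pos_of_ne_zero hd0)
        exact_mod_cast hdR
      have h3 : Real.log d / Real.log 2 ≤ Real.log R / Real.log 2 := by gcongr
      linarith)
    (by
      intro d hd _
      exact apSieve_rem hq (Nat.dvd_of_mem_divisors hd))
  have hJ : ((Nat.totient q : ℝ) / q) * Real.log ((R : ℝ) + 1) ≤
      Pool.Agent.Erdos456.SieveAux.JJ s R := by
    have h1 := Pool.Agent.H307R2.OP.BT4P.selS_ge2 (a := a) (q := q) (N := N) (R := R) hq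
    refine h1.trans (le_of_eq ?_)
    unfold selS Pool.Agent.Erdos456.SieveAux.JJ
    apply Finset.sum_congr _ fun _ _ => rfl
    ext l
    simp only [Finset.mem_filter, Nat.cast_le]
    rfl
  have hlog : 0 < Real.log ((R : ℝ) + 1) := Real.log_pos (by
    have : (1 : ℝ) ≤ R := by exact_mod_cast hR
    linarith)
  have hmass : s.totalMass / Pool.Agent.Erdos456.SieveAux.JJ s R ≤
      ((q : ℝ) / Nat.totient q) * N / Real.log ((R : ℝ) + 1) := by
    change (N : ℝ) / _ ≤ _
    refine (div_le_div_of_nonneg_left (Nat.cast_nonneg _) (by positivity) hJ).trans (le_of_eq ?_)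
    field_simp
  have hcard := Pool.Agent.H95R2.Leh.ApS.sifted_eq (a := a) (q := q) (N := N) (R := R) hq
  have hset : (range N).filter (fun t => (PP q R).Coprime (a' + t)) =
      (range N).filter (fun k => Nat.Coprime (PP q R) (a + k * q)) := by
    apply filter_congr
    intro t _
    have h1 : a + t * q = q * (a' + t) := by rw [ha]; ring
    rw [h1]
    have h2 : (PP q R).Coprime q := coprime_of_dvd_PP dvd_rfl
    exact ⟨fun h => h2.mul_right h, fun h => Nat.Coprime.coprime_mul_left_right h⟩
  rw [hset, ← hcard]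
  linarith

end Pool.Agent.Q84.MB
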