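import Pool.Agent.Q84.MB.D6

set_option autoImplicit false

/-!
Every class modulo the big modulus has few survivors in short intervals.
-/

open Finset Filter Topology

namespace Pool.Agent.Q84.MB

open Pool.Agent.H378R2 Pool.Agent.Helper923.PPS

theorem exp_neg_le (x : ℝ) (h0 : 0 ≤ x) (h1 : x ≤ 1 / 2) : Real.exp (-(2 * x)) ≤ 1 - x := by
  rw [Real.exp_neg, inv_le_comm₀ (Real.exp_pos _) (by linarith)]
  have h2 := Real.add_one_le_exp (2 * x)
  rw [inv_le_comm₀ (by linarith) (Real.exp_pos _)]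
  rw [inv_le_comm₀ (Real.exp_pos _) (by linarith)]
  refine le_trans ?_ h2
  rw [inv_le_iff_one_le_mul₀ (by linarith)]
  nlinarith

theorem surv_le (c₃ : ℝ) (hc₃ : 0 < c₃) : ∃ c : ℝ, 0 < c ∧ ∀ᶠ X : ℝ in atTop,
    ∀ (Z ps : ℕ) (S : Finset ℕ), 4 ≤ Z → GoodP Z ps → GoodS X S → ∀ (a D : ℕ),
    (D : ℝ) ≤ c * (Real.log X * Real.log (Real.log X)) →
    (((range (D + 1)).filter fun v => (a + v).Coprime (WW X S ps)).card : ℝ) ≤ c₃ * Real.log X := by
  classical
  refine ⟨c₃ / 48, by positivity, ?_⟩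
  have hlog : Tendsto Real.log atTop atTop := Real.tendsto_log_atTop
  have ev1 : ∀ᶠ L : ℝ in atTop, L ^ (2 / 3 : ℝ) * (1 + Real.log L) ^ 2 ≤ c₃ / 4 * L := by
    have h1 := (isLittleO_log_rpow_atTop (by norm_num : (0 : ℝ) < 1 / 12)).def (by norm_num : (0 : ℝ) < 1)
    have h2 : Tendsto (fun L : ℝ => L ^ (1 / 12 : ℝ)) atTop atTop := tendsto_rpow_atTop (by norm_num)
    filter_upwards [h1, h2.eventually_ge_atTop 1,
      (tendsto_rpow_atTop (by norm_num : (0 : ℝ) < 1 / 6)).eventually_ge_atTop (16 / c₃),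
      eventually_ge_atTop 1] with L a1 a2 a3 a4
    rw [Real.norm_of_nonneg (Real.log_nonneg a4), Real.norm_of_nonneg (by positivity), one_mul] at a1
    have hL0 : 0 < L := by linarith
    have b1 : (1 + Real.log L) ^ 2 ≤ (2 * L ^ (1 / 12 : ℝ)) ^ 2 := by
      have : 0 ≤ Real.log L := Real.log_nonneg a4
      gcongr
      linarith
    have b2 : (2 * L ^ (1 / 12 : ℝ)) ^ 2 = 4 * L ^ (1 / 6 : ℝ) := by
      rw [mul_pow, ← Real.rpow_natCast, ← Real.rpow_natCast, ← Real.rpow_mul hL0.le]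
      norm_num
    have b3 : L ^ (2 / 3 : ℝ) * (4 * L ^ (1 / 6 : ℝ)) * L ^ (1 / 6 : ℝ) = 4 * L := by
      have e : L ^ (2 / 3 : ℝ) * L ^ (1 / 6 : ℝ) * L ^ (1 / 6 : ℝ) = L := by
        rw [← Real.rpow_add hL0, ← Real.rpow_add hL0]
        norm_num
      calc _ = 4 * (L ^ (2 / 3 : ℝ) * L ^ (1 / 6 : ℝ) * L ^ (1 / 6 : ℝ)) := by ring
        _ = 4 * L := by rw [e]
    have b4 : L ^ (2 / 3 : ℝ) * (4 * L ^ (1 / 6 : ℝ)) ≤ c₃ / 4 * L := by
      have b5 : 0 ≤ L ^ (2 / 3 : ℝ) * (4 * L ^ (1 / 6 : ℝ)) := by positivity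
      have b6 := mul_le_mul_of_nonneg_left a3 b5
      rw [b3] at b6
      have b7 : L ^ (2 / 3 : ℝ) * (4 * L ^ (1 / 6 : ℝ)) * (16 / c₃) * (c₃ / 16) =
          L ^ (2 / 3 : ℝ) * (4 * L ^ (1 / 6 : ℝ)) := by field_simp
      rw [← b7]
      calc _ ≤ 4 * L * (c₃ / 16) := mul_le_mul_of_nonneg_right b6 (by positivity)
        _ = _ := by ring
    calc L ^ (2 / 3 : ℝ) * (1 + Real.log L) ^ 2 ≤ L ^ (2 / 3 : ℝ) * (2 * L ^ (1 / 12 : ℝ)) ^ 2 :=
          mul_le_mul_of_nonneg_left b1 (by positivity)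
      _ = L ^ (2 / 3 : ℝ) * (4 * L ^ (1 / 6 : ℝ)) := by rw [b2]
      _ ≤ _ := b4
  have ev2 : ∀ᶠ L : ℝ in atTop, L ^ (1 / 3 : ℝ) + 1 ≤ L / 1000 := by
    filter_upwards [(tendsto_rpow_atTop (by norm_num : (0 : ℝ) < 2 / 3)).eventually_ge_atTop 2000,
      eventually_ge_atTop 2000] with L a1 a2
    have hL0 : 0 < L := by linarith
    have e : L ^ (1 / 3 : ℝ) * L ^ (2 / 3 : ℝ) = L := by
      rw [← Real.rpow_add hL0]
      norm_num
    have b1 : 0 < L ^ (1 / 3 : ℝ) := by positivity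
    have b2 : L ^ (1 / 3 : ℝ) * 2000 ≤ L := by
      calc _ ≤ L ^ (1 / 3 : ℝ) * L ^ (2 / 3 : ℝ) := mul_le_mul_of_nonneg_left a1 b1.le
        _ = L := e
    linarith
  filter_upwards [hlog.eventually ev1, hlog.eventually ev2,
    hlog.eventually_ge_atTop (max (96 / c₃) 2000), (hlog.comp hlog).eventually_ge_atTop 4
    ] with X h1 h2 h3 h4
  simp only [Function.comp] at h4
  intro Z ps S hZ hps hS a D hD
  obtain ⟨L, hL⟩ : ∃ L, L = Real.log X := ⟨_, rfl⟩
  obtain ⟨l, hl⟩ : ∃ l, l = Real.log L := ⟨_, rfl⟩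
  rw [← hL] at h1 h2 h3 h4 hD ⊢
  rw [← hl] at h1 h4 hD
  have hL96 : 96 / c₃ ≤ L := (le_max_left _ _).trans h3
  have hL2000 : 2000 ≤ L := (le_max_right _ _).trans h3
  have hL0 : 0 < L := by linarith
  obtain ⟨R, hR⟩ : ∃ R, R = ⌊L ^ (1 / 3 : ℝ)⌋₊ := ⟨_, rfl⟩
  have hRle : (R : ℝ) ≤ L ^ (1 / 3 : ℝ) := by rw [hR]; exact Nat.floor_le (by positivity)
  have hRlt : L ^ (1 / 3 : ℝ) < R + 1 := by rw [hR]; exact Nat.lt_floor_add_one _
  have hR1 : 1 ≤ R := by
    rw [hR]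
    apply Nat.le_floor
    push_cast
    exact Real.one_le_rpow (by linarith) (by norm_num)
  have hRy : R ≤ yy X := by
    unfold yy
    rw [← hL]
    apply Nat.le_floor
    linarith
  obtain ⟨Q0, hQ0⟩ : ∃ Q0, Q0 = (Icc 1 R).filter (fun p => p.Prime ∧ (p ∈ S ∨ p = ps)) := ⟨_, rfl⟩
  obtain ⟨q, hq⟩ : ∃ q, q = ∏ p ∈ Q0, p := ⟨_, rfl⟩
  have hQp : ∀ p ∈ Q0, p.Prime := by
    intro p hp
    rw [hQ0, mem_filter] at hp
    exact hp.2.1
  have hqpos : 0 < q := by
    rw [hq]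
    exact prod_pos fun p hp => (hQp p hp).pos
  have hqf : q.primeFactors = Q0 := by rw [hq]; exact Nat.primeFactors_prod hQp
  have hpdq : ∀ p : ℕ, p.Prime → (p ∣ q ↔ p ∈ Q0) := by
    intro p hp
    rw [← hqf, Nat.mem_primeFactors]
    exact ⟨fun h => ⟨hp, h, hqpos.ne'⟩, fun h => h.2.1⟩
  have hsub : (range (D + 1)).filter (fun v => (a + v).Coprime (WW X S ps)) ⊆
      (range (D + 1)).filter (fun t => (PP q R).Coprime (a + t)) := by
    intro v hv
    rw [mem_filter] at hv ⊢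
    refine ⟨hv.1, ?_⟩
    rw [Nat.coprime_iff_gcd_eq_one]
    by_contra hne
    obtain ⟨p, hp, hpd⟩ := Nat.exists_prime_and_dvd hne
    have e1 : p ∣ PP q R := hpd.trans (Nat.gcd_dvd_left _ _)
    have e2 : p ∣ a + v := hpd.trans (Nat.gcd_dvd_right _ _)
    rw [prime_dvd_PP hp, hpdq p hp, hQ0, mem_filter, mem_Icc] at e1
    obtain ⟨e3, e4⟩ := e1
    have e5 : p ∈ PW X S ps := by
      rw [mem_PW]
      refine ⟨e3.trans hRy, hp, ?_, ?_⟩
      · intro h
        exact e4 ⟨⟨hp.one_lt.le, e3⟩, hp, Or.inl h⟩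
      · intro h
        exact e4 ⟨⟨hp.one_lt.le, e3⟩, hp, Or.inr h⟩
    have e6 : p ∣ WW X S ps := (prime_dvd_WW hp).2 e5
    have e7 := Nat.dvd_gcd e2 e6
    rw [hv.2] at e7
    exact hp.one_lt.ne' (Nat.dvd_one.1 e7)
  have hcard : (((range (D + 1)).filter fun v => (a + v).Coprime (WW X S ps)).card : ℝ) ≤
      (((range (D + 1)).filter (fun t => (PP q R).Coprime (a + t))).card : ℝ) := by
    exact_mod_cast card_le_card hsub
  refine hcard.trans ((sift_le a q (D + 1) R hqpos hR1).trans ?_)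
  -- the totient
  have hsum : ∑ p ∈ Q0, (p : ℝ)⁻¹ ≤ 1 := by
    have e0 : ps = 1 ∨ 4 < ps := by
      rcases hps with h | h
      · exact Or.inl h
      · exact Or.inr (lt_of_le_of_lt hZ h.2)
    have e1 : ∑ p ∈ Q0, (p : ℝ)⁻¹ ≤ ∑ p ∈ S, (p : ℝ)⁻¹ + ∑ p ∈ ({ps} : Finset ℕ).filter Nat.Prime, (p : ℝ)⁻¹ := by
      have e2 : Q0 ⊆ S ∪ ({ps} : Finset ℕ).filter Nat.Prime := by
        intro p hp
        rw [hQ0, mem_filter] at hp
        rw [mem_union, mem_filter, mem_singleton]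
        rcases hp.2.2 with h | h
        · exact Or.inl h
        · exact Or.inr ⟨h, hp.2.1⟩
      refine (sum_le_sum_of_subset_of_nonneg e2 fun _ _ _ => by positivity).trans ?_
      have e3 := sum_union_inter (s₁ := S) (s₂ := ({ps} : Finset ℕ).filter Nat.Prime)
        (f := fun p : ℕ => (p : ℝ)⁻¹)
      have e4 : 0 ≤ ∑ p ∈ S ∩ ({ps} : Finset ℕ).filter Nat.Prime, (p : ℝ)⁻¹ :=
        sum_nonneg fun _ _ => by positivity
      linarith
    have e2 : ∑ p ∈ S, (p : ℝ)⁻¹ ≤ 6 / l ^ 2 := by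
      have := hS.2
      rw [← hL, ← hl] at this
      simpa [one_div] using this
    have e3 : 6 / l ^ 2 ≤ 1 / 2 := by
      rw [div_le_iff₀ (by positivity)]
      nlinarith
    have e4 : ∑ p ∈ ({ps} : Finset ℕ).filter Nat.Prime, (p : ℝ)⁻¹ ≤ 1 / 2 := by
      rcases e0 with h | h
      · have : ({ps} : Finset ℕ).filter Nat.Prime = ∅ := by
          rw [h]
          ext p
          simp only [mem_filter, mem_singleton, notMem_empty, iff_false, not_and]
          rintro rfl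
          exact Nat.not_prime_one
        rw [this, sum_empty]
        norm_num
      · refine (sum_le_sum_of_subset_of_nonneg (filter_subset _ _) fun _ _ _ => by positivity).trans ?_
        rw [sum_singleton]
        have h5 : (4 : ℝ) ≤ ps := by exact_mod_cast h.le
        rw [inv_le_comm₀ (by linarith) (by norm_num)]
        norm_num
        linarith
    linarith
  have htot : (q : ℝ) / Nat.totient q ≤ 8 := by
    have e1 := Pool.Agent.H95R2.Leh.ApS.totient_div (q := q) hqpos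
    rw [hqf] at e1
    have e2 : Real.exp (-(2 * ∑ p ∈ Q0, (p : ℝ)⁻¹)) ≤ ∏ p ∈ Q0, (1 - (p : ℝ)⁻¹) := by
      rw [mul_sum, ← sum_neg_distrib, Real.exp_sum]
      apply prod_le_prod (fun _ _ => (Real.exp_pos _).le)
      intro p hp
      have hp2 : (2 : ℝ) ≤ p := by exact_mod_cast (hQp p hp).two_le
      apply exp_neg_le _ (by positivity)
      rw [one_div]
      exact inv_anti₀ (by norm_num) hp2
    have e3 : Real.exp (-2) ≤ (Nat.totient q : ℝ) / q := by
      rw [← e1]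
      refine le_trans (Real.exp_le_exp.2 ?_) e2
      linarith
    have e4 : (1 : ℝ) / 8 ≤ Real.exp (-2) := by
      have e5 := Real.exp_one_lt_d9
      have e6 : Real.exp 2 = Real.exp 1 * Real.exp 1 := by rw [← Real.exp_add]; norm_num
      rw [Real.exp_neg, one_div]
      apply inv_anti₀ (Real.exp_pos _)
      rw [e6]
      nlinarith [Real.exp_pos 1]
    have htp : (0 : ℝ) < Nat.totient q := by exact_mod_cast Nat.totient_pos.2 hqpos
    have hqr : (0 : ℝ) < q := by exact_mod_cast hqpos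
    rw [div_le_iff₀ htp]
    have e5 := e4.trans e3
    rw [le_div_iff₀ hqr] at e5
    linarith
  have hlogR : l / 3 ≤ Real.log ((R : ℝ) + 1) := by
    have e1 : Real.log (L ^ (1 / 3 : ℝ)) = 1 / 3 * l := by rw [Real.log_rpow hL0, hl]
    have e2 : Real.log (L ^ (1 / 3 : ℝ)) ≤ Real.log ((R : ℝ) + 1) :=
      Real.log_le_log (by positivity) hRlt.le
    linarith
  have hl0 : 0 < l := by linarith
  have hmain : ((q : ℝ) / Nat.totient q) * ((D + 1 : ℕ) : ℝ) / Real.log ((R : ℝ) + 1) ≤ c₃ / 2 * L + 24 := by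
    have e1 : ((q : ℝ) / Nat.totient q) * ((D + 1 : ℕ) : ℝ) / Real.log ((R : ℝ) + 1) ≤
        8 * ((D + 1 : ℕ) : ℝ) / (l / 3) := by
      apply div_le_div₀ (by positivity) _ (by positivity) hlogR
      exact mul_le_mul_of_nonneg_right htot (by positivity)
    refine e1.trans ?_
    rw [div_le_iff₀ (by positivity)]
    push_cast
    have e2 : 8 * ((D : ℝ) + 1) ≤ 8 * (c₃ / 48 * (L * l) + 1) := by linarith
    refine e2.trans ?_
    nlinarith
  have herr : ((R : ℝ) * (1 + Real.log R / Real.log 2)) ^ 2 ≤ c₃ / 4 * L := by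
    refine le_trans ?_ h1
    have e1 : Real.log R ≤ 1 / 3 * l := by
      have : Real.log (L ^ (1 / 3 : ℝ)) = 1 / 3 * l := by rw [Real.log_rpow hL0, hl]
      rw [← this]
      exact Real.log_le_log (by exact_mod_cast hR1) hRle
    have e2 : (0.6931471803 : ℝ) < Real.log 2 := Real.log_two_gt_d9
    have e3 : Real.log R / Real.log 2 ≤ l := by
      rw [div_le_iff₀ (by linarith)]
      nlinarith
    have e4 : 0 ≤ Real.log R / Real.log 2 := by
      apply div_nonneg _ (by linarith)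
      exact Real.log_nonneg (by exact_mod_cast hR1)
    rw [mul_pow]
    have e5 : (R : ℝ) ^ 2 ≤ L ^ (2 / 3 : ℝ) := by
      calc (R : ℝ) ^ 2 ≤ (L ^ (1 / 3 : ℝ)) ^ 2 := by gcongr
        _ = L ^ (2 / 3 : ℝ) := by
            rw [← Real.rpow_natCast, ← Real.rpow_mul hL0.le]
            norm_num
    apply mul_le_mul e5 _ (by positivity) (by positivity)
    gcongr
  have h24 : 24 ≤ c₃ / 4 * L := by
    rw [div_le_iff₀ hc₃] at hL96
    linarith
  linarith

end Pool.Agent.Q84.MB
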