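import Pool.Agent.Q84.MB.D7
import Pool.Agent.Q84.PP3
import Pool.Agent.Q84.PP4

set_option autoImplicit false

/-!
The exact set of the primes in a window, in an arbitrary class modulo the big modulus.
-/

open Finset Filter Topology

namespace Pool.Agent.Q84.MB

open Pool.Agent.H378R2
open Pool.Agent.H312R2.RG (BVat)

/-- the integers `n` in `(X, 3X]`, in the class `a` modulo `Q`, such that the primes among `n, …, n + D` are
exactly the `n + h`, `h ∈ H` -/
noncomputable def RS (X : ℝ) (Q a D : ℕ) (H : Finset ℕ) : Finset ℕ :=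
  open Classical in (Icc 1 ⌊3 * X⌋₊).filter fun n => X < n ∧ n ≡ a [MOD Q] ∧ ∀ v ≤ D, ((n + v).Prime ↔ v ∈ H)

/-- the numbers `v ≤ D` with `a + v` prime to `Q` -/
def VS (Q a D : ℕ) : Finset ℕ := (range (D + 1)).filter fun v => (a + v).Coprime Q

/-- `Bombieri-Vinogradov` in the form used by the engine -/
theorem bvat (A Z : ℕ) (hZ : 2 ≤ Z) : ∃ X0 : ℝ, ∀ X : ℝ, X0 ≤ X →
    ∃ (ps : ℕ) (S : Finset ℕ), GoodP Z ps ∧ GoodS X S ∧ (S.card : ℝ) ≤ vv X ^ 195 ∧ BVat A X (WW X S ps) ps := by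
  obtain ⟨X0, h⟩ := bvG 1 le_rfl A Z hZ (fun p hp h => absurd (Nat.dvd_one.1 h) hp.one_lt.ne')
  refine ⟨X0, fun X hX => ?_⟩
  obtain ⟨ps, S, h1, h2, h3, h4⟩ := h X hX
  refine ⟨ps, S, h1, h2, h3, fun b hb => ?_⟩
  have h5 := h4 b (fun q hq => by
    rw [LSBV.mem_QQ] at hq
    rw [one_mul]
    exact hb q hq.1.1)
  simp only [one_mul] at h5
  unfold LSBV.QQ at h5
  exact h5

/-- **Exact windows in arbitrary classes.** -/
theorem exact_win (m : ℕ) : ∃ K : ℕ, m ≤ K ∧ 1 ≤ K ∧ ∃ c₁ c₂ : ℝ, 0 < c₁ ∧ 0 < c₂ ∧ ∀ Z : ℕ, 4 ≤ Z →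
    ∀ᶠ X : ℝ in atTop, ∃ (ps : ℕ) (S : Finset ℕ), GoodP Z ps ∧ GoodS X S ∧ (S.card : ℝ) ≤ vv X ^ 195 ∧
    (∀ a D : ℕ, (D : ℝ) ≤ c₂ * (Real.log X * Real.log (Real.log X)) →
      ((VS (WW X S ps) a D).card : ℝ) ≤ c₁ * Real.log X) ∧
    ∀ a D : ℕ, (D : ℝ) ≤ (Real.log X) ^ 2 → ((VS (WW X S ps) a D).card : ℝ) ≤ c₁ * Real.log X →
      ∀ T ⊆ VS (WW X S ps) a D, T.card = K → ∃ H ⊆ T, m ≤ H.card ∧
        X ^ (4 / 5 : ℝ) ≤ ((RS X (WW X S ps) a D H).card : ℝ) := by
  classical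
  obtain ⟨K, hmK, hK1, A, c, hc, hwin⟩ := win m
  obtain ⟨c₂, hc₂, hsurv⟩ := surv_le c hc
  refine ⟨K, hmK, hK1, c, c₂, hc, hc₂, fun Z hZ => ?_⟩
  obtain ⟨X0, hbv⟩ := bvat A Z (by omega)
  have hpow : ∀ᶠ X : ℝ in atTop, (2 : ℝ) ^ K * X ^ (4 / 5 : ℝ) ≤ X ^ (9 / 10 : ℝ) := by
    filter_upwards [(tendsto_rpow_atTop (by norm_num : (0 : ℝ) < 1 / 10)).eventually_ge_atTop (2 ^ K : ℝ),
      eventually_gt_atTop (0 : ℝ)] with X h1 h2
    have e : X ^ (9 / 10 : ℝ) = X ^ (1 / 10 : ℝ) * X ^ (4 / 5 : ℝ) := by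
      rw [← Real.rpow_add h2]
      norm_num
    rw [e]
    exact mul_le_mul_of_nonneg_right h1 (by positivity)
  filter_upwards [hwin Z hZ, hsurv, eventually_ge_atTop X0, hpow, eventually_ge_atTop (1000 : ℝ)]
    with X hwX hsX hX0 hpX hX1
  obtain ⟨ps, S, hps, hS, hSc, hBV⟩ := hbv X hX0
  refine ⟨ps, S, hps, hS, hSc, fun a D hD => hsX Z ps S hZ hps hS a D hD, ?_⟩
  intro a D hD hV T hT hTK
  have hXpos : 0 < X := by linarith
  by_contra hcon
  push Not at hcon
  -- the bad set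
  obtain ⟨bad, hbad⟩ : ∃ bad : Finset ℕ, bad = (T.powerset.filter fun H => m ≤ H.card).biUnion
    fun H => RS X (WW X S ps) a D H := ⟨_, rfl⟩
  have hbadc : (bad.card : ℝ) ≤ X ^ (9 / 10 : ℝ) := by
    refine le_trans ?_ hpX
    have h1 : (bad.card : ℝ) ≤ ∑ H ∈ T.powerset.filter (fun H => m ≤ H.card),
        ((RS X (WW X S ps) a D H).card : ℝ) := by
      rw [hbad]
      exact_mod_cast card_biUnion_le
    refine h1.trans ?_
    have h2 : ∀ H ∈ T.powerset.filter (fun H => m ≤ H.card),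
        ((RS X (WW X S ps) a D H).card : ℝ) ≤ X ^ (4 / 5 : ℝ) := by
      intro H hH
      rw [mem_filter, mem_powerset] at hH
      exact (hcon H hH.1 hH.2).le
    refine (sum_le_card_nsmul _ _ _ h2).trans ?_
    rw [nsmul_eq_mul]
    apply mul_le_mul_of_nonneg_right _ (by positivity)
    have h3 : (T.powerset.filter (fun H => m ≤ H.card)).card ≤ 2 ^ K := by
      refine (card_filter_le _ _).trans ?_
      rw [card_powerset, hTK]
    exact_mod_cast h3
  have hmemV : ∀ v, v ∈ VS (WW X S ps) a D ↔ v ≤ D ∧ (a + v).Coprime (WW X S ps) := by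
    intro v
    unfold VS
    rw [mem_filter, mem_range, Nat.lt_succ_iff]
  obtain ⟨n, hXn, hn3, hnb, hna, hU, hm⟩ := hwX ps S hps hS hBV a T (VS (WW X S ps) a D \ T) hTK
    disjoint_sdiff_self_left
    (fun t ht => le_trans (by exact_mod_cast ((hmemV t).1 (hT ht)).1) hD)
    (fun u hu => le_trans (by exact_mod_cast ((hmemV u).1 (mem_sdiff.1 hu).1).1) hD)
    (fun t ht => ((hmemV t).1 (hT ht)).2)
    (le_trans (by exact_mod_cast card_le_card sdiff_subset) hV) bad hbadc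
  apply hnb
  rw [hbad, mem_biUnion]
  refine ⟨T.filter fun t => (n + t).Prime, ?_, ?_⟩
  · rw [mem_filter, mem_powerset]
    exact ⟨filter_subset _ _, hm⟩
  · unfold RS
    rw [mem_filter, mem_Icc]
    refine ⟨⟨?_, Nat.le_floor hn3⟩, hXn, hna, fun v hv => ?_⟩
    · have : (0 : ℝ) < n := by linarith
      exact_mod_cast this
    · constructor
      · intro hp
        have hcop : (a + v).Coprime (WW X S ps) := by
          rw [Nat.coprime_iff_gcd_eq_one]
          by_contra hne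
          obtain ⟨p, hpp, hpd⟩ := Nat.exists_prime_and_dvd hne
          have e1 : p ∣ WW X S ps := hpd.trans (Nat.gcd_dvd_right _ _)
          have e2 : p ∣ a + v := hpd.trans (Nat.gcd_dvd_left _ _)
          have e3 : n + v ≡ a + v [MOD p] := (hna.of_dvd e1).add_right v
          have e4 : p ∣ n + v := (Nat.modEq_zero_iff_dvd).1 (e3.trans ((Nat.modEq_zero_iff_dvd).2 e2))
          have e5 : p = n + v := (Nat.prime_dvd_prime_iff_eq hpp hp).1 e4
          have e6 := (prime_dvd_WW hpp).1 e1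
          rw [mem_PW] at e6
          have e7 : (p : ℝ) ≤ yy X := by exact_mod_cast e6.1
          have e8 : (yy X : ℝ) ≤ Real.log X / 1000 := Nat.floor_le (by
            have : 0 ≤ Real.log X := Real.log_nonneg (by linarith)
            positivity)
          have e9 : Real.log X ≤ X := (Real.log_le_sub_one_of_pos hXpos).trans (by linarith)
          have e10 : (n : ℝ) ≤ p := by rw [e5]; exact_mod_cast Nat.le_add_right n v
          linarith
        have hvV : v ∈ VS (WW X S ps) a D := (hmemV v).2 ⟨hv, hcop⟩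
        rw [mem_filter]
        refine ⟨?_, hp⟩
        by_contra hvT
        exact hU v (mem_sdiff.2 ⟨hvV, hvT⟩) hp
      · intro hvH
        exact (mem_filter.1 hvH).2

/-! ### combinatorics -/

/-- Ramsey: all the subsets have the property -/
theorem hered (m K : ℕ) (hmK : m ≤ K) : ∃ C : ℕ, K ≤ C ∧ ∀ (P : Finset ℕ → Prop) (V : Finset ℕ),
    (∀ T ⊆ V, T.card = K → ∀ s, 0 < s → s ≤ m → ∃ Z ⊆ T, Z.card = s ∧ P Z) →
    ∀ W ⊆ V, C ≤ W.card → ∃ Y ⊆ W, Y.card = m ∧ ∀ Z ⊆ Y, Z.Nonempty → P Z := by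
  classical
  obtain ⟨N, hN⟩ := Pool.Agent.H507R3.RamAll.ramsey_all Bool m K
  refine ⟨max N K, le_max_right _ _, fun P V h W hW hWC => ?_⟩
  obtain ⟨T, hT, hTc, hTk⟩ := hN W (fun Z => decide (P Z)) ((le_max_left _ _).trans hWC)
  obtain ⟨Y, hYT, hYc⟩ := exists_subset_card_eq (by omega : m ≤ T.card)
  refine ⟨Y, hYT.trans hT, hYc, fun Z hZ hZne => ?_⟩
  have hs0 : 0 < Z.card := card_pos.2 hZne
  have hsm : Z.card ≤ m := by
    rw [← hYc]
    exact card_le_card hZ
  obtain ⟨k, hk⟩ := hTk Z.card hsm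
  have h1 := hk Z (hZ.trans hYT) rfl
  obtain ⟨Z', hZ'T, hZ'c, hZ'⟩ := h T (hT.trans hW) hTc Z.card hs0 hsm
  have h2 := hk Z' hZ'T hZ'c
  rw [← h1] at h2
  have h3 : decide (P Z') = true := by simpa using hZ'
  rw [h3] at h2
  simpa using h2.symm

/-- double counting -/
theorem dcount (m C : ℕ) (hmC : m ≤ C) (P : Finset ℕ → Prop) [DecidablePred P] (V : Finset ℕ) (hCV : C ≤ V.card)
    (h : ∀ W ⊆ V, W.card = C → ∃ Y ⊆ W, Y.card = m ∧ P Y) :
    V.card.choose m ≤ C.choose m * ((powersetCard m V).filter P).card := by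
  classical
  obtain ⟨G, hG⟩ : ∃ G, G = (powersetCard m V).filter P := ⟨_, rfl⟩
  have h1 : (powersetCard C V).card ≤ ∑ Y ∈ G, ((powersetCard C V).filter fun W => Y ⊆ W).card := by
    have h2 : powersetCard C V ⊆ G.biUnion fun Y => (powersetCard C V).filter fun W => Y ⊆ W := by
      intro W hW
      have hW' := mem_powersetCard.1 hW
      obtain ⟨Y, hY1, hY2, hY3⟩ := h W hW'.1 hW'.2
      rw [mem_biUnion]
      refine ⟨Y, ?_, ?_⟩
      · rw [hG, mem_filter, mem_powersetCard]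
        exact ⟨⟨hY1.trans hW'.1, hY2⟩, hY3⟩
      · rw [mem_filter]
        exact ⟨hW, hY1⟩
    exact (card_le_card h2).trans card_biUnion_le
  have h3 : ∀ Y ∈ G, ((powersetCard C V).filter fun W => Y ⊆ W).card ≤ (V.card - m).choose (C - m) := by
    intro Y hY
    rw [hG, mem_filter, mem_powersetCard] at hY
    have := Pool.Agent.Q84.PP.supersets V Y C hY.1.1
    rwa [hY.1.2] at this
  have h4 : V.card.choose C ≤ G.card * (V.card - m).choose (C - m) := by
    rw [card_powersetCard] at h1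
    refine h1.trans ((sum_le_card_nsmul _ _ _ h3).trans (le_of_eq ?_))
    rw [smul_eq_mul]
  have h5 : V.card.choose C * C.choose m = V.card.choose m * (V.card - m).choose (C - m) :=
    Nat.choose_mul hmC
  have h6 : 0 < (V.card - m).choose (C - m) := Nat.choose_pos (by omega)
  have h7 : V.card.choose m * (V.card - m).choose (C - m) ≤
      (C.choose m * G.card) * (V.card - m).choose (C - m) := by
    rw [← h5]
    calc V.card.choose C * C.choose m ≤ (G.card * (V.card - m).choose (C - m)) * C.choose m :=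
          Nat.mul_le_mul_right _ h4
      _ = _ := by ring
  rw [← hG]
  exact Nat.le_of_mul_le_mul_right h7 h6

end Pool.Agent.Q84.MB
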