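import Pool.Agent.TH194.SP.WeilLin
import Pool.Agent.W349.CG.Weil

/-!
Weil's bound for `∑ χ(∏ (x - a)^{c_a})`, `χ` of prime power order (adapted from `TH194.SP.WeilLin`, helper194).
-/

set_option autoImplicit false

namespace Pool.Agent.Q84.MB

open Polynomial Finset Pool.Agent.H341R2.Sharp IntermediateField Pool.Agent.H435R3.Weil Pool.Agent.TH194.SP

section

variable {F : Type} [Field F] [Fintype F] [DecidableEq F]

/-- **Weil's bound for a product of powers of linear factors.** The order of the character is a prime power. -/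
theorem weil_pp (ℓ s : ℕ) (hℓ : ℓ.Prime) (hs : 0 < s) (hℓF : ℓ ^ s ∣ Fintype.card F - 1) (χ : MulChar F ℂ)
    (hχ1 : χ ≠ 1) (hχ : χ ^ ℓ ^ s = 1) (J : Finset F) (c : F → ℕ) (hc : ∀ a ∈ J, 0 < c a)
    (hca : ∃ a ∈ J, ¬ ℓ ∣ c a) :
    ‖∑ x : F, χ (∏ a ∈ J, (x - a) ^ c a)‖ ≤ (J.card : ℕ) * Real.sqrt (Fintype.card F) := by
  classical
  obtain ⟨a₀, ha₀, hca₀⟩ := hca
  set P := PJ J c with hP'
  have hP : P.Monic := PJ_monic J c
  have hR : (1 : F[X]).Monic := monic_one
  have ht2 : 2 ≤ ℓ ^ s := hℓ.two_le.trans (Nat.le_self_pow hs.ne' ℓ)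
  have hcop : Cop (ℓ ^ s) (P * 1 ^ (ℓ ^ s - 1)) := by
    have h0 := PJ_cop ℓ hℓ J c ha₀ hca₀
    rw [one_pow, mul_one] at h0 ⊢
    obtain ⟨v, hv⟩ := h0
    exact ⟨v, Nat.Coprime.pow_right s hv⟩
  obtain ⟨K, hK, hb⟩ := T_bound (ℓ ^ s) ht2 hℓF χ hχ1 hχ P 1 hP hR hcop
  obtain ⟨r, hr, hev, hr0, hr1⟩ := exists_r (ℓ ^ s) ht2 hℓF χ hχ1 hχ P 1 hP hR hcop
  set d := J.card with hd
  set l := lamPR χ P 1 with hl
  have hl1 : l 1 = 1 := lamPR_one χ P 1
  have hlm : ∀ g h : F[X], g.Monic → h.Monic → l (g * h) = l g * l h :=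
    fun g h hg hh => lamPR_mul χ P 1 g h hg hh
  have hA : ∀ n, d ≤ n → AL l n = 0 := fun n hn =>
    AL_PJ_zero χ J c hc r hr hev hr0 hr1 n hn
  set a : ℂ[X] := ∑ n ∈ range d, C (AL l n) * X ^ n with ha
  have hd0 : 0 < d := by
    by_contra h0
    have h1 := hA 0 (by omega)
    rw [AL_zero l hl1] at h1
    exact one_ne_zero h1
  have hcoeff : ∀ n, a.coeff n = AL l n := by
    intro n
    rw [ha, finsetSum_coeff]
    simp_rw [coeff_C_mul_X_pow]
    by_cases hn : n < d
    · rw [sum_eq_single n]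
      · simp
      · intro m _ hm
        rw [if_neg (Ne.symm hm)]
      · intro h
        exact absurd (mem_range.2 hn) h
    · rw [hA n (by omega)]
      rw [sum_eq_zero]
      intro m hm
      rw [mem_range] at hm
      rw [if_neg (by omega)]
  have hdeg : a.natDegree ≤ d := by
    rw [natDegree_le_iff_coeff_eq_zero]
    intro n hn
    rw [hcoeff, hA n (by omega)]
  have hq0 : 0 < Real.sqrt (Fintype.card F) := Real.sqrt_pos.2 (by exact_mod_cast Fintype.card_pos)
  have hmain := coeff_one_bound a (by rw [hcoeff, AL_zero l hl1]) (fun m => TL l m)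
    (Real.sqrt (Fintype.card F)) K hq0 hK
    (fun m hm => (hb m hm).1)
    (by
      intro n
      rw [hcoeff]
      have := n_mul_AL l hl1 hlm n
      simp_rw [hcoeff]
      exact this)
    d hdeg
  rw [hcoeff] at hmain
  have h1 := n_mul_AL l hl1 hlm 1
  rw [Icc_self, sum_singleton, Nat.sub_self, AL_zero l hl1] at h1
  have h2 := TL_char (F := F) (E := F) χ P 1
  rw [Module.finrank_self] at h2
  have h3 : AL l 1 = ∑ x : F, χ (∏ a ∈ J, (x - a) ^ c a) := by
    have : AL l 1 = TL l 1 := by simpa using h1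
    rw [this, hl, h2]
    apply sum_congr rfl
    intro x _
    rw [hP']
    unfold PJ
    simp
  rw [h3] at hmain
  exact hmain

end

end Pool.Agent.Q84.MB
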