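import Pool.Agent.Q84.MB.D8
import Pool.Agent.H378R2.M7t

set_option autoImplicit false

/-!
The mass of the Maynard-Tao weights on the integers `n` with many primes among `n + t_j` is at least
`θ X / (W (log X)^K)`, in every admissible class modulo the big modulus `W`.
-/

open Finset Filter Topology
open scoped ContDiff

namespace Pool.Agent.Q84.MB

open Pool.Agent.H378R2
open Pool.Agent.H312R2.RG (BVat)

/-- **The mass of the good integers.** -/
theorem mass (r : ℕ) : ∃ (K0 B : ℕ) (f : Fin B → ℝ → ℝ) (A : Finset (Fin (K0 + 1) → Fin B)) (θ : ℝ),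
    0 < θ ∧ (∀ l x, |f l x| ≤ 1) ∧ ∀ T0 Z : ℕ, ∀ᶠ X : ℝ in atTop, ∀ (ps : ℕ) (S : Finset ℕ), GoodP Z ps →
    GoodS X S → BVat (2 * K0 + 2) X (WW X S ps) ps →
    ∀ t : Fin (K0 + 1) → ℕ, Function.Injective t → (∀ j, t j ≤ T0) →
    ∀ a0 : ℕ, (∀ j, (a0 + t j).Coprime (WW X S ps)) →
    θ * (X / ((WW X S ps : ℝ) * (Real.log X) ^ (K0 + 1))) ≤
      ∑ n ∈ (Icc 1 ⌊3 * X⌋₊).filter (fun n => r < (univ.filter fun i => (n + t i).Prime).card),
        nu X (WW X S ps) a0 n * sqw (EE X S ps) X f A (fun j => (n : ℤ) + t j) ^ 2 := by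
  classical
  have h5 := Pool.Agent.H378R2.sieveAsymp_holds
  obtain ⟨c0, hc0, X1, hset⟩ := setfacts
  have hset' : ∀ᶠ X : ℝ in atTop, ∀ (ps : ℕ) (E : Finset ℕ), E ⊆ Esup X ps → c0 / Real.log (Real.log X) ≤ BE E := by
    filter_upwards [eventually_ge_atTop X1] with X hX
    exact fun ps E hE => (hset X hX ps E hE).2.2
  obtain ⟨K0, B, f, c, A, hsm, hcs, hf0, hc, hA, hf1, hIpos, hratio⟩ := family (1600000 * (r + 3))
  have hKpos : (0 : ℝ) < ((K0 + 1 : ℕ) : ℝ) := by positivity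
  obtain ⟨ε1, hε1⟩ : ∃ ε1 : ℝ, ε1 = II f A / (((K0 + 1 : ℕ) : ℝ) + r + 1) := ⟨_, rfl⟩
  have hrnn : (0 : ℝ) ≤ r := Nat.cast_nonneg r
  have hden : (0 : ℝ) < ((K0 + 1 : ℕ) : ℝ) + r + 1 := by positivity
  have hε1pos : 0 < ε1 := by rw [hε1]; positivity
  have hε1eq : (((K0 + 1 : ℕ) : ℝ) + r + 1) * ε1 = II f A := by
    rw [hε1]; field_simp
  have hε1le : (((K0 + 1 : ℕ) : ℝ) + r) * ε1 ≤ II f A := by linarith
  have hε1le2 : ε1 ≤ II f A := by
    have : 0 ≤ (((K0 + 1 : ℕ) : ℝ) + r) * ε1 := by positivity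
    linarith
  have hgam := gam_pos
  obtain ⟨δ, hδ⟩ : ∃ δ : ℝ, δ = 1 * c0 / (400 * ((K0 + 1 : ℕ) : ℝ) * (2 * gam + 1)) := ⟨_, rfl⟩
  have hδpos : 0 < δ := by rw [hδ]; positivity
  have hAne : A.Nonempty := by
    by_contra h
    rw [not_nonempty_iff_eq_empty] at h
    rw [h] at hIpos
    unfold II at hIpos
    simp at hIpos
  have hAc : (1 : ℝ) ≤ (A.card : ℝ) := by exact_mod_cast card_pos.2 hAne
  have hη : 0 < II f A / 160 := by positivity
  have hη80 : 0 < II f A / 80 := by positivity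
  obtain ⟨θ, hθ⟩ : ∃ θ : ℝ, θ = II f A / 160 / ((K0 + 1 : ℕ) : ℝ) := ⟨_, rfl⟩
  have hθpos : 0 < θ := by rw [hθ]; positivity
  have hKθ : ((K0 + 1 : ℕ) : ℝ) * θ = II f A / 160 := by rw [hθ]; field_simp
  refine ⟨K0, B, f, A, θ, hθpos, hf1, fun T0 Z => ?_⟩
  have hcc : 0 ≤ ((K0 + 1 : ℕ) : ℝ) * (A.card : ℝ) ^ 2 := by positivity
  filter_upwards [S1_bound h5 f c A hsm hcs hf0 hc hA hf1 ε1 hε1pos,
    S2_bound h5 f c A hsm hcs hf0 hc hA hf1 T0 ε1 hε1pos,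
    EE_facts T0, hset', LPhi_ge, errB (K0 + 1) r T0 0 A.card 1 (II f A / 160) (Nat.cast_nonneg _) one_pos hη,
    errBV K0 (((K0 + 1 : ℕ) : ℝ) * (A.card : ℝ) ^ 2) c0 (II f A / 80) hcc hc0 hη80,
    eventually_ge_atTop (2 * T0 : ℝ), LL_tendsto.eventually_ge_atTop 1, eventually_ge_atTop 40]
    with X hS1 hS2 hEf hBEl hLP herrB herrBV hmX hL1 hX40
  intro ps S hps hS hBV t htinj htT a0 hcop
  have hXpos : 0 < X := by linarith
  have hLl : LL X = Real.log X / 200 := rfl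
  have hlogX : 200 ≤ Real.log X := by linarith
  have hWpos : 0 < WW X S ps := WW_pos X S ps
  have hWr : (0 : ℝ) < (WW X S ps : ℝ) := by exact_mod_cast hWpos
  have hBE : 0 < BE (EE X S ps) := BE_pos fun p hp => EE_prime hp
  have hBE1 : BE (EE X S ps) ≤ 1 := BE_le_one fun p hp => EE_prime hp
  have hPWpos : 0 < BE (PW X S ps) := BE_pos fun p hp => (mem_PW.1 hp).2.1
  have hMge := MPhi_ge X hX40
  have hMpos : 0 < MPhi X := lt_of_lt_of_le (by positivity) hMge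
  have hMM : MPhi X / 400 ≤ LPhi X := by
    have := MPhi_le X (by linarith)
    linarith
  obtain ⟨Bc, hBc1, hBc2⟩ := Bc_exists X (WW X S ps) hWpos
  have hpE : ∀ p : ℕ, p.Prime → p ∉ EE X S ps → T0 < p := by
    intro p hp hpE
    by_contra hle
    push Not at hle
    apply hpE
    exact EE_small hS hEf.2.1 hp (by omega)
  have htd : ∀ i j, i ≠ j → ∀ p : ℕ, p.Prime → p ∉ EE X S ps → ¬ (p : ℤ) ∣ (t i : ℤ) - t j := by
    intro i j hij p hp hpE' hd
    have h1 := hpE p hp hpE'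
    have h2 := htT i
    have h3 := htT j
    have h4 : (t i : ℤ) - t j ≠ 0 := by
      intro h
      apply hij
      apply htinj
      omega
    have h6 := Int.le_of_dvd (abs_pos.2 h4) ((dvd_abs _ _).2 hd)
    have h7 : |(t i : ℤ) - t j| ≤ T0 := by
      rw [abs_le]
      omega
    omega
  have hPWsub : PW X S ps ⊆ Esup X ps := by
    refine Finset.Subset.trans ?_ (EE_sub hEf.2.2 (S := S))
    unfold EE
    exact Finset.subset_union_left
  have hBVle : BVerr K0 X S ps Bc ≤ X / ((WW X S ps * BE (PW X S ps)) * (Real.log X) ^ (2 * K0 + 2)) := by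
    have h1 := hBV Bc hBc1
    rw [totient_WW] at h1
    refine le_trans ?_ h1
    unfold BVerr
    apply Finset.sum_le_sum
    intro q hq
    apply mul_le_mul_of_nonneg_right _ (abs_nonneg _)
    rw [Finset.mem_filter, Finset.mem_Icc] at hq
    have h2 : (1 : ℝ) ≤ (q.divisors.card : ℝ) := by
      have : 0 < q.divisors.card := Finset.card_pos.2 ⟨1, Nat.one_mem_divisors.2 (by omega)⟩
      exact_mod_cast this
    exact pow_le_pow_right₀ h2 (by omega)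
  obtain ⟨Wn, hWn⟩ : ∃ Wn : ℕ → ℝ, Wn = fun n => nu X (WW X S ps) a0 n *
    sqw (EE X S ps) X f A (fun j => (n : ℤ) + t j) ^ 2 := ⟨_, rfl⟩
  have hWnn : ∀ n, 0 ≤ Wn n := by
    intro n
    rw [hWn]
    exact mul_nonneg (nu_nonneg _ _ _ _) (sq_nonneg _)
  obtain ⟨G, hG⟩ : ∃ G : ℕ → Prop, G = fun n => r < (univ.filter fun i => (n + t i).Prime).card := ⟨_, rfl⟩
  obtain ⟨P0, hP0⟩ : ∃ P0 : ℝ, P0 = X / ((WW X S ps : ℝ) * (Real.log X) ^ (K0 + 1)) := ⟨_, rfl⟩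
  have hP0pos : 0 < P0 := by rw [hP0]; positivity
  by_contra hcon
  push Not at hcon
  have hsumG : ∑ n ∈ Icc 1 ⌊3 * X⌋₊, Wn n * (if G n then 1 else 0) < θ * P0 := by
    rw [hP0]
    refine lt_of_le_of_lt (le_of_eq ?_) hcon
    rw [sum_filter]
    refine sum_congr rfl fun n _ => ?_
    rw [hG, hWn]
    by_cases h : r < (univ.filter fun i => (n + t i).Prime).card
    · simp only [h, if_true, mul_one]
    · simp only [h, if_false, mul_zero]
  have hl4 : 1 ≤ Real.log (4 * X) := by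
    rw [Real.log_mul (by norm_num) hXpos.ne']
    have := Real.log_nonneg (by norm_num : (1 : ℝ) ≤ 4)
    linarith
  have hl4le : Real.log (4 * X) ≤ 400 * LL X := by
    rw [Real.log_mul (by norm_num) hXpos.ne']
    have h2 : Real.log 4 ≤ 2 := by
      have : Real.log 4 = 2 * Real.log 2 := by
        rw [show (4 : ℝ) = 2 ^ 2 by norm_num, Real.log_pow]; norm_num
      have := Real.log_two_lt_d9
      linarith
    rw [hLl]
    linarith
  have E1 : ∑ n ∈ Icc 1 ⌊3 * X⌋₊, Wn n ≤ (MPhi X * (1 / (WW X S ps : ℝ))) *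
      (1 / (LL X * BE (EE X S ps)) ^ (K0 + 1)) * (II f A + ε1) + (A.card : ℝ) ^ 2 * (5 * Real.exp (2 * LL X)) := by
    rw [hWn]
    exact hS1 ps S a0 t hS htd
  have E2 : (LPhi X * (1 / ((WW X S ps).totient : ℝ))) * (1 / (LL X * BE (EE X S ps)) ^ K0) *
      (∑ i, JJ f A i - ((K0 + 1 : ℕ) : ℝ) * ε1) - ((K0 + 1 : ℕ) : ℝ) * ((A.card : ℝ) ^ 2 * (BVerr K0 X S ps Bc +
        Real.exp (2 * LL X) * ((4 * T0) * Real.log (4 * X) + 4 * Real.sqrt X * Real.log (4 * X)))) ≤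
      ∑ n ∈ Icc 1 ⌊3 * X⌋₊, Wn n * ∑ i, th (n + t i) := by
    have h1 : ∑ n ∈ Icc 1 ⌊3 * X⌋₊, Wn n * ∑ i, th (n + t i) =
        ∑ i, ∑ n ∈ Icc 1 ⌊3 * X⌋₊, nu X (WW X S ps) a0 n *
          (sqw (EE X S ps) X f A (fun j => (n : ℤ) + t j) ^ 2 * th (n + t i)) := by
      rw [Finset.sum_comm]
      refine Finset.sum_congr rfl fun n _ => ?_
      rw [Finset.mul_sum]
      refine Finset.sum_congr rfl fun i _ => ?_
      simp only [hWn]
      ring
    rw [h1]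
    refine le_trans (le_of_eq ?_) (Finset.sum_le_sum fun i _ =>
      hS2 Z ps S a0 t hps hS htd htT hcop Bc hBc2 i)
    rw [Finset.sum_sub_distrib, ← Finset.mul_sum, Finset.sum_sub_distrib, Finset.sum_const, Finset.sum_const,
      Finset.card_univ, Fintype.card_fin, nsmul_eq_mul, nsmul_eq_mul]
  obtain ⟨lX, hlX⟩ : ∃ lX : ℝ, lX = θ * P0 / ((A.card : ℝ) ^ 2 * Real.exp (2 * LL X)) := ⟨_, rfl⟩
  have hcA2 : 0 < (A.card : ℝ) ^ 2 * Real.exp (2 * LL X) := by positivity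
  have hlX2 : lX * ((A.card : ℝ) ^ 2 * Real.exp (2 * LL X)) = θ * P0 := by
    rw [hlX]
    field_simp
  have E4 : ∑ n ∈ Icc 1 ⌊3 * X⌋₊, Wn n * (if G n then 1 else 0) ≤
      lX * ((A.card : ℝ) ^ 2 * Real.exp (2 * LL X)) := by
    rw [hlX2]
    exact hsumG.le
  have hM2 : (MPhi X * (1 / (WW X S ps : ℝ))) * (1 / (LL X * BE (EE X S ps)) ^ (K0 + 1)) * (LL X / 800) ≤
      (LPhi X * (1 / ((WW X S ps).totient : ℝ))) * (1 / (LL X * BE (EE X S ps)) ^ K0) := by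
    rw [totient_WW]
    exact M2_real (MPhi X) (LPhi X) (WW X S ps) (BE (EE X S ps)) (BE (PW X S ps)) (LL X) K0 hMpos.le hWr hBE
      hPWpos (by linarith) (BE_EE_ge X S ps) hMM
  have hMm := Mm_real X (MPhi X) (WW X S ps) (BE (EE X S ps)) (LL X) (Real.log X) (K0 + 1) hXpos hWr hBE hBE1
    (by linarith) (by rw [hLl]; linarith) hMge
  have hMmpos : 0 < (MPhi X * (1 / (WW X S ps : ℝ))) * (1 / (LL X * BE (EE X S ps)) ^ (K0 + 1)) := by
    have : 0 < LL X := by linarith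
    positivity
  have hBVnn : 0 ≤ BVerr K0 X S ps Bc := by
    unfold BVerr
    exact Finset.sum_nonneg fun q _ => by positivity
  have hE2nn : 0 ≤ Real.exp (2 * LL X) * ((4 * T0) * Real.log (4 * X) + 4 * Real.sqrt X * Real.log (4 * X)) := by
    have : 0 ≤ Real.log (4 * X) := by linarith
    positivity
  have herrB' : ((K0 + 1 : ℕ) : ℝ) * (A.card : ℝ) ^ 2 * (Real.exp (2 * LL X) *
      ((4 * T0) * Real.log (4 * X) + 4 * Real.sqrt X * Real.log (4 * X))) +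
      r * ((A.card : ℝ) ^ 2 * (5 * Real.exp (2 * LL X))) +
      ((K0 + 1 : ℕ) : ℝ) / 1 * (2 * 0 * ((A.card : ℝ) ^ 2 * (5 * Real.exp (3 * LL X)))) +
      ((K0 + 1 : ℕ) : ℝ) * (lX * ((A.card : ℝ) ^ 2 * Real.exp (2 * LL X))) ≤ P0 * (II f A / 80) := by
    rw [hlX2]
    have h1 := herrB _ hWr (WW_le X (by linarith) S ps)
    rw [← hP0] at h1
    have h2 : 0 ≤ ((K0 + 1 : ℕ) : ℝ) / 1 * (2 * (⌊2 * Real.log X⌋₊ + (0 : ℕ) + 1) * ((A.card : ℝ) ^ 2 *
      (5 * Real.exp (3 * LL X)))) := by positivity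
    have h3 : 0 ≤ ((K0 + 1 : ℕ) : ℝ) * ((Real.log X) ^ 4 * ((A.card : ℝ) ^ 2 * Real.exp (2 * LL X))) := by
      positivity
    have h4 : ((K0 + 1 : ℕ) : ℝ) * (θ * P0) = P0 * (II f A / 160) := by
      rw [← mul_assoc, hKθ]
      ring
    rw [h4]
    linarith
  have hfin := combine_real ((MPhi X * (1 / (WW X S ps : ℝ))) * (1 / (LL X * BE (EE X S ps)) ^ (K0 + 1)))
    ((LPhi X * (1 / ((WW X S ps).totient : ℝ))) * (1 / (LL X * BE (EE X S ps)) ^ K0)) (II f A) ε1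
    ((K0 + 1 : ℕ) : ℝ) r (Real.log (4 * X)) (LL X) (∑ i, JJ f A i) c0 δ gam 1
    (∑ n ∈ Icc 1 ⌊3 * X⌋₊, Wn n) (∑ n ∈ Icc 1 ⌊3 * X⌋₊, Wn n * ∑ i, th (n + t i)) 0
    (∑ n ∈ Icc 1 ⌊3 * X⌋₊, Wn n * (if G n then 1 else 0)) (A.card : ℝ) (BVerr K0 X S ps Bc)
    (Real.exp (2 * LL X)) (Real.exp (3 * LL X))
    (Real.exp (2 * LL X) * ((4 * T0) * Real.log (4 * X) + 4 * Real.sqrt X * Real.log (4 * X)))
    0 P0 lX 0 0
    hMmpos hIpos hε1pos hKpos (Nat.cast_nonneg _) hl4 hl4le (by linarith) hc0 gam_pos one_pos hε1le hε1le2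
    hδ hratio hM2 hBVnn hE2nn E1 E2 (by positivity) E4 herrB' (by
      rw [hP0]
      exact herrBV _ _ _ hWr (hBEl ps _ hPWsub) hBVle) (by rw [hP0]; exact hMm)
  rw [mul_zero, sub_zero] at hfin
  have e0 : (∑ n ∈ Icc 1 ⌊3 * X⌋₊, Wn n * ∑ i, th (n + t i)) / Real.log (4 * X) -
      r * ∑ n ∈ Icc 1 ⌊3 * X⌋₊, Wn n - ((K0 + 1 : ℕ) : ℝ) * ∑ n ∈ Icc 1 ⌊3 * X⌋₊, Wn n * (if G n then 1 else 0) =
      ∑ n ∈ Icc 1 ⌊3 * X⌋₊, Wn n * ((∑ i, th (n + t i)) / Real.log (4 * X) - r -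
        ((K0 + 1 : ℕ) : ℝ) * (if G n then 1 else 0)) := by
    rw [Finset.sum_div, Finset.mul_sum, Finset.mul_sum, ← Finset.sum_sub_distrib, ← Finset.sum_sub_distrib]
    refine Finset.sum_congr rfl fun n _ => ?_
    ring
  rw [e0] at hfin
  apply absurd hfin (not_lt.2 (Finset.sum_nonpos fun n hn => ?_))
  apply mul_nonpos_of_nonneg_of_nonpos (hWnn n)
  have hn3 : (n : ℝ) ≤ 3 * X := by
    rw [Finset.mem_Icc] at hn
    exact (Nat.cast_le.2 hn.2).trans (Nat.floor_le (by linarith))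
  have hth : ∀ i, th (n + t i) / Real.log (4 * X) ≤ if (n + t i).Prime then 1 else 0 := by
    intro i
    unfold th
    split_ifs with hp
    · rw [div_le_one (by linarith)]
      apply Real.log_le_log
      · exact_mod_cast hp.pos
      · push_cast
        have h1 : (t i : ℝ) ≤ T0 := by exact_mod_cast htT i
        have h2 : (0 : ℝ) ≤ T0 := Nat.cast_nonneg _
        linarith
    · rw [zero_div]
  have hsum : (∑ i, th (n + t i)) / Real.log (4 * X) ≤ ((univ.filter fun i => (n + t i).Prime).card : ℝ) := by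
    rw [Finset.sum_div]
    refine (sum_le_sum fun i _ => hth i).trans (le_of_eq ?_)
    rw [← sum_filter, sum_const, nsmul_eq_mul, mul_one]
  by_cases hGn : G n
  · rw [if_pos hGn, mul_one]
    have h1 : ((univ.filter fun i => (n + t i).Prime).card : ℝ) ≤ ((K0 + 1 : ℕ) : ℝ) := by
      have := card_filter_le (univ : Finset (Fin (K0 + 1))) (fun i => (n + t i).Prime)
      rw [card_univ, Fintype.card_fin] at this
      exact_mod_cast this
    linarith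
  · rw [if_neg hGn, mul_zero, sub_zero]
    rw [hG] at hGn
    push Not at hGn
    have h1 : ((univ.filter fun i => (n + t i).Prime).card : ℝ) ≤ r := by exact_mod_cast hGn
    linarith

end Pool.Agent.Q84.MB
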