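import Pool.Agent.Q84.MB.E1
import Pool.Agent.Helper112.Arith

set_option autoImplicit false

/-!
A pointwise bound of the Maynard-Tao weights, and the number of the classes modulo `W` above a class modulo the
part `W'` of `W` with small prime factors.
-/

open Finset Filter Topology
open scoped ContDiff

namespace Pool.Agent.Q84.MB

open Pool.Agent.H378R2

theorem VVm_le (E : Finset ℕ) (R : ℕ) (L : ℝ) (F : ℝ → ℝ) (hF : ∀ x, |F x| ≤ 1) (x : ℤ) (hx : x ≠ 0) :
    |VVm E R L F x| ≤ (x.natAbs.divisors.card : ℝ) := by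
  classical
  unfold VVm
  rw [← sum_filter]
  refine (abs_sum_le_sum_abs _ _).trans ?_
  have h1 : ∀ d ∈ (adm E R).filter (fun d : ℕ => (d : ℤ) ∣ x),
      |((ArithmeticFunction.moebius d : ℤ) : ℝ) * F (Real.log d / L)| ≤ 1 := by
    intro d _
    rw [abs_mul]
    have hm : |((ArithmeticFunction.moebius d : ℤ) : ℝ)| ≤ 1 := by
      rw [← Int.cast_abs]
      exact_mod_cast ArithmeticFunction.abs_moebius_le_one
    calc |((ArithmeticFunction.moebius d : ℤ) : ℝ)| * |F (Real.log d / L)| ≤ 1 * 1 :=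
          mul_le_mul hm (hF _) (abs_nonneg _) zero_le_one
      _ = 1 := one_mul 1
  refine (sum_le_card_nsmul _ _ _ h1).trans ?_
  rw [nsmul_eq_mul, mul_one]
  have h2 : (adm E R).filter (fun d : ℕ => (d : ℤ) ∣ x) ⊆ x.natAbs.divisors := by
    intro d hd
    rw [mem_filter] at hd
    rw [Nat.mem_divisors]
    exact ⟨Int.natCast_dvd.1 hd.2, Int.natAbs_ne_zero.2 hx⟩
  exact_mod_cast card_le_card h2

theorem sqw_le {K B : ℕ} (E : Finset ℕ) (X : ℝ) (f : Fin B → ℝ → ℝ) (A : Finset (Fin K → Fin B))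
    (hf1 : ∀ l x, |f l x| ≤ 1) (x : Fin K → ℤ) (hx : ∀ j, x j ≠ 0) (D : ℝ)
    (hD : ∀ j, ((x j).natAbs.divisors.card : ℝ) ≤ D) :
    sqw E X f A x ^ 2 ≤ (A.card : ℝ) ^ 2 * (D ^ K) ^ 2 := by
  classical
  have h1 : |sqw E X f A x| ≤ A.card * D ^ K := by
    unfold sqw
    refine (abs_sum_le_sum_abs _ _).trans ?_
    have h2 : ∀ a ∈ A, |∏ j, VVm E (RR X) (LL X) (f (a j)) (x j)| ≤ D ^ K := by
      intro a _
      rw [abs_prod]
      refine (prod_le_prod (fun _ _ => abs_nonneg _) fun j _ =>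
        (VVm_le E (RR X) (LL X) (f (a j)) (hf1 _) (x j) (hx j)).trans (hD j)).trans ?_
      rw [prod_const, card_univ, Fintype.card_fin]
    refine (sum_le_card_nsmul _ _ _ h2).trans (le_of_eq ?_)
    rw [nsmul_eq_mul]
  rw [← mul_pow, ← sq_abs]
  exact pow_le_pow_left₀ (abs_nonneg _) h1 2

/-- the part of the primes of the big modulus up to `y` -/
noncomputable def PV (X : ℝ) (S : Finset ℕ) (ps y : ℕ) : Finset ℕ := (PW X S ps).filter fun q => q ≤ y

/-- the part of the big modulus with the primes up to `y` -/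
noncomputable def WV (X : ℝ) (S : Finset ℕ) (ps y : ℕ) : ℕ := ∏ q ∈ PV X S ps y, q

theorem mem_PV {X : ℝ} {S : Finset ℕ} {ps y q : ℕ} : q ∈ PV X S ps y ↔ q ∈ PW X S ps ∧ q ≤ y := by
  unfold PV
  rw [mem_filter]

theorem WV_dvd (X : ℝ) (S : Finset ℕ) (ps y : ℕ) : WV X S ps y ∣ WW X S ps := by
  unfold WV WW
  exact prod_dvd_prod_of_subset _ _ _ (filter_subset _ _)

theorem WV_pos (X : ℝ) (S : Finset ℕ) (ps y : ℕ) : 0 < WV X S ps y := by
  unfold WV
  exact prod_pos fun q hq => (mem_PW.1 (mem_PV.1 hq).1).2.1.pos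

theorem prime_dvd_WV {X : ℝ} {S : Finset ℕ} {ps y p : ℕ} (hp : p.Prime) :
    p ∣ WV X S ps y ↔ p ∈ PV X S ps y := by
  constructor
  · intro h
    unfold WV at h
    obtain ⟨q, hq, hd⟩ := (Prime.dvd_finsetProd_iff hp.prime _).1 h
    have hqp := (mem_PW.1 (mem_PV.1 hq).1).2.1
    rwa [(Nat.prime_dvd_prime_iff_eq hp hqp).1 hd]
  · intro h
    exact dvd_prod_of_mem _ h

theorem WV_le (X : ℝ) (S : Finset ℕ) (ps y : ℕ) : WV X S ps y ≤ 4 ^ y := by
  refine le_trans ?_ (primorial_le_four_pow y)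
  unfold WV primorial
  apply prod_le_prod_of_subset_of_one_le'
  · intro q hq
    rw [mem_PV, mem_PW] at hq
    rw [mem_filter, mem_range]
    exact ⟨by omega, hq.1.2.1⟩
  · intro q hq _
    exact (mem_filter.1 hq).2.one_le

/-- a class modulo `d ∣ W` in `[0, W)` -/
theorem card_class (W d a : ℕ) (hW : 0 < W) (hd : d ∣ W) :
    ((range W).filter fun n => n ≡ a [MOD d]).card = W / d := by
  have hd0 : 0 < d := Nat.pos_of_dvd_of_pos hd hW
  rw [← Nat.count_eq_card_filter_range, Nat.count_modEq_card _ hd0]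
  obtain ⟨k, rfl⟩ := hd
  rw [Nat.mul_mod_right]
  simp

/-- the good classes above a class -/
theorem card_above {K : ℕ} (W W' a' : ℕ) (P : Finset ℕ) (hW : 0 < W) (hP : ∀ q ∈ P, q.Prime ∧ ¬ q ∣ W')
    (hWW : ∀ p : ℕ, p.Prime → p ∣ W → p ∣ W' ∨ p ∈ P) (hd : W' ∣ W) (hPd : ∀ q ∈ P, q ∣ W)
    (t : Fin K → ℕ) (ha : ∀ j, (a' + t j).Coprime W') (hsum : (K : ℝ) * ∑ q ∈ P, (1 : ℝ) / q ≤ 1 / 2) :
    (W : ℝ) / (2 * W') ≤
      (((range W).filter fun a => a ≡ a' [MOD W'] ∧ ∀ j, (a + t j).Coprime W).card : ℝ) := by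
  classical
  have hW' : 0 < W' := Nat.pos_of_dvd_of_pos hd hW
  have hW'r : (0 : ℝ) < W' := by exact_mod_cast hW'
  have hWr : (0 : ℝ) < W := by exact_mod_cast hW
  have hsub : (range W).filter (fun n => n ≡ a' [MOD W']) ⊆
      ((range W).filter fun a => a ≡ a' [MOD W'] ∧ ∀ j, (a + t j).Coprime W) ∪
      (P ×ˢ (univ : Finset (Fin K))).biUnion
        fun x => (range W).filter fun a => a ≡ a' [MOD W'] ∧ x.1 ∣ a + t x.2 := by
    intro a hamem
    rw [mem_filter] at hamem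
    rw [mem_union]
    by_cases h : ∀ j, (a + t j).Coprime W
    · left
      rw [mem_filter]
      exact ⟨hamem.1, hamem.2, h⟩
    · right
      push Not at h
      obtain ⟨j, hj⟩ := h
      obtain ⟨p, hp, h1, h2⟩ := Nat.Prime.not_coprime_iff_dvd.1 hj
      rw [mem_biUnion]
      rcases hWW p hp h2 with h3 | h3
      · exfalso
        have h4 : a + t j ≡ a' + t j [MOD p] := (hamem.2.of_dvd h3).add_right _
        have h5 : p ∣ a' + t j := (Nat.modEq_zero_iff_dvd).1 (h4.symm.trans ((Nat.modEq_zero_iff_dvd).2 h1))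
        have h6 := Nat.dvd_gcd h5 h3
        rw [ha j] at h6
        exact hp.one_lt.ne' (Nat.dvd_one.1 h6)
      · exact ⟨(p, j), mem_product.2 ⟨h3, mem_univ _⟩, mem_filter.2 ⟨hamem.1, hamem.2, h1⟩⟩
  have h1 := (card_le_card hsub).trans (card_union_le _ _)
  rw [card_class W W' a' hW hd] at h1
  have h2 : ∀ x ∈ P ×ˢ (univ : Finset (Fin K)), ((((range W).filter fun a => a ≡ a' [MOD W'] ∧ x.1 ∣ a + t x.2).card : ℕ) : ℝ) ≤
      (W : ℝ) / W' * (1 / (x.1 : ℝ)) := by
    rintro ⟨q, j⟩ hx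
    rw [mem_product] at hx
    obtain ⟨hq, -⟩ := hx
    simp only at hq ⊢
    obtain ⟨hqp, hqd⟩ := hP q hq
    have hcop : W'.Coprime q := (Nat.Coprime.symm ((Nat.Prime.coprime_iff_not_dvd hqp).2 hqd))
    obtain ⟨c, hc1, hc2⟩ := Nat.chineseRemainder hcop a' (q * t j - t j)
    have hq1 : t j ≤ q * t j := Nat.le_mul_of_pos_left _ hqp.pos
    have h3 : (range W).filter (fun a => a ≡ a' [MOD W'] ∧ q ∣ a + t j) ⊆
        (range W).filter fun a => a ≡ c [MOD W' * q] := by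
      intro a hamem
      rw [mem_filter] at hamem ⊢
      refine ⟨hamem.1, (Nat.modEq_and_modEq_iff_modEq_mul hcop).1 ⟨hamem.2.1.trans hc1.symm, ?_⟩⟩
      have h4 : a + t j ≡ c + t j [MOD q] := by
        have h5 : c + t j ≡ q * t j - t j + t j [MOD q] := hc2.add_right _
        rw [Nat.sub_add_cancel hq1] at h5
        have h6 : q * t j ≡ 0 [MOD q] := (Nat.modEq_zero_iff_dvd).2 (Nat.dvd_mul_right _ _)
        exact ((Nat.modEq_zero_iff_dvd).2 hamem.2.2).trans (h5.trans h6).symm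
      exact Nat.ModEq.add_right_cancel' _ h4
    have h4 : W' * q ∣ W := hcop.mul_dvd_of_dvd_of_dvd hd (hPd q hq)
    have h5 := card_le_card h3
    rw [card_class W (W' * q) c hW h4] at h5
    have h6 : (((W / (W' * q) : ℕ)) : ℝ) ≤ (W : ℝ) / W' * (1 / (q : ℝ)) := by
      refine Nat.cast_div_le.trans (le_of_eq ?_)
      push_cast
      have : (q : ℝ) ≠ 0 := by exact_mod_cast hqp.ne_zero
      field_simp
    exact le_trans (by exact_mod_cast h5) h6
  have h3 : ((((P ×ˢ (univ : Finset (Fin K))).biUnion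
        fun x => (range W).filter fun a => a ≡ a' [MOD W'] ∧ x.1 ∣ a + t x.2).card : ℕ) : ℝ) ≤
      (W : ℝ) / W' * (1 / 2) := by
    have h4 : ((((P ×ˢ (univ : Finset (Fin K))).biUnion
        fun x => (range W).filter fun a => a ≡ a' [MOD W'] ∧ x.1 ∣ a + t x.2).card : ℕ) : ℝ) ≤
        ∑ x ∈ P ×ˢ (univ : Finset (Fin K)), ((((range W).filter fun a => a ≡ a' [MOD W'] ∧ x.1 ∣ a + t x.2).card : ℕ) : ℝ) := by
      exact_mod_cast card_biUnion_le
    refine h4.trans ((sum_le_sum h2).trans ?_)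
    rw [← mul_sum, sum_product]
    simp only [sum_const, card_univ, Fintype.card_fin, nsmul_eq_mul]
    rw [← mul_sum]
    exact mul_le_mul_of_nonneg_left hsum (by positivity)
  have h4 : ((W / W' : ℕ) : ℝ) = (W : ℝ) / W' := Nat.cast_div hd hW'r.ne'
  have h5 : (W : ℝ) / W' ≤ (((range W).filter fun a => a ≡ a' [MOD W'] ∧ ∀ j, (a + t j).Coprime W).card : ℝ) +
      ((((P ×ˢ (univ : Finset (Fin K))).biUnion
        fun x => (range W).filter fun a => a ≡ a' [MOD W'] ∧ x.1 ∣ a + t x.2).card : ℕ) : ℝ) := by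
    rw [← h4]
    exact_mod_cast h1
  have h6 : (W : ℝ) / (2 * W') = (W : ℝ) / W' * (1 / 2) := by
    field_simp
  rw [h6]
  linarith

/-- the sum of the reciprocals of the primes in `(c log X, log X / 1000]` is small -/
theorem sum_inv_small (c ε : ℝ) (hc : 0 < c) (hε : 0 < ε) : ∀ᶠ X : ℝ in atTop, ∀ (S : Finset ℕ) (ps : ℕ),
    ∑ q ∈ PW X S ps \ PV X S ps ⌊c * Real.log X⌋₊, (1 : ℝ) / q ≤ ε := by
  have hlog : Tendsto Real.log atTop atTop := Real.tendsto_log_atTop
  have h1 : Tendsto (fun X : ℝ => Real.log (c * Real.log X)) atTop atTop :=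
    hlog.comp (hlog.const_mul_atTop hc)
  filter_upwards [h1.eventually_ge_atTop (2 / (1000 * c * ε)), h1.eventually_ge_atTop 1,
    hlog.eventually_ge_atTop 1] with X h2 h3 h4
  intro S ps
  obtain ⟨y, hy⟩ : ∃ y : ℝ, y = c * Real.log X := ⟨_, rfl⟩
  rw [← hy] at h2 h3 ⊢
  have hy0 : 0 < y := by rw [hy]; positivity
  have h5 : ∀ q ∈ PW X S ps \ PV X S ps ⌊y⌋₊, (1 : ℝ) / q ≤ Real.log q * (1 / (y * Real.log y)) := by
    intro q hq
    rw [Finset.mem_sdiff, mem_PV, not_and, not_le] at hq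
    have h6 := hq.2 hq.1
    have h7 : y < q := Nat.lt_of_floor_lt h6
    have hq0 : (0 : ℝ) < q := by linarith
    have h8 : Real.log y ≤ Real.log q := Real.log_le_log hy0 h7.le
    have h9 : 0 < Real.log y := by linarith
    rw [mul_one_div, div_le_div_iff₀ hq0 (by positivity), one_mul]
    calc y * Real.log y ≤ q * Real.log q := mul_le_mul h7.le h8 h9.le hq0.le
      _ = _ := by ring
  refine (sum_le_sum h5).trans ?_
  rw [← sum_mul]
  have h6 : ∑ q ∈ PW X S ps \ PV X S ps ⌊y⌋₊, Real.log (q : ℝ) ≤ Chebyshev.theta (Real.log X / 1000) := by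
    rw [Chebyshev.theta_eq_sum_Icc]
    apply sum_le_sum_of_subset_of_nonneg
    · intro q hq
      rw [Finset.mem_sdiff, mem_PW] at hq
      rw [mem_filter, mem_Icc]
      exact ⟨⟨Nat.zero_le _, hq.1.1⟩, hq.1.2.1⟩
    · intro q _ _
      exact Real.log_natCast_nonneg q
  have h7 := Chebyshev.theta_le_log4_mul_x (x := Real.log X / 1000) (by positivity)
  have h8 : Real.log 4 ≤ 2 := by
    have : Real.log 4 = 2 * Real.log 2 := by
      rw [show (4 : ℝ) = 2 ^ 2 by norm_num, Real.log_pow]; norm_num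
    have := Real.log_two_lt_d9
    linarith
  have h9 : 0 < Real.log y := by linarith
  have h10 : ∑ q ∈ PW X S ps \ PV X S ps ⌊y⌋₊, Real.log (q : ℝ) ≤ 2 * (Real.log X / 1000) := by
    refine h6.trans (h7.trans ?_)
    exact mul_le_mul_of_nonneg_right h8 (by positivity)
  refine (mul_le_mul_of_nonneg_right h10 (by positivity)).trans ?_
  rw [mul_one_div, div_le_iff₀ (by positivity), hy]
  rw [div_le_iff₀ (by positivity)] at h2
  have h11 : 0 < Real.log X := by linarith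
  rw [← hy]
  calc 2 * (Real.log X / 1000) = 2 * (Real.log X / 1000) := rfl
    _ ≤ (Real.log y * (1000 * c * ε)) * (Real.log X / 1000) := mul_le_mul_of_nonneg_right h2 (by positivity)
    _ = ε * (c * Real.log X * Real.log y) := by ring
    _ = ε * (y * Real.log y) := by rw [hy]

end Pool.Agent.Q84.MB
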