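import Pool.Agent.Q84.MB.E2

set_option autoImplicit false

/-!
Clusters of primes of bounded diameter in an arbitrary admissible class modulo almost all the primes up to
`c log X`, outside an arbitrary exceptional set of size `X ^ (1 - η)`.
-/

open Finset Filter Topology
open scoped ContDiff

namespace Pool.Agent.Q84.MB

open Pool.Agent.H378R2
open Pool.Agent.H312R2.RG (BVat)

/-- **Clusters outside sets of size `X ^ (1 - η)`.** -/
theorem cl (m : ℕ) : ∃ K0 : ℕ, ∀ η : ℝ, 0 < η → ∃ c : ℝ, 0 < c ∧ c ≤ 1 / 1000 ∧ ∀ T0 Z : ℕ, ∀ᶠ X : ℝ in atTop,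
    ∀ (ps : ℕ) (S : Finset ℕ), GoodP Z ps → GoodS X S → BVat (2 * K0 + 2) X (WW X S ps) ps →
    ∀ t : Fin (K0 + 1) → ℕ, Function.Injective t → (∀ j, t j ≤ T0) →
    ∀ a' : ℕ, (∀ j, (a' + t j).Coprime (WV X S ps ⌊c * Real.log X⌋₊)) →
    ∀ bad : Finset ℕ, (bad.card : ℝ) ≤ X ^ (1 - η) →
    ∃ n : ℕ, X < n ∧ (n : ℝ) ≤ 3 * X ∧ n ∉ bad ∧ n ≡ a' [MOD WV X S ps ⌊c * Real.log X⌋₊] ∧
      m ≤ (univ.filter fun i => (n + t i).Prime).card := by
  classical
  obtain ⟨K0, B, f, A, θ, hθ, hf1, hmass⟩ := mass m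
  refine ⟨K0, fun η hη => ?_⟩
  obtain ⟨K, hK⟩ : ∃ K : ℕ, K = K0 + 1 := ⟨_, rfl⟩
  have hKr : (1 : ℝ) ≤ K := by rw [hK]; push_cast; linarith [(Nat.cast_nonneg K0 : (0 : ℝ) ≤ K0)]
  obtain ⟨c, hc⟩ : ∃ c : ℝ, c = min (1 / 1000) (η / 16) := ⟨_, rfl⟩
  have hcpos : 0 < c := by rw [hc]; exact lt_min (by norm_num) (by positivity)
  have hc1 : c ≤ 1 / 1000 := by rw [hc]; exact min_le_left _ _
  have hc2 : c ≤ η / 16 := by rw [hc]; exact min_le_right _ _
  obtain ⟨ε, hε⟩ : ∃ ε : ℝ, ε = η / (16 * K) := ⟨_, rfl⟩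
  have hεpos : 0 < ε := by rw [hε]; positivity
  obtain ⟨C, hC, hdiv⟩ := Pool.Agent.Helper112.divisor_bound ε hεpos
  refine ⟨c, hcpos, hc1, fun T0 Z => ?_⟩
  obtain ⟨Cc, hCc⟩ : ∃ Cc : ℝ, Cc = 2 * ((A.card : ℝ) ^ 2 * (C ^ K) ^ 2 * 4 ^ (η / 8)) / θ := ⟨_, rfl⟩
  have hlog : Tendsto Real.log atTop atTop := Real.tendsto_log_atTop
  filter_upwards [hmass T0 Z, sum_inv_small c (1 / (2 * K)) hcpos (by positivity),
    hlog.eventually (ev_pow_exp K (3 * η / 4) (Cc + 1) (by positivity)), eventually_ge_atTop (1 : ℝ),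
    eventually_ge_atTop (T0 : ℝ), hlog.eventually_ge_atTop 1] with X hmX hsX hpow hX1 hXT hL1
  intro ps S hps hS hBV t htinj htT a' hcop bad hbad
  have hXpos : 0 < X := by linarith
  obtain ⟨y, hy⟩ : ∃ y, y = ⌊c * Real.log X⌋₊ := ⟨_, rfl⟩
  rw [← hy] at hcop ⊢
  have hsX' := hsX S ps
  rw [← hy] at hsX'
  obtain ⟨W, hW⟩ : ∃ W, W = WW X S ps := ⟨_, rfl⟩
  obtain ⟨W', hW'⟩ : ∃ W', W' = WV X S ps y := ⟨_, rfl⟩
  have hWpos : 0 < W := by rw [hW]; exact WW_pos X S ps
  have hW'pos : 0 < W' := by rw [hW']; exact WV_pos X S ps y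
  have hWr : (0 : ℝ) < W := by exact_mod_cast hWpos
  have hW'r : (0 : ℝ) < W' := by exact_mod_cast hW'pos
  rw [← hW'] at hcop ⊢
  by_contra hcon
  push Not at hcon
  -- the good classes
  obtain ⟨GA, hGA⟩ : ∃ GA, GA = (range W).filter fun a => a ≡ a' [MOD W'] ∧ ∀ j, (a + t j).Coprime W := ⟨_, rfl⟩
  have hGAc : (W : ℝ) / (2 * W') ≤ (GA.card : ℝ) := by
    rw [hGA]
    apply card_above W W' a' (PW X S ps \ PV X S ps y) hWpos
    · intro q hq
      rw [Finset.mem_sdiff] at hq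
      have hqp := (mem_PW.1 hq.1).2.1
      refine ⟨hqp, fun h => hq.2 ?_⟩
      rw [hW'] at h
      exact (prime_dvd_WV hqp).1 h
    · intro p hp hpd
      rw [hW] at hpd
      have h1 := (prime_dvd_WW hp).1 hpd
      by_cases h2 : p ∈ PV X S ps y
      · left
        rw [hW']
        exact (prime_dvd_WV hp).2 h2
      · right
        exact Finset.mem_sdiff.2 ⟨h1, h2⟩
    · rw [hW, hW']
      exact WV_dvd _ _ _ _
    · intro q hq
      rw [Finset.mem_sdiff] at hq
      rw [hW]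
      exact (prime_dvd_WW (mem_PW.1 hq.1).2.1).2 hq.1
    · exact hcop
    · rw [← hK]
      calc (K : ℝ) * ∑ q ∈ PW X S ps \ PV X S ps y, (1 : ℝ) / q ≤ K * (1 / (2 * K)) :=
            mul_le_mul_of_nonneg_left hsX' (by linarith)
        _ = 1 / 2 := by field_simp
  -- the weights
  obtain ⟨w, hw⟩ : ∃ w : ℕ → ℝ, w = fun n : ℕ => sqw (EE X S ps) X f A (fun j => (n : ℤ) + t j) ^ 2 := ⟨_, rfl⟩
  have hwnn : ∀ n, 0 ≤ w n := fun n => by rw [hw]; exact sq_nonneg _
  obtain ⟨G, hG⟩ : ∃ G, G = (Icc 1 ⌊3 * X⌋₊).filter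
    (fun n => m < (univ.filter fun i => (n + t i).Prime).card) := ⟨_, rfl⟩
  have h1 : ∀ a ∈ GA, θ * (X / ((W : ℝ) * (Real.log X) ^ K)) ≤ ∑ n ∈ G, nu X W a n * w n := by
    intro a ha
    rw [hGA, mem_filter] at ha
    rw [hG, hw, hW, hK]
    have h2 := ha.2.2
    rw [hW] at h2
    exact hmX ps S hps hS hBV t htinj htT a h2
  have h2 : (GA.card : ℝ) * (θ * (X / ((W : ℝ) * (Real.log X) ^ K))) ≤ ∑ a ∈ GA, ∑ n ∈ G, nu X W a n * w n := by
    have := card_nsmul_le_sum GA _ _ h1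
    rwa [nsmul_eq_mul] at this
  have hnu : ∀ n ∈ G, ∑ a ∈ GA, nu X W a n ≤ if n ∈ bad then 1 else 0 := by
    intro n hn
    rw [hG, mem_filter, mem_Icc] at hn
    have hn3 : (n : ℝ) ≤ 3 * X := (Nat.cast_le.2 hn.1.2).trans (Nat.floor_le (by linarith))
    by_cases hXn : X < n
    · by_cases hna : n ≡ a' [MOD W']
      · have hb : n ∈ bad := by
          by_contra hnb
          have := hcon n hXn hn3 hnb hna
          omega
        rw [if_pos hb]
        have h3 : ∀ a ∈ GA, nu X W a n ≤ if a = n % W then 1 else 0 := by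
          intro a ha
          rw [hGA, mem_filter, mem_range] at ha
          unfold nu
          by_cases h4 : n ≡ a [MOD W]
          · rw [if_pos h4]
            have h5 : a = n % W := by
              have h6 : n % W = a % W := h4
              rw [h6, Nat.mod_eq_of_lt ha.1]
            rw [if_pos h5]
            exact Phi_le_one _
          · rw [if_neg h4]
            split_ifs
            · exact zero_le_one
            · exact le_rfl
        refine (sum_le_sum h3).trans ?_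
        rw [sum_ite_eq']
        split_ifs
        · exact le_rfl
        · exact zero_le_one
      · have h3 : ∑ a ∈ GA, nu X W a n = 0 := by
          apply sum_eq_zero
          intro a ha
          rw [hGA, mem_filter] at ha
          unfold nu
          rw [if_neg]
          intro h4
          apply hna
          have h5 : W' ∣ W := by
            rw [hW, hW']
            exact WV_dvd _ _ _ _
          exact (h4.of_dvd h5).trans ha.2.1
        rw [h3]
        split_ifs
        · exact zero_le_one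
        · exact le_rfl
    · push Not at hXn
      have h3 : ∑ a ∈ GA, nu X W a n = 0 := by
        apply sum_eq_zero
        intro a _
        unfold nu
        rw [Phi_eq_zero_of_le (by positivity) (by rw [div_le_one hXpos]; exact hXn), ite_self]
      rw [h3]
      split_ifs
      · exact zero_le_one
      · exact le_rfl
  obtain ⟨Mx, hMx⟩ : ∃ Mx : ℝ, Mx = (A.card : ℝ) ^ 2 * (C ^ K) ^ 2 * 4 ^ (η / 8) * X ^ (η / 8) := ⟨_, rfl⟩
  have hMx0 : 0 ≤ Mx := by rw [hMx]; positivity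
  have hwle : ∀ n ∈ G, w n ≤ Mx := by
    intro n hn
    rw [hG, mem_filter, mem_Icc] at hn
    have hn3 : (n : ℝ) ≤ 3 * X := (Nat.cast_le.2 hn.1.2).trans (Nat.floor_le (by linarith))
    rw [hw]
    have h3 := sqw_le (EE X S ps) X f A hf1 (fun j => (n : ℤ) + t j) (fun j => by
      have : 0 < (n : ℤ) := by exact_mod_cast hn.1.1
      have h4 : (0 : ℤ) ≤ t j := Int.natCast_nonneg _
      omega) (C * (4 * X) ^ ε) (fun j => by
      have e : ((n : ℤ) + t j).natAbs = n + t j := by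
        rw [← Nat.cast_add, Int.natAbs_natCast]
      rw [e]
      refine (hdiv (n + t j) (by omega)).trans ?_
      apply mul_le_mul_of_nonneg_left _ hC.le
      apply Real.rpow_le_rpow (Nat.cast_nonneg _) _ hεpos.le
      push_cast
      have : (t j : ℝ) ≤ T0 := by exact_mod_cast htT j
      linarith)
    refine h3.trans (le_of_eq ?_)
    rw [hMx]
    have e1 : (((C * (4 * X) ^ ε) ^ (K0 + 1)) ^ 2 : ℝ) = (C ^ K) ^ 2 * (4 ^ (η / 8) * X ^ (η / 8)) := by
      rw [← hK, mul_pow, mul_pow]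
      congr 1
      rw [← Real.mul_rpow (by norm_num) hXpos.le, ← Real.rpow_natCast, ← Real.rpow_natCast,
        ← Real.rpow_mul (by positivity), ← Real.rpow_mul (by positivity)]
      congr 1
      rw [hε]
      have : (K : ℝ) ≠ 0 := by linarith
      push_cast
      field_simp
      ring
    rw [e1]
    ring
  have h3 : ∑ a ∈ GA, ∑ n ∈ G, nu X W a n * w n ≤ X ^ (1 - η) * Mx := by
    rw [sum_comm]
    have h4 : ∀ n ∈ G, ∑ a ∈ GA, nu X W a n * w n ≤ (if n ∈ bad then 1 else 0) * Mx := by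
      intro n hn
      rw [← sum_mul]
      have h5 : (0 : ℝ) ≤ if n ∈ bad then 1 else 0 := by
        split_ifs
        · exact zero_le_one
        · exact le_rfl
      exact mul_le_mul (hnu n hn) (hwle n hn) (hwnn n) h5
    refine (sum_le_sum h4).trans ?_
    rw [← sum_mul]
    apply mul_le_mul_of_nonneg_right _ hMx0
    rw [← sum_filter, sum_const, nsmul_eq_mul, mul_one]
    refine le_trans ?_ hbad
    have h5 : (G.filter fun n => n ∈ bad).card ≤ bad.card := by
      apply card_le_card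
      intro n hn
      exact (mem_filter.1 hn).2
    exact_mod_cast h5
  have hLpos : 0 < (Real.log X) ^ K := by positivity
  have h4 : θ * X / (2 * W' * (Real.log X) ^ K) ≤ X ^ (1 - η) * Mx := by
    refine le_trans ?_ (h2.trans h3)
    calc θ * X / (2 * W' * (Real.log X) ^ K) = (W : ℝ) / (2 * W') * (θ * (X / ((W : ℝ) * (Real.log X) ^ K))) := by
          field_simp
      _ ≤ _ := mul_le_mul_of_nonneg_right hGAc (by positivity)
  have hW'le : (W' : ℝ) ≤ X ^ (η / 8) := by
    have h5 : (W' : ℝ) ≤ (4 : ℝ) ^ y := by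
      rw [hW']
      exact_mod_cast WV_le X S ps y
    refine h5.trans ?_
    rw [← Real.rpow_natCast, Real.rpow_def_of_pos (by norm_num), Real.rpow_def_of_pos hXpos]
    apply Real.exp_le_exp.2
    have h6 : (y : ℝ) ≤ c * Real.log X := by
      rw [hy]
      exact Nat.floor_le (by positivity)
    have h7 : Real.log 4 ≤ 2 := by
      have : Real.log 4 = 2 * Real.log 2 := by
        rw [show (4 : ℝ) = 2 ^ 2 by norm_num, Real.log_pow]; norm_num
      have := Real.log_two_lt_d9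
      linarith
    calc Real.log 4 * (y : ℝ) ≤ 2 * (c * Real.log X) := by
          apply mul_le_mul h7 h6 (Nat.cast_nonneg _) (by norm_num)
      _ ≤ 2 * (η / 16 * Real.log X) := by gcongr
      _ = Real.log X * (η / 8) := by ring
  -- the contradiction
  have h5 : θ * X ≤ 2 * (X ^ (η / 8) * (Real.log X) ^ K * (X ^ (1 - η) * Mx)) := by
    rw [div_le_iff₀ (by positivity)] at h4
    refine h4.trans ?_
    have h6 : 0 ≤ X ^ (1 - η) * Mx := by positivity
    calc X ^ (1 - η) * Mx * (2 * W' * (Real.log X) ^ K) = 2 * ((W' : ℝ) * ((Real.log X) ^ K * (X ^ (1 - η) * Mx))) := by ring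
      _ ≤ 2 * (X ^ (η / 8) * ((Real.log X) ^ K * (X ^ (1 - η) * Mx))) := by gcongr
      _ = _ := by ring
  have h6 : X ^ (η / 8) * X ^ (1 - η) * X ^ (η / 8) * Real.exp (3 * η / 4 * Real.log X) = X := by
    have e : Real.exp (3 * η / 4 * Real.log X) = X ^ (3 * η / 4) := by
      rw [Real.rpow_def_of_pos hXpos, mul_comm]
    rw [e, ← Real.rpow_add hXpos, ← Real.rpow_add hXpos, ← Real.rpow_add hXpos]
    have e2 : η / 8 + (1 - η) + η / 8 + 3 * η / 4 = 1 := by ring
    rw [e2, Real.rpow_one]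
  have h7 : θ * X ≤ (θ * Cc * (Real.log X) ^ K) * (X ^ (η / 8) * X ^ (1 - η) * X ^ (η / 8)) := by
    refine h5.trans (le_of_eq ?_)
    rw [hMx, hCc]
    field_simp
  have h8 : Cc * (Real.log X) ^ K < Real.exp (3 * η / 4 * Real.log X) := by
    have : (Cc + 1) * (Real.log X) ^ K = Cc * (Real.log X) ^ K + (Real.log X) ^ K := by ring
    rw [this] at hpow
    linarith
  have h9 : (θ * Cc * (Real.log X) ^ K) * (X ^ (η / 8) * X ^ (1 - η) * X ^ (η / 8)) < θ * X := by
    have hp : 0 < X ^ (η / 8) * X ^ (1 - η) * X ^ (η / 8) := by positivity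
    calc (θ * Cc * (Real.log X) ^ K) * (X ^ (η / 8) * X ^ (1 - η) * X ^ (η / 8)) =
          θ * ((Cc * (Real.log X) ^ K) * (X ^ (η / 8) * X ^ (1 - η) * X ^ (η / 8))) := by ring
      _ < θ * (Real.exp (3 * η / 4 * Real.log X) * (X ^ (η / 8) * X ^ (1 - η) * X ^ (η / 8))) := by
          apply mul_lt_mul_of_pos_left _ hθ
          exact mul_lt_mul_of_pos_right h8 hp
      _ = θ * (X ^ (η / 8) * X ^ (1 - η) * X ^ (η / 8) * Real.exp (3 * η / 4 * Real.log X)) := by ring
      _ = θ * X := by rw [h6]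
  linarith

end Pool.Agent.Q84.MB
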