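import Pool.Agent.Q84.MB.E3
import Pool.Agent.Q84.MB.D11

set_option autoImplicit false

/-!
Strings of consecutive primes of bounded diameter with prescribed power residue symbols modulo almost all the primes
up to `c log X`, outside an arbitrary exceptional set of size `X ^ (1 - η)`.
-/

open Finset Filter Topology

namespace Pool.Agent.Q84.MB

open Pool.Agent.H378R2

/-- `[n, n + C]` contains at least `m` primes, and each of them is outside `bad` and has the prescribed residues -/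
def Str (m C d Z : ℕ) (y : ℝ) (S : Finset ℕ) (b : ℕ → ℕ) (bad : Finset ℕ) (n : ℕ) : Prop :=
  m ≤ ((Icc n (n + C)).filter Nat.Prime).card ∧ ∀ p ∈ Icc n (n + C), p.Prime → p ∉ bad ∧
    ∀ q : ℕ, q.Prime → (q : ℝ) ≤ y → q ∉ S →
      (q ≤ Z → p ≡ b q [MOD q]) ∧ ∃ z : ℕ, ¬ q ∣ z ∧ p ≡ b q * z ^ d [MOD q]

/-- existence of one string -/
theorem strings1 (m ℓ e : ℕ) (hℓ : ℓ.Prime) : ∀ η : ℝ, 0 < η → ∃ c : ℝ, 0 < c ∧ ∀ Z : ℕ, ∃ C : ℕ,
    ∀ᶠ X : ℝ in atTop, ∃ S : Finset ℕ, (∀ q ∈ S, q.Prime ∧ Z < q) ∧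
    (S.card : ℝ) ≤ (Real.log X) ^ (49 / 50 : ℝ) ∧ ∀ b : ℕ → ℕ, (∀ q : ℕ, q.Prime → ¬ q ∣ b q) →
    ∀ bad : Finset ℕ, (bad.card : ℝ) ≤ X ^ (1 - η) → ∃ n : ℕ, X < n ∧ (n : ℝ) ≤ 3 * X ∧
      Str m C (ℓ ^ e) Z (c * Real.log X) S b bad n := by
  classical
  intro η hη
  obtain ⟨K0, hcl⟩ := cl m
  obtain ⟨c, hc, hc1, hcl⟩ := hcl (η / 2) (by positivity)
  refine ⟨c, hc, fun Z => ?_⟩
  obtain ⟨K, hK⟩ : ∃ K, K = K0 + 1 := ⟨_, rfl⟩
  obtain ⟨q₀, hq₀⟩ : ∃ q₀, q₀ = max (max Z K) ((2 * K * (ℓ ^ e) ^ K + 1) ^ 2) := ⟨_, rfl⟩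
  have hZq : Z ≤ q₀ := by rw [hq₀]; exact (le_max_left _ _).trans (le_max_left _ _)
  have hKq : K ≤ q₀ := by rw [hq₀]; exact (le_max_right _ _).trans (le_max_left _ _)
  have hwq : (2 * K * (ℓ ^ e) ^ K + 1) ^ 2 ≤ q₀ := by rw [hq₀]; exact le_max_right _ _
  obtain ⟨t, ht⟩ : ∃ t : Fin (K0 + 1) → ℕ, t = fun j : Fin (K0 + 1) => (j : ℕ) * primorial q₀ := ⟨_, rfl⟩
  have hMpos : 0 < primorial q₀ := primorial_pos q₀
  have htinj : Function.Injective t := by
    intro i j hij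
    rw [ht] at hij
    exact Fin.ext (Nat.eq_of_mul_eq_mul_right hMpos hij)
  obtain ⟨C, hC⟩ : ∃ C, C = K * primorial q₀ := ⟨_, rfl⟩
  have htC : ∀ j, t j ≤ C := by
    intro j
    rw [ht, hC, hK]
    exact Nat.mul_le_mul_right _ j.2.le
  refine ⟨C, ?_⟩
  -- the killers
  obtain ⟨U, hU⟩ : ∃ U, U = (range (C + 1)).filter fun u => ∀ j, u ≠ t j := ⟨_, rfl⟩
  obtain ⟨k, hk⟩ : ∃ k : ℕ → ℕ, k = fun u => Nat.nth Nat.Prime (C + q₀ + Z + u) := ⟨_, rfl⟩
  have hkp : ∀ u, (k u).Prime := fun u => by rw [hk]; exact Nat.prime_nth_prime _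
  have hkinj : Function.Injective k := by
    intro u v huv
    rw [hk] at huv
    have := (Nat.nth_strictMono Nat.infinite_setOfPred_prime).injective huv
    omega
  have hkgt : ∀ u, C + q₀ + Z < k u := by
    intro u
    have h1 : C + q₀ + Z + u + 2 ≤ k u := by rw [hk]; exact Nat.add_two_le_nth_prime _
    omega
  obtain ⟨Q, hQ⟩ : ∃ Q, Q = U.image k := ⟨_, rfl⟩
  obtain ⟨Z', hZ'⟩ : ∃ Z', Z' = max (max Z 4) (Q.sup id) := ⟨_, rfl⟩
  have hZZ' : Z ≤ Z' := by rw [hZ']; exact (le_max_left _ _).trans (le_max_left _ _)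
  have hQZ' : ∀ q ∈ Q, q ≤ Z' := by
    intro q hq
    rw [hZ']
    exact (le_sup (f := id) hq).trans (le_max_right _ _)
  obtain ⟨X0, hbv⟩ := bvat (2 * K0 + 2) Z' (by rw [hZ']; exact le_trans (by norm_num) ((le_max_right Z 4).trans (le_max_left _ _)))
  have hlog : Tendsto Real.log atTop atTop := Real.tendsto_log_atTop
  have ev1 : ∀ᶠ X : ℝ in atTop, (Q.card : ℝ) + 1 + vv X ^ 195 ≤ (Real.log X) ^ (49 / 50 : ℝ) := by
    filter_upwards [vv_tendsto.eventually_ge_atTop ((Q.card : ℝ) + 2), hlog.eventually_ge_atTop 0] with X h1 h2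
    have hv1 : 1 ≤ vv X := by
      have : (0 : ℝ) ≤ Q.card := Nat.cast_nonneg _
      linarith
    have e1 : (Real.log X) ^ (49 / 50 : ℝ) = vv X ^ 196 := by
      unfold vv
      rw [← Real.rpow_natCast, ← Real.rpow_mul h2]
      norm_num
    rw [e1]
    have h3 : (1 : ℝ) ≤ vv X ^ 195 := one_le_pow₀ hv1
    calc (Q.card : ℝ) + 1 + vv X ^ 195 ≤ ((Q.card : ℝ) + 1) * vv X ^ 195 + vv X ^ 195 := by
          have : ((Q.card : ℝ) + 1) * 1 ≤ ((Q.card : ℝ) + 1) * vv X ^ 195 :=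
            mul_le_mul_of_nonneg_left h3 (by positivity)
          linarith
      _ = ((Q.card : ℝ) + 2) * vv X ^ 195 := by ring
      _ ≤ vv X * vv X ^ 195 := by gcongr
      _ = vv X ^ 196 := by ring
  have ev2 : ∀ᶠ X : ℝ in atTop, ((C : ℝ) + 1) * X ^ (1 - η) ≤ X ^ (1 - η / 2) := by
    filter_upwards [(tendsto_rpow_atTop (by positivity : (0 : ℝ) < η / 2)).eventually_ge_atTop ((C : ℝ) + 1),
      eventually_gt_atTop (0 : ℝ)] with X h1 h2
    have e : X ^ (1 - η / 2) = X ^ (η / 2) * X ^ (1 - η) := by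
      rw [← Real.rpow_add h2]
      congr 1
      ring
    rw [e]
    exact mul_le_mul_of_nonneg_right h1 (by positivity)
  have ev3 : ∀ᶠ X : ℝ in atTop, Z' < z2 X := z2_tendsto.eventually_gt_atTop Z'
  filter_upwards [hcl C Z', eventually_ge_atTop X0, ev1, ev2, ev3,
    hlog.eventually_ge_atTop ((Z' : ℝ) / c), hlog.eventually_ge_atTop (1000 * (Z' : ℝ)),
    eventually_ge_atTop (max (Z' : ℝ) 1)]
    with X hX hX0 hSb hbb hz2 hZl hZl2 hXZ
  have hX1 : 1 ≤ X := (le_max_right _ _).trans hXZ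
  have hXpos : 0 < X := by linarith
  have hXZ' : (Z' : ℝ) ≤ X := (le_max_left _ _).trans hXZ
  have hL0 : 0 ≤ Real.log X := Real.log_nonneg hX1
  obtain ⟨ps, S, hps, hS, hSc, hBV⟩ := hbv X hX0
  obtain ⟨S', hS'⟩ : ∃ S', S' = (S ∪ ({ps} : Finset ℕ).filter Nat.Prime) ∪ Q := ⟨_, rfl⟩
  have hZy : Z' ≤ ⌊c * Real.log X⌋₊ := by
    apply Nat.le_floor
    rw [div_le_iff₀ hc] at hZl
    linarith
  have hQP : ∀ q ∈ Q, q ∈ PV X S ps ⌊c * Real.log X⌋₊ := by
    intro q hq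
    have h1 := hQZ' q hq
    rw [mem_PV, mem_PW]
    have hqp : q.Prime := by
      rw [hQ, mem_image] at hq
      obtain ⟨u, -, rfl⟩ := hq
      exact hkp u
    refine ⟨⟨?_, hqp, ?_, ?_⟩, h1.trans hZy⟩
    · unfold yy
      apply Nat.le_floor
      have : (q : ℝ) ≤ Z' := by exact_mod_cast h1
      linarith
    · intro h
      have := (hS.1 q h).2.1
      omega
    · intro h
      rcases hps with h2 | h2
      · rw [h2] at h
        exact hqp.one_lt.ne' h
      · omega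
  refine ⟨S', ?_, ?_, fun b hb bad hbad => ?_⟩
  · intro q hq
    rw [hS', mem_union, mem_union, mem_filter, mem_singleton] at hq
    rcases hq with (h | h) | h
    · obtain ⟨h1, h2, -⟩ := hS.1 q h
      exact ⟨h1, by omega⟩
    · refine ⟨h.2, ?_⟩
      rcases hps with h2 | h2
      · exfalso
        rw [h.1, h2] at h
        exact Nat.not_prime_one h.2
      · rw [h.1]
        omega
    · rw [hQ, mem_image] at h
      obtain ⟨u, -, rfl⟩ := h
      exact ⟨hkp u, by have := hkgt u; omega⟩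
  · refine le_trans ?_ hSb
    have h1 : S'.card ≤ S.card + 1 + Q.card := by
      rw [hS']
      refine (card_union_le _ _).trans (Nat.add_le_add_right ((card_union_le _ _).trans (Nat.add_le_add_left ?_ _)) _)
      exact (card_filter_le _ _).trans (by rw [card_singleton])
    have h2 : (S'.card : ℝ) ≤ S.card + 1 + Q.card := by exact_mod_cast h1
    linarith
  -- the class
  obtain ⟨P, hP⟩ : ∃ P, P = PV X S ps ⌊c * Real.log X⌋₊ := ⟨_, rfl⟩
  rw [← hP] at hQP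
  have hPp : ∀ q ∈ P, q.Prime := by
    intro q hq
    rw [hP, mem_PV, mem_PW] at hq
    exact hq.1.2.1
  obtain ⟨a₁, ha₁⟩ := class_exists (ℓ ^ e) K q₀ 0 P hPp
    (fun q hqp hq y hy b' hb' => pat_prime ℓ e K hℓ (by omega) q hqp (hwq.trans hq.le) y hy b' hb') hKq b hb
  have hinv : ∀ q ∈ Q, ∃ u ∈ U, k u = q := by
    intro q hq
    rw [hQ, mem_image] at hq
    exact hq
  choose! κ hκU hκ using hinv
  obtain ⟨a', ha'⟩ := Nat.chineseRemainderOfFinset (fun q => if q ∈ Q then q * κ q - κ q else a₁) (fun q => q) P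
    (fun q hq => (hPp q hq).ne_zero) (by
      intro p hp q hq hpq
      exact (Nat.coprime_primes (hPp p (mem_coe.1 hp)) (hPp q (mem_coe.1 hq))).2 hpq)
  have haQ : ∀ q ∈ Q, q ∣ a' + κ q := by
    intro q hq
    have h1 := ha' q (hQP q hq)
    simp only [if_pos hq] at h1
    have h2 : κ q ≤ q * κ q := Nat.le_mul_of_pos_left _ (hPp q (hQP q hq)).pos
    have h3 : a' + κ q ≡ q * κ q - κ q + κ q [MOD q] := h1.add_right _
    rw [Nat.sub_add_cancel h2] at h3
    exact (Nat.modEq_zero_iff_dvd).1 (h3.trans ((Nat.modEq_zero_iff_dvd).2 (Nat.dvd_mul_right _ _)))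
  have haP : ∀ q ∈ P, q ∉ Q → a' ≡ a₁ [MOD q] := by
    intro q hq hqQ
    have h1 := ha' q hq
    simp only [if_neg hqQ] at h1
    exact h1
  have hcop : ∀ j, (a' + t j).Coprime (WV X S ps ⌊c * Real.log X⌋₊) := by
    intro j
    by_contra hne
    obtain ⟨q, hqp, h1, h2⟩ := Nat.Prime.not_coprime_iff_dvd.1 hne
    have h3 := (prime_dvd_WV hqp).1 h2
    rw [← hP] at h3
    by_cases hqQ : q ∈ Q
    · have h4 := haQ q hqQ
      have h5 := hκU q hqQ
      rw [hU, mem_filter, mem_range] at h5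
      have h6 := h5.2 j
      have h7 := hkgt (κ q)
      rw [hκ q hqQ] at h7
      have h8 := htC j
      have h9 : (q : ℤ) ∣ (t j : ℤ) - κ q := by
        have e1 : (q : ℤ) ∣ (a' : ℤ) + t j := by exact_mod_cast h1
        have e2 : (q : ℤ) ∣ (a' : ℤ) + κ q := by exact_mod_cast h4
        have e3 := dvd_sub e1 e2
        have e4 : (a' : ℤ) + t j - (a' + κ q) = (t j : ℤ) - κ q := by ring
        rwa [e4] at e3
      have h10 : (t j : ℤ) - κ q ≠ 0 := by
        intro h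
        apply h6
        omega
      have h11 := Int.le_of_dvd (abs_pos.2 h10) ((dvd_abs _ _).2 h9)
      have h12 : |(t j : ℤ) - κ q| ≤ C := by
        rw [abs_le]
        omega
      omega
    · have h4 := haP q h3 hqQ
      obtain ⟨z, hz1, -, hz3⟩ := ha₁ q h3 (Fin.cast hK.symm j)
      have h5 : a' + t j ≡ b q * z ^ (ℓ ^ e) [MOD q] := by
        refine (h4.add_right _).trans ?_
        rw [ht]
        have e1 : a₁ + (0 + ((Fin.cast hK.symm j : Fin K) : ℕ) * primorial q₀) = a₁ + (j : ℕ) * primorial q₀ := by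
          rw [zero_add]
          rfl
        rw [e1] at hz3
        exact hz3
      have h6 : q ∣ b q * z ^ (ℓ ^ e) := (Nat.modEq_zero_iff_dvd).1 (h5.symm.trans ((Nat.modEq_zero_iff_dvd).2 h1))
      rcases hqp.dvd_mul.1 h6 with h7 | h7
      · exact hb q hqp h7
      · exact hz1 (hqp.dvd_of_dvd_pow h7)
  -- the bad integers
  obtain ⟨bd, hbd⟩ : ∃ bd : Finset ℕ, bd = bad.biUnion fun p => (range (C + 1)).image fun v => p - v := ⟨_, rfl⟩
  have hbdc : (bd.card : ℝ) ≤ X ^ (1 - η / 2) := by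
    refine le_trans ?_ hbb
    have h1 : bd.card ≤ bad.card * (C + 1) := by
      rw [hbd]
      refine card_biUnion_le_card_mul _ _ _ fun p _ => ?_
      refine card_image_le.trans ?_
      rw [card_range]
    have h2 : (bd.card : ℝ) ≤ bad.card * (C + 1) := by exact_mod_cast h1
    refine h2.trans ?_
    rw [mul_comm]
    exact mul_le_mul_of_nonneg_left hbad (by positivity)
  obtain ⟨n, hXn, hn3, hnb, hna, hnm⟩ := hX ps S hps hS hBV t htinj htC a' hcop bd hbdc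
  have hncl : ∀ q ∈ P, n ≡ a' [MOD q] := by
    intro q hq
    apply hna.of_dvd
    apply (prime_dvd_WV (hPp q hq)).2
    rw [← hP]
    exact hq
  refine ⟨n, hXn, hn3, ?_, ?_⟩
  · refine hnm.trans ?_
    apply card_le_card_of_injOn (fun j => n + t j)
    · intro j hj
      rw [mem_coe, mem_filter] at hj
      rw [mem_coe, mem_filter, mem_Icc]
      have := htC j
      exact ⟨⟨Nat.le_add_right _ _, Nat.add_le_add_left this n⟩, hj.2⟩
    · intro i _ j _ hij
      exact htinj (Nat.add_left_cancel hij)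
  · intro p hp hpp
    rw [mem_Icc] at hp
    obtain ⟨v, rfl⟩ := Nat.exists_eq_add_of_le hp.1
    have hvC : v ≤ C := by omega
    have hvT : ∃ j, v = t j := by
      by_contra hcon
      push Not at hcon
      have hvU : v ∈ U := by
        rw [hU, mem_filter, mem_range]
        exact ⟨by omega, hcon⟩
      have hkQ : k v ∈ Q := by rw [hQ]; exact mem_image_of_mem _ hvU
      have h1 := haQ (k v) hkQ
      have h2 : κ (k v) = v := hkinj (hκ (k v) hkQ)
      rw [h2] at h1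
      have h3 : n + v ≡ a' + v [MOD k v] := (hncl (k v) (hQP (k v) hkQ)).add_right v
      have h4 : k v ∣ n + v := (Nat.modEq_zero_iff_dvd).1 (h3.trans ((Nat.modEq_zero_iff_dvd).2 h1))
      have h5 := (Nat.prime_dvd_prime_iff_eq (hkp v) hpp).1 h4
      have h6 := hQZ' _ hkQ
      have h7 : (Z' : ℝ) < n := lt_of_le_of_lt hXZ' hXn
      have h8 : Z' < n := by exact_mod_cast h7
      omega
    obtain ⟨j, rfl⟩ := hvT
    refine ⟨?_, fun q hqp hqy hqS => ?_⟩
    · intro hb'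
      apply hnb
      rw [hbd, mem_biUnion]
      refine ⟨_, hb', mem_image.2 ⟨t j, mem_range.2 (by omega), ?_⟩⟩
      omega
    · have hqP : q ∈ P := by
        rw [hP, mem_PV, mem_PW]
        rw [hS', mem_union, mem_union, mem_filter, mem_singleton] at hqS
        push Not at hqS
        have hqy' : q ≤ ⌊c * Real.log X⌋₊ := Nat.le_floor hqy
        refine ⟨⟨?_, hqp, hqS.1.1, fun h => hqS.1.2 h hqp⟩, hqy'⟩
        unfold yy
        apply Nat.le_floor
        refine hqy.trans ?_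
        have := mul_le_mul_of_nonneg_right hc1 hL0
        linarith
      have hqQ : q ∉ Q := by
        intro h
        apply hqS
        rw [hS']
        exact mem_union_right _ h
      obtain ⟨z, hz1, hz2, hz3⟩ := ha₁ q hqP (Fin.cast hK.symm j)
      have h5 : n + t j ≡ b q * z ^ (ℓ ^ e) [MOD q] := by
        refine (((hncl q hqP).trans (haP q hqP hqQ)).add_right _).trans ?_
        rw [ht]
        have e1 : a₁ + (0 + ((Fin.cast hK.symm j : Fin K) : ℕ) * primorial q₀) = a₁ + (j : ℕ) * primorial q₀ := by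
          rw [zero_add]
          rfl
        rw [e1] at hz3
        exact hz3
      refine ⟨fun hqZ => ?_, z, hz1, h5⟩
      have h6 := hz2 (hqZ.trans hZq)
      rw [h6, one_pow, mul_one] at h5
      exact h5

/-- **Strings of primes outside sets of size `X ^ (1 - η)`.** -/
theorem strings (m ℓ e : ℕ) (hm : 1 ≤ m) (hℓ : ℓ.Prime) : ∀ η : ℝ, 0 < η → ∃ c : ℝ, 0 < c ∧ ∀ Z : ℕ, ∃ C : ℕ,
    ∀ᶠ X : ℝ in atTop, ∃ S : Finset ℕ, (∀ q ∈ S, q.Prime ∧ Z < q) ∧
    (S.card : ℝ) ≤ (Real.log X) ^ (49 / 50 : ℝ) ∧ ∀ b : ℕ → ℕ, (∀ q : ℕ, q.Prime → ¬ q ∣ b q) →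
    ∀ bad : Finset ℕ, (bad.card : ℝ) ≤ X ^ (1 - η) → ∃ G : Finset ℕ, X ^ (1 - η) ≤ (G.card : ℝ) ∧ ∀ n ∈ G,
      X < n ∧ (n : ℝ) ≤ 3 * X ∧ Str m C (ℓ ^ e) Z (c * Real.log X) S b bad n := by
  classical
  intro η hη
  obtain ⟨c, hc, hst⟩ := strings1 m ℓ e hℓ (η / 2) (by positivity)
  refine ⟨c, hc, fun Z => ?_⟩
  obtain ⟨C, hC⟩ := hst Z
  refine ⟨C, ?_⟩
  have ev2 : ∀ᶠ X : ℝ in atTop, ((C : ℝ) + 2) * X ^ (1 - η) ≤ X ^ (1 - η / 2) := by
    filter_upwards [(tendsto_rpow_atTop (by positivity : (0 : ℝ) < η / 2)).eventually_ge_atTop ((C : ℝ) + 2),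
      eventually_gt_atTop (0 : ℝ)] with X h1 h2
    have e : X ^ (1 - η / 2) = X ^ (η / 2) * X ^ (1 - η) := by
      rw [← Real.rpow_add h2]
      congr 1
      ring
    rw [e]
    exact mul_le_mul_of_nonneg_right h1 (by positivity)
  filter_upwards [hC, ev2, eventually_ge_atTop (1 : ℝ)] with X hX hbb hX1
  obtain ⟨S, hS1, hS2, hS3⟩ := hX
  refine ⟨S, hS1, hS2, fun b hb bad hbad => ?_⟩
  obtain ⟨G, hG⟩ : ∃ G, G = (Icc 1 ⌊3 * X⌋₊).filter fun n : ℕ => X < n ∧ (n : ℝ) ≤ 3 * X ∧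
    Str m C (ℓ ^ e) Z (c * Real.log X) S b bad n := ⟨_, rfl⟩
  refine ⟨G, ?_, fun n hn => by rw [hG, mem_filter] at hn; exact hn.2⟩
  by_contra hcon
  push Not at hcon
  obtain ⟨bd, hbd⟩ : ∃ bd : Finset ℕ, bd = bad ∪ G.biUnion fun n => Icc n (n + C) := ⟨_, rfl⟩
  have hbdc : (bd.card : ℝ) ≤ X ^ (1 - η / 2) := by
    refine le_trans ?_ hbb
    have h1 : bd.card ≤ bad.card + G.card * (C + 1) := by
      rw [hbd]
      refine (card_union_le _ _).trans (Nat.add_le_add_left ?_ _)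
      refine card_biUnion_le_card_mul _ _ _ fun n _ => ?_
      rw [Nat.card_Icc]
      omega
    have h2 : (bd.card : ℝ) ≤ bad.card + G.card * (C + 1) := by exact_mod_cast h1
    have h3 : (G.card : ℝ) * (C + 1) ≤ X ^ (1 - η) * (C + 1) := mul_le_mul_of_nonneg_right hcon.le (by positivity)
    linarith
  obtain ⟨n, hXn, hn3, hstr⟩ := hS3 b hb bd hbdc
  have hnG : n ∈ G := by
    rw [hG, mem_filter, mem_Icc]
    refine ⟨⟨?_, Nat.le_floor hn3⟩, hXn, hn3, hstr.1, fun p hp hpp => ⟨fun h => ?_, (hstr.2 p hp hpp).2⟩⟩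
    · have : (0 : ℝ) < n := by linarith
      exact_mod_cast this
    · apply (hstr.2 p hp hpp).1
      rw [hbd]
      exact mem_union_left _ h
  obtain ⟨p, hp⟩ := card_pos.1 (lt_of_lt_of_le (by omega : 0 < m) hstr.1)
  rw [mem_filter] at hp
  apply (hstr.2 p hp.1 hp.2).1
  rw [hbd]
  exact mem_union_right _ (mem_biUnion.2 ⟨n, hnG, hp.1⟩)

end Pool.Agent.Q84.MB
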