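import Pool.Agent.Q84.MB.E4
import Pool.Agent.H332R2.IrrCount

set_option autoImplicit false

/-!
The primes `p` in `(X, 4X]` with more than `K ^ 2 p ^ (η - 1)` irregular indices up to some `K`.
-/

open Finset Filter Topology

namespace Pool.Agent.Q84.MB

open Pool.Agent.H332R2 (irr irr_le nu log_nu_le dvd_nu_iff card_weighted)

theorem harm (n : ℕ) : ∑ q ∈ Ioc 0 n, (1 : ℝ) / q ≤ 1 + Real.log n := by
  rcases Nat.eq_zero_or_pos n with h | h
  · rw [h]
    simp
  · have h1 := harmonic_le_one_add_log n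
    have h2 : ((harmonic n : ℚ) : ℝ) = ∑ q ∈ Ioc 0 n, (1 : ℝ) / q := by
      rw [harmonic_eq_sum_Icc]
      push_cast
      have e : Ioc 0 n = Icc 1 n := by
        ext x
        rw [mem_Ioc, mem_Icc]
        omega
      rw [e]
      exact sum_congr rfl fun i _ => by rw [one_div]
    rw [← h2]
    exact h1

theorem irr_bad (η : ℝ) (hη : 0 < η) (hη1 : η < 1) : ∀ᶠ X : ℝ in atTop, ∀ P : Finset ℕ,
    (∀ p ∈ P, p.Prime ∧ X < p ∧ (p : ℝ) ≤ 4 * X ∧ ∃ K : ℕ, (K : ℝ) ^ 2 * (p : ℝ) ^ (η - 1) < irr p K) →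
    (P.card : ℝ) ≤ X ^ (1 - η / 2) := by
  classical
  have hlog : Tendsto Real.log atTop atTop := Real.tendsto_log_atTop
  have ev := hlog.eventually (Pool.Agent.H378R2.ev_pow_exp 1 (η / 2) (72 * 4 ^ (1 - η)) (by positivity))
  filter_upwards [ev, eventually_ge_atTop (8 : ℝ), hlog.eventually_ge_atTop 2] with X hev hX8 hL2
  intro P hP
  have hX0 : 0 < X := by linarith
  have hL : 0 < Real.log X := by linarith
  have h8 : Real.log (8 * X) ≤ 3 * Real.log X := by
    rw [Real.log_mul (by norm_num) hX0.ne']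
    have : Real.log 8 ≤ Real.log X := Real.log_le_log (by norm_num) hX8
    linarith
  have h4 : 1 + Real.log (4 * X) ≤ 3 * Real.log X := by
    rw [Real.log_mul (by norm_num) hX0.ne']
    have : Real.log 4 ≤ Real.log X := Real.log_le_log (by norm_num) (by linarith)
    linarith
  have h1 := card_weighted X (by linarith) P (fun p hp => ⟨(hP p hp).1, (hP p hp).2.1.le⟩) 0 ⌊4 * X⌋₊
    (fun m => 1 / (m : ℝ) ^ 2) (fun m => by positivity) ((4 * X) ^ (η - 1)) (fun p hp => by
      obtain ⟨hpp, hpX, hp4, K, hK⟩ := hP p hp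
      have hp0 : (0 : ℝ) < p := by linarith
      have hpow : 0 < (p : ℝ) ^ (η - 1) := Real.rpow_pos_of_pos hp0 _
      have hKpos : 0 < K := by
        rcases Nat.eq_zero_or_pos K with h | h
        · exfalso
          rw [h] at hK
          have := irr_le p 0
          have h2 : (irr p 0 : ℝ) = 0 := by exact_mod_cast Nat.le_zero.1 this
          rw [h2] at hK
          simp at hK
        · exact h
      have hKr : (0 : ℝ) < K := by exact_mod_cast hKpos
      have hKp : (K : ℝ) ≤ p := by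
        have h2 : (irr p K : ℝ) ≤ K := by exact_mod_cast irr_le p K
        have h3 : (K : ℝ) * (p : ℝ) ^ (η - 1) < 1 := by
          have h5 : (K : ℝ) * ((K : ℝ) * (p : ℝ) ^ (η - 1)) < K * 1 := by
            calc (K : ℝ) * ((K : ℝ) * (p : ℝ) ^ (η - 1)) = (K : ℝ) ^ 2 * (p : ℝ) ^ (η - 1) := by ring
              _ < irr p K := hK
              _ ≤ K * 1 := by linarith
          exact lt_of_mul_lt_mul_left h5 hKr.le
        have h5 : (p : ℝ) ^ (1 - η) ≤ p := by
          calc (p : ℝ) ^ (1 - η) ≤ (p : ℝ) ^ (1 : ℝ) := Real.rpow_le_rpow_of_exponent_le (by linarith) (by linarith)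
            _ = p := Real.rpow_one _
        have h6 : (p : ℝ) ^ (η - 1) * (p : ℝ) ^ (1 - η) = 1 := by
          rw [← Real.rpow_add hp0]
          have : η - 1 + (1 - η) = 0 := by ring
          rw [this, Real.rpow_zero]
        have h7 : (K : ℝ) ≤ (p : ℝ) ^ (1 - η) := by
          have h9 : 0 < (p : ℝ) ^ (1 - η) := Real.rpow_pos_of_pos hp0 _
          calc (K : ℝ) = (K * (p : ℝ) ^ (η - 1)) * (p : ℝ) ^ (1 - η) := by rw [mul_assoc, h6, mul_one]
            _ ≤ 1 * (p : ℝ) ^ (1 - η) := mul_le_mul_of_nonneg_right h3.le h9.le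
            _ = _ := one_mul _
        linarith
      have hKM : K ≤ ⌊4 * X⌋₊ := Nat.le_floor (hKp.trans hp4)
      have h2 : (4 * X) ^ (η - 1) ≤ (p : ℝ) ^ (η - 1) :=
        Real.rpow_le_rpow_of_nonpos hp0 hp4 (by linarith)
      refine h2.trans ?_
      have hsub : (Icc 1 K).filter (fun m => (p : ℤ) ∣ (bernoulli (2 * m)).num) ⊆
          (Ioc 0 ⌊4 * X⌋₊).filter (fun m => p ∣ nu m) := by
        intro m hm
        rw [mem_filter, mem_Icc] at hm
        rw [mem_filter, mem_Ioc]
        exact ⟨⟨by omega, by omega⟩, (dvd_nu_iff p m).1 hm.2⟩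
      have h3 : (p : ℝ) ^ (η - 1) * (K : ℝ) ^ 2 ≤ (irr p K : ℝ) := by
        rw [mul_comm]
        exact hK.le
      rw [← le_div_iff₀ (by positivity)] at h3
      refine h3.trans ?_
      have h5 : (irr p K : ℝ) / (K : ℝ) ^ 2 =
          ∑ _m ∈ (Icc 1 K).filter (fun m => (p : ℤ) ∣ (bernoulli (2 * m)).num), 1 / (K : ℝ) ^ 2 := by
        rw [sum_const, nsmul_eq_mul, mul_one_div]
        rfl
      rw [h5]
      refine le_trans (sum_le_sum fun m hm => ?_) (sum_le_sum_of_subset_of_nonneg hsub fun m _ _ => by positivity)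
      rw [mem_filter, mem_Icc] at hm
      have hm0 : (0 : ℝ) < m := by exact_mod_cast hm.1.1
      apply one_div_le_one_div_of_le (by positivity)
      have : (m : ℝ) ≤ K := by exact_mod_cast hm.1.2
      gcongr)
  have h2 : ∑ m ∈ Ioc 0 ⌊4 * X⌋₊, 1 / (m : ℝ) ^ 2 * Real.log (nu m) ≤ 2 * Real.log (8 * X) * (1 + Real.log (4 * X)) := by
    have h3 : ∀ m ∈ Ioc 0 ⌊4 * X⌋₊, 1 / (m : ℝ) ^ 2 * Real.log (nu m) ≤ 2 * Real.log (8 * X) * (1 / (m : ℝ)) := by
      intro m hm
      rw [mem_Ioc] at hm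
      have hm0 : (0 : ℝ) < m := by exact_mod_cast hm.1
      have hm4 : (m : ℝ) ≤ 4 * X := (Nat.cast_le.2 hm.2).trans (Nat.floor_le (by linarith))
      have h5 := log_nu_le m (by omega)
      have h6 : Real.log (2 * m) ≤ Real.log (8 * X) := Real.log_le_log (by linarith) (by linarith)
      have h7 : Real.log (nu m) ≤ 2 * m * Real.log (8 * X) := by
        refine h5.trans ?_
        exact mul_le_mul_of_nonneg_left h6 (by positivity)
      calc 1 / (m : ℝ) ^ 2 * Real.log (nu m) ≤ 1 / (m : ℝ) ^ 2 * (2 * m * Real.log (8 * X)) :=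
            mul_le_mul_of_nonneg_left h7 (by positivity)
        _ = 2 * Real.log (8 * X) * (1 / (m : ℝ)) := by
            field_simp
    refine (sum_le_sum h3).trans ?_
    rw [← mul_sum]
    have h8' : 0 ≤ Real.log (8 * X) := Real.log_nonneg (by linarith)
    apply mul_le_mul_of_nonneg_left _ (by positivity)
    refine (harm _).trans ?_
    have h9 : Real.log (⌊4 * X⌋₊ : ℝ) ≤ Real.log (4 * X) := by
      apply Real.log_le_log
      · have : 1 ≤ ⌊4 * X⌋₊ := Nat.le_floor (by push_cast; linarith)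
        exact_mod_cast this
      · exact Nat.floor_le (by linarith)
    linarith
  have h3 : (P.card : ℝ) * (4 * X) ^ (η - 1) * Real.log X ≤ 18 * (Real.log X) ^ 2 := by
    refine h1.trans (h2.trans ?_)
    have h8' : 0 ≤ Real.log (8 * X) := Real.log_nonneg (by linarith)
    have h4' : 0 ≤ 1 + Real.log (4 * X) := by
      have := Real.log_nonneg (by linarith : (1 : ℝ) ≤ 4 * X)
      linarith
    calc 2 * Real.log (8 * X) * (1 + Real.log (4 * X)) ≤ 2 * (3 * Real.log X) * (3 * Real.log X) := by gcongr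
      _ = _ := by ring
  have h5 : (P.card : ℝ) * (4 * X) ^ (η - 1) ≤ 18 * Real.log X := by
    have : (P.card : ℝ) * (4 * X) ^ (η - 1) * Real.log X ≤ (18 * Real.log X) * Real.log X := by
      refine h3.trans (le_of_eq ?_)
      ring
    exact le_of_mul_le_mul_right this hL
  have h6 : (4 * X) ^ (η - 1) * (4 * X) ^ (1 - η) = 1 := by
    rw [← Real.rpow_add (by positivity)]
    have : η - 1 + (1 - η) = 0 := by ring
    rw [this, Real.rpow_zero]
  have h7 : (P.card : ℝ) ≤ 18 * Real.log X * (4 * X) ^ (1 - η) := by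
    calc (P.card : ℝ) = (P.card : ℝ) * (4 * X) ^ (η - 1) * (4 * X) ^ (1 - η) := by rw [mul_assoc, h6, mul_one]
      _ ≤ 18 * Real.log X * (4 * X) ^ (1 - η) := mul_le_mul_of_nonneg_right h5 (by positivity)
  refine h7.trans ?_
  rw [Real.mul_rpow (by norm_num) hX0.le]
  have e1 : Real.exp (η / 2 * Real.log X) = X ^ (η / 2) := by
    rw [Real.rpow_def_of_pos hX0, mul_comm]
  rw [e1, pow_one] at hev
  have e2 : X ^ (1 - η / 2) = X ^ (η / 2) * X ^ (1 - η) := by
    rw [← Real.rpow_add hX0]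
    congr 1
    ring
  rw [e2]
  have hp : 0 < X ^ (1 - η) := Real.rpow_pos_of_pos hX0 _
  have hp4 : (0 : ℝ) < 4 ^ (1 - η) := by positivity
  calc 18 * Real.log X * (4 ^ (1 - η) * X ^ (1 - η)) = (18 * 4 ^ (1 - η) * Real.log X) * X ^ (1 - η) := by ring
    _ ≤ (72 * 4 ^ (1 - η) * Real.log X) * X ^ (1 - η) := by
        apply mul_le_mul_of_nonneg_right _ hp.le
        have : 0 ≤ (4 : ℝ) ^ (1 - η) * Real.log X := by positivity
        nlinarith
    _ ≤ _ := mul_le_mul_of_nonneg_right hev hp.le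

end Pool.Agent.Q84.MB
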