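import Pool.Agent.Q84.MB.E4
import Pool.Agent.Q138.QZ.Mult

set_option autoImplicit false

/-!
The primes `p` in `(X, 4X]` such that for some `D ≤ X ^ δ` a quadratic character attached to `± D p` has a zero far
from the central line, or many real zeros.
-/

open Finset Filter Topology

namespace Pool.Agent.Q84.MB

open Pool.Agent.Q138.QZ (BadZ BadM count count_mult)

theorem zeros_bad : ∃ c₀ : ℝ, 0 < c₀ ∧ ∀ ε : ℝ, 0 < ε → ∃ δ : ℝ, 0 < δ ∧ δ ≤ 1 / 64 ∧ ∀ᶠ X : ℝ in atTop,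
    ∀ P : Finset ℕ, (∀ p ∈ P, p.Prime ∧ X < p ∧ (p : ℝ) ≤ 4 * X ∧ ∃ D : ℕ, 1 ≤ D ∧ (D : ℝ) ≤ X ^ δ ∧
      (BadZ c₀ (ε * Real.log X) (D * p) ∨ BadM 1 0 (ε * Real.log X) (D * p))) →
    (P.card : ℝ) ≤ X ^ (1 - δ / 2) := by
  classical
  obtain ⟨C₁, c₀, a, hC₁, hc₀, ha, Y0, hcnt⟩ := count
  obtain ⟨C₂, b, hC₂, hb, hcntm⟩ := count_mult
  refine ⟨c₀, hc₀, fun ε hε => ?_⟩
  obtain ⟨δ, hδ⟩ : ∃ δ : ℝ, δ = min (1 / 64) (min (a * ε / 2) (b * ε / 2)) := ⟨_, rfl⟩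
  have hδ0 : 0 < δ := by rw [hδ]; exact lt_min (by norm_num) (lt_min (by positivity) (by positivity))
  have hδ1 : δ ≤ 1 / 64 := by rw [hδ]; exact min_le_left _ _
  have hδa : δ ≤ a * ε / 2 := by rw [hδ]; exact (min_le_right _ _).trans (min_le_left _ _)
  have hδb : δ ≤ b * ε / 2 := by rw [hδ]; exact (min_le_right _ _).trans (min_le_right _ _)
  refine ⟨δ, hδ0, hδ1, ?_⟩
  have hlog : Tendsto Real.log atTop atTop := Real.tendsto_log_atTop
  filter_upwards [(tendsto_rpow_atTop (by positivity : (0 : ℝ) < δ / 2)).eventually_ge_atTop (24 + 4 * C₁ + 4 * C₂),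
    hlog.eventually_ge_atTop (4 / ε), eventually_ge_atTop (max (Y0 : ℝ) (2 ^ 64)),
    (tendsto_rpow_atTop (by norm_num : (0 : ℝ) < 1 / 32)).eventually_ge_atTop 2] with X hpow hL hXY hX32
  intro P hP
  have hX64 : (2 : ℝ) ^ 64 ≤ X := (le_max_right _ _).trans hXY
  have hXY0 : (Y0 : ℝ) ≤ X := (le_max_left _ _).trans hXY
  have hX2 : (2 : ℝ) ≤ X := le_trans (by norm_num) hX64
  have hX0 : 0 < X := by linarith
  have hX1 : 1 ≤ X := by linarith
  obtain ⟨R, hR⟩ : ∃ R, R = ε * Real.log X := ⟨_, rfl⟩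
  rw [← hR] at hP
  have hR4 : 4 ≤ R := by
    rw [hR]
    rw [div_le_iff₀ hε] at hL
    linarith
  choose! D hD1 hD2 hD using fun p hp => (hP p hp).2.2.2
  have hXδ : X ^ δ ≤ X := by
    calc X ^ δ ≤ X ^ (1 : ℝ) := Real.rpow_le_rpow_of_exponent_le hX1 (by linarith)
      _ = X := Real.rpow_one X
  -- the integers
  obtain ⟨Y, hY⟩ : ∃ Y : ℕ, Y = ⌊4 * X ^ (1 + δ)⌋₊ := ⟨_, rfl⟩
  have hYle : (Y : ℝ) ≤ 4 * X ^ (1 + δ) := by rw [hY]; exact Nat.floor_le (by positivity)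
  have hXle : X ≤ X ^ (1 + δ) := by
    calc X = X ^ (1 : ℝ) := (Real.rpow_one X).symm
      _ ≤ X ^ (1 + δ) := Real.rpow_le_rpow_of_exponent_le hX1 (by linarith)
  have hYge : X ≤ Y := by
    have h1 := Nat.lt_floor_add_one (4 * X ^ (1 + δ))
    rw [← hY] at h1
    linarith
  obtain ⟨K, hK⟩ : ∃ K : ℕ, K = ⌊X ^ (1 / 32 : ℝ)⌋₊ := ⟨_, rfl⟩
  have hK1 : 1 ≤ K := by
    rw [hK]
    exact Nat.le_floor (by push_cast; linarith)
  have hKle : (K : ℝ) ≤ X ^ (1 / 32 : ℝ) := by rw [hK]; exact Nat.floor_le (by positivity)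
  have hKge : X ^ (1 / 32 : ℝ) / 2 ≤ K := by
    have h1 := Nat.lt_floor_add_one (X ^ (1 / 32 : ℝ))
    rw [← hK] at h1
    linarith
  have hK16 : K ^ 16 ≤ Y := by
    have h1 : ((K ^ 16 : ℕ) : ℝ) ≤ Y := by
      push_cast
      calc (K : ℝ) ^ 16 ≤ (X ^ (1 / 32 : ℝ)) ^ 16 := pow_le_pow_left₀ (Nat.cast_nonneg _) hKle 16
        _ = X ^ (1 / 2 : ℝ) := by
            rw [← Real.rpow_natCast, ← Real.rpow_mul hX0.le]
            norm_num
        _ ≤ X ^ (1 : ℝ) := Real.rpow_le_rpow_of_exponent_le hX1 (by norm_num)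
        _ = X := Real.rpow_one X
        _ ≤ Y := hYge
    exact_mod_cast h1
  have hY0 : Y0 ≤ Y := by exact_mod_cast hXY0.trans hYge
  have hY16 : 2 ^ 16 ≤ Y := by
    have h1 : (2 : ℝ) ^ 16 ≤ Y := le_trans (by norm_num) (hX64.trans hYge)
    exact_mod_cast h1
  have hinj : Set.InjOn (fun p => D p * p) (P : Set ℕ) := by
    intro p hp q hq hpq
    simp only at hpq
    by_contra hne
    have hpp := (hP p hp).1
    have hqp := (hP q hq).1
    have h1 : p ∣ D q * q := by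
      rw [← hpq]
      exact Nat.dvd_mul_left _ _
    rcases hpp.dvd_mul.1 h1 with h2 | h2
    · have h3 := Nat.le_of_dvd (hD1 q hq) h2
      have h4 : (p : ℝ) ≤ D q := by exact_mod_cast h3
      have h5 := hD2 q hq
      have h6 := (hP p hp).2.1
      linarith
    · exact hne ((Nat.prime_dvd_prime_iff_eq hpp hqp).1 h2)
  obtain ⟨s, hs⟩ : ∃ s, s = P.image fun p => D p * p := ⟨_, rfl⟩
  have hsc : s.card = P.card := by rw [hs]; exact card_image_of_injOn hinj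
  have hsm : ∀ n ∈ s, 0 < n ∧ n ≤ Y ∧ (BadZ c₀ R n ∨ BadM 1 0 R n) := by
    intro n hn
    rw [hs, mem_image] at hn
    obtain ⟨p, hp, rfl⟩ := hn
    have hp0 := (hP p hp).1.pos
    refine ⟨Nat.mul_pos (hD1 p hp) hp0, ?_, hD p hp⟩
    rw [hY]
    apply Nat.le_floor
    push_cast
    calc (D p : ℝ) * p ≤ X ^ δ * (4 * X) := mul_le_mul (hD2 p hp) (hP p hp).2.2.1 (Nat.cast_nonneg _) (by positivity)
      _ = 4 * (X ^ (1 : ℝ) * X ^ δ) := by rw [Real.rpow_one]; ring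
      _ = 4 * X ^ (1 + δ) := by rw [← Real.rpow_add hX0]
  have h1 := hcnt Y K hY0 hK1 hK16 R hR4 (s.filter fun n => BadZ c₀ R n) (fun n hn => by
    rw [mem_filter] at hn
    exact ⟨(hsm n hn.1).1, (hsm n hn.1).2.1, hn.2⟩)
  have h2 := hcntm 1 0 R le_rfl (by linarith) Y K hY16 (by
    rw [mul_zero, zero_mul]
    exact Real.log_nonneg (by linarith)) hK1 hK16 (s.filter fun n => BadM 1 0 R n) (fun n hn => by
    rw [mem_filter] at hn
    exact ⟨(hsm n hn.1).1, (hsm n hn.1).2.1, hn.2⟩)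
  have h3 : (s.card : ℝ) ≤ ((s.filter fun n => BadZ c₀ R n).card : ℝ) + ((s.filter fun n => BadM 1 0 R n).card : ℝ) := by
    have h4 : s ⊆ (s.filter fun n => BadZ c₀ R n) ∪ (s.filter fun n => BadM 1 0 R n) := by
      intro n hn
      rw [mem_union, mem_filter, mem_filter]
      rcases (hsm n hn).2.2 with h | h
      · exact Or.inl ⟨hn, h⟩
      · exact Or.inr ⟨hn, h⟩
    exact_mod_cast (card_le_card h4).trans (card_union_le _ _)
  obtain ⟨Q, hQ⟩ : ∃ Q : ℝ, Q = X ^ (1 - δ) := ⟨_, rfl⟩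
  have hQ0 : 0 < Q := by rw [hQ]; positivity
  have b1 : (Y : ℝ) / K ≤ 8 * Q := by
    have hK0 : (0 : ℝ) < K := by exact_mod_cast hK1
    rw [div_le_iff₀ hK0]
    calc (Y : ℝ) ≤ 4 * X ^ (1 + δ) := hYle
      _ ≤ 4 * (X ^ (1 - δ) * X ^ (1 / 32 : ℝ)) := by
          rw [← Real.rpow_add hX0]
          apply mul_le_mul_of_nonneg_left _ (by norm_num)
          exact Real.rpow_le_rpow_of_exponent_le hX1 (by linarith)
      _ = 8 * Q * (X ^ (1 / 32 : ℝ) / 2) := by rw [hQ]; ring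
      _ ≤ 8 * Q * K := mul_le_mul_of_nonneg_left hKge (by positivity)
  have b2 : (Y : ℝ) ^ (3 / 4 : ℝ) ≤ 4 * Q := by
    calc (Y : ℝ) ^ (3 / 4 : ℝ) ≤ (4 * X ^ (1 + δ)) ^ (3 / 4 : ℝ) :=
          Real.rpow_le_rpow (Nat.cast_nonneg _) hYle (by norm_num)
      _ = 4 ^ (3 / 4 : ℝ) * X ^ ((1 + δ) * (3 / 4)) := by
          rw [Real.mul_rpow (by norm_num) (by positivity), ← Real.rpow_mul hX0.le]
      _ ≤ 4 ^ (1 : ℝ) * X ^ (1 - δ) := by
          apply mul_le_mul _ _ (by positivity) (by positivity)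
          · exact Real.rpow_le_rpow_of_exponent_le (by norm_num) (by norm_num)
          · exact Real.rpow_le_rpow_of_exponent_le hX1 (by linarith)
      _ = 4 * Q := by rw [Real.rpow_one, hQ]
  have b3 : ∀ (C a' : ℝ), 0 < C → 0 < a' → δ ≤ a' * ε / 2 → C * Y * Real.exp (-(a' * R)) ≤ 4 * C * Q := by
    intro C a' hC ha' hδ'
    have e1 : Real.exp (-(a' * R)) = X ^ (-(a' * ε)) := by
      rw [Real.rpow_def_of_pos hX0, hR]
      congr 1
      ring
    rw [e1]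
    calc C * Y * X ^ (-(a' * ε)) ≤ C * (4 * X ^ (1 + δ)) * X ^ (-(a' * ε)) := by gcongr
      _ = 4 * C * (X ^ (1 + δ) * X ^ (-(a' * ε))) := by ring
      _ ≤ 4 * C * X ^ (1 - δ) := by
          rw [← Real.rpow_add hX0]
          apply mul_le_mul_of_nonneg_left _ (by positivity)
          exact Real.rpow_le_rpow_of_exponent_le hX1 (by linarith)
      _ = _ := by rw [hQ]
  have b4 := b3 C₁ a hC₁ ha hδa
  have b5 := b3 C₂ b hC₂ hb hδb
  have e5 : C₂ * (2 * 0 * R) - b * (1 * R) = -(b * R) := by ring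
  rw [e5] at h2
  have h4 : (P.card : ℝ) ≤ (24 + 4 * C₁ + 4 * C₂) * Q := by
    rw [← hsc]
    linarith
  refine h4.trans ?_
  have e6 : X ^ (1 - δ / 2) = X ^ (δ / 2) * X ^ (1 - δ) := by
    rw [← Real.rpow_add hX0]
    congr 1
    ring
  rw [e6, ← hQ]
  exact mul_le_mul_of_nonneg_right hpow hQ0.le

/-- residues with prescribed Legendre symbols -/
theorem exists_sym (f : ℕ → ℤ) (hf : ∀ q, f q = 1 ∨ f q = -1) : ∃ b : ℕ → ℕ, ∀ q : ℕ, q.Prime →
    ¬ q ∣ b q ∧ (q ≠ 2 → jacobiSym (b q) q = f q) := by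
  classical
  have h : ∀ q : ℕ, ∃ b : ℕ, q.Prime → ¬ q ∣ b ∧ (q ≠ 2 → jacobiSym b q = f q) := by
    intro q
    by_cases hq : q.Prime
    · have : Fact q.Prime := ⟨hq⟩
      rcases hf q with h1 | h1
      · exact ⟨1, fun _ => ⟨fun h => hq.one_lt.ne' (Nat.dvd_one.1 h), fun _ => by rw [h1]; simp⟩⟩
      · by_cases h2 : q = 2
        · exact ⟨1, fun _ => ⟨fun h => hq.one_lt.ne' (Nat.dvd_one.1 h), fun h3 => absurd h2 h3⟩⟩
        · obtain ⟨a, ha⟩ := FiniteField.exists_nonsquare (F := ZMod q) (by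
            rw [ZMod.ringChar_zmod_n]
            exact h2)
          refine ⟨a.val, fun _ => ⟨fun h => ?_, fun _ => ?_⟩⟩
          · apply ha
            have h3 : a = 0 := by
              rw [← ZMod.natCast_zmod_val a]
              exact (ZMod.natCast_eq_zero_iff _ _).2 h
            rw [h3]
            exact ⟨0, by simp⟩
          · rw [h1, ← jacobiSym.legendreSym.to_jacobiSym, legendreSym.eq_neg_one_iff]
            rw [Int.cast_natCast, ZMod.natCast_zmod_val]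
            exact ha
    · exact ⟨0, fun h => absurd h hq⟩
  choose b hb using h
  exact ⟨b, hb⟩

theorem sym_eq (b : ℕ → ℕ) (p q z : ℕ) (hq : q.Prime) (hz : ¬ q ∣ z) (h : p ≡ b q * z ^ (2 ^ 1) [MOD q]) :
    jacobiSym p q = jacobiSym (b q) q := by
  have h1 : ((p : ℤ)) % q = ((b q : ℤ) * (z : ℤ) ^ 2) % q := by
    have h2 := (Int.natCast_modEq_iff.2 h)
    rw [pow_one] at h2
    push_cast at h2
    exact h2
  rw [jacobiSym.mod_left' h1, jacobiSym.mul_left, jacobiSym.pow_left, jacobiSym.sq_one, mul_one]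
  rw [Int.gcd_natCast_natCast]
  exact (Nat.coprime_comm.1 ((Nat.Prime.coprime_iff_not_dvd hq).2 hz))

end Pool.Agent.Q84.MB
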