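import Pool.Agent.Q84.MB.F2

set_option autoImplicit false

/-!
Strings of consecutive primes with prescribed Legendre symbols which avoid a given small set of exceptional primes:
a form of `strings` that is convenient in applications.
-/

open Finset Filter Topology

open scoped Classical

namespace Pool.Agent.Q84.MB

/-- `[n, n + C]` contains at least `m` primes, and each of them has the property `G` and the prescribed Legendre
symbols `(p / q) = f q` for the odd primes `q ≤ y` outside `S` -/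
def SymStr (m C : ℕ) (y : ℝ) (S : Finset ℕ) (f : ℕ → ℤ) (G : ℕ → Prop) (n : ℕ) : Prop :=
  m ≤ ((Icc n (n + C)).filter Nat.Prime).card ∧ ∀ p ∈ Icc n (n + C), p.Prime → G p ∧
    ∀ q : ℕ, q.Prime → q ≠ 2 → (q : ℝ) ≤ y → q ∉ S → jacobiSym p q = f q

theorem sym_strings (m : ℕ) (η : ℝ) (hη : 0 < η) : ∃ c : ℝ, 0 < c ∧ ∀ Z : ℕ, ∃ C : ℕ, ∀ᶠ X : ℝ in atTop,
    ∃ S : Finset ℕ, (∀ q ∈ S, q.Prime ∧ Z < q) ∧ (S.card : ℝ) ≤ (Real.log X) ^ (49 / 50 : ℝ) ∧
    ∀ f : ℕ → ℤ, (∀ q, f q = 1 ∨ f q = -1) → ∀ G : ℕ → Prop,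
      (((Icc 1 ⌊4 * X⌋₊).filter fun p : ℕ => p.Prime ∧ X < p ∧ ¬ G p).card : ℝ) ≤ X ^ (1 - η) →
      X ^ (1 - η) ≤ (((Icc 1 ⌊3 * X⌋₊).filter fun n : ℕ => X < n ∧
        SymStr m C (c * Real.log X) S f G n).card : ℝ) := by
  obtain ⟨c, hc, hmain⟩ := strings (max 1 m) 2 1 (le_max_left _ _) Nat.prime_two η hη
  refine ⟨c, hc, fun Z => ?_⟩
  obtain ⟨C, hC⟩ := hmain Z
  refine ⟨C, ?_⟩
  filter_upwards [hC, eventually_ge_atTop (8 : ℝ), eventually_ge_atTop ((C : ℝ))] with X hstr hX8 hXC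
  obtain ⟨S, hS1, hS2, hS3⟩ := hstr
  refine ⟨S, hS1, hS2, fun f hf G hG => ?_⟩
  have hX0 : 0 < X := by linarith
  obtain ⟨b, hb⟩ := exists_sym f hf
  obtain ⟨T, hTc, hT⟩ := hS3 b (fun q hq => (hb q hq).1) _ hG
  refine hTc.trans ?_
  have hsub : T ⊆ (Icc 1 ⌊3 * X⌋₊).filter fun n : ℕ => X < n ∧ SymStr m C (c * Real.log X) S f G n := by
    intro n hn
    obtain ⟨hXn, hn3, hm, hstr⟩ := hT n hn
    rw [mem_filter, mem_Icc]
    refine ⟨⟨?_, Nat.le_floor hn3⟩, hXn, (le_max_right 1 m).trans hm, fun p hp hpp => ?_⟩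
    · have : (0 : ℝ) < n := by linarith
      exact_mod_cast this
    · obtain ⟨hpb, hres⟩ := hstr p hp hpp
      rw [mem_Icc] at hp
      have hXp : X < p := lt_of_lt_of_le hXn (by exact_mod_cast hp.1)
      have hp4 : p ≤ ⌊4 * X⌋₊ := by
        apply Nat.le_floor
        have h5 : (p : ℝ) ≤ n + C := by exact_mod_cast hp.2
        linarith
      refine ⟨?_, fun q hq hq2 hqy hqS => ?_⟩
      · by_contra hcon
        apply hpb
        rw [mem_filter, mem_Icc]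
        exact ⟨⟨hpp.one_lt.le, hp4⟩, hpp, hXp, hcon⟩
      · obtain ⟨-, z, hz1, hz2⟩ := hres q hq hqy hqS
        rw [sym_eq b p q z hq hz1 hz2]
        exact (hb q hq).2 hq2
  exact_mod_cast card_le_card hsub

/-- primes dividing some element of a set of integers: few, if the set is small -/
theorem card_divisors_le (X : ℝ) (hX : 2 ≤ X) (κ : ℝ) (P : Finset ℕ) (T : Finset ℤ)
    (hP : ∀ p ∈ P, p.Prime ∧ X < p ∧ ∃ d ∈ T, (p : ℤ) ∣ d)
    (hT : ∀ d ∈ T, d ≠ 0 ∧ |(d : ℝ)| ≤ X ^ κ) : (P.card : ℝ) ≤ κ * T.card := by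
  choose! D hDT hD using fun p hp => (hP p hp).2.2
  have hX0 : 0 < X := by linarith
  have h1 : P.card ≤ ∑ d ∈ T, (P.filter fun p => D p = d).card := by
    rw [← card_eq_sum_card_fiberwise (f := D) (s := P) (t := T) (fun p hp => hDT p hp)]
  have h2 : ∀ d ∈ T, ((P.filter fun p => D p = d).card : ℝ) ≤ κ := by
    intro d hd
    obtain ⟨hd0, hdX⟩ := hT d hd
    obtain ⟨A, hA⟩ : ∃ A, A = P.filter fun p => D p = d := ⟨_, rfl⟩
    rw [← hA]
    have hAp : ∀ p ∈ A, p.Prime ∧ X < p ∧ p ∣ d.natAbs := by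
      intro p hp
      rw [hA, mem_filter] at hp
      refine ⟨(hP p hp.1).1, (hP p hp.1).2.1, ?_⟩
      have := hD p hp.1
      rw [hp.2] at this
      exact Int.natCast_dvd.1 this
    have h3 : ∏ p ∈ A, p ∣ d.natAbs := prod_primes_dvd _ (fun p hp => (hAp p hp).1.prime)
      (fun p hp => (hAp p hp).2.2)
    have h4 : ∏ p ∈ A, p ≤ d.natAbs := Nat.le_of_dvd (Int.natAbs_pos.2 hd0) h3
    have h5 : X ^ A.card ≤ ((∏ p ∈ A, p : ℕ) : ℝ) := by
      push_cast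
      rw [← prod_const]
      exact prod_le_prod (fun p _ => hX0.le) fun p hp => (hAp p hp).2.1.le
    have h6 : X ^ (A.card : ℝ) ≤ X ^ κ := by
      rw [Real.rpow_natCast]
      refine h5.trans (le_trans ?_ hdX)
      have : ((∏ p ∈ A, p : ℕ) : ℝ) ≤ (d.natAbs : ℝ) := by exact_mod_cast h4
      rwa [Nat.cast_natAbs, Int.cast_abs] at this
    exact (Real.rpow_le_rpow_left_iff (by linarith)).1 h6
  calc (P.card : ℝ) ≤ ((∑ d ∈ T, (P.filter fun p => D p = d).card : ℕ) : ℝ) := by exact_mod_cast h1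
    _ = ∑ d ∈ T, ((P.filter fun p => D p = d).card : ℝ) := by push_cast; rfl
    _ ≤ ∑ _d ∈ T, κ := sum_le_sum h2
    _ = κ * T.card := by rw [sum_const, nsmul_eq_mul]; ring

end Pool.Agent.Q84.MB
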