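import Pool.Agent.Q84.MB.F3
import Pool.Agent.Q122.SP.All

set_option autoImplicit false

/-!
The primes which divide an exceptional fundamental discriminant.
-/

open Finset Filter Topology

namespace Pool.Agent.Q84.MB

open Pool.Agent.Y549.SP (NegFund)

theorem div_bad (R : ℤ → Prop) (K e s κ : ℝ) (hs : 0 < s) (hκ : e * s < 1 - κ) (he : 0 ≤ e)
    (hcnt : ∀ X : ℕ, 1 ≤ X → ({d : ℤ | NegFund d ∧ |d| ≤ X ∧ R d}.ncard : ℝ) ≤ K * (X : ℝ) ^ e) :
    ∀ᶠ X : ℝ in atTop, ∀ P : Finset ℕ, (∀ p ∈ P, p.Prime ∧ X < p ∧ (p : ℝ) ≤ 4 * X ∧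
      ∃ d : ℤ, NegFund d ∧ (p : ℤ) ∣ d ∧ |(d : ℝ)| ≤ (p : ℝ) ^ s ∧ R d) →
      (P.card : ℝ) ≤ X ^ (1 - κ) / 2 := by
  obtain ⟨ε, hε⟩ : ∃ ε, ε = 1 - κ - e * s := ⟨_, rfl⟩
  have hε0 : 0 < ε := by rw [hε]; linarith
  filter_upwards [(tendsto_rpow_atTop hε0).eventually_ge_atTop (4 * s * |K| * (4 : ℝ) ^ (e * s)),
    eventually_ge_atTop (8 : ℝ)] with X hpow hX8
  intro P hP
  have hX0 : 0 < X := by linarith
  obtain ⟨N, hN⟩ : ∃ N, N = ⌊(4 * X) ^ s⌋₊ := ⟨_, rfl⟩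
  have h4s : 1 ≤ (4 * X) ^ s := Real.one_le_rpow (by linarith) hs.le
  have hN1 : 1 ≤ N := by rw [hN]; exact Nat.le_floor (by push_cast; exact h4s)
  have hNle : (N : ℝ) ≤ (4 * X) ^ s := by rw [hN]; exact Nat.floor_le (by positivity)
  obtain ⟨V, hV⟩ : ∃ V, V = {d : ℤ | NegFund d ∧ |d| ≤ N ∧ R d} := ⟨_, rfl⟩
  have hfin : V.Finite := by
    apply (Set.finite_Icc (-(N : ℤ)) N).subset
    intro d hd
    rw [hV] at hd
    exact abs_le.1 hd.2.1
  have hVc : (hfin.toFinset.card : ℝ) ≤ K * (N : ℝ) ^ e := by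
    have h1 := hcnt N hN1
    rw [← hV, Set.ncard_eq_toFinset_card V hfin] at h1
    exact h1
  have h1 := card_divisors_le X (by linarith) (2 * s) P hfin.toFinset (fun p hp => by
    obtain ⟨hpp, hXp, hp4, d, hd1, hd2, hd3, hd4⟩ := hP p hp
    refine ⟨hpp, hXp, d, ?_, hd2⟩
    rw [Set.Finite.mem_toFinset, hV]
    refine ⟨hd1, ?_, hd4⟩
    have h2 : |(d : ℝ)| ≤ (4 * X) ^ s :=
      hd3.trans (Real.rpow_le_rpow (Nat.cast_nonneg _) hp4 hs.le)
    have h3 : d.natAbs ≤ N := by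
      rw [hN]
      apply Nat.le_floor
      rw [Nat.cast_natAbs, Int.cast_abs]
      exact h2
    rw [Int.abs_eq_natAbs]
    exact_mod_cast h3) (fun d hd => by
    rw [Set.Finite.mem_toFinset, hV] at hd
    refine ⟨?_, ?_⟩
    · have := hd.1.1
      omega
    · have h2 : |(d : ℝ)| ≤ N := by
        have := hd.2.1
        rw [← Int.cast_abs]
        exact_mod_cast this
      calc |(d : ℝ)| ≤ (4 * X) ^ s := h2.trans hNle
        _ ≤ (X ^ (2 : ℝ)) ^ s := by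
            apply Real.rpow_le_rpow (by positivity) _ hs.le
            rw [Real.rpow_two]
            nlinarith
        _ = X ^ (2 * s) := by rw [← Real.rpow_mul hX0.le])
  have h2 : K * (N : ℝ) ^ e ≤ |K| * ((4 : ℝ) ^ (e * s) * X ^ (e * s)) := by
    calc K * (N : ℝ) ^ e ≤ |K| * (N : ℝ) ^ e := mul_le_mul_of_nonneg_right (le_abs_self K) (by positivity)
      _ ≤ |K| * ((4 * X) ^ s) ^ e :=
          mul_le_mul_of_nonneg_left (Real.rpow_le_rpow (Nat.cast_nonneg _) hNle he) (abs_nonneg K)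
      _ = |K| * ((4 : ℝ) ^ (e * s) * X ^ (e * s)) := by
          rw [← Real.rpow_mul (by positivity), mul_comm s e, Real.mul_rpow (by norm_num) hX0.le]
  have e1 : X ^ (1 - κ) = X ^ ε * X ^ (e * s) := by
    rw [← Real.rpow_add hX0]
    congr 1
    rw [hε]
    ring
  calc (P.card : ℝ) ≤ 2 * s * hfin.toFinset.card := h1
    _ ≤ 2 * s * (|K| * ((4 : ℝ) ^ (e * s) * X ^ (e * s))) := by
        apply mul_le_mul_of_nonneg_left (hVc.trans h2) (by positivity)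
    _ = (4 * s * |K| * (4 : ℝ) ^ (e * s)) * X ^ (e * s) / 2 := by ring
    _ ≤ X ^ ε * X ^ (e * s) / 2 := by gcongr
    _ = X ^ (1 - κ) / 2 := by rw [e1]

end Pool.Agent.Q84.MB
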