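import Pool.Agent.Q84.MB.F3

set_option autoImplicit false

/-!
The primes `p` such that for some curve `(A, B)` with small coefficients and some small `k` the twist by `k p` is
exceptional.
-/

open Finset Filter Topology

namespace Pool.Agent.Q84.MB

/-- the scale -/
noncomputable def NN (δ X : ℝ) : ℕ := ⌊(4 * X) ^ (1 + δ)⌋₊

theorem NN_tendsto (δ : ℝ) (hδ : 0 ≤ δ) : Tendsto (NN δ) atTop atTop := by
  unfold NN
  apply tendsto_nat_floor_atTop.comp
  exact (tendsto_rpow_atTop (by linarith)).comp (tendsto_id.const_mul_atTop (by norm_num))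

theorem twist_bad (Bad : ℤ → ℤ → ℤ → ℕ → Prop) (c : ℝ) (hc : 0 < c) (hc1 : c ≤ 1) (N₀ : ℕ)
    (h : ∀ N : ℕ, N₀ ≤ N → ∀ A B : ℤ, ({D : ℤ | D ≠ 0 ∧ |D| ≤ N ∧ Bad A B D N}.ncard : ℝ) ≤ (N : ℝ) ^ (1 - c)) :
    ∀ᶠ X : ℝ in atTop, ∀ P : Finset ℕ, (∀ p ∈ P, p.Prime ∧ X < p ∧ (p : ℝ) ≤ 4 * X ∧
      ∃ A B k : ℤ, |(A : ℝ)| ≤ (p : ℝ) ^ (c / 8) ∧ |(B : ℝ)| ≤ (p : ℝ) ^ (c / 8) ∧ k ≠ 0 ∧
        |(k : ℝ)| ≤ (p : ℝ) ^ (c / 8) ∧ Bad A B (k * p) (NN (c / 8) X)) →
      (P.card : ℝ) ≤ X ^ (1 - c / 2) := by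
  obtain ⟨δ, hδ⟩ : ∃ δ, δ = c / 8 := ⟨_, rfl⟩
  rw [← hδ]
  have hδ0 : 0 < δ := by rw [hδ]; positivity
  have hδ1 : δ ≤ 1 / 8 := by rw [hδ]; linarith
  filter_upwards [(tendsto_rpow_atTop (by positivity : 0 < δ)).eventually_ge_atTop (18 * 4 ^ (1 : ℝ)),
    eventually_ge_atTop (16 : ℝ), (NN_tendsto δ hδ0.le).eventually_ge_atTop N₀] with X hpow hX16 hNN
  intro P hP
  have hX0 : 0 < X := by linarith
  have hX1 : 1 ≤ X := by linarith
  obtain ⟨N, hN⟩ : ∃ N, N = NN δ X := ⟨_, rfl⟩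
  rw [← hN] at hP hNN
  have hNle : (N : ℝ) ≤ (4 * X) ^ (1 + δ) := by rw [hN]; exact Nat.floor_le (by positivity)
  obtain ⟨M, hM⟩ : ∃ M, M = ⌊(4 * X) ^ δ⌋₊ := ⟨_, rfl⟩
  have hMle : (M : ℝ) ≤ (4 * X) ^ δ := by rw [hM]; exact Nat.floor_le (by positivity)
  have h4δ : 1 ≤ (4 * X) ^ δ := Real.one_le_rpow (by linarith) hδ0.le
  obtain ⟨E, hE⟩ : ∃ E : ℤ × ℤ → Set ℤ, E = fun AB => {D : ℤ | D ≠ 0 ∧ |D| ≤ N ∧ Bad AB.1 AB.2 D N} := ⟨_, rfl⟩
  have hfin : ∀ AB, (E AB).Finite := by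
    intro AB
    apply (Set.finite_Icc (-(N : ℤ)) N).subset
    intro D hD
    rw [hE] at hD
    exact abs_le.1 hD.2.1
  have hEc : ∀ AB, ((hfin AB).toFinset.card : ℝ) ≤ (N : ℝ) ^ (1 - c) := by
    intro AB
    have h1 : ((E AB).ncard : ℝ) ≤ (N : ℝ) ^ (1 - c) := by
      rw [hE]
      exact h N hNN AB.1 AB.2
    rwa [Set.ncard_eq_toFinset_card _ (hfin AB)] at h1
  obtain ⟨Box, hBox⟩ : ∃ Box : Finset (ℤ × ℤ), Box = Icc (-(M : ℤ)) M ×ˢ Icc (-(M : ℤ)) M := ⟨_, rfl⟩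
  have hBc : (Box.card : ℝ) ≤ 9 * (4 * X) ^ (2 * δ) := by
    have e : Box.card = (2 * M + 1) * (2 * M + 1) := by
      rw [hBox, card_product, Int.card_Icc]
      have : ((M : ℤ) + 1 - -(M : ℤ)).toNat = 2 * M + 1 := by omega
      rw [this]
    rw [e]
    push_cast
    have h1 : (2 : ℝ) * M + 1 ≤ 3 * (4 * X) ^ δ := by linarith
    calc ((2 : ℝ) * M + 1) * (2 * M + 1) ≤ (3 * (4 * X) ^ δ) * (3 * (4 * X) ^ δ) :=
          mul_le_mul h1 h1 (by positivity) (by positivity)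
      _ = 9 * ((4 * X) ^ δ * (4 * X) ^ δ) := by ring
      _ = 9 * (4 * X) ^ (2 * δ) := by
          rw [← Real.rpow_add (by positivity)]
          congr 2
          ring
  have h1 := card_divisors_le X (by linarith) 2 P (Box.biUnion fun AB => (hfin AB).toFinset) (fun p hp => by
    obtain ⟨hpp, hXp, hp4, A, B, k, hA, hB, hk0, hk, hbad⟩ := hP p hp
    refine ⟨hpp, hXp, k * p, ?_, Dvd.intro_left k rfl⟩
    have hp0 : (0 : ℝ) ≤ p := Nat.cast_nonneg _
    have hpδ : (p : ℝ) ^ δ ≤ (4 * X) ^ δ := Real.rpow_le_rpow hp0 hp4 hδ0.le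
    have key : ∀ a : ℤ, |(a : ℝ)| ≤ (p : ℝ) ^ δ → a ∈ Icc (-(M : ℤ)) M := by
      intro a ha
      have h2 : a.natAbs ≤ M := by
        rw [hM]
        apply Nat.le_floor
        rw [Nat.cast_natAbs, Int.cast_abs]
        exact ha.trans hpδ
      rw [mem_Icc]
      omega
    rw [mem_biUnion]
    refine ⟨(A, B), ?_, ?_⟩
    · rw [hBox, mem_product]
      exact ⟨key A hA, key B hB⟩
    · rw [Set.Finite.mem_toFinset, hE]
      refine ⟨mul_ne_zero hk0 (by exact_mod_cast hpp.pos.ne'), ?_, hbad⟩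
      have h2 : (k * (p : ℤ)).natAbs ≤ N := by
        rw [hN, NN]
        apply Nat.le_floor
        rw [Nat.cast_natAbs, Int.cast_abs]
        push_cast
        rw [abs_mul, abs_of_nonneg hp0]
        calc |(k : ℝ)| * p ≤ (4 * X) ^ δ * (4 * X) := mul_le_mul (hk.trans hpδ) hp4 hp0 (by positivity)
          _ = (4 * X) ^ (1 + δ) := by
              rw [Real.rpow_add (by positivity), Real.rpow_one]
              ring
      rw [Int.abs_eq_natAbs]
      exact_mod_cast h2) (fun D hD => by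
    rw [mem_biUnion] at hD
    obtain ⟨AB, -, hD⟩ := hD
    rw [Set.Finite.mem_toFinset, hE] at hD
    refine ⟨hD.1, ?_⟩
    have h2 : |(D : ℝ)| ≤ N := by
      rw [← Int.cast_abs]
      exact_mod_cast hD.2.1
    calc |(D : ℝ)| ≤ (4 * X) ^ (1 + δ) := h2.trans hNle
      _ ≤ (4 * X) ^ (4 / 3 : ℝ) := Real.rpow_le_rpow_of_exponent_le (by linarith) (by linarith)
      _ ≤ (X ^ (3 / 2 : ℝ)) ^ (4 / 3 : ℝ) := by
          apply Real.rpow_le_rpow (by positivity) _ (by norm_num)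
          have e : X ^ (3 / 2 : ℝ) = X ^ (1 / 2 : ℝ) * X := by
            rw [← Real.rpow_add_one hX0.ne']
            norm_num
          rw [e]
          apply mul_le_mul_of_nonneg_right _ hX0.le
          rw [← Real.sqrt_eq_rpow]
          apply Real.le_sqrt_of_sq_le
          linarith
      _ = X ^ (2 : ℝ) := by rw [← Real.rpow_mul hX0.le]; norm_num)
  have h2 : ((Box.biUnion fun AB => (hfin AB).toFinset).card : ℝ) ≤ 9 * (4 * X) ^ (2 * δ) * (N : ℝ) ^ (1 - c) := by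
    calc ((Box.biUnion fun AB => (hfin AB).toFinset).card : ℝ)
        ≤ ((∑ AB ∈ Box, (hfin AB).toFinset.card : ℕ) : ℝ) := by exact_mod_cast card_biUnion_le
      _ = ∑ AB ∈ Box, ((hfin AB).toFinset.card : ℝ) := by push_cast; rfl
      _ ≤ ∑ _AB ∈ Box, (N : ℝ) ^ (1 - c) := sum_le_sum fun AB _ => hEc AB
      _ = Box.card * (N : ℝ) ^ (1 - c) := by rw [sum_const, nsmul_eq_mul]
      _ ≤ 9 * (4 * X) ^ (2 * δ) * (N : ℝ) ^ (1 - c) := mul_le_mul_of_nonneg_right hBc (by positivity)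
  have h3 : (4 * X) ^ (2 * δ) * (N : ℝ) ^ (1 - c) ≤ 4 ^ (1 : ℝ) * X ^ (1 - 5 * δ) := by
    calc (4 * X) ^ (2 * δ) * (N : ℝ) ^ (1 - c) ≤ (4 * X) ^ (2 * δ) * ((4 * X) ^ (1 + δ)) ^ (1 - c) := by
          apply mul_le_mul_of_nonneg_left _ (by positivity)
          exact Real.rpow_le_rpow (Nat.cast_nonneg _) hNle (by linarith)
      _ = (4 * X) ^ (2 * δ + (1 + δ) * (1 - c)) := by
          rw [← Real.rpow_mul (by positivity), ← Real.rpow_add (by positivity)]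
      _ ≤ (4 * X) ^ (1 - 5 * δ) := by
          apply Real.rpow_le_rpow_of_exponent_le (by linarith)
          have e : c = 8 * δ := by rw [hδ]; ring
          rw [e]
          nlinarith
      _ = 4 ^ (1 - 5 * δ) * X ^ (1 - 5 * δ) := Real.mul_rpow (by norm_num) hX0.le
      _ ≤ 4 ^ (1 : ℝ) * X ^ (1 - 5 * δ) := by
          apply mul_le_mul_of_nonneg_right _ (by positivity)
          exact Real.rpow_le_rpow_of_exponent_le (by norm_num) (by linarith)
  calc (P.card : ℝ) ≤ 2 * ((Box.biUnion fun AB => (hfin AB).toFinset).card : ℝ) := h1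
    _ ≤ 2 * (9 * (4 * X) ^ (2 * δ) * (N : ℝ) ^ (1 - c)) := by linarith
    _ = 18 * ((4 * X) ^ (2 * δ) * (N : ℝ) ^ (1 - c)) := by ring
    _ ≤ 18 * (4 ^ (1 : ℝ) * X ^ (1 - 5 * δ)) := by linarith
    _ = (18 * 4 ^ (1 : ℝ)) * X ^ (1 - 5 * δ) := by ring
    _ ≤ X ^ δ * X ^ (1 - 5 * δ) := mul_le_mul_of_nonneg_right hpow (by positivity)
    _ = X ^ (1 - 4 * δ) := by rw [← Real.rpow_add hX0]; congr 1; ring
    _ = X ^ (1 - c / 2) := by rw [hδ]; congr 1; ring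

/-- the scale compared with the primes: logarithms and powers -/
theorem NN_range (C c : ℝ) (hC : 0 < C) (hc : 0 < c) (hc1 : c ≤ 1) : ∀ᶠ X : ℝ in atTop, ∀ p : ℕ, X < p →
    (p : ℝ) ≤ 4 * X → (Real.log (NN (c / 8) X)) ^ C ≤ (Real.log p) ^ (C + 1) ∧
      (p : ℝ) ^ (c / 8) ≤ (NN (c / 8) X : ℝ) ^ c := by
  have hlog : Tendsto Real.log atTop atTop := Real.tendsto_log_atTop
  filter_upwards [hlog.eventually_ge_atTop ((4 : ℝ) ^ C), hlog.eventually_ge_atTop 2, eventually_ge_atTop (16 : ℝ)]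
    with X h1 h2 h3
  intro p hp hp4
  have hX0 : 0 < X := by linarith
  have hXp : Real.log X ≤ Real.log p := Real.log_le_log hX0 hp.le
  have hNle : (NN (c / 8) X : ℝ) ≤ (4 * X) ^ (1 + c / 8) := by rw [NN]; exact Nat.floor_le (by positivity)
  have h4s : (4 * X) ^ (1 : ℝ) ≤ (4 * X) ^ (1 + c / 8) :=
    Real.rpow_le_rpow_of_exponent_le (by linarith) (by linarith)
  rw [Real.rpow_one] at h4s
  have hNge : X ≤ (NN (c / 8) X : ℝ) := by
    have h5 := Nat.lt_floor_add_one ((4 * X) ^ (1 + c / 8))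
    rw [NN]
    linarith
  have hN0 : (0 : ℝ) < (NN (c / 8) X : ℝ) := by linarith
  constructor
  · have h5 : Real.log (NN (c / 8) X : ℝ) ≤ 4 * Real.log p := by
      have h6 : Real.log (NN (c / 8) X : ℝ) ≤ (1 + c / 8) * Real.log (4 * X) := by
        rw [← Real.log_rpow (by linarith)]
        exact Real.log_le_log hN0 hNle
      have h7 : Real.log (4 * X) ≤ 2 * Real.log X := by
        rw [Real.log_mul (by norm_num) hX0.ne']
        have : Real.log 4 ≤ Real.log X := Real.log_le_log (by norm_num) (by linarith)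
        linarith
      have h8 : 0 ≤ Real.log (4 * X) := Real.log_nonneg (by linarith)
      nlinarith
    have h9 : 0 ≤ Real.log (NN (c / 8) X : ℝ) := Real.log_nonneg (by linarith)
    have hlp : 0 < Real.log p := by linarith
    calc (Real.log (NN (c / 8) X : ℝ)) ^ C ≤ (4 * Real.log p) ^ C := Real.rpow_le_rpow h9 h5 hC.le
      _ = 4 ^ C * (Real.log p) ^ C := Real.mul_rpow (by norm_num) hlp.le
      _ ≤ Real.log p * (Real.log p) ^ C := by
          apply mul_le_mul_of_nonneg_right _ (by positivity)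
          linarith
      _ = (Real.log p) ^ (C + 1) := by
          rw [Real.rpow_add_one hlp.ne']
          ring
  · have hp0 : (0 : ℝ) < p := by linarith
    calc (p : ℝ) ^ (c / 8) ≤ (4 * X) ^ (c / 8) := Real.rpow_le_rpow hp0.le hp4 (by positivity)
      _ ≤ (X ^ (2 : ℝ)) ^ (c / 8) := by
          apply Real.rpow_le_rpow (by positivity) _ (by positivity)
          rw [Real.rpow_two]
          nlinarith
      _ = X ^ (2 * (c / 8)) := by rw [← Real.rpow_mul hX0.le]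
      _ ≤ X ^ c := Real.rpow_le_rpow_of_exponent_le (by linarith) (by linarith)
      _ ≤ (NN (c / 8) X : ℝ) ^ c := Real.rpow_le_rpow hX0.le hNge hc.le

end Pool.Agent.Q84.MB
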