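import Pool.Agent.Q84.MB.F5

set_option autoImplicit false

/-!
The primes `p` such that some multiple of `p` at most `p ^ a` is exceptional.
-/

open Finset Filter Topology

namespace Pool.Agent.Q84.MB

theorem mult_bad (a θ κ : ℝ) (ha : 0 < a) (hθ : 0 ≤ θ) (hκ : a * θ < κ) (K : ℝ) (x₀ : ℕ) (E : ℕ → Set ℤ)
    (h : ∀ x : ℕ, x₀ ≤ x → ({N : ℤ | N ≠ 0 ∧ |N| ≤ x ∧ N ∈ E x}.ncard : ℝ) ≤ K * (x : ℝ) ^ θ) :
    ∀ᶠ X : ℝ in atTop, ∀ P : Finset ℕ, (∀ p ∈ P, p.Prime ∧ X < p ∧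
      ∃ N : ℤ, N ≠ 0 ∧ (p : ℤ) ∣ N ∧ |(N : ℝ)| ≤ (4 * X) ^ a ∧ N ∈ E ⌊(4 * X) ^ a⌋₊) →
      (P.card : ℝ) ≤ X ^ κ := by
  have ht : Tendsto (fun X : ℝ => ⌊(4 * X) ^ a⌋₊) atTop atTop :=
    tendsto_nat_floor_atTop.comp ((tendsto_rpow_atTop ha).comp (tendsto_id.const_mul_atTop (by norm_num)))
  filter_upwards [(tendsto_rpow_atTop (by linarith : 0 < κ - a * θ)).eventually_ge_atTop
    (2 * a * (|K| * 4 ^ (a * θ))), eventually_ge_atTop (4 : ℝ), ht.eventually_ge_atTop x₀] with X hpow hX4 hx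
  intro P hP
  have hX0 : 0 < X := by linarith
  obtain ⟨x, hxd⟩ : ∃ x, x = ⌊(4 * X) ^ a⌋₊ := ⟨_, rfl⟩
  rw [← hxd] at hP hx
  have hxle : (x : ℝ) ≤ (4 * X) ^ a := by rw [hxd]; exact Nat.floor_le (by positivity)
  have hfin : {N : ℤ | N ≠ 0 ∧ |N| ≤ x ∧ N ∈ E x}.Finite := by
    apply (Set.finite_Icc (-(x : ℤ)) x).subset
    intro D hD
    exact abs_le.1 hD.2.1
  have h1 := card_divisors_le X (by linarith) (2 * a) P hfin.toFinset (fun p hp => by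
    obtain ⟨hpp, hXp, N, hN0, hpN, hNa, hNE⟩ := hP p hp
    refine ⟨hpp, hXp, N, ?_, hpN⟩
    rw [Set.Finite.mem_toFinset]
    refine ⟨hN0, ?_, hNE⟩
    have h2 : N.natAbs ≤ x := by
      rw [hxd]
      apply Nat.le_floor
      rw [Nat.cast_natAbs, Int.cast_abs]
      exact hNa
    rw [Int.abs_eq_natAbs]
    exact_mod_cast h2) (fun D hD => by
    rw [Set.Finite.mem_toFinset] at hD
    refine ⟨hD.1, ?_⟩
    have h2 : |(D : ℝ)| ≤ x := by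
      rw [← Int.cast_abs]
      exact_mod_cast hD.2.1
    calc |(D : ℝ)| ≤ (4 * X) ^ a := h2.trans hxle
      _ ≤ (X ^ (2 : ℝ)) ^ a := by
          apply Real.rpow_le_rpow (by positivity) _ ha.le
          rw [Real.rpow_two]
          nlinarith
      _ = X ^ (2 * a) := by rw [← Real.rpow_mul hX0.le])
  have h2 : (hfin.toFinset.card : ℝ) ≤ |K| * (4 ^ (a * θ) * X ^ (a * θ)) := by
    have h3 := h x hx
    rw [Set.ncard_eq_toFinset_card _ hfin] at h3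
    refine h3.trans ?_
    calc K * (x : ℝ) ^ θ ≤ |K| * (x : ℝ) ^ θ := mul_le_mul_of_nonneg_right (le_abs_self K) (by positivity)
      _ ≤ |K| * ((4 * X) ^ a) ^ θ := by
          apply mul_le_mul_of_nonneg_left _ (abs_nonneg K)
          exact Real.rpow_le_rpow (Nat.cast_nonneg _) hxle hθ
      _ = |K| * (4 ^ (a * θ) * X ^ (a * θ)) := by
          rw [← Real.rpow_mul (by positivity), Real.mul_rpow (by norm_num) hX0.le]
  calc (P.card : ℝ) ≤ 2 * a * (hfin.toFinset.card : ℝ) := h1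
    _ ≤ 2 * a * (|K| * (4 ^ (a * θ) * X ^ (a * θ))) := mul_le_mul_of_nonneg_left h2 (by positivity)
    _ = (2 * a * (|K| * 4 ^ (a * θ))) * X ^ (a * θ) := by ring
    _ ≤ X ^ (κ - a * θ) * X ^ (a * θ) := mul_le_mul_of_nonneg_right hpow (by positivity)
    _ = X ^ κ := by rw [← Real.rpow_add hX0]; congr 1; ring

/-- for sets of natural numbers -/
theorem mult_bad_nat (a θ κ : ℝ) (ha : 0 < a) (hθ : 0 ≤ θ) (hκ : a * θ < κ) (K : ℝ) (x₀ : ℕ) (E : ℕ → Set ℕ)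
    (h : ∀ x : ℕ, x₀ ≤ x → ({N : ℕ | N ≤ x ∧ N ∈ E x}.ncard : ℝ) ≤ K * (x : ℝ) ^ θ) :
    ∀ᶠ X : ℝ in atTop, ∀ P : Finset ℕ, (∀ p ∈ P, p.Prime ∧ X < p ∧
      ∃ N : ℕ, 0 < N ∧ p ∣ N ∧ (N : ℝ) ≤ (4 * X) ^ a ∧ N ∈ E ⌊(4 * X) ^ a⌋₊) →
      (P.card : ℝ) ≤ X ^ κ := by
  have h1 := mult_bad a θ κ ha hθ hκ K x₀ (fun x => (fun N : ℕ => (N : ℤ)) '' (E x)) (fun x hx => by
    refine le_trans ?_ (h x hx)
    have hfin : {N : ℕ | N ≤ x ∧ N ∈ E x}.Finite := (Set.finite_Iic x).subset fun N hN => hN.1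
    have hsub : {N : ℤ | N ≠ 0 ∧ |N| ≤ x ∧ N ∈ (fun N : ℕ => (N : ℤ)) '' (E x)} ⊆
        (fun N : ℕ => (N : ℤ)) '' {N : ℕ | N ≤ x ∧ N ∈ E x} := by
      rintro N ⟨-, h2, n, hn, rfl⟩
      refine ⟨n, ⟨?_, hn⟩, rfl⟩
      rw [Nat.abs_cast] at h2
      exact_mod_cast h2
    have h3 := (Set.ncard_le_ncard hsub (hfin.image _)).trans (Set.ncard_image_le hfin)
    exact_mod_cast h3)
  filter_upwards [h1] with X hX
  intro P hP
  refine hX P fun p hp => ?_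
  obtain ⟨hpp, hXp, N, hN0, hpN, hNa, hNE⟩ := hP p hp
  refine ⟨hpp, hXp, (N : ℤ), by exact_mod_cast hN0.ne', by exact_mod_cast hpN, ?_, N, hNE, rfl⟩
  rw [Int.cast_natCast, Nat.abs_cast]
  exact hNa

end Pool.Agent.Q84.MB
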